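import Pool.Agent.AEG.Defs

set_option autoImplicit false

/-!
[AEG-A1] star inequality.
Let `f i = ⟪u, v i⟫ ≥ 0`, `F = ∑ f i ^ 2`, `x = ∑ f i • v i`.  `⟪u, x⟫ = F`, and
`‖x‖^2 = ∑_i ∑_j f i f j ⟪v i, v j⟫ = ∑ f i ^ 2 + ∑_{i ≠ j} f i f j ⟪v i, v j⟫ ≤ F` (the second sum is `≤ 0`).
Cauchy-Schwarz: `F^2 = ⟪u, x⟫^2 ≤ ‖u‖^2 ‖x‖^2 ≤ F`, hence `F ≤ 1` (`F ≥ 0`).
-/

namespace AEG

open Finset
open scoped InnerProductSpace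

variable {V : Type*} [NormedAddCommGroup V] [InnerProductSpace ℝ V]

theorem star {ι : Type*} (J : Finset ι) (v : ι → V) (hv : ∀ i ∈ J, ‖v i‖ = 1)
    (hn : ∀ i ∈ J, ∀ j ∈ J, i ≠ j → ⟪v i, v j⟫_ℝ ≤ 0) (u : V) (hu : ‖u‖ ≤ 1)
    (hf : ∀ i ∈ J, 0 ≤ ⟪u, v i⟫_ℝ) : ∑ i ∈ J, ⟪u, v i⟫_ℝ ^ 2 ≤ 1 := by
  classical
  set F : ℝ := ∑ i ∈ J, ⟪u, v i⟫_ℝ ^ 2 with hF
  set x : V := ∑ i ∈ J, ⟪u, v i⟫_ℝ • v i with hx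
  have hux : ⟪u, x⟫_ℝ = F := by
    rw [hx, hF, inner_sum]
    refine Finset.sum_congr rfl fun i _ => ?_
    rw [inner_smul_right]; ring
  have hF0 : 0 ≤ F := Finset.sum_nonneg fun i _ => sq_nonneg _
  have hxx : ‖x‖ ^ 2 ≤ F := by
    rw [← real_inner_self_eq_norm_sq, hx, sum_inner, hF]
    refine Finset.sum_le_sum fun i hi => ?_
    rw [real_inner_smul_left, inner_sum]
    have h1 : ∑ j ∈ J, ⟪v i, ⟪u, v j⟫_ℝ • v j⟫_ℝ ≤ ⟪u, v i⟫_ℝ := by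
      have h2 : ∑ j ∈ J, ⟪v i, ⟪u, v j⟫_ℝ • v j⟫_ℝ ≤ ∑ j ∈ J, (if j = i then ⟪u, v i⟫_ℝ else 0) := by
        refine Finset.sum_le_sum fun j hj => ?_
        rw [real_inner_smul_right]
        split_ifs with hji
        · subst hji
          rw [real_inner_self_eq_norm_sq, hv j hj]; simp
        · exact mul_nonpos_of_nonneg_of_nonpos (hf j hj) (hn i hi j hj (Ne.symm hji))
      refine h2.trans ?_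
      rw [Finset.sum_ite_eq' J i, if_pos hi]
    calc ⟪u, v i⟫_ℝ * ∑ j ∈ J, ⟪v i, ⟪u, v j⟫_ℝ • v j⟫_ℝ ≤ ⟪u, v i⟫_ℝ * ⟪u, v i⟫_ℝ :=
          mul_le_mul_of_nonneg_left h1 (hf i hi)
      _ = ⟪u, v i⟫_ℝ ^ 2 := by ring
  have hcs : F ^ 2 ≤ F := by
    have h1 : |⟪u, x⟫_ℝ| ≤ ‖u‖ * ‖x‖ := abs_real_inner_le_norm u x
    have h2 : F ≤ ‖x‖ := by
      calc F = ⟪u, x⟫_ℝ := hux.symm
        _ ≤ |⟪u, x⟫_ℝ| := le_abs_self _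
        _ ≤ ‖u‖ * ‖x‖ := h1
        _ ≤ 1 * ‖x‖ := mul_le_mul_of_nonneg_right hu (norm_nonneg _)
        _ = ‖x‖ := one_mul _
    calc F ^ 2 ≤ ‖x‖ ^ 2 := pow_le_pow_left₀ hF0 h2 2
      _ ≤ F := hxx
  by_contra hcon
  push Not at hcon
  nlinarith

end AEG
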