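import Pool.Agent.AEG.Defs
import Pool.Agent.AEG.A1

set_option autoImplicit false

/-!
[AEG-A2] Kashin-Konyagin / Alon-Kahale type inequality (uses `star`).
`f i = ⟪u, v i⟫ ≥ 0`, `F = ∑_{i∈J} f i ^ 2`, `k = |J|`, `X i j = ⟪v i, v j⟫`, `x = ∑ f i • v i`.
`F^2 = ⟪u,x⟫^2 ≤ ‖x‖^2 = ∑ f i^2 + ∑_i f i ∑_{j ≠ i} f j X i j ≤ F + ∑_i f i * R i`, where
`R i = ∑_{j ∈ N i} f j X i j`, `N i = {j ∈ J | j ≠ i, 0 < X i j}` (drop the nonpositive terms).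
By `TF` the vectors `v j`, `j ∈ N i`, have pairwise inner products `≤ 0` (for `j ≠ j'` in `N i` apply `TF` to `j, i, j'`),
so `star` with `u` gives `∑_{N i} f j^2 ≤ 1` and `star` with the unit vector `v i` gives `∑_{N i} X i j ^2 ≤ 1`; by Cauchy-Schwarz
`R i ≤ 1`.  Hence `F^2 ≤ F + ∑ f i ≤ F + √(k F)` (Cauchy-Schwarz), i.e. `(F^2 - F) ≤ √(k F)`.
If `F < 2`: `F^3 < 8 ≤ 8 k` when `k ≥ 1`, and `F = 0` when `J = ∅`.  If `F ≥ 2`: `F^2/2 ≤ F^2 - F ≤ √(kF)`, so `F^4 ≤ 4 k F`,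
`F^3 ≤ 4 k`.
-/

namespace AEG

open Finset
open scoped InnerProductSpace

variable {V : Type*} [NormedAddCommGroup V] [InnerProductSpace ℝ V]

theorem kk {ι : Type*} (J : Finset ι) (v : ι → V) (hv : ∀ i ∈ J, ‖v i‖ = 1) (hT : TF J v)
    (u : V) (hu : ‖u‖ ≤ 1) (hf : ∀ i ∈ J, 0 ≤ ⟪u, v i⟫_ℝ) :
    (∑ i ∈ J, ⟪u, v i⟫_ℝ ^ 2) ^ 3 ≤ 8 * (J.card : ℝ) := by
  classical
  set F : ℝ := ∑ i ∈ J, ⟪u, v i⟫_ℝ ^ 2 with hF
  set x : V := ∑ i ∈ J, ⟪u, v i⟫_ℝ • v i with hx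
  have hux : ⟪u, x⟫_ℝ = F := by
    rw [hx, hF, inner_sum]
    refine Finset.sum_congr rfl fun i _ => ?_
    rw [inner_smul_right]; ring
  have hF0 : 0 ≤ F := Finset.sum_nonneg fun i _ => sq_nonneg _
  -- the row bound
  have hR : ∀ i ∈ J, ∑ j ∈ J, ⟪v i, ⟪u, v j⟫_ℝ • v j⟫_ℝ ≤ ⟪u, v i⟫_ℝ + 1 := by
    intro i hi
    set N : Finset ι := J.filter (fun j => j ≠ i ∧ 0 < ⟪v i, v j⟫_ℝ) with hN
    have hNJ : ∀ j ∈ N, j ∈ J ∧ j ≠ i ∧ 0 < ⟪v i, v j⟫_ℝ := by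
      intro j hj; rw [hN, Finset.mem_filter] at hj; exact ⟨hj.1, hj.2.1, hj.2.2⟩
    have hneg : ∀ j ∈ N, ∀ k ∈ N, j ≠ k → ⟪v j, v k⟫_ℝ ≤ 0 := by
      intro j hj k hk hjk
      obtain ⟨hj1, hj2, hj3⟩ := hNJ j hj
      obtain ⟨hk1, hk2, hk3⟩ := hNJ k hk
      rcases hT j hj1 i hi k hk1 hj2 (Ne.symm hk2) hjk with h1 | h1 | h1
      · rw [real_inner_comm] at h1; linarith
      · linarith
      · exact h1
    have s1 : ∑ j ∈ N, ⟪u, v j⟫_ℝ ^ 2 ≤ 1 :=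
      star N v (fun j hj => hv j (hNJ j hj).1) hneg u hu fun j hj => hf j (hNJ j hj).1
    have s2' : ∑ j ∈ N, ⟪v i, v j⟫_ℝ ^ 2 ≤ 1 :=
      star N v (fun j hj => hv j (hNJ j hj).1) hneg (v i) (hv i hi).le
        fun j hj => (hNJ j hj).2.2.le
    have s3 : ∑ j ∈ N, ⟪u, v j⟫_ℝ * ⟪v i, v j⟫_ℝ ≤ 1 := by
      have : ∀ j ∈ N, ⟪u, v j⟫_ℝ * ⟪v i, v j⟫_ℝ ≤ (⟪u, v j⟫_ℝ ^ 2 + ⟪v i, v j⟫_ℝ ^ 2) / 2 := by
        intro j _
        nlinarith [sq_nonneg (⟪u, v j⟫_ℝ - ⟪v i, v j⟫_ℝ)]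
      have h2 := Finset.sum_le_sum this
      rw [← Finset.sum_div, Finset.sum_add_distrib] at h2
      linarith
    have h4 : ∑ j ∈ J, ⟪v i, ⟪u, v j⟫_ℝ • v j⟫_ℝ ≤
        ∑ j ∈ J, ((if j = i then ⟪u, v i⟫_ℝ else 0) +
          (if (j ≠ i ∧ 0 < ⟪v i, v j⟫_ℝ) then ⟪u, v j⟫_ℝ * ⟪v i, v j⟫_ℝ else 0)) := by
      refine Finset.sum_le_sum fun j hj => ?_
      rw [real_inner_smul_right]
      by_cases hji : j = i
      · subst hji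
        rw [real_inner_self_eq_norm_sq, hv j hj]; simp
      · rw [if_neg hji]
        by_cases hp : 0 < ⟪v i, v j⟫_ℝ
        · rw [if_pos ⟨hji, hp⟩]; linarith
        · rw [if_neg (fun h => hp h.2)]
          have := mul_nonneg_of_nonpos_of_nonpos (neg_nonpos.2 (hf j hj)) (not_lt.1 hp)
          nlinarith
    refine h4.trans ?_
    rw [Finset.sum_add_distrib, Finset.sum_ite_eq' J i, if_pos hi, ← Finset.sum_filter]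
    linarith
  have hxx : ‖x‖ ^ 2 ≤ F + ∑ i ∈ J, ⟪u, v i⟫_ℝ := by
    rw [← real_inner_self_eq_norm_sq, hx, sum_inner, hF, ← Finset.sum_add_distrib]
    refine Finset.sum_le_sum fun i hi => ?_
    rw [real_inner_smul_left, inner_sum]
    have := mul_le_mul_of_nonneg_left (hR i hi) (hf i hi)
    nlinarith
  have hFx : F ^ 2 ≤ ‖x‖ ^ 2 := by
    have h1 : |⟪u, x⟫_ℝ| ≤ ‖u‖ * ‖x‖ := abs_real_inner_le_norm u x
    have h2 : F ≤ ‖x‖ := by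
      calc F = ⟪u, x⟫_ℝ := hux.symm
        _ ≤ |⟪u, x⟫_ℝ| := le_abs_self _
        _ ≤ ‖u‖ * ‖x‖ := h1
        _ ≤ 1 * ‖x‖ := mul_le_mul_of_nonneg_right hu (norm_nonneg _)
        _ = ‖x‖ := one_mul _
    exact pow_le_pow_left₀ hF0 h2 2
  set S : ℝ := ∑ i ∈ J, ⟪u, v i⟫_ℝ with hS
  have hS0 : 0 ≤ S := Finset.sum_nonneg hf
  have hSF : S ^ 2 ≤ (J.card : ℝ) * F := by
    have := sq_sum_le_card_mul_sum_sq (s := J) (f := fun i => ⟪u, v i⟫_ℝ)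
    simpa [hS, hF] using this
  have hmain : F ^ 2 - F ≤ S := by linarith
  set k : ℝ := (J.card : ℝ) with hk
  by_cases hJ : J = ∅
  · have hF0' : F = 0 := by rw [hF, hJ]; simp
    rw [hF0', hk, hJ]; simp
  have hk1 : 1 ≤ k := by
    rw [hk]; exact_mod_cast Finset.card_pos.2 (Finset.nonempty_iff_ne_empty.2 hJ)
  by_cases hF2 : F < 2
  · have : F ^ 3 ≤ 2 ^ 3 := pow_le_pow_left₀ hF0 hF2.le 3
    linarith
  · push Not at hF2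
    have h1 : F ^ 2 / 2 ≤ S := by nlinarith
    have h2 : (F ^ 2 / 2) ^ 2 ≤ k * F := (pow_le_pow_left₀ (by positivity) h1 2).trans hSF
    have h3 : F ^ 3 * F ≤ (4 * k) * F := by nlinarith
    have h4 : F ^ 3 ≤ 4 * k := le_of_mul_le_mul_right h3 (by linarith)
    linarith

end AEG
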