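import Pool.Agent.AEG.Defs

set_option autoImplicit false

/-!
[AEG-A3] the sharp 4k inequality: unit vectors without three pairwise acute ones satisfy
`∑_{i,j} ⟪v i, v j⟫² ≤ 4 k`.
Everything over `J`, `k = |J|`.  `X i j = ⟪v i, v j⟫` for `i ≠ j`, `X⁺ = max X 0`, `X⁻ = max (-X) 0`.
For `m ∈ J`: `s m = ∑_{l ≠ m} X⁺ m l • v l`, `B m = ∑_{l ≠ m} X m l • v l`, `β m = ∑_{l ≠ m} X m l ^2 = ⟪v m, B m⟫`,
`q m = ‖s m‖`, `t m = ‖B m‖`.
(1) `q m ≤ 1`: `‖s m‖^2 = ∑_{k,l ≠ m} X⁺ m k X⁺ m l ⟪v k, v l⟫ ≤ ∑_{l≠m} (X⁺ m l)^2 =: p` (for `k ≠ l` with both factors positive `TF`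
    gives `⟪v k, v l⟫ ≤ 0`), and `⟪v m, s m⟫ = ∑ X⁺ m l X m l = p`, so `p ≤ ‖s m‖`; hence `p^2 ≤ ‖s m‖^2 ≤ p`, `p ≤ 1`, `‖s m‖ ≤ 1`.
(2) Expanding and separating the diagonal terms `k = l`:
    `∑_m (‖B m‖^2 - β m) = ∑_{(m,k,l) distinct} X m k X m l X k l`,
    `∑_m (⟪B m, s m⟫ - ‖s m‖^2) = ∑_{(m,k,l) distinct} (X m k - X⁺ m k) X⁺ m l X k l = - ∑_{distinct} X⁻ m k X⁺ m l X k l`
    (diagonal terms cancel as `X X⁺ = (X⁺)^2`).
    For a distinct triple put `a = X m k, b = X m l, c = X k l`.  The sum of `X⁻ m k X⁺ m l X k l` over all ordered distinct triples equals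
    the sum of `(1/3)(a⁻ b⁺ c + c⁻ a⁺ b + b⁻ c⁺ a)` (relabel cyclically: `(m,k,l) → (k,l,m) → (l,m,k)`), and by `TF` not all of
    `a, b, c` are positive, whence pointwise `a b c + (a⁻ b⁺ c + c⁻ a⁺ b + b⁻ c⁺ a) ≤ 0` (check the 7 sign patterns: equality except
    for three negatives, where it is `-|abc|`).  So
    (Q) `∑_m (t m^2 - β m) ≤ 3 ∑_m (⟪B m, s m⟫ - q m^2) ≤ 3 ∑_m (t m q m - q m^2)`.
(3) `β m = ⟪v m, B m⟫ ≤ t m` and `0 ≤ q m ≤ 1` give
    `t^2 - β - 3 (t q - q^2) - (2 β - 6) ≥ t^2 - 3 t (q+1) + 3 q^2 + 6 = (t - 3(q+1)/2)^2 + (3/4)(1-q)(5-q) ≥ 0`,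
    so `∑ (2 β m - 6) ≤ 0`, `∑_m β m ≤ 3 k`, and `∑_{i,j} ⟪v i,v j⟫^2 = k + ∑ β m ≤ 4 k`.
-/

namespace AEG

open Finset
open scoped InnerProductSpace

variable {V : Type*} [NormedAddCommGroup V] [InnerProductSpace ℝ V]

theorem q1 {ι : Type*} (J : Finset ι) (v : ι → V) (hv : ∀ i ∈ J, ‖v i‖ = 1) (hT : TF J v) :
    ∑ i ∈ J, ∑ j ∈ J, ⟪v i, v j⟫_ℝ ^ 2 ≤ 4 * (J.card : ℝ) := by
  classical
  obtain ⟨X, hX⟩ : ∃ X : ι → ι → ℝ, ∀ i j, X i j = if i = j then 0 else ⟪v i, v j⟫_ℝ :=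
    ⟨_, fun _ _ => rfl⟩
  obtain ⟨p, hp⟩ : ∃ p : ℝ → ℝ, ∀ x, p x = max x 0 := ⟨_, fun _ => rfl⟩
  obtain ⟨r, hr⟩ : ∃ r : ℝ → ℝ, ∀ x, r x = max (-x) 0 := ⟨_, fun _ => rfl⟩
  have p0 : ∀ x, 0 ≤ p x := fun x => by rw [hp]; exact le_max_right _ _
  have r0 : ∀ x, 0 ≤ r x := fun x => by rw [hr]; exact le_max_right _ _
  have ppos : ∀ x, 0 ≤ x → p x = x := fun x hx => by rw [hp]; exact max_eq_left hx
  have pneg : ∀ x, x ≤ 0 → p x = 0 := fun x hx => by rw [hp]; exact max_eq_right hx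
  have rpos : ∀ x, 0 ≤ x → r x = 0 := fun x hx => by rw [hr]; exact max_eq_right (by linarith)
  have rneg : ∀ x, x ≤ 0 → r x = -x := fun x hx => by rw [hr]; exact max_eq_left (by linarith)
  have pr : ∀ x, x - p x = - r x := by
    intro x
    rcases le_total 0 x with h | h
    · rw [ppos x h, rpos x h]; ring
    · rw [pneg x h, rneg x h]; ring
  have xp : ∀ x, x * p x = p x ^ 2 := by
    intro x
    rcases le_total 0 x with h | h
    · rw [ppos x h]; ring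
    · rw [pneg x h]; ring
  have hsymX : ∀ i j, X i j = X j i := by
    intro i j
    rw [hX, hX]
    by_cases hij : i = j
    · rw [if_pos hij, if_pos hij.symm]
    · rw [if_neg hij, if_neg (Ne.symm hij), real_inner_comm]
  have hdiag : ∀ i, X i i = 0 := fun i => by rw [hX, if_pos rfl]
  have hin : ∀ i ∈ J, ∀ j ∈ J, ⟪v i, v j⟫_ℝ = (if i = j then 1 else 0) + X i j := by
    intro i hi j hj
    rw [hX]
    by_cases hij : i = j
    · rw [if_pos hij, if_pos hij, ← hij, real_inner_self_eq_norm_sq, hv i hi]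
      norm_num
    · rw [if_neg hij, if_neg hij, zero_add]
  have hXin : ∀ i ∈ J, ∀ j ∈ J, X i j * ⟪v i, v j⟫_ℝ = X i j ^ 2 := by
    intro i hi j hj
    rw [hX]
    by_cases hij : i = j
    · rw [if_pos hij]
      ring
    · rw [if_neg hij]
      ring
  have hTFX : ∀ m ∈ J, ∀ k ∈ J, ∀ l ∈ J, X m k ≤ 0 ∨ X m l ≤ 0 ∨ X k l ≤ 0 := by
    intro m hm k hk l hl
    by_cases h1 : m = k
    · left
      rw [h1, hdiag]
    · by_cases h2 : m = l
      · right; left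
        rw [h2, hdiag]
      · by_cases h3 : k = l
        · right; right
          rw [h3, hdiag]
        · rcases hT m hm k hk l hl h1 h3 h2 with h | h | h
          · left
            rw [hX, if_neg h1]
            exact h
          · right; right
            rw [hX, if_neg h3]
            exact h
          · right; left
            rw [hX, if_neg h2]
            exact h
  -- bilinear expansion
  have hexp : ∀ a c : ι → ℝ, ⟪∑ k ∈ J, a k • v k, ∑ l ∈ J, c l • v l⟫_ℝ =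
      ∑ k ∈ J, a k * c k + ∑ k ∈ J, ∑ l ∈ J, a k * c l * X k l := by
    intro a c
    rw [sum_inner, ← Finset.sum_add_distrib]
    refine Finset.sum_congr rfl fun k hk => ?_
    rw [inner_sum]
    have h1 : ∀ l ∈ J, ⟪a k • v k, c l • v l⟫_ℝ =
        (if k = l then a k * c l else 0) + a k * c l * X k l := by
      intro l hl
      rw [real_inner_smul_left, real_inner_smul_right, hin k hk l hl]
      by_cases hkl : k = l
      · rw [if_pos hkl, if_pos hkl]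
        ring
      · rw [if_neg hkl, if_neg hkl]
        ring
    rw [Finset.sum_congr rfl h1, Finset.sum_add_distrib, Finset.sum_ite_eq, if_pos hk]
  obtain ⟨s, hs⟩ : ∃ s : ι → V, ∀ m, s m = ∑ l ∈ J, p (X m l) • v l := ⟨_, fun _ => rfl⟩
  obtain ⟨B, hB⟩ : ∃ B : ι → V, ∀ m, B m = ∑ l ∈ J, X m l • v l := ⟨_, fun _ => rfl⟩
  obtain ⟨β, hβ⟩ : ∃ β : ι → ℝ, ∀ m, β m = ∑ l ∈ J, X m l ^ 2 := ⟨_, fun _ => rfl⟩
  have hvB : ∀ m ∈ J, ⟪v m, B m⟫_ℝ = β m := by
    intro m hm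
    rw [hB, hβ, inner_sum]
    refine Finset.sum_congr rfl fun l hl => ?_
    rw [real_inner_smul_right, hXin m hm l hl]
  have hβt : ∀ m ∈ J, β m ≤ ‖B m‖ := by
    intro m hm
    rw [← hvB m hm]
    have := real_inner_le_norm (v m) (B m)
    rw [hv m hm, one_mul] at this
    exact this
  have hss : ∀ m, ⟪s m, s m⟫_ℝ = ∑ k ∈ J, p (X m k) ^ 2 +
      ∑ k ∈ J, ∑ l ∈ J, p (X m k) * p (X m l) * X k l := by
    intro m
    rw [hs, hexp]
    congr 1
    refine Finset.sum_congr rfl fun k _ => ?_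
    ring
  have hBs : ∀ m, ⟪B m, s m⟫_ℝ = ∑ k ∈ J, p (X m k) ^ 2 +
      ∑ k ∈ J, ∑ l ∈ J, X m k * p (X m l) * X k l := by
    intro m
    rw [hs, hB, hexp]
    congr 1
    refine Finset.sum_congr rfl fun k _ => ?_
    rw [xp]
  have hBB : ∀ m, ⟪B m, B m⟫_ℝ = β m + ∑ k ∈ J, ∑ l ∈ J, X m k * X m l * X k l := by
    intro m
    rw [hB, hexp, hβ]
    congr 1
    refine Finset.sum_congr rfl fun k _ => ?_
    ring
  have hq1 : ∀ m ∈ J, ‖s m‖ ≤ 1 := by
    intro m hm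
    have h1 : ⟪v m, s m⟫_ℝ = ∑ k ∈ J, p (X m k) ^ 2 := by
      rw [hs, inner_sum]
      refine Finset.sum_congr rfl fun k hk => ?_
      rw [real_inner_smul_right, ← xp, hX]
      by_cases hmk : m = k
      · rw [if_pos hmk, pneg 0 le_rfl]
        ring
      · rw [if_neg hmk]
        ring
    have h2 : ‖s m‖ ^ 2 ≤ ∑ k ∈ J, p (X m k) ^ 2 := by
      rw [← real_inner_self_eq_norm_sq, hss]
      have h3 : ∑ k ∈ J, ∑ l ∈ J, p (X m k) * p (X m l) * X k l ≤ 0 := by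
        refine Finset.sum_nonpos fun k hk => Finset.sum_nonpos fun l hl => ?_
        rcases hTFX m hm k hk l hl with h | h | h
        · rw [pneg _ h]
          simp
        · rw [pneg _ h]
          simp
        · exact mul_nonpos_of_nonneg_of_nonpos (mul_nonneg (p0 _) (p0 _)) h
      linarith
    have h3 := real_inner_le_norm (v m) (s m)
    rw [hv m hm, one_mul, h1] at h3
    have h4 := norm_nonneg (s m)
    by_contra hcon
    push Not at hcon
    nlinarith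
  -- the main inequality (Q)
  have hQ : ∑ m ∈ J, ∑ k ∈ J, ∑ l ∈ J, X m k * X m l * X k l +
      3 * ∑ m ∈ J, ∑ k ∈ J, ∑ l ∈ J, r (X m k) * p (X m l) * X k l ≤ 0 := by
    have c1 : ∑ m ∈ J, ∑ k ∈ J, ∑ l ∈ J, r (X m k) * p (X m l) * X k l =
        ∑ m ∈ J, ∑ k ∈ J, ∑ l ∈ J, r (X k l) * p (X m k) * X m l := by
      -- (m,k,l) → (k,l,m)
      have e1 : ∑ m ∈ J, ∑ k ∈ J, ∑ l ∈ J, r (X k l) * p (X m k) * X m l =
          ∑ k ∈ J, ∑ l ∈ J, ∑ m ∈ J, r (X k l) * p (X m k) * X m l := by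
        rw [Finset.sum_comm]
        refine Finset.sum_congr rfl fun k _ => ?_
        rw [Finset.sum_comm]
      rw [e1]
      refine Finset.sum_congr rfl fun a _ => Finset.sum_congr rfl fun b _ =>
        Finset.sum_congr rfl fun c _ => ?_
      rw [hsymX c a, hsymX c b]
    have c2 : ∑ m ∈ J, ∑ k ∈ J, ∑ l ∈ J, r (X m k) * p (X m l) * X k l =
        ∑ m ∈ J, ∑ k ∈ J, ∑ l ∈ J, r (X m l) * p (X k l) * X m k := by
      -- (m,k,l) → (l,m,k)
      have e1 : ∑ m ∈ J, ∑ k ∈ J, ∑ l ∈ J, r (X m l) * p (X k l) * X m k =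
          ∑ l ∈ J, ∑ m ∈ J, ∑ k ∈ J, r (X m l) * p (X k l) * X m k := by
        have e2 : ∀ m ∈ J, ∑ k ∈ J, ∑ l ∈ J, r (X m l) * p (X k l) * X m k =
            ∑ l ∈ J, ∑ k ∈ J, r (X m l) * p (X k l) * X m k := fun m _ => Finset.sum_comm
        rw [Finset.sum_congr rfl e2, Finset.sum_comm]
      rw [e1]
      refine Finset.sum_congr rfl fun a _ => Finset.sum_congr rfl fun b _ =>
        Finset.sum_congr rfl fun c _ => ?_
      rw [hsymX b a, hsymX c a]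
    have c3 : 3 * ∑ m ∈ J, ∑ k ∈ J, ∑ l ∈ J, r (X m k) * p (X m l) * X k l =
        ∑ m ∈ J, ∑ k ∈ J, ∑ l ∈ J, (r (X m k) * p (X m l) * X k l +
          r (X k l) * p (X m k) * X m l + r (X m l) * p (X k l) * X m k) := by
      have e3 : 3 * ∑ m ∈ J, ∑ k ∈ J, ∑ l ∈ J, r (X m k) * p (X m l) * X k l =
          ∑ m ∈ J, ∑ k ∈ J, ∑ l ∈ J, r (X m k) * p (X m l) * X k l +
          ∑ m ∈ J, ∑ k ∈ J, ∑ l ∈ J, r (X m k) * p (X m l) * X k l +
          ∑ m ∈ J, ∑ k ∈ J, ∑ l ∈ J, r (X m k) * p (X m l) * X k l := by ring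
      rw [e3]
      conv_lhs => 
        arg 2
        rw [c2]
      conv_lhs =>
        arg 1
        arg 2
        rw [c1]
      rw [← Finset.sum_add_distrib, ← Finset.sum_add_distrib]
      refine Finset.sum_congr rfl fun m _ => ?_
      rw [← Finset.sum_add_distrib, ← Finset.sum_add_distrib]
      refine Finset.sum_congr rfl fun k _ => ?_
      rw [← Finset.sum_add_distrib, ← Finset.sum_add_distrib]
    rw [c3, ← Finset.sum_add_distrib]
    refine Finset.sum_nonpos fun m hm => ?_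
    rw [← Finset.sum_add_distrib]
    refine Finset.sum_nonpos fun k hk => ?_
    rw [← Finset.sum_add_distrib]
    refine Finset.sum_nonpos fun l hl => ?_
    have h := hTFX m hm k hk l hl
    obtain ⟨a, ha⟩ : ∃ a, a = X m k := ⟨_, rfl⟩
    obtain ⟨b, hb⟩ : ∃ b, b = X m l := ⟨_, rfl⟩
    obtain ⟨c, hc⟩ : ∃ c, c = X k l := ⟨_, rfl⟩
    rw [← ha, ← hb, ← hc] at h ⊢
    rcases le_total 0 a with h1 | h1 <;> rcases le_total 0 b with h2 | h2 <;>
      rcases le_total 0 c with h3 | h3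
    · rw [rpos a h1, rpos b h2, rpos c h3]
      have : a * b * c = 0 := by
        rcases h with h | h | h
        · have : a = 0 := le_antisymm h h1
          rw [this]; ring
        · have : b = 0 := le_antisymm h h2
          rw [this]; ring
        · have : c = 0 := le_antisymm h h3
          rw [this]; ring
      nlinarith
    · rw [rpos a h1, rpos b h2, rneg c h3, ppos a h1]
      nlinarith
    · rw [rpos a h1, rneg b h2, rpos c h3, ppos c h3]
      nlinarith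
    · rw [rpos a h1, rneg c h3, ppos a h1, pneg c h3]
      nlinarith
    · rw [rneg a h1, ppos b h2, rpos c h3, rpos b h2]
      nlinarith
    · rw [rneg a h1, ppos b h2, pneg a h1, rpos b h2]
      nlinarith
    · rw [pneg b h2, rpos c h3, rneg b h2, ppos c h3]
      nlinarith
    · rw [pneg b h2, pneg a h1, pneg c h3]
      have h4 : 0 ≤ a * b := mul_nonneg_of_nonpos_of_nonpos h1 h2
      nlinarith [mul_nonpos_of_nonneg_of_nonpos h4 h3]
  have hpt : ∀ m ∈ J, 2 * β m - 6 ≤ (‖B m‖ ^ 2 - β m) - 3 * (⟪B m, s m⟫_ℝ - ‖s m‖ ^ 2) := by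
    intro m hm
    have h1 := real_inner_le_norm (B m) (s m)
    have h2 := hq1 m hm
    have h3 := norm_nonneg (s m)
    have h4 := hβt m hm
    nlinarith [sq_nonneg (‖B m‖ - 3 * (‖s m‖ + 1) / 2),
      mul_nonneg (show 0 ≤ 1 - ‖s m‖ by linarith) (show 0 ≤ 5 - ‖s m‖ by linarith)]
  have hsum : ∑ m ∈ J, ((‖B m‖ ^ 2 - β m) - 3 * (⟪B m, s m⟫_ℝ - ‖s m‖ ^ 2)) ≤ 0 := by
    have e4 : ∀ m ∈ J, (‖B m‖ ^ 2 - β m) - 3 * (⟪B m, s m⟫_ℝ - ‖s m‖ ^ 2) =
        ∑ k ∈ J, ∑ l ∈ J, X m k * X m l * X k l +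
          3 * ∑ k ∈ J, ∑ l ∈ J, r (X m k) * p (X m l) * X k l := by
      intro m _
      have e5 : ∑ k ∈ J, ∑ l ∈ J, X m k * p (X m l) * X k l -
          ∑ k ∈ J, ∑ l ∈ J, p (X m k) * p (X m l) * X k l =
          - ∑ k ∈ J, ∑ l ∈ J, r (X m k) * p (X m l) * X k l := by
        rw [← Finset.sum_sub_distrib, ← Finset.sum_neg_distrib]
        refine Finset.sum_congr rfl fun k _ => ?_
        rw [← Finset.sum_sub_distrib, ← Finset.sum_neg_distrib]
        refine Finset.sum_congr rfl fun l _ => ?_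
        linear_combination (p (X m l) * X k l) * pr (X m k)
      rw [← real_inner_self_eq_norm_sq, ← real_inner_self_eq_norm_sq, hBB, hBs, hss]
      linear_combination (-3) * e5
    rw [Finset.sum_congr rfl e4, Finset.sum_add_distrib, ← Finset.mul_sum]
    exact hQ
  have hfin : ∑ m ∈ J, (2 * β m - 6) ≤ 0 := (Finset.sum_le_sum hpt).trans hsum
  have e6 : ∑ m ∈ J, (2 * β m - 6) = 2 * ∑ m ∈ J, β m - 6 * (J.card : ℝ) := by
    rw [Finset.sum_sub_distrib, ← Finset.mul_sum, Finset.sum_const, nsmul_eq_mul]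
    ring
  have e7 : ∑ i ∈ J, ∑ j ∈ J, ⟪v i, v j⟫_ℝ ^ 2 = (J.card : ℝ) + ∑ m ∈ J, β m := by
    have e8 : ∀ i ∈ J, ∑ j ∈ J, ⟪v i, v j⟫_ℝ ^ 2 = 1 + β i := by
      intro i hi
      rw [hβ]
      have e9 : ∀ j ∈ J, ⟪v i, v j⟫_ℝ ^ 2 = (if i = j then 1 else 0) + X i j ^ 2 := by
        intro j hj
        rw [hin i hi j hj]
        by_cases hij : i = j
        · rw [if_pos hij, hij, hdiag]
          norm_num
        · rw [if_neg hij]
          ring
      rw [Finset.sum_congr rfl e9, Finset.sum_add_distrib, Finset.sum_ite_eq, if_pos hi]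
    rw [Finset.sum_congr rfl e8, Finset.sum_add_distrib, Finset.sum_const, nsmul_eq_mul, mul_one]
  rw [e7]
  linarith

end AEG
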