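import Pool.Agent.AEG.Defs

set_option autoImplicit false

/-!
[AEG-A4] trace Cauchy-Schwarz.
`G (w v) = ∑_i ⟪b i, w v⟫ • G (b i)` (`OrthonormalBasis.sum_repr'`), so with `a i = ∑_{v∈J} ⟪b i, w v⟫ • w v`:
`∑_{v∈J} ⟪w v, G (w v)⟫ = ∑_i ⟪a i, G (b i)⟫`, and by Cauchy-Schwarz (`real_inner_mul_inner_self_le`/`abs_real_inner_le_norm`, then
`Finset.sum_mul_sq_le_sq_mul_sq`) its square is `≤ (∑ ‖a i‖^2) (∑ ‖G (b i)‖^2)`.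
`∑_i ‖a i‖^2 = ∑_{u,v∈J} ⟪w u, w v⟫ ∑_i ⟪b i, w u⟫ ⟪b i, w v⟫ = ∑_{u,v∈J} ⟪w u, w v⟫^2` (`OrthonormalBasis.sum_inner_mul_inner`).
-/

namespace AEG

open Finset
open scoped InnerProductSpace

variable {V : Type*} [NormedAddCommGroup V] [InnerProductSpace ℝ V]

theorem trace_cs {κ : Type*} [Fintype κ] (b : OrthonormalBasis κ ℝ V) (G : V →ₗ[ℝ] V)
    {ι : Type*} (J : Finset ι) (w : ι → V) :
    (∑ v ∈ J, ⟪w v, G (w v)⟫_ℝ) ^ 2 ≤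
      (∑ i, ‖G (b i)‖ ^ 2) * ∑ u ∈ J, ∑ v ∈ J, ⟪w u, w v⟫_ℝ ^ 2 := by
  classical
  set a : κ → V := fun i => ∑ v ∈ J, ⟪b i, w v⟫_ℝ • w v with ha
  have h1 : ∑ v ∈ J, ⟪w v, G (w v)⟫_ℝ = ∑ i, ⟪a i, G (b i)⟫_ℝ := by
    have e1 : ∀ v ∈ J, ⟪w v, G (w v)⟫_ℝ = ∑ i, ⟪b i, w v⟫_ℝ * ⟪w v, G (b i)⟫_ℝ := by
      intro v _
      have hv : G (w v) = ∑ i, ⟪b i, w v⟫_ℝ • G (b i) := by
        conv_lhs => rw [← b.sum_repr' (w v)]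
        rw [map_sum]
        exact Finset.sum_congr rfl fun i _ => by rw [map_smul]
      rw [hv, inner_sum]
      exact Finset.sum_congr rfl fun i _ => by rw [real_inner_smul_right]
    rw [Finset.sum_congr rfl e1, Finset.sum_comm]
    refine Finset.sum_congr rfl fun i _ => ?_
    rw [ha, sum_inner]
    exact Finset.sum_congr rfl fun v _ => by rw [real_inner_smul_left]
  have h2 : ∑ i, ‖a i‖ ^ 2 = ∑ u ∈ J, ∑ v ∈ J, ⟪w u, w v⟫_ℝ ^ 2 := by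
    have e1 : ∀ i, ‖a i‖ ^ 2 = ∑ u ∈ J, ∑ v ∈ J, (⟪b i, w u⟫_ℝ * ⟪b i, w v⟫_ℝ) * ⟪w u, w v⟫_ℝ := by
      intro i
      rw [← real_inner_self_eq_norm_sq, ha, sum_inner]
      refine Finset.sum_congr rfl fun u _ => ?_
      rw [inner_sum]
      refine Finset.sum_congr rfl fun v _ => ?_
      rw [real_inner_smul_left, real_inner_smul_right]; ring
    rw [Finset.sum_congr rfl fun i _ => e1 i, Finset.sum_comm]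
    refine Finset.sum_congr rfl fun u _ => ?_
    rw [Finset.sum_comm]
    refine Finset.sum_congr rfl fun v _ => ?_
    rw [← Finset.sum_mul]
    have : ∑ i, ⟪b i, w u⟫_ℝ * ⟪b i, w v⟫_ℝ = ⟪w u, w v⟫_ℝ := by
      rw [← b.sum_inner_mul_inner (w u) (w v)]
      exact Finset.sum_congr rfl fun i _ => by rw [real_inner_comm (w u) (b i)]
    rw [this]; ring
  rw [h1, ← h2]
  have h3 : |∑ i, ⟪a i, G (b i)⟫_ℝ| ≤ ∑ i, ‖a i‖ * ‖G (b i)‖ :=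
    (Finset.abs_sum_le_sum_abs _ _).trans
      (Finset.sum_le_sum fun i _ => abs_real_inner_le_norm _ _)
  calc (∑ i, ⟪a i, G (b i)⟫_ℝ) ^ 2 = |∑ i, ⟪a i, G (b i)⟫_ℝ| ^ 2 := (sq_abs _).symm
    _ ≤ (∑ i, ‖a i‖ * ‖G (b i)‖) ^ 2 := pow_le_pow_left₀ (abs_nonneg _) h3 2
    _ ≤ (∑ i, ‖a i‖ ^ 2) * ∑ i, ‖G (b i)‖ ^ 2 := Finset.sum_mul_sq_le_sq_mul_sq _ _ _
    _ = (∑ i, ‖G (b i)‖ ^ 2) * ∑ i, ‖a i‖ ^ 2 := mul_comm _ _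

end AEG
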