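import Pool.Agent.AEG.Defs

set_option autoImplicit false

/-!
[AEG-A5] operator bound from the trace bound.  `C = Fop y` is symmetric and `⟪v, C v⟫ = ∑ ⟪y l, v⟫^2 ≥ 0`.
Let `v` be a unit eigenvector, `C v = μ v`; `μ = ∑_l ⟪y l, v⟫^2 ≥ 0`.
`U2 y = ∑_l ‖C (y l) - 2 y l‖^2 ≥ ∑_l ⟪C (y l) - 2 y l, v⟫^2 = (μ-2)^2 ∑ ⟪y l, v⟫^2 = (μ-2)^2 μ`;
`D2 b y = ∑_i ‖C (b i) - 2 b i‖^2 ≥ ∑_i ⟪C (b i) - 2 b i, v⟫^2 = (μ-2)^2 ∑_i ⟪b i, v⟫^2 = (μ-2)^2` (Parseval,
`OrthonormalBasis.sum_sq_norm_inner_right`).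
So `(μ-2)^2 (μ+1) ≤ t^3`; if `μ > 2 + t` the left side is `> t^2 (t + 3) ≥ t^3`, contradiction; hence `μ ≤ 2 + t`.
For general `v` expand in the orthonormal eigenbasis of `C` (`LinearMap.IsSymmetric.eigenvectorBasis`, `apply_eigenvectorBasis`):
`⟪v, C v⟫ = ∑ μ_i ⟪e_i, v⟫^2 ≤ (2+t) ‖v‖^2`.
-/

namespace AEG

open Finset
open scoped InnerProductSpace

variable {V : Type*} [NormedAddCommGroup V] [InnerProductSpace ℝ V]

theorem frame_le [FiniteDimensional ℝ V] {κ : Type*} [Fintype κ] (b : OrthonormalBasis κ ℝ V)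
    {ι : Type*} [Fintype ι] (y : ι → V) (t : ℝ) (ht : 0 ≤ t) (h : D2 b y + U2 y ≤ t ^ 3)
    (v : V) : ⟪v, Fop y v⟫_ℝ ≤ (2 + t) * ‖v‖ ^ 2 := by
  have hsym : (Fop y).IsSymmetric := by
    intro a c
    rw [Fop_apply, Fop_apply, sum_inner, inner_sum]
    refine Finset.sum_congr rfl fun l _ => ?_
    rw [real_inner_smul_left, real_inner_smul_right, real_inner_comm a (y l)]
    ring
  obtain ⟨n, hn⟩ : ∃ n : ℕ, Module.finrank ℝ V = n := ⟨_, rfl⟩
  obtain ⟨e, he⟩ : ∃ e : OrthonormalBasis (Fin n) ℝ V, e = hsym.eigenvectorBasis hn := ⟨_, rfl⟩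
  obtain ⟨μ, hμ⟩ : ∃ μ : Fin n → ℝ, μ = hsym.eigenvalues hn := ⟨_, rfl⟩
  have heig : ∀ i, Fop y (e i) = μ i • e i := by
    intro i
    rw [he, hμ]
    exact hsym.apply_eigenvectorBasis hn i
  have hnorm : ∀ i, ‖e i‖ = 1 := fun i => e.orthonormal.1 i
  have hμle : ∀ i, μ i ≤ 2 + t := by
    intro i
    have h1 : ⟪e i, Fop y (e i)⟫_ℝ = μ i := by
      rw [heig, real_inner_smul_right, real_inner_self_eq_norm_sq, hnorm]
      ring
    have h2 : ∑ l, ⟪y l, e i⟫_ℝ ^ 2 = μ i := by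
      rw [← h1, Fop_apply, inner_sum]
      refine Finset.sum_congr rfl fun l _ => ?_
      rw [real_inner_smul_right, real_inner_comm (e i) (y l)]
      ring
    have hμ0 : 0 ≤ μ i := by
      rw [← h2]
      exact Finset.sum_nonneg fun l _ => sq_nonneg _
    have hcs : ∀ a : V, ⟪a, e i⟫_ℝ ^ 2 ≤ ‖a‖ ^ 2 := by
      intro a
      have h3 := abs_real_inner_le_norm a (e i)
      rw [hnorm, mul_one] at h3
      rw [← sq_abs]
      exact pow_le_pow_left₀ (abs_nonneg _) h3 2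
    have hkey : ∀ a : V, ⟪Fop y a - (2 : ℝ) • a, e i⟫_ℝ = (μ i - 2) * ⟪a, e i⟫_ℝ := by
      intro a
      rw [inner_sub_left, hsym a (e i), heig, real_inner_smul_right, real_inner_smul_left]
      ring
    have hU : (μ i - 2) ^ 2 * μ i ≤ U2 y := by
      have h3 : (μ i - 2) ^ 2 * μ i = ∑ l, ⟪uu y l, e i⟫_ℝ ^ 2 := by
        conv_lhs => rw [← h2]
        rw [Finset.mul_sum]
        refine Finset.sum_congr rfl fun l _ => ?_
        unfold uu
        rw [hkey]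
        rw [h2]
        ring
      rw [h3]
      unfold U2
      exact Finset.sum_le_sum fun l _ => hcs _
    have hD : (μ i - 2) ^ 2 ≤ D2 b y := by
      have h3 : (μ i - 2) ^ 2 = ∑ j, ⟪Fop y (b j) - (2 : ℝ) • b j, e i⟫_ℝ ^ 2 := by
        have h4 : ∑ j, ⟪b j, e i⟫_ℝ ^ 2 = 1 := by
          have h5 := b.sum_inner_mul_inner (e i) (e i)
          rw [real_inner_self_eq_norm_sq, hnorm] at h5
          rw [show (1 : ℝ) = 1 ^ 2 by norm_num, ← h5]
          refine Finset.sum_congr rfl fun j _ => ?_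
          rw [real_inner_comm (b j) (e i)]
          ring
        calc (μ i - 2) ^ 2 = (μ i - 2) ^ 2 * ∑ j, ⟪b j, e i⟫_ℝ ^ 2 := by rw [h4, mul_one]
          _ = _ := by
            rw [Finset.mul_sum]
            refine Finset.sum_congr rfl fun j _ => ?_
            rw [hkey]
            ring
      rw [h3]
      unfold D2
      exact Finset.sum_le_sum fun l _ => hcs _
    by_contra hcon
    push Not at hcon
    have h3 : (μ i - 2) ^ 2 * (μ i + 1) ≤ t ^ 3 := by nlinarith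
    have h4 : t ^ 2 < (μ i - 2) ^ 2 := by
      apply pow_lt_pow_left₀ _ ht (by norm_num)
      linarith
    have h5 : t ^ 2 * (μ i + 1) ≤ (μ i - 2) ^ 2 * (μ i + 1) := by
      apply mul_le_mul_of_nonneg_right h4.le
      linarith
    have h6 : (μ i - 2) ^ 2 * 1 < (μ i - 2) ^ 2 * (μ i + 1) := by
      apply mul_lt_mul_of_pos_left
      · linarith
      · exact lt_of_le_of_lt (sq_nonneg t) h4
    nlinarith [sq_nonneg t, mul_nonneg (sq_nonneg t) ht, mul_nonneg (sq_nonneg t) (show (0:ℝ) ≤ μ i - 2 - t by linarith)]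
  have hexp : ⟪v, Fop y v⟫_ℝ = ∑ i, μ i * ⟪e i, v⟫_ℝ ^ 2 := by
    rw [← e.sum_inner_mul_inner v (Fop y v)]
    refine Finset.sum_congr rfl fun i _ => ?_
    rw [← hsym (e i) v, heig, real_inner_smul_left, real_inner_comm (e i) v]
    ring
  have hn2 : ∑ i, ⟪e i, v⟫_ℝ ^ 2 = ‖v‖ ^ 2 := by
    rw [← real_inner_self_eq_norm_sq, ← e.sum_inner_mul_inner v v]
    refine Finset.sum_congr rfl fun i _ => ?_
    rw [real_inner_comm (e i) v]
    ring
  rw [hexp, ← hn2, Finset.mul_sum]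
  exact Finset.sum_le_sum fun i _ => mul_le_mul_of_nonneg_right (hμle i) (sq_nonneg _)

end AEG
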