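import Pool.Agent.AEG.Defs

set_option autoImplicit false

/-!
[AEG-C4] the partner involution (pure combinatorics).
For `u ∈ P` the `p ∈ G` with `a ≤ E u p` is unique: if `p ≠ p'` then `s2 E u ≥ E u p^2 + E u p'^2 ≥ 2 a^2`, contradiction.  Define `σ u` as this
`p` for `u ∈ P` (choice), `σ u = u` otherwise.  `σ u ∈ G` and `a ≤ E (σ u) u` by symmetry, so `σ u ∈ P`, and `σ (σ u) = u` by uniqueness.
-/

namespace AEG

open Finset
open scoped InnerProductSpace

variable {V : Type*} [NormedAddCommGroup V] [InnerProductSpace ℝ V]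

theorem exists_invol {ι : Type*} [DecidableEq ι] [Fintype ι] {E : ι → ι → ℝ} (hE : Wt E)
    (G : Finset ι) (a : ℝ) (ha : 0 < a) (hs : ∀ l ∈ G, s2 E l < 2 * a ^ 2) :
    ∃ σ : ι → ι, ∀ u ∈ G.filter (fun l => ∃ p ∈ G, a ≤ E l p),
      σ u ∈ G.filter (fun l => ∃ p ∈ G, a ≤ E l p) ∧ σ (σ u) = u ∧ a ≤ E u (σ u) := by
  classical
  have huniq : ∀ u ∈ G, ∀ p q, a ≤ E u p → a ≤ E u q → p = q := by
    intro u hu p q hp hq
    by_contra hpq
    have h1 : E u p ^ 2 + E u q ^ 2 ≤ s2 E u := by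
      unfold s2
      have : ∑ m ∈ ({p, q} : Finset ι), E u m ^ 2 ≤ ∑ m, E u m ^ 2 :=
        Finset.sum_le_sum_of_subset_of_nonneg (Finset.subset_univ _) fun _ _ _ => sq_nonneg _
      rwa [Finset.sum_pair hpq] at this
    have h2 := hs u hu
    have h3 : a ^ 2 ≤ E u p ^ 2 := pow_le_pow_left₀ ha.le hp 2
    have h4 : a ^ 2 ≤ E u q ^ 2 := pow_le_pow_left₀ ha.le hq 2
    linarith
  refine ⟨fun u => if h : ∃ p ∈ G, a ≤ E u p then h.choose else u, ?_⟩
  intro u hu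
  rw [Finset.mem_filter] at hu
  obtain ⟨huG, hup⟩ := hu
  have hspec := hup.choose_spec
  set q := hup.choose with hq
  have hσu : (if h : ∃ p ∈ G, a ≤ E u p then h.choose else u) = q := by
    rw [dif_pos hup]
  simp only [hσu]
  have hqu : a ≤ E q u := by rw [hE.symm q u]; exact hspec.2
  have hqex : ∃ p ∈ G, a ≤ E q p := ⟨u, huG, hqu⟩
  refine ⟨?_, ?_, hspec.2⟩
  · rw [Finset.mem_filter]; exact ⟨hspec.1, hqex⟩
  · rw [dif_pos hqex]
    exact huniq q hspec.1 _ _ hqex.choose_spec.2 hqu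

end AEG
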