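import Mathlib

set_option autoImplicit false

/-!
# Almost-equidistant diameter sets: second order term (definitions)

* `TF J v`: no three distinct members of `J` have pairwise positive inner products.
* `Wt E`: `E` is a symmetric weight matrix with entries in `[0,1)`, zero diagonal and triangle-free support.
* `Fop y`: the operator `v ↦ ∑ l, ⟪y l, v⟫ • y l`.
* `Frame E κ y`: centred vectors with `⟪y l, y m⟫ = δ_lm + E l m - κ l - κ m`.
* `PairSys E P σ w`: unit vectors attached to the pairs of an involution.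
-/

namespace AEG

open Finset
open scoped InnerProductSpace

section
variable {ι : Type*} {V : Type*} [NormedAddCommGroup V] [InnerProductSpace ℝ V]

/-- No three distinct members of `J` have pairwise positive inner products. -/
def TF (J : Finset ι) (v : ι → V) : Prop :=
  ∀ i ∈ J, ∀ j ∈ J, ∀ k ∈ J, i ≠ j → j ≠ k → i ≠ k →
    ⟪v i, v j⟫_ℝ ≤ 0 ∨ ⟪v j, v k⟫_ℝ ≤ 0 ∨ ⟪v i, v k⟫_ℝ ≤ 0

theorem TF.mono {J J' : Finset ι} {v : ι → V} (h : TF J v) (hJ : J' ⊆ J) : TF J' v :=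
  fun i hi j hj k hk => h i (hJ hi) j (hJ hj) k (hJ hk)

/-- Weight matrices. -/
structure Wt (E : ι → ι → ℝ) : Prop where
  symm : ∀ i j, E i j = E j i
  diag : ∀ i, E i i = 0
  nn : ∀ i j, 0 ≤ E i j
  lt : ∀ i j, E i j < 1
  tf : ∀ i j k, E i j = 0 ∨ E j k = 0 ∨ E i k = 0

/-- Kronecker delta. -/
def kd [DecidableEq ι] (l m : ι) : ℝ := if l = m then 1 else 0

variable [Fintype ι]

/-- Row sums. -/
def rr (E : ι → ι → ℝ) (l : ι) : ℝ := ∑ m, E l m

/-- Row sums of squares. -/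
def s2 (E : ι → ι → ℝ) (l : ι) : ℝ := ∑ m, E l m ^ 2

/-- Entries of `E²`. -/
def sq2 (E : ι → ι → ℝ) (l m : ι) : ℝ := ∑ p, E l p * E p m

/-- `(E κ) l`. -/
def ek (E : ι → ι → ℝ) (κ : ι → ℝ) (l : ι) : ℝ := ∑ m, E l m * κ m

/-- Number of indices. -/
def nv (ι : Type*) [Fintype ι] : ℝ := (Fintype.card ι : ℝ)

/-- Mean of the row sums. -/
noncomputable def e1 (E : ι → ι → ℝ) : ℝ := (∑ l, rr E l) / nv ι

/-- Mean of the squared row sums. -/
noncomputable def e2 (E : ι → ι → ℝ) : ℝ := (∑ l, rr E l ^ 2) / nv ι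

/-- Variance of the row sums. -/
noncomputable def ww (E : ι → ι → ℝ) : ℝ := e2 E - e1 E ^ 2

/-- The frame operator `v ↦ ∑ l, ⟪y l, v⟫ • y l`. -/
noncomputable def Fop (y : ι → V) : V →ₗ[ℝ] V where
  toFun v := ∑ l, ⟪y l, v⟫_ℝ • y l
  map_add' a b := by
    simp only [inner_add_right, add_smul, Finset.sum_add_distrib]
  map_smul' c a := by
    simp only [inner_smul_right, RingHom.id_apply, Finset.smul_sum, mul_smul]

theorem Fop_apply (y : ι → V) (v : V) : Fop y v = ∑ l, ⟪y l, v⟫_ℝ • y l := rfl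

/-- `g l = ∑ m, E l m • y m`. -/
def gv (E : ι → ι → ℝ) (y : ι → V) (l : ι) : V := ∑ m, E l m • y m

/-- `u l = C (y l) - 2 y l`. -/
noncomputable def uu (y : ι → V) (l : ι) : V := Fop y (y l) - (2 : ℝ) • y l

/-- `v l = g l - y l`. -/
def vv (E : ι → ι → ℝ) (y : ι → V) (l : ι) : V := gv E y l - y l

/-- `γ = ∑ m, κ m • y m`. -/
def gam (κ : ι → ℝ) (y : ι → V) : V := ∑ m, κ m • y m

/-- Centred vectors with Gram matrix `δ + E - κ 1ᵀ - 1 κᵀ`. -/
structure Frame [DecidableEq ι] (E : ι → ι → ℝ) (κ : ι → ℝ) (y : ι → V) : Prop where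
  wt : Wt E
  sum0 : ∑ l, y l = 0
  gram : ∀ l m, ⟪y l, y m⟫_ℝ = kd l m + E l m - κ l - κ m

/-- Unit vectors with Gram matrix `δ + E` (points on a sphere). -/
structure SFrame [DecidableEq ι] (E : ι → ι → ℝ) (z : ι → V) : Prop where
  wt : Wt E
  gram : ∀ l m, ⟪z l, z m⟫_ℝ = kd l m + E l m

/-- `δ = 2 d + 2 - n`. -/
noncomputable def dl (ι : Type*) [Fintype ι] (V : Type*) [NormedAddCommGroup V]
    [InnerProductSpace ℝ V] : ℝ :=
  2 * (Module.finrank ℝ V : ℝ) + 2 - nv ι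

/-- `tr (C - 2)²` computed in an orthonormal basis. -/
noncomputable def D2 {κ' : Type*} [Fintype κ'] (b : OrthonormalBasis κ' ℝ V) (y : ι → V) : ℝ :=
  ∑ i, ‖Fop y (b i) - (2 : ℝ) • b i‖ ^ 2

/-- `tr C (C - 2)²`. -/
noncomputable def U2 (y : ι → V) : ℝ := ∑ l, ‖uu y l‖ ^ 2

end

section
variable {ι : Type*} {V : Type*} [NormedAddCommGroup V] [InnerProductSpace ℝ V]

/-- Unit vectors attached to the pairs of an involution `σ` of `P`. -/
structure PairSys (E : ι → ι → ℝ) (P : Finset ι) (σ : ι → ι) (w : ι → V) : Prop where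
  wt : Wt E
  mem : ∀ u ∈ P, σ u ∈ P
  inv : ∀ u ∈ P, σ (σ u) = u
  pos : ∀ u ∈ P, 0 < E u (σ u)
  norm : ∀ u ∈ P, ‖w u‖ = 1
  neg : ∀ u ∈ P, w (σ u) = - w u
  ip : ∀ u ∈ P, ∀ v ∈ P, u ≠ v → u ≠ σ v → ∃ c : ℝ, 0 < c ∧
    c * ⟪w u, w v⟫_ℝ = E u v - E u (σ v) - E (σ u) v + E (σ u) (σ v)

/-- The vertices `u` of `P` adjacent to `i`, other than the partner of `i`. -/
noncomputable def Lset [DecidableEq ι] (E : ι → ι → ℝ) (P : Finset ι) (σ : ι → ι) (i : ι) :
    Finset ι :=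
  P.filter (fun u => 0 < E i u ∧ σ u ≠ i)

end

/-- Unit vector in the direction `y u - y (σ u)`. -/
noncomputable def wv {ι : Type*} {V : Type*} [NormedAddCommGroup V] [InnerProductSpace ℝ V]
    (y : ι → V) (σ : ι → ι) (u : ι) : V :=
  (‖y u - y (σ u)‖)⁻¹ • (y u - y (σ u))

end AEG
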