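import Pool.Agent.AEG.Defs

set_option autoImplicit false

/-!
# Definitions for the sharp general bound
-/

namespace AEG

open Finset
open scoped InnerProductSpace

variable {V : Type*} [NormedAddCommGroup V] [InnerProductSpace ℝ V]

/-- All numerical facts used in the proof of the sharp bound.  `n = ν^4`, `t^3 = (7/2) δ`,
`x^2 = t^3 e1`, `R` is the threshold for large row sums. -/
structure Facts {ι : Type*} [DecidableEq ι] [Fintype ι] [FiniteDimensional ℝ V]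
    (E : ι → ι → ℝ) (κ : ι → ℝ) (y : ι → V) (t ν x R : ℝ) : Prop where
  fr : Frame E κ y
  n4 : nv ι = ν ^ 4
  t15 : 3 / 2 ≤ t
  νt : 10 ^ 8 * t ≤ ν
  e99 : 99 / 100 ≤ e1 E
  et : e1 E ≤ 5 / 3 * t
  w0 : 0 ≤ ww E
  we : ww E * (e1 E - 1) ≤ 4 / 21 * t ^ 3
  wx : ww E ≤ t ^ 3 + x * ν ^ 2
  x0 : 0 ≤ x
  x2 : x ^ 2 = t ^ 3 * e1 E
  xt : x ≤ 4 / 3 * t ^ 2
  tx : t ^ 3 ≤ 102 / 100 * x ^ 2
  R2 : 2 ≤ R
  eR : e1 E ≤ R
  Rν : 10 ^ 7 * R ^ 2 ≤ ν ^ 2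
  Rw : R ^ 2 * (ww E + ν ^ 2) = ν ^ 4 / 10 ^ 7
  eRν : 4 * (e1 E * R) ≤ ν ^ 2
  DU : D2 (stdOrthonormalBasis ℝ V) y + U2 y ≤ t ^ 3
  g2 : nv ι * ‖gam κ y‖ ^ 2 ≤ t ^ 3 / 3
  ms : (2 + e1 E) * (ww E + e1 E ^ 2) ≤ 21 * t ^ 3 + 4 * ww E
  dn : 10 * dl ι V ≤ nv ι

/-- Output of the classification: paired vertices `P`, few exceptional vertices `Us`, and exceptional
vertices `UL` which are sparse in every neighbourhood. -/
structure Cls {ι : Type*} [DecidableEq ι] [Fintype ι] (E : ι → ι → ℝ)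
    (P Us UL : Finset ι) (σ : ι → ι) (t ν x : ℝ) : Prop where
  inv : ∀ u ∈ P, σ u ∈ P ∧ σ (σ u) = u ∧ 17 / 18 ≤ E u (σ u)
  cover : ∀ l, l ∈ P ∨ l ∈ Us ∨ l ∈ UL
  us : (Us.card : ℝ) ≤ 3 * 10 ^ 6 * (x * ν ^ 2 + e1 E * ν ^ 3)
  ul : (UL.card : ℝ) ≤ 585 * t ^ 4
  ulN : ∀ i, ((UL.filter (fun l => 0 < E i l)).card : ℝ) ≤ 501 * t ^ 3

/-- vertices with row sum `> R` -/
noncomputable def Hs {ι : Type*} [Fintype ι] (E : ι → ι → ℝ) (R : ℝ) : Finset ι :=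
  univ.filter (fun l => R < rr E l)

/-- regular vertices -/
noncomputable def Gp {ι : Type*} [Fintype ι] (E : ι → ι → ℝ) (κ : ι → ℝ) (y : ι → V) (R : ℝ) :
    Finset ι :=
  univ.filter (fun p => rr E p ≤ R ∧ ‖vv E y p‖ ^ 2 ≤ 1 / 100 ∧
    |⟪gam κ y, y p⟫_ℝ| ≤ 1 / (250 * R))

/-- regular vertices with little mass on `Hs` -/
noncomputable def Gpp {ι : Type*} [Fintype ι] (E : ι → ι → ℝ) (κ : ι → ℝ) (y : ι → V) (R : ℝ) :
    Finset ι :=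
  (Gp E κ y R).filter (fun p => ∑ m ∈ Hs E R, E p m ^ 2 ≤ 1 / 20)

/-- the sparse exceptional set -/
noncomputable def ULs {ι : Type*} [Fintype ι] (E : ι → ι → ℝ) (κ : ι → ℝ) (y : ι → V) (R : ℝ) :
    Finset ι :=
  univ.filter (fun l => rr E l ≤ R ∧ (1 / (10 ^ 7 * R ^ 2) < |⟪gam κ y, y l⟫_ℝ| ∨
    1 / 250 < ⟪uu y l, Fop y (uu y l)⟫_ℝ))

/-- bad vertices of `P` -/
noncomputable def Bad {ι : Type*} [Fintype ι] (y : ι → V) (P : Finset ι) (σ : ι → ι) :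
    Finset ι :=
  P.filter (fun u => 7 / 4 < ⟪wv y σ u, Fop y (wv y σ u)⟫_ℝ)

/-- good vertices of `P` -/
noncomputable def Good {ι : Type*} [Fintype ι] (y : ι → V) (P : Finset ι) (σ : ι → ι) :
    Finset ι :=
  P.filter (fun u => ⟪wv y σ u, Fop y (wv y σ u)⟫_ℝ ≤ 7 / 4)

/-- light bad vertices -/
noncomputable def Lt {ι : Type*} [Fintype ι] (κ : ι → ℝ) (y : ι → V) (P : Finset ι)
    (σ : ι → ι) : Finset ι :=
  (Bad y P σ).filter (fun u => 0 ≤ ⟪gam κ y, wv y σ u⟫_ℝ)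

/-- light bad vertices whose excess comes (by at least one fifth) from `Π` -/
noncomputable def Part {ι : Type*} [DecidableEq ι] [Fintype ι] (E : ι → ι → ℝ) (κ : ι → ℝ)
    (y : ι → V) (P : Finset ι) (σ : ι → ι) (S : Finset ι) : Finset ι :=
  (Lt κ y P σ).filter (fun u => (rr E (σ u) - rr E u) / 5 ≤
    ∑ l ∈ S.filter (fun l => 0 < E (σ u) l ∧ l ≠ u), E (σ u) l)

/-- bad vertices with `|⟪γ, w⟫| ≤ g` -/
noncomputable def Vlo {ι : Type*} [Fintype ι] (κ : ι → ℝ) (y : ι → V) (P : Finset ι)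
    (σ : ι → ι) (g : ℝ) : Finset ι :=
  (Bad y P σ).filter (fun u => |⟪gam κ y, wv y σ u⟫_ℝ| ≤ g)

/-- bad vertices with `|⟪γ, w⟫| > g` -/
noncomputable def Vhi {ι : Type*} [Fintype ι] (κ : ι → ℝ) (y : ι → V) (P : Finset ι)
    (σ : ι → ι) (g : ℝ) : Finset ι :=
  (Bad y P σ).filter (fun u => g < |⟪gam κ y, wv y σ u⟫_ℝ|)

end AEG
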