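import Pool.Agent.AEG.Defs

set_option autoImplicit false

/-!
[AEG-G1] first identities of a frame (`n = nv ι`, `r l = rr E l`, `c = (1 - e1)/2`).
(kappa) sum `gram l m` over `m`: `0 = ⟪y l, ∑ y⟫ = 1 + r l - n κ l - K`, `K = ∑ κ`; sum over `l`: `n + n e1 = 2 n K`, so `K = (1+e1)/2` and
`n κ l = r l + 1 - (1+e1)/2`.
(vv_eq) `Fop y (y l) = ∑_m ⟪y m, y l⟫ • y m = y l + gv E y l - gam κ y - κ l • ∑ y`, so `uu y l = gv - y l - gam`.
(gvgv) `‖g l‖^2 = ∑_{p,q} E l p E l q (kd p q + E p q - κ p - κ q) = s2 l + 0 - 2 r l (ek l)`; `⟪g l, y l⟫ = ∑_m E l m (kd m l + E m l - κ m - κ l)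
= s2 l - ek l - κ l r l`; `‖y l‖^2 = 1 - 2 κ l`.
(one_sub) `‖vv l‖^2 = ‖g‖^2 - 2 ⟪g, y l⟫ + ‖y l‖^2 = - s2 - 2 r ek + 2 ek + 2 κ r + 1 - 2κ`, i.e. the claim.
(entry) `⟪g l - y l, y m⟫ = ∑_p E l p (kd p m + E p m - κ p - κ m) - kd l m - E l m + κ l + κ m
  = E l m + sq2 l m - ek l - r l κ m - kd l m - E l m + κ l + κ m`.
(ek_eq) multiply `ek l = ∑ E l m κ m` by `n` and use (kappa): `n ek l = (E r) l + c r l`, where `(E r) l = ek E (rr E) l`.
-/

namespace AEG

open Finset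
open scoped InnerProductSpace

variable {V : Type*} [NormedAddCommGroup V] [InnerProductSpace ℝ V]

theorem Frame.kappa {ι : Type*} [DecidableEq ι] [Fintype ι] {E : ι → ι → ℝ} {κ : ι → ℝ}
    {y : ι → V} (h : Frame E κ y) (hn : 0 < nv ι) (l : ι) :
    nv ι * κ l = rr E l + (1 - e1 E) / 2 := by
  have h1 : ∀ l, (0 : ℝ) = 1 + rr E l - nv ι * κ l - ∑ m, κ m := by
    intro l
    have h2 : ⟪y l, ∑ m, y m⟫_ℝ = ∑ m, (kd l m + E l m - κ l - κ m) := by
      rw [inner_sum]
      exact Finset.sum_congr rfl fun m _ => h.gram l m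
    rw [h.sum0, inner_zero_right, Finset.sum_sub_distrib, Finset.sum_sub_distrib,
      Finset.sum_add_distrib] at h2
    have h3 : ∑ m, kd l m = (1 : ℝ) := by
      unfold kd
      rw [Finset.sum_ite_eq Finset.univ l, if_pos (Finset.mem_univ l)]
    rw [h3, Finset.sum_const, Finset.card_univ, nsmul_eq_mul] at h2
    exact h2
  have h2 : (0 : ℝ) = nv ι + nv ι * e1 E - nv ι * (∑ m, κ m) - nv ι * (∑ m, κ m) := by
    have h3 : (∑ _l : ι, (0 : ℝ)) = ∑ l, (1 + rr E l - nv ι * κ l - ∑ m, κ m) :=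
      Finset.sum_congr rfl fun l _ => h1 l
    rw [Finset.sum_sub_distrib, Finset.sum_sub_distrib, Finset.sum_add_distrib,
      ← Finset.mul_sum] at h3
    simp only [Finset.sum_const_zero, Finset.sum_const, Finset.card_univ, nsmul_eq_mul, mul_one] at h3
    have h4 : nv ι * e1 E = ∑ l, rr E l := by
      unfold e1; field_simp
    rw [h4]
    exact h3
  have h3 : ∑ m, κ m = (1 + e1 E) / 2 := by
    have h4 : nv ι * (∑ m, κ m) = nv ι * ((1 + e1 E) / 2) := by linarith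
    exact mul_left_cancel₀ hn.ne' h4
  have h4 := h1 l
  rw [h3] at h4
  linarith

theorem Frame.vv_eq {ι : Type*} [DecidableEq ι] [Fintype ι] {E : ι → ι → ℝ} {κ : ι → ℝ}
    {y : ι → V} (h : Frame E κ y) (l : ι) : vv E y l = uu y l + gam κ y := by
  have h0 : Fop y (y l) = y l + gv E y l - gam κ y := by
    rw [Fop_apply]
    have h1 : ∀ m ∈ (Finset.univ : Finset ι), ⟪y m, y l⟫_ℝ • y m =
        (((if m = l then y l else 0) + E l m • y m) - κ m • y m) - κ l • y m := by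
      intro m _
      rw [h.gram m l, h.wt.symm m l]
      unfold kd
      split_ifs with hml
      · subst hml
        rw [sub_smul, sub_smul, add_smul, one_smul]
      · rw [sub_smul, sub_smul, add_smul, zero_smul]
    rw [Finset.sum_congr rfl h1, Finset.sum_sub_distrib, Finset.sum_sub_distrib,
      Finset.sum_add_distrib, ← Finset.smul_sum, h.sum0, smul_zero, sub_zero,
      Finset.sum_ite_eq' Finset.univ l, if_pos (Finset.mem_univ l)]
    rfl
  unfold vv uu
  rw [h0, two_smul]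
  abel

private theorem g1_gy {ι : Type*} [DecidableEq ι] [Fintype ι] {E : ι → ι → ℝ} {κ : ι → ℝ}
    {y : ι → V} (h : Frame E κ y) (l m : ι) :
    ⟪gv E y l, y m⟫_ℝ = E l m + sq2 E l m - ek E κ l - rr E l * κ m := by
  unfold gv
  rw [sum_inner]
  have h1 : ∀ p ∈ (Finset.univ : Finset ι), ⟪E l p • y p, y m⟫_ℝ =
      (((if p = m then E l m else 0) + E l p * E p m) - E l p * κ p) - E l p * κ m := by
    intro p _
    rw [real_inner_smul_left, h.gram p m]
    unfold kd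
    split_ifs with hpm
    · subst hpm; ring
    · ring
  rw [Finset.sum_congr rfl h1, Finset.sum_sub_distrib, Finset.sum_sub_distrib,
    Finset.sum_add_distrib, Finset.sum_ite_eq' Finset.univ m, if_pos (Finset.mem_univ m),
    ← Finset.sum_mul]
  rfl

private theorem g1_sq2_diag {ι : Type*} [Fintype ι] {E : ι → ι → ℝ}
    (h : Wt E) (l : ι) : sq2 E l l = s2 E l := by
  unfold sq2 s2
  exact Finset.sum_congr rfl fun p _ => by rw [h.symm p l]; ring

private theorem g1_gg {ι : Type*} [DecidableEq ι] [Fintype ι] {E : ι → ι → ℝ} {κ : ι → ℝ}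
    {y : ι → V} (h : Frame E κ y) (l : ι) :
    ⟪gv E y l, gv E y l⟫_ℝ = s2 E l - 2 * rr E l * ek E κ l := by
  have h0 : ∀ x : V, ⟪x, gv E y l⟫_ℝ = ∑ m, E l m * ⟪x, y m⟫_ℝ := by
    intro x
    unfold gv
    rw [inner_sum]
    exact Finset.sum_congr rfl fun m _ => by rw [real_inner_smul_right]
  rw [h0]
  have h1 : ∀ m ∈ (Finset.univ : Finset ι), E l m * ⟪gv E y l, y m⟫_ℝ =
      E l m ^ 2 - E l m * ek E κ l - rr E l * (E l m * κ m) := by
    intro m _
    rw [g1_gy h l m]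
    have h2 : E l m * sq2 E l m = 0 := by
      unfold sq2
      rw [Finset.mul_sum]
      refine Finset.sum_eq_zero fun p _ => ?_
      rcases h.wt.tf l p m with h2 | h2 | h2
      · rw [h2]; ring
      · rw [h2]; ring
      · rw [h2]; ring
    linear_combination h2
  rw [Finset.sum_congr rfl h1, Finset.sum_sub_distrib, Finset.sum_sub_distrib,
    ← Finset.sum_mul, ← Finset.mul_sum]
  have e1 : ∑ m, E l m ^ 2 = s2 E l := rfl
  have e2 : ∑ m, E l m = rr E l := rfl
  have e3 : ∑ m, E l m * κ m = ek E κ l := rfl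
  rw [e1, e2, e3]
  ring

theorem Frame.one_sub {ι : Type*} [DecidableEq ι] [Fintype ι] {E : ι → ι → ℝ} {κ : ι → ℝ}
    {y : ι → V} (h : Frame E κ y) (l : ι) :
    1 - s2 E l = ‖vv E y l‖ ^ 2 + 2 * (rr E l - 1) * (ek E κ l - κ l) := by
  unfold vv
  have h3 : ⟪y l, gv E y l⟫_ℝ = ⟪gv E y l, y l⟫_ℝ := real_inner_comm _ _
  rw [← real_inner_self_eq_norm_sq, inner_sub_left, inner_sub_right, inner_sub_right, h3,
    g1_gg h l, g1_gy h l l, h.gram l l, h.wt.diag, g1_sq2_diag h.wt l]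
  unfold kd
  rw [if_pos rfl]
  ring

theorem Frame.entry {ι : Type*} [DecidableEq ι] [Fintype ι] {E : ι → ι → ℝ} {κ : ι → ℝ}
    {y : ι → V} (h : Frame E κ y) (l m : ι) :
    sq2 E l m - kd l m =
      ⟪vv E y l, y m⟫_ℝ + (ek E κ l - κ l) + (rr E l - 1) * κ m := by
  unfold vv
  rw [inner_sub_left, g1_gy h l m, h.gram l m]
  ring

theorem Frame.ek_eq {ι : Type*} [DecidableEq ι] [Fintype ι] {E : ι → ι → ℝ} {κ : ι → ℝ}
    {y : ι → V} (h : Frame E κ y) (hn : 0 < nv ι) (l : ι) :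
    nv ι * (ek E κ l - κ l) =
      ek E (rr E) l - rr E l + (1 - e1 E) / 2 * (rr E l - 1) := by
  have h1 : nv ι * ek E κ l = ek E (rr E) l + (1 - e1 E) / 2 * rr E l := by
    unfold ek
    rw [Finset.mul_sum]
    have h2 : ∀ m ∈ (Finset.univ : Finset ι), nv ι * (E l m * κ m) =
        E l m * rr E m + (1 - e1 E) / 2 * E l m := by
      intro m _
      have h3 := h.kappa hn m
      linear_combination (E l m) * h3
    rw [Finset.sum_congr rfl h2, Finset.sum_add_distrib, ← Finset.mul_sum]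
    rfl
  rw [mul_sub, h1, h.kappa hn l]
  ring

end AEG
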