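import Pool.Agent.AEG.Defs
import Pool.Agent.AEG.G1

set_option autoImplicit false

/-!
[AEG-G2] `tr (C-2)²`.  `G l m = ⟪y l, y m⟫ = Z l m - κ l - κ m`, `Z = kd + E`, `∑_m G l m = 0`.
`D2 b y = ∑_i (‖C b‖^2 - 4 ⟪C b, b⟫ + 4) = ∑_{l,m} G l m^2 - 4 ∑_l ‖y l‖^2 + 4 d` (`OrthonormalBasis.sum_inner_mul_inner`,
`sum_sq_norm_inner_right`, `Module.finrank_eq_card_basis b.toBasis`).  `∑_l ‖y l‖^2 = n - 2 ∑ κ = n - 1 - e1`.
`∑ G^2 = ∑ (Z - κ l - κ m)^2 = (n + s) - 4 ∑ κ l (1 + r l) + 2 n ∑ κ^2 + 2 (∑κ)^2`, with (kappa) `κ l = (r l + c)/n`, `c = (1-e1)/2`: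
`∑ κ = e1 + c = (1+e1)/2`, `∑ κ r = e2 + c e1`, `n ∑ κ^2 = e2 + 2 c e1 + c^2`; so `∑ G^2 = n + s - 1 - 2 e1 - 2 e2 + e1^2`.
Hence `D2 = s - 3n + 4d + 3 + 2 e1 - 2 e2 + e1^2`, and with `4 d = 2n + 2δ - 4`, `e2 = w + e1^2` the claim.
-/

namespace AEG

open Finset
open scoped InnerProductSpace

variable {V : Type*} [NormedAddCommGroup V] [InnerProductSpace ℝ V]

theorem g2_normC {ι : Type*} [Fintype ι] {κ' : Type*} [Fintype κ'] (b : OrthonormalBasis κ' ℝ V)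
    (y : ι → V) : ∑ i, ‖Fop y (b i)‖ ^ 2 = ∑ l, ∑ m, ⟪y l, y m⟫_ℝ ^ 2 := by
  have h1 : ∀ i, ‖Fop y (b i)‖ ^ 2 =
      ∑ l, ∑ m, (⟪y l, b i⟫_ℝ * ⟪b i, y m⟫_ℝ) * ⟪y l, y m⟫_ℝ := by
    intro i
    rw [← real_inner_self_eq_norm_sq, Fop_apply, sum_inner]
    refine sum_congr rfl fun l _ => ?_
    rw [inner_sum]
    refine sum_congr rfl fun m _ => ?_
    rw [real_inner_smul_left, real_inner_smul_right, real_inner_comm (b i) (y m)]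
    ring
  simp_rw [h1]
  rw [sum_comm]
  refine sum_congr rfl fun l _ => ?_
  rw [sum_comm]
  refine sum_congr rfl fun m _ => ?_
  rw [← sum_mul, b.sum_inner_mul_inner, sq]

theorem g2_innerC {ι : Type*} [Fintype ι] {κ' : Type*} [Fintype κ'] (b : OrthonormalBasis κ' ℝ V)
    (y : ι → V) : ∑ i, ⟪Fop y (b i), b i⟫_ℝ = ∑ l, ‖y l‖ ^ 2 := by
  have h1 : ∀ i, ⟪Fop y (b i), b i⟫_ℝ = ∑ l, ⟪y l, b i⟫_ℝ * ⟪b i, y l⟫_ℝ := by
    intro i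
    rw [Fop_apply, sum_inner]
    refine sum_congr rfl fun l _ => ?_
    rw [real_inner_smul_left, real_inner_comm (b i) (y l)]
  simp_rw [h1]
  rw [sum_comm]
  refine sum_congr rfl fun l _ => ?_
  rw [b.sum_inner_mul_inner, real_inner_self_eq_norm_sq]

theorem g2_D2 {ι : Type*} [Fintype ι] {κ' : Type*} [Fintype κ'] (b : OrthonormalBasis κ' ℝ V)
    (y : ι → V) : D2 b y = ∑ l, ∑ m, ⟪y l, y m⟫_ℝ ^ 2 - 4 * ∑ l, ‖y l‖ ^ 2 +
      4 * (Module.finrank ℝ V : ℝ) := by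
  have h1 : ∀ i, ‖Fop y (b i) - (2 : ℝ) • b i‖ ^ 2 =
      ‖Fop y (b i)‖ ^ 2 - 4 * ⟪Fop y (b i), b i⟫_ℝ + 4 := by
    intro i
    rw [norm_sub_sq_real, real_inner_smul_right, norm_smul, b.norm_eq_one]
    norm_num
    ring
  unfold D2
  simp_rw [h1]
  rw [sum_add_distrib, sum_sub_distrib, g2_normC, ← mul_sum, g2_innerC,
    Module.finrank_eq_card_basis b.toBasis, sum_const, nsmul_eq_mul, card_univ]
  ring

section sums

variable {ι : Type*} [DecidableEq ι] [Fintype ι] {E : ι → ι → ℝ} {κ : ι → ℝ} {y : ι → V}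

theorem g2_sum_rr (hn : 0 < nv ι) : ∑ l, rr E l = nv ι * e1 E := by
  unfold e1
  field_simp

theorem g2_sum_rr2 (hn : 0 < nv ι) : ∑ l, rr E l ^ 2 = nv ι * e2 E := by
  unfold e2
  field_simp

theorem g2_sum_one : ∑ _l : ι, (1 : ℝ) = nv ι := by
  simp [nv]

theorem g2_K (h : Frame E κ y) (hn : 0 < nv ι) : ∑ l, κ l = (1 + e1 E) / 2 := by
  have h1 : nv ι * ∑ l, κ l = nv ι * ((1 + e1 E) / 2) := by
    rw [mul_sum, sum_congr rfl fun l _ => h.kappa hn l, sum_add_distrib, g2_sum_rr hn,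
      sum_const, nsmul_eq_mul, card_univ]
    change nv ι * e1 E + nv ι * _ = _
    ring
  exact mul_left_cancel₀ hn.ne' h1

theorem g2_rk (h : Frame E κ y) (hn : 0 < nv ι) :
    ∑ l, rr E l * κ l = e2 E + (1 - e1 E) / 2 * e1 E := by
  have h1 : nv ι * ∑ l, rr E l * κ l = nv ι * (e2 E + (1 - e1 E) / 2 * e1 E) := by
    rw [mul_sum]
    have h2 : ∀ l, nv ι * (rr E l * κ l) = rr E l ^ 2 + (1 - e1 E) / 2 * rr E l := by
      intro l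
      have := h.kappa hn l
      linear_combination (rr E l) * this
    rw [sum_congr rfl fun l _ => h2 l, sum_add_distrib, ← mul_sum, g2_sum_rr hn, g2_sum_rr2 hn]
    ring
  exact mul_left_cancel₀ hn.ne' h1

theorem g2_kk (h : Frame E κ y) (hn : 0 < nv ι) :
    nv ι * ∑ l, κ l ^ 2 = e2 E + 2 * ((1 - e1 E) / 2) * e1 E + ((1 - e1 E) / 2) ^ 2 := by
  have h1 : nv ι * (nv ι * ∑ l, κ l ^ 2) =
      nv ι * (e2 E + 2 * ((1 - e1 E) / 2) * e1 E + ((1 - e1 E) / 2) ^ 2) := by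
    rw [mul_sum, mul_sum]
    have h2 : ∀ l, nv ι * (nv ι * κ l ^ 2) =
        rr E l ^ 2 + 2 * ((1 - e1 E) / 2) * rr E l + ((1 - e1 E) / 2) ^ 2 * 1 := by
      intro l
      have := h.kappa hn l
      linear_combination (nv ι * κ l + rr E l + (1 - e1 E) / 2) * this
    rw [sum_congr rfl fun l _ => h2 l, sum_add_distrib, sum_add_distrib, ← mul_sum, ← mul_sum,
      g2_sum_rr hn, g2_sum_rr2 hn, g2_sum_one]
    ring
  exact mul_left_cancel₀ hn.ne' h1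

theorem g2_row (h : Frame E κ y) (l : ι) :
    ∑ m, ⟪y l, y m⟫_ℝ ^ 2 = 1 + s2 E l + nv ι * κ l ^ 2 + ∑ m, κ m ^ 2 - 4 * κ l -
      2 * (rr E l * κ l) - 2 * ek E κ l + 2 * κ l * ∑ m, κ m := by
  have h1 : ∀ m, ⟪y l, y m⟫_ℝ ^ 2 = (if l = m then 1 - 2 * κ l - 2 * κ m else 0) + E l m ^ 2 +
      κ l ^ 2 * 1 + κ m ^ 2 - 2 * κ l * E l m - 2 * (E l m * κ m) + 2 * κ l * κ m := by
    intro m
    rw [h.gram l m, kd]
    split_ifs with hlm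
    · subst hlm
      rw [h.wt.diag]
      ring
    · ring
  rw [sum_congr rfl fun m _ => h1 m]
  simp only [sum_add_distrib, sum_sub_distrib, ← mul_sum]
  rw [g2_sum_one, sum_ite_eq, if_pos (mem_univ _)]
  unfold s2 rr ek
  ring

theorem g2_sum_ek (h : Frame E κ y) : ∑ l, ek E κ l = ∑ l, rr E l * κ l := by
  unfold ek rr
  rw [sum_comm]
  refine sum_congr rfl fun m _ => ?_
  rw [sum_mul]
  refine sum_congr rfl fun l _ => ?_
  rw [h.wt.symm]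

theorem g2_GG (h : Frame E κ y) (hn : 0 < nv ι) :
    ∑ l, ∑ m, ⟪y l, y m⟫_ℝ ^ 2 =
      nv ι + ∑ l, s2 E l - 2 * e2 E - 1 - 2 * e1 E + e1 E ^ 2 := by
  have h0 : ∑ l, ∑ m, ⟪y l, y m⟫_ℝ ^ 2 = nv ι + ∑ l, s2 E l + nv ι * ∑ l, κ l ^ 2 +
      nv ι * ∑ m, κ m ^ 2 - 4 * ∑ l, κ l - 2 * ∑ l, rr E l * κ l - 2 * ∑ l, rr E l * κ l +
      2 * (∑ l, κ l) ^ 2 := by
    rw [sum_congr rfl fun l _ => g2_row h l]
    have h3 : ∑ _l : ι, ∑ m, κ m ^ 2 = nv ι * ∑ m, κ m ^ 2 := by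
      rw [sum_const, nsmul_eq_mul, card_univ]
      rfl
    have h4 : ∑ l, 2 * κ l * ∑ m, κ m = 2 * (∑ l, κ l) ^ 2 := by
      rw [← sum_mul, ← mul_sum]
      ring
    simp only [sum_add_distrib, sum_sub_distrib]
    rw [h3, h4, g2_sum_one, ← mul_sum, ← mul_sum, ← mul_sum, ← mul_sum, g2_sum_ek h]
  rw [h0, g2_kk h hn, g2_K h hn, g2_rk h hn]
  ring

end sums

theorem Frame.D2_eq {ι : Type*} [DecidableEq ι] [Fintype ι] {E : ι → ι → ℝ} {κ : ι → ℝ}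
    {y : ι → V} (h : Frame E κ y) (hn : 0 < nv ι) {κ' : Type*} [Fintype κ']
    (b : OrthonormalBasis κ' ℝ V) :
    D2 b y = (∑ l, s2 E l) - nv ι + 2 * dl ι V - (e1 E - 1) ^ 2 - 2 * ww E := by
  have h1 : ∑ l, ‖y l‖ ^ 2 = nv ι - (1 + e1 E) := by
    have h2 : ∀ l, ‖y l‖ ^ 2 = 1 - 2 * κ l := by
      intro l
      rw [← real_inner_self_eq_norm_sq, h.gram, kd, if_pos rfl, h.wt.diag]
      ring
    rw [sum_congr rfl fun l _ => h2 l, sum_sub_distrib, g2_sum_one, ← mul_sum, g2_K h hn]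
    ring
  rw [g2_D2, g2_GG h hn, h1]
  unfold dl ww
  ring

end AEG
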