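import Pool.Agent.AEG.Defs
import Pool.Agent.AEG.G1
import Pool.Agent.AEG.G2

set_option autoImplicit false

/-!
[AEG-G3] the basic identity.  `n = nv ι`, `r = rr E`, `s = ∑ s2`, `c = (1-e1)/2`, `e3 = (1/n) ∑ r l (E r) l`, `b2 = n ‖γ‖^2`.
(i) `∑ uu = Fop y (∑ y) - 2 ∑ y = 0`, so by `vv_eq`: `∑ ‖vv l‖^2 = U2 y + b2`.
(ii) `one_sub` summed: `∑ ‖vv‖^2 = n - s - 2 ∑ (r l - 1)(ek l - κ l)`.
(iii) `ek_eq`: `∑ (r-1)(ek - κ) = (1/n) ∑ (r-1)((Er) - r + c (r-1)) = e3 - 2 e2 + e1 + c (e2 - 2 e1 + 1)` (`∑ (E r) l = ∑ r l^2`).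
(iv) `n κ m = r m + c` and `∑ y = 0` give `n γ = ∑ r m • y m`, so `b2 = (1/n) ∑_{l,m} r l r m (kd + E l m - κ l - κ m)
  = e2 + e3 - 2 e1 ∑ κ r = e2 + e3 - 2 e1 (e2 + c e1)`.
(v) eliminate `e3`: `U2 = n - s - 3 b2 + 5 w - 3 e1 w + e1^2 - e1^3 + e1 - 1` (with `e2 = w + e1^2`), and G2:
  `D2 = s - n + 2δ - (e1-1)^2 - 2w`.  The sum is `2δ - 3 b2 - 3 w (e1-1) - (e1^3 - 3 e1 + 2)` and `e1^3 - 3e1 + 2 = (e1-1)^2 (e1+2)`.
-/

namespace AEG

open Finset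
open scoped InnerProductSpace

variable {V : Type*} [NormedAddCommGroup V] [InnerProductSpace ℝ V]

theorem g3_normsq {ι : Type*} [Fintype ι] (y : ι → V) (r : ι → ℝ) :
    ‖∑ m, r m • y m‖ ^ 2 = ∑ l, ∑ m, r l * r m * ⟪y l, y m⟫_ℝ := by
  rw [← real_inner_self_eq_norm_sq, sum_inner]
  refine sum_congr rfl fun l _ => ?_
  rw [inner_sum]
  refine sum_congr rfl fun m _ => ?_
  rw [real_inner_smul_left, real_inner_smul_right]
  ring

/-- (i) above -/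
theorem Frame.sum_vv {ι : Type*} [DecidableEq ι] [Fintype ι] {E : ι → ι → ℝ} {κ : ι → ℝ}
    {y : ι → V} (h : Frame E κ y) :
    ∑ l, ‖vv E y l‖ ^ 2 = U2 y + nv ι * ‖gam κ y‖ ^ 2 := by
  have h0 : ∑ l, uu y l = 0 := by
    unfold uu
    rw [sum_sub_distrib, ← map_sum, ← smul_sum, h.sum0, map_zero, smul_zero, sub_zero]
  have h1 : ∀ l, ‖vv E y l‖ ^ 2 =
      ‖uu y l‖ ^ 2 + 2 * ⟪uu y l, gam κ y⟫_ℝ + ‖gam κ y‖ ^ 2 := by
    intro l
    rw [h.vv_eq, norm_add_sq_real]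
  rw [sum_congr rfl fun l _ => h1 l, sum_add_distrib, sum_add_distrib, ← mul_sum, ← sum_inner,
    h0, inner_zero_left, sum_const, nsmul_eq_mul, card_univ]
  unfold U2 nv
  ring

section sums

variable {ι : Type*} [DecidableEq ι] [Fintype ι] {E : ι → ι → ℝ} {κ : ι → ℝ} {y : ι → V}

theorem g3_sum_Er (h : Frame E κ y) (hn : 0 < nv ι) :
    ∑ l, ek E (rr E) l = nv ι * e2 E := by
  rw [← g2_sum_rr2 hn]
  unfold ek
  rw [sum_comm]
  refine sum_congr rfl fun m _ => ?_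
  have : ∀ l, E l m * rr E m = E m l * rr E m := fun l => by rw [h.wt.symm]
  rw [sum_congr rfl fun l _ => this l, ← sum_mul]
  unfold rr
  ring

theorem g3_iii (h : Frame E κ y) (hn : 0 < nv ι) :
    nv ι * ∑ l, (rr E l - 1) * (ek E κ l - κ l) =
      ∑ l, rr E l * ek E (rr E) l - nv ι * e2 E - nv ι * e2 E + nv ι * e1 E +
        (1 - e1 E) / 2 * (nv ι * e2 E - 2 * (nv ι * e1 E) + nv ι) := by
  rw [mul_sum]
  have h1 : ∀ l, nv ι * ((rr E l - 1) * (ek E κ l - κ l)) =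
      rr E l * ek E (rr E) l - ek E (rr E) l - rr E l ^ 2 + rr E l +
        (1 - e1 E) / 2 * (rr E l ^ 2) - (1 - e1 E) / 2 * 2 * rr E l + (1 - e1 E) / 2 * 1 := by
    intro l
    have := h.ek_eq hn l
    linear_combination (rr E l - 1) * this
  rw [sum_congr rfl fun l _ => h1 l]
  simp only [sum_add_distrib, sum_sub_distrib, ← mul_sum]
  rw [g3_sum_Er h hn, g2_sum_rr2 hn, g2_sum_rr hn, g2_sum_one]
  ring

theorem g3_gam (h : Frame E κ y) (hn : 0 < nv ι) :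
    nv ι • gam κ y = ∑ m, rr E m • y m := by
  unfold gam
  rw [smul_sum]
  have h1 : ∀ m, nv ι • κ m • y m = rr E m • y m + ((1 - e1 E) / 2) • y m := by
    intro m
    rw [smul_smul, h.kappa hn, add_smul]
  rw [sum_congr rfl fun m _ => h1 m, sum_add_distrib, ← smul_sum, h.sum0, smul_zero, add_zero]

theorem g3_b2 (h : Frame E κ y) (hn : 0 < nv ι) :
    nv ι * (nv ι * ‖gam κ y‖ ^ 2) = nv ι * e2 E + ∑ l, rr E l * ek E (rr E) l -
      2 * (nv ι * e1 E) * (e2 E + (1 - e1 E) / 2 * e1 E) := by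
  have h1 : nv ι * (nv ι * ‖gam κ y‖ ^ 2) = ‖nv ι • gam κ y‖ ^ 2 := by
    rw [norm_smul, Real.norm_eq_abs, abs_of_pos hn]
    ring
  rw [h1, g3_gam h hn, g3_normsq]
  have h2 : ∀ l, ∑ m, rr E l * rr E m * ⟪y l, y m⟫_ℝ = rr E l ^ 2 + rr E l * ek E (rr E) l -
      (rr E l * κ l) * (nv ι * e1 E) - rr E l * (e2 E + (1 - e1 E) / 2 * e1 E) := by
    intro l
    have h3 : ∀ m, rr E l * rr E m * ⟪y l, y m⟫_ℝ =
        (if l = m then rr E l * rr E m else 0) + rr E l * (E l m * rr E m) -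
        (rr E l * κ l) * rr E m - rr E l * (rr E m * κ m) := by
      intro m
      rw [h.gram, kd]
      split_ifs <;> ring
    rw [sum_congr rfl fun m _ => h3 m]
    simp only [sum_add_distrib, sum_sub_distrib, ← mul_sum]
    rw [sum_ite_eq, if_pos (mem_univ _), g2_sum_rr hn, g2_rk h hn]
    unfold ek
    ring
  rw [sum_congr rfl fun l _ => h2 l]
  simp only [sum_add_distrib, sum_sub_distrib, ← sum_mul]
  rw [g2_sum_rr hn, g2_rk h hn, g2_sum_rr2 hn]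
  ring

theorem g3_ii (h : Frame E κ y) :
    nv ι - ∑ l, s2 E l = ∑ l, ‖vv E y l‖ ^ 2 +
      2 * ∑ l, (rr E l - 1) * (ek E κ l - κ l) := by
  have h1 : ∀ l, (1 : ℝ) - s2 E l =
      ‖vv E y l‖ ^ 2 + 2 * ((rr E l - 1) * (ek E κ l - κ l)) := by
    intro l
    have := h.one_sub l
    linear_combination this
  rw [← g2_sum_one, ← sum_sub_distrib, sum_congr rfl fun l _ => h1 l, sum_add_distrib, ← mul_sum]

end sums

theorem Frame.basic {ι : Type*} [DecidableEq ι] [Fintype ι] {E : ι → ι → ℝ} {κ : ι → ℝ}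
    {y : ι → V} (h : Frame E κ y) (hn : 0 < nv ι) {κ' : Type*} [Fintype κ']
    (b : OrthonormalBasis κ' ℝ V) :
    D2 b y + U2 y + 3 * (nv ι * ‖gam κ y‖ ^ 2) + 3 * ww E * (e1 E - 1) +
      (e1 E - 1) ^ 2 * (e1 E + 2) = 2 * dl ι V := by
  have h1 := h.sum_vv
  have h2 := g3_ii h
  have h3 := g3_iii h hn
  have h4 := g3_b2 h hn
  have h5 := h.D2_eq hn b
  rw [h1] at h2
  set T := ∑ l, rr E l * ek E (rr E) l
  set X := ∑ l, (rr E l - 1) * (ek E κ l - κ l)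
  set B := nv ι * ‖gam κ y‖ ^ 2
  set n := nv ι
  have hT : T = n * (B - e2 E + 2 * e1 E * (e2 E + (1 - e1 E) / 2 * e1 E)) := by
    linear_combination -h4
  have hX : X = (B - e2 E + 2 * e1 E * (e2 E + (1 - e1 E) / 2 * e1 E)) - 2 * e2 E + e1 E +
      (1 - e1 E) / 2 * (e2 E - 2 * e1 E + 1) := by
    apply mul_left_cancel₀ hn.ne'
    rw [h3, hT]
    ring
  rw [h5]
  rw [hX] at h2
  have hw : e2 E = ww E + e1 E ^ 2 := by
    unfold ww
    ring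
  rw [hw] at h2
  linear_combination -h2

end AEG
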