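import Pool.Agent.AEG.Defs
import Pool.Agent.AEG.G1
import Pool.Agent.AEG.G2
import Pool.Agent.AEG.G3

set_option autoImplicit false

/-!
[AEG-G4] consequences.  `n = nv ι`, `δ = dl`, `0 ≤ E < 1` so `E^2 ≤ E` and `s = ∑ s2 ≤ ∑ r = n e1`; `e1 ≥ 0`; `D2, U2 ≥ 0`; `w ≥ 0` (variance:
`n ∑ r^2 ≥ (∑ r)^2`, `sq_sum_le_card_mul_sum_sq`).
(a) G2: `n (e1 - 1) ≥ s - n = D2 - 2δ + (e1-1)^2 + 2w ≥ 2w - 2δ`.
(b) `3 w (e1-1) ≥ 3 w (2w - 2δ)/n ≥ -(3/2) δ^2/n ≥ -(3/2) δ` (`w (w - δ) ≥ -δ^2/4`, `δ ≤ n`, `δ ≥ 0`); so G3 gives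
`D2 + U2 + 3 b2 + (e1-1)^2 (e1+2) ≤ (7/2) δ`, every summand being `≥ 0`.
(c) `(e1-1)^3 ≤ (e1-1)^2 (e1+2) ≤ (7/2) δ`.  (d) `3 w (e1-1) ≤ 2δ` from G3 (all the other terms are `≥ 0`).
(e) `s = D2 + n - 2δ + (e1-1)^2 + 2w ≤ n + (3/2) δ + (e1-1)^2 + 2w`.
-/

namespace AEG

open Finset
open scoped InnerProductSpace

variable {V : Type*} [NormedAddCommGroup V] [InnerProductSpace ℝ V]

theorem g4_s_le {ι : Type*} [Fintype ι] {E : ι → ι → ℝ} (hE : Wt E) :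
    ∑ l, s2 E l ≤ ∑ l, rr E l := by
  unfold s2 rr
  refine sum_le_sum fun l _ => sum_le_sum fun m _ => ?_
  have h1 := hE.nn l m
  have h2 := hE.lt l m
  nlinarith

theorem g4_ww {ι : Type*} [Fintype ι] {E : ι → ι → ℝ} (hn : 0 < nv ι) : 0 ≤ ww E := by
  classical
  have h1 : (∑ l, rr E l) ^ 2 ≤ nv ι * ∑ l, rr E l ^ 2 := by
    have := sq_sum_le_card_mul_sum_sq (s := (univ : Finset ι)) (f := fun l => rr E l)
    rw [card_univ] at this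
    exact this
  rw [g2_sum_rr hn, g2_sum_rr2 hn] at h1
  unfold ww
  have h2 : nv ι ^ 2 * (e1 E ^ 2) ≤ nv ι ^ 2 * e2 E := by nlinarith
  have h3 := le_of_mul_le_mul_left h2 (by positivity)
  linarith

theorem Frame.bounds {ι : Type*} [DecidableEq ι] [Fintype ι] {E : ι → ι → ℝ} {κ : ι → ℝ}
    {y : ι → V} (h : Frame E κ y) (hn : 0 < nv ι) {κ' : Type*} [Fintype κ']
    (b : OrthonormalBasis κ' ℝ V) (hδ : 0 ≤ dl ι V) (hδn : dl ι V ≤ nv ι) :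
    D2 b y + U2 y ≤ 7 / 2 * dl ι V ∧ nv ι * ‖gam κ y‖ ^ 2 ≤ 7 / 6 * dl ι V ∧
    (e1 E - 1) ^ 3 ≤ 7 / 2 * dl ι V ∧ 0 ≤ ww E ∧ ww E * (e1 E - 1) ≤ 2 / 3 * dl ι V ∧
    2 * ww E - 2 * dl ι V ≤ nv ι * (e1 E - 1) ∧ 0 ≤ e1 E ∧
    ∑ l, s2 E l ≤ nv ι + 3 / 2 * dl ι V + (e1 E - 1) ^ 2 + 2 * ww E := by
  have hs := g4_s_le h.wt
  rw [g2_sum_rr hn] at hs
  have hw := g4_ww (E := E) hn
  have he : 0 ≤ e1 E := by
    unfold e1
    exact div_nonneg (sum_nonneg fun l _ => sum_nonneg fun m _ => h.wt.nn l m) hn.le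
  have hD : 0 ≤ D2 b y := sum_nonneg fun i _ => by positivity
  have hU : 0 ≤ U2 y := sum_nonneg fun i _ => by positivity
  have hB : 0 ≤ nv ι * ‖gam κ y‖ ^ 2 := by positivity
  have h2 := h.D2_eq hn b
  have h3 := h.basic hn b
  generalize D2 b y = D at *
  generalize U2 y = U at *
  generalize nv ι * ‖gam κ y‖ ^ 2 = B at *
  generalize ww E = w at *
  generalize e1 E = e at *
  generalize (∑ l, s2 E l) = s at *
  generalize dl ι V = δ at *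
  generalize nv ι = n at *
  have ha : 2 * w - 2 * δ ≤ n * (e - 1) := by nlinarith [sq_nonneg (e - 1)]
  have hb : -(1 / 2) * δ ≤ w * (e - 1) := by
    have h5 : n * (-(1 / 2) * δ) ≤ n * (w * (e - 1)) := by
      have h6 : w * (2 * w - 2 * δ) ≤ w * (n * (e - 1)) := mul_le_mul_of_nonneg_left ha hw
      nlinarith [sq_nonneg (2 * w - δ), mul_nonneg hδ (sub_nonneg.mpr hδn)]
    exact le_of_mul_le_mul_left h5 hn
  have hc : 0 ≤ (e - 1) ^ 2 * (e + 2) := by positivity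
  refine ⟨by linarith, by linarith, ?_, hw, by linarith, ha, he, by linarith⟩
  have : (e - 1) ^ 3 ≤ (e - 1) ^ 2 * (e + 2) := by
    nlinarith [sq_nonneg (e - 1)]
  linarith

end AEG
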