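import Pool.Agent.AEG.Defs
import Pool.Agent.AEG.A2

set_option autoImplicit false

/-!
[AEG-K1] Kashin-Konyagin with a lower bound on the coefficients (uses `kk`).
If `J = ∅` trivial.  Otherwise `γ ≠ 0` (`β0 > 0`).  `Φ = ∑_J ⟪‖γ‖⁻¹ γ, w i⟫^2 = ∑_J ⟪γ, w i⟫^2 / ‖γ‖^2`.  `kk`: `Φ^3 ≤ 8 |J|`.  Summing `hβ`:
`|J| β0 ≤ N ‖γ‖^2 Φ`; so `8 |J| β0 ≤ 8 N‖γ‖^2 Φ ≤ F^2 β0 Φ`, i.e. `8|J| ≤ F^2 Φ`, hence `Φ^3 ≤ F^2 Φ`, `Φ ≤ F`, and `8|J| ≤ F^3`.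
-/

namespace AEG

open Finset
open scoped InnerProductSpace

variable {V : Type*} [NormedAddCommGroup V] [InnerProductSpace ℝ V]

theorem kk2 {ι : Type*} (J : Finset ι) (w : ι → V) (hw : ∀ i ∈ J, ‖w i‖ = 1) (hT : TF J w)
    (γ : V) (hpos : ∀ i ∈ J, 0 ≤ ⟪γ, w i⟫_ℝ) (N β0 F : ℝ) (hN : 0 < N) (hβ0 : 0 < β0)
    (hβ : ∀ i ∈ J, β0 ≤ N * ⟪γ, w i⟫_ℝ ^ 2) (hF0 : 0 ≤ F)
    (hF : 8 * (N * ‖γ‖ ^ 2) ≤ F ^ 2 * β0) :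
    ∑ i ∈ J, ⟪γ, w i⟫_ℝ ^ 2 ≤ ‖γ‖ ^ 2 * F ∧ 8 * (J.card : ℝ) ≤ F ^ 3 := by
  rcases J.eq_empty_or_nonempty with hJ | ⟨i0, hi0⟩
  · subst hJ
    refine ⟨?_, ?_⟩
    · rw [Finset.sum_empty]
      exact mul_nonneg (sq_nonneg _) hF0
    · rw [Finset.card_empty, Nat.cast_zero, mul_zero]
      exact pow_nonneg hF0 3
  have hγ : γ ≠ 0 := by
    intro h0
    have h1 := hβ i0 hi0
    rw [h0, inner_zero_left] at h1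
    have h2 : N * (0 : ℝ) ^ 2 = 0 := by ring
    rw [h2] at h1
    linarith
  have hg : 0 < ‖γ‖ := norm_pos_iff.2 hγ
  have hu : ‖(‖γ‖⁻¹ : ℝ) • γ‖ = 1 := by
    rw [norm_smul, norm_inv, norm_norm, inv_mul_cancel₀ hg.ne']
  have hk := kk J w hw hT ((‖γ‖⁻¹ : ℝ) • γ) hu.le (fun i hi => by
    rw [real_inner_smul_left]
    exact mul_nonneg (inv_nonneg.2 hg.le) (hpos i hi))
  have hS : ∑ i ∈ J, ⟪(‖γ‖⁻¹ : ℝ) • γ, w i⟫_ℝ ^ 2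
      = (∑ i ∈ J, ⟪γ, w i⟫_ℝ ^ 2) / ‖γ‖ ^ 2 := by
    rw [Finset.sum_div]
    refine Finset.sum_congr rfl (fun i _ => ?_)
    rw [real_inner_smul_left, mul_pow, inv_pow]
    field_simp
  rw [hS] at hk
  set S := ∑ i ∈ J, ⟪γ, w i⟫_ℝ ^ 2 with hSdef
  have hsum : (J.card : ℝ) * β0 ≤ N * S := by
    have h1 : ∑ _i ∈ J, β0 ≤ ∑ i ∈ J, N * ⟪γ, w i⟫_ℝ ^ 2 := Finset.sum_le_sum hβ
    rw [Finset.sum_const, nsmul_eq_mul, ← Finset.mul_sum] at h1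
    exact h1
  have hcard : (1 : ℝ) ≤ (J.card : ℝ) := by
    have : 1 ≤ J.card := Finset.card_pos.2 ⟨i0, hi0⟩
    exact_mod_cast this
  have hg2 : 0 < ‖γ‖ ^ 2 := by positivity
  have hSpos : 0 < S := by
    have h1 : 0 < N * S := lt_of_lt_of_le (by positivity) hsum
    exact (pos_iff_pos_of_mul_pos h1).1 hN
  set Φ := S / ‖γ‖ ^ 2 with hΦdef
  have hSΦ : S = ‖γ‖ ^ 2 * Φ := by
    rw [hΦdef]; field_simp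
  have hΦpos : 0 < Φ := div_pos hSpos hg2
  have h8 : 8 * (J.card : ℝ) ≤ F ^ 2 * Φ := by
    have h1 : 8 * (J.card : ℝ) * β0 ≤ F ^ 2 * Φ * β0 := by
      calc 8 * (J.card : ℝ) * β0 = 8 * ((J.card : ℝ) * β0) := by ring
        _ ≤ 8 * (N * S) := by linarith
        _ = 8 * (N * ‖γ‖ ^ 2) * Φ := by rw [hSΦ]; ring
        _ ≤ F ^ 2 * β0 * Φ := mul_le_mul_of_nonneg_right hF hΦpos.le
        _ = F ^ 2 * Φ * β0 := by ring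
    exact le_of_mul_le_mul_right h1 hβ0
  have h3 : Φ ^ 3 ≤ F ^ 2 * Φ := hk.trans h8
  have hsq : Φ ^ 2 ≤ F ^ 2 := by
    have h4 : Φ ^ 2 * Φ ≤ F ^ 2 * Φ := by
      calc Φ ^ 2 * Φ = Φ ^ 3 := by ring
        _ ≤ F ^ 2 * Φ := h3
    exact le_of_mul_le_mul_right h4 hΦpos
  have hΦF : Φ ≤ F := by
    exact (sq_le_sq₀ hΦpos.le hF0).1 hsq
  refine ⟨?_, ?_⟩
  · rw [hSΦ]
    exact mul_le_mul_of_nonneg_left hΦF hg2.le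
  · calc 8 * (J.card : ℝ) ≤ F ^ 2 * Φ := h8
      _ ≤ F ^ 2 * F := mul_le_mul_of_nonneg_left hΦF (sq_nonneg _)
      _ = F ^ 3 := by ring

end AEG
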