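import Pool.Agent.AEG.Defs
import Pool.Agent.AEG.G1

set_option autoImplicit false

/-!
[AEG-K3] row identities.  `n = nv ι`, `r = rr E`, `c = (1-e1)/2`, `e2 = ww + e1^2`, `γ = gam κ y`.
`n γ = ∑ r l • y l` (kappa: `n κ l = r l + c`, `∑ y = 0`).  `n ⟪γ, y m⟫ = ∑_l r l ⟪y l, y m⟫ = r m + (E r) m - ∑ r κ - n e1 κ m`,
`∑ r κ = (1/n) ∑ r (r + c) = e2 + c e1`, `n e1 κ m = e1 (r m + c)`.  So `(E r) m = n ⟪γ, y m⟫ + (e1 - 1) r m + e2 + 2 c e1` and `e2 + 2 c e1 = ww + e1`.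
`theta`: insert in `ek_eq`.
`ek_nonneg`: all terms are `≥ 0`.
-/

namespace AEG

open Finset
open scoped InnerProductSpace

variable {V : Type*} [NormedAddCommGroup V] [InnerProductSpace ℝ V]

private lemma k3_sum_r {ι : Type*} [Fintype ι] (E : ι → ι → ℝ) (hn : 0 < nv ι) :
    ∑ l, rr E l = nv ι * e1 E ∧ ∑ l, rr E l ^ 2 = nv ι * e2 E := by
  constructor
  · unfold e1
    field_simp
  · unfold e2
    field_simp

theorem Frame.sigma {ι : Type*} [DecidableEq ι] [Fintype ι] {E : ι → ι → ℝ} {κ : ι → ℝ}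
    {y : ι → V} (h : Frame E κ y) (hn : 0 < nv ι) (l : ι) :
    ek E (rr E) l = nv ι * ⟪gam κ y, y l⟫_ℝ + (e1 E - 1) * rr E l + ww E + e1 E := by
  have hk := h.kappa hn
  obtain ⟨hr1, hr2⟩ := k3_sum_r E hn
  set c := (1 - e1 E) / 2 with hc
  have hS : ∑ m, ⟪y m, y l⟫_ℝ = 0 := by rw [← sum_inner, h.sum0, inner_zero_left]
  have h1 : nv ι * ⟪gam κ y, y l⟫_ℝ = ∑ m, rr E m * ⟪y m, y l⟫_ℝ := by
    unfold gam
    rw [sum_inner, Finset.mul_sum]
    have h0 : ∀ m, nv ι * ⟪κ m • y m, y l⟫_ℝ = rr E m * ⟪y m, y l⟫_ℝ + c * ⟪y m, y l⟫_ℝ := by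
      intro m
      rw [real_inner_smul_left, ← mul_assoc, hk m]
      ring
    rw [Finset.sum_congr rfl (fun m _ => h0 m), Finset.sum_add_distrib, ← Finset.mul_sum, hS,
      mul_zero, add_zero]
  have h2 : ∑ m, rr E m * ⟪y m, y l⟫_ℝ =
      rr E l + ek E (rr E) l - (∑ m, rr E m * κ m) - (∑ m, rr E m) * κ l := by
    have h0 : ∀ m, rr E m * ⟪y m, y l⟫_ℝ =
        rr E m * kd m l + E l m * rr E m - rr E m * κ m - rr E m * κ l := by
      intro m
      rw [h.gram, h.wt.symm m l]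
      ring
    rw [Finset.sum_congr rfl (fun m _ => h0 m), Finset.sum_sub_distrib, Finset.sum_sub_distrib,
      Finset.sum_add_distrib, ← Finset.sum_mul]
    have h3 : ∑ m, rr E m * kd m l = rr E l := by simp [kd]
    rw [h3]
    rfl
  have h4 : nv ι * (∑ m, rr E m * κ m) = nv ι * (e2 E + c * e1 E) := by
    rw [Finset.mul_sum]
    have h0 : ∀ m, nv ι * (rr E m * κ m) = rr E m ^ 2 + c * rr E m := by
      intro m
      have := hk m
      calc nv ι * (rr E m * κ m) = rr E m * (nv ι * κ m) := by ring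
        _ = rr E m * (rr E m + c) := by rw [this]
        _ = _ := by ring
    rw [Finset.sum_congr rfl (fun m _ => h0 m), Finset.sum_add_distrib, ← Finset.mul_sum, hr1, hr2]
    ring
  have h5 : ∑ m, rr E m * κ m = e2 E + c * e1 E := mul_left_cancel₀ hn.ne' h4
  have h6 : (∑ m, rr E m) * κ l = e1 E * (rr E l + c) := by
    rw [hr1, ← hk l]
    ring
  rw [h1, h2, h5, h6]
  unfold ww
  rw [hc]
  ring

theorem Frame.theta {ι : Type*} [DecidableEq ι] [Fintype ι] {E : ι → ι → ℝ} {κ : ι → ℝ}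
    {y : ι → V} (h : Frame E κ y) (hn : 0 < nv ι) (l : ι) :
    nv ι * (ek E κ l - κ l) = nv ι * ⟪gam κ y, y l⟫_ℝ + ww E + e1 E + (e1 E - 1) / 2 +
      (e1 E - 3) / 2 * rr E l := by
  rw [h.ek_eq hn l, h.sigma hn l]
  ring

theorem Frame.ek_nonneg {ι : Type*} [DecidableEq ι] [Fintype ι] {E : ι → ι → ℝ} {κ : ι → ℝ}
    {y : ι → V} (h : Frame E κ y) (l : ι) : 0 ≤ ek E (rr E) l ∧ 0 ≤ rr E l := by
  have hr : ∀ m, 0 ≤ rr E m := fun m => Finset.sum_nonneg (fun p _ => h.wt.nn m p)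
  exact ⟨Finset.sum_nonneg (fun m _ => mul_nonneg (h.wt.nn l m) (hr m)), hr l⟩

end AEG
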