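import Pool.Agent.AEG.Defs
import Pool.Agent.AEG.G1
import Pool.Agent.AEG.K3

set_option autoImplicit false

/-!
[AEG-K4] mass bounds.  `n = nv ι`, `r = rr E p`, `σ = ek E (rr E) p ≥ 0`, `θ = ek E κ p - κ p`, `n θ = σ - r + ((1-e)/2)(r-1)` (`ek_eq`).
`mass`: if `r ≤ 1`: `s2 ≤ r ≤ 1` (`E^2 ≤ E`).  If `r > 1`: `one_sub` gives `s2 ≤ 1 - 2 (r-1) θ`, and `n θ ≥ -r - ((e-1)/2)(r-1) ≥ -(1 + e/2) r` (check `e ≥ 1` and
`e < 1` separately), so `s2 ≤ 1 + (2+e) r^2/n`.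
`mass_sum`: sum over `X`, `∑_X r^2/n ≤ e2 = ww + e1^2`.
`small_row`: `1 - r ≤ 1 - s2 = ‖vv‖^2 + 2 (r-1) θ = ‖vv‖^2 + 2 (1-r)(-θ)`, `-n θ ≤ r + ((1-e)/2)(1-r) ≤ 1 + 5/1000` (`σ ≥ 0`, `e ≥ 99/100`), and `0 < 1 - r ≤ 1`.
`sum_rr`: definition of `e1`.  `sum_rr2`: `∑ (r l)^2 = n (ww + e1^2)`.
-/

namespace AEG

open Finset
open scoped InnerProductSpace

variable {V : Type*} [NormedAddCommGroup V] [InnerProductSpace ℝ V]

private lemma k4_s2_le {ι : Type*} [Fintype ι] {E : ι → ι → ℝ} (h : Wt E) (p : ι) :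
    s2 E p ≤ rr E p := by
  unfold s2 rr
  apply Finset.sum_le_sum
  intro m _
  have h0 := h.nn p m
  have h1 := h.lt p m
  nlinarith

private lemma k4_sum_r {ι : Type*} [Fintype ι] (E : ι → ι → ℝ) (hn : 0 < nv ι) :
    ∑ l, rr E l = nv ι * e1 E ∧ ∑ l, rr E l ^ 2 = nv ι * (ww E + e1 E ^ 2) := by
  constructor
  · unfold e1
    field_simp
  · unfold ww e2
    field_simp
    ring

theorem Frame.mass {ι : Type*} [DecidableEq ι] [Fintype ι] {E : ι → ι → ℝ} {κ : ι → ℝ}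
    {y : ι → V} (h : Frame E κ y) (hn : 0 < nv ι) (he : 0 ≤ e1 E) (p : ι) :
    s2 E p ≤ 1 + (2 + e1 E) * rr E p ^ 2 / nv ι := by
  have hr0 : 0 ≤ rr E p := (h.ek_nonneg p).2
  have hs0 : 0 ≤ ek E (rr E) p := (h.ek_nonneg p).1
  have hq : 0 ≤ (2 + e1 E) * rr E p ^ 2 / nv ι := by positivity
  rcases le_or_gt (rr E p) 1 with h1 | h1
  · have := k4_s2_le h.wt p
    linarith
  · have e := h.one_sub p
    have e' := h.ek_eq hn p
    set θ := ek E κ p - κ p with hθ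
    have hv : 0 ≤ ‖vv E y p‖ ^ 2 := by positivity
    have hb : 2 * (rr E p - 1) * (-(nv ι * θ)) ≤ (2 + e1 E) * rr E p ^ 2 := by
      rw [e']
      have h3 : 0 ≤ (rr E p - 1) * ek E (rr E) p := mul_nonneg (by linarith) hs0
      have h4 : 0 ≤ e1 E * rr E p := mul_nonneg he hr0
      nlinarith [h3, h4, mul_nonneg he (sq_nonneg (rr E p - 1)), sq_nonneg (rr E p - 1)]
    have hc : -(2 * (rr E p - 1) * θ) ≤ (2 + e1 E) * rr E p ^ 2 / nv ι := by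
      rw [le_div_iff₀ hn]
      nlinarith [hb]
    linarith

theorem Frame.mass_sum {ι : Type*} [DecidableEq ι] [Fintype ι] {E : ι → ι → ℝ} {κ : ι → ℝ}
    {y : ι → V} (h : Frame E κ y) (hn : 0 < nv ι) (he : 0 ≤ e1 E) (X : Finset ι) :
    ∑ p ∈ X, s2 E p ≤ (X.card : ℝ) + (2 + e1 E) * (ww E + e1 E ^ 2) := by
  obtain ⟨_, hr2⟩ := k4_sum_r E hn
  have h1 : ∑ p ∈ X, s2 E p ≤ ∑ p ∈ X, (1 + (2 + e1 E) * rr E p ^ 2 / nv ι) :=
    Finset.sum_le_sum (fun p _ => h.mass hn he p)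
  have h2 : ∑ p ∈ X, (1 + (2 + e1 E) * rr E p ^ 2 / nv ι) =
      (X.card : ℝ) + (2 + e1 E) / nv ι * ∑ p ∈ X, rr E p ^ 2 := by
    rw [Finset.sum_add_distrib, Finset.mul_sum]
    congr 1
    · simp
    · apply Finset.sum_congr rfl
      intro p _
      ring
  have h3 : ∑ p ∈ X, rr E p ^ 2 ≤ ∑ p, rr E p ^ 2 :=
    Finset.sum_le_sum_of_subset_of_nonneg (Finset.subset_univ X) (fun p _ _ => sq_nonneg _)
  have h4 : (2 + e1 E) / nv ι * ∑ p ∈ X, rr E p ^ 2 ≤ (2 + e1 E) * (ww E + e1 E ^ 2) := by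
    calc (2 + e1 E) / nv ι * ∑ p ∈ X, rr E p ^ 2 ≤ (2 + e1 E) / nv ι * ∑ p, rr E p ^ 2 :=
          mul_le_mul_of_nonneg_left h3 (by positivity)
      _ = (2 + e1 E) * (ww E + e1 E ^ 2) := by
          rw [hr2]
          field_simp
  linarith

theorem Frame.small_row {ι : Type*} [DecidableEq ι] [Fintype ι] {E : ι → ι → ℝ} {κ : ι → ℝ}
    {y : ι → V} (h : Frame E κ y) (hn : 0 < nv ι) (he : 99 / 100 ≤ e1 E) (l : ι)
    (hl : rr E l < 1) : 1 - rr E l ≤ ‖vv E y l‖ ^ 2 + 201 / 100 / nv ι := by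
  have hs0 : 0 ≤ ek E (rr E) l := (h.ek_nonneg l).1
  have hr0 : 0 ≤ rr E l := (h.ek_nonneg l).2
  have e := h.one_sub l
  have e' := h.ek_eq hn l
  have hs := k4_s2_le h.wt l
  set θ := ek E κ l - κ l with hθ
  have h1 : -(nv ι * θ) ≤ 201 / 200 := by
    rw [e']
    have h2 : (1 - e1 E) / 2 ≤ 1 / 200 := by linarith
    have h3 : (1 - e1 E) / 2 * (1 - rr E l) ≤ 1 / 200 * (1 - rr E l) :=
      mul_le_mul_of_nonneg_right h2 (by linarith)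
    nlinarith [h3]
  have h4 : 2 * (rr E l - 1) * θ ≤ 201 / 100 / nv ι := by
    rw [le_div_iff₀ hn]
    have h5 : (1 - rr E l) * (-(nv ι * θ)) ≤ (1 - rr E l) * (201 / 200) :=
      mul_le_mul_of_nonneg_left h1 (by linarith)
    nlinarith [h5]
  linarith

theorem sum_rr {ι : Type*} [Fintype ι] (E : ι → ι → ℝ) (hn : 0 < nv ι) :
    ∑ l, rr E l = nv ι * e1 E ∧ ∑ l, rr E l ^ 2 = nv ι * (ww E + e1 E ^ 2) := by
  exact k4_sum_r E hn

end AEG
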