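import Pool.Agent.AEG.Defs

set_option autoImplicit false

/-!
[AEG-K6] Bessel-type inequalities on independent sets.
For real `c`: `‖∑_{J} c l • y l‖^2 = ∑_{l,m∈J} c l c m (kd l m + E l m - κ l - κ m) = ∑ c l^2 - 2 (∑ κ l c l)(∑ c l) ≤ ∑ c^2 + 2k (∑ |c|)^2 ≤ (1 + 2k|J|) ∑ c^2`
(`E l m = 0` on `J` for `l ≠ m`, `E l l = 0`).
`nbr_bessel`: `c l = ⟪y l, x⟫`: `∑ c^2 = ⟪∑ c l • y l, x⟫ ≤ ‖∑ c l • y l‖ ‖x‖`, square and cancel.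
`nbr_uu`: `⟪uu l, Fop y (uu l)⟫ = ∑_m ⟪y m, uu l⟫^2` and `⟪y m, uu l⟫ = ⟪y m, Fop y (y l)⟫ - 2 ⟪y m, y l⟫ = ⟪uu m, y l⟫` (`Fop` symmetric); sum over `l ∈ J` first and
use `nbr_bessel` with `x = uu m`: `≤ (1 + 2|J|k) ∑_m ‖uu m‖^2`.
`Fop_inner`: `⟪x, Fop y x⟫ = ∑ ⟪y l, x⟫^2`.
-/

namespace AEG

open Finset
open scoped InnerProductSpace

variable {V : Type*} [NormedAddCommGroup V] [InnerProductSpace ℝ V]

private theorem k6_Fop_inner2 {ι : Type*} [Fintype ι] (y : ι → V) (x z : V) :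
    ⟪x, Fop y z⟫_ℝ = ∑ l, ⟪y l, x⟫_ℝ * ⟪y l, z⟫_ℝ := by
  rw [Fop_apply, inner_sum]
  refine Finset.sum_congr rfl fun l _ => ?_
  rw [real_inner_smul_right, real_inner_comm x (y l)]
  ring

theorem Fop_inner {ι : Type*} [Fintype ι] (y : ι → V) (x : V) :
    ⟪x, Fop y x⟫_ℝ = ∑ l, ⟪y l, x⟫_ℝ ^ 2 := by
  rw [k6_Fop_inner2]
  exact Finset.sum_congr rfl fun l _ => (sq _).symm

private theorem k6_norm {ι : Type*} [DecidableEq ι] [Fintype ι] {E : ι → ι → ℝ} {κ : ι → ℝ}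
    {y : ι → V} (h : Frame E κ y) (J : Finset ι)
    (hJ : ∀ l ∈ J, ∀ m ∈ J, l ≠ m → E l m = 0) (k : ℝ) (hk0 : 0 ≤ k) (hk : ∀ l ∈ J, |κ l| ≤ k)
    (c : ι → ℝ) : ‖∑ l ∈ J, c l • y l‖ ^ 2 ≤ (1 + 2 * (J.card : ℝ) * k) * ∑ l ∈ J, c l ^ 2 := by
  have h1 : ‖∑ l ∈ J, c l • y l‖ ^ 2 =
      ∑ l ∈ J, c l ^ 2 - 2 * ((∑ l ∈ J, κ l * c l) * ∑ l ∈ J, c l) := by
    rw [← real_inner_self_eq_norm_sq, sum_inner]
    have e1 : ∀ l ∈ J, ⟪c l • y l, ∑ m ∈ J, c m • y m⟫_ℝ =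
        c l ^ 2 - κ l * c l * (∑ m ∈ J, c m) - c l * ∑ m ∈ J, κ m * c m := by
      intro l hl
      rw [inner_sum]
      have e2 : ∀ m ∈ J, ⟪c l • y l, c m • y m⟫_ℝ =
          (if l = m then c l * c m else 0) - κ l * c l * c m - c l * (κ m * c m) := by
        intro m hm
        rw [real_inner_smul_left, real_inner_smul_right, h.gram l m]
        have e3 : E l m = 0 := by
          by_cases hlm : l = m
          · rw [hlm, h.wt.diag]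
          · exact hJ l hl m hm hlm
        rw [e3, kd]
        split_ifs <;> ring
      rw [Finset.sum_congr rfl e2, Finset.sum_sub_distrib, Finset.sum_sub_distrib,
        Finset.sum_ite_eq J l (fun m => c l * c m), if_pos hl, ← Finset.mul_sum, ← Finset.mul_sum]
      ring
    rw [Finset.sum_congr rfl e1, Finset.sum_sub_distrib, Finset.sum_sub_distrib,
      ← Finset.sum_mul, ← Finset.sum_mul]
    ring
  have h2 : |∑ l ∈ J, κ l * c l| ≤ k * ∑ l ∈ J, |c l| := by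
    refine (Finset.abs_sum_le_sum_abs _ _).trans ?_
    rw [Finset.mul_sum]
    refine Finset.sum_le_sum fun l hl => ?_
    rw [abs_mul]
    exact mul_le_mul_of_nonneg_right (hk l hl) (abs_nonneg _)
  have h3 : |∑ l ∈ J, c l| ≤ ∑ l ∈ J, |c l| := Finset.abs_sum_le_sum_abs _ _
  have h4 : (∑ l ∈ J, |c l|) ^ 2 ≤ (J.card : ℝ) * ∑ l ∈ J, c l ^ 2 := by
    have := sq_sum_le_card_mul_sum_sq (s := J) (f := fun l => |c l|)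
    simpa only [sq_abs] using this
  have h0 : 0 ≤ ∑ l ∈ J, |c l| := Finset.sum_nonneg fun _ _ => abs_nonneg _
  have h5 : |(∑ l ∈ J, κ l * c l) * ∑ l ∈ J, c l| ≤ k * (∑ l ∈ J, |c l|) ^ 2 := by
    rw [abs_mul]
    calc |∑ l ∈ J, κ l * c l| * |∑ l ∈ J, c l|
        ≤ (k * ∑ l ∈ J, |c l|) * ∑ l ∈ J, |c l| :=
          mul_le_mul h2 h3 (abs_nonneg _) (mul_nonneg hk0 h0)
      _ = k * (∑ l ∈ J, |c l|) ^ 2 := by ring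
  have h6 := neg_abs_le ((∑ l ∈ J, κ l * c l) * ∑ l ∈ J, c l)
  have h7 : k * (∑ l ∈ J, |c l|) ^ 2 ≤ k * ((J.card : ℝ) * ∑ l ∈ J, c l ^ 2) :=
    mul_le_mul_of_nonneg_left h4 hk0
  rw [h1]
  nlinarith

theorem Frame.nbr_bessel {ι : Type*} [DecidableEq ι] [Fintype ι] {E : ι → ι → ℝ} {κ : ι → ℝ}
    {y : ι → V} (h : Frame E κ y) (J : Finset ι)
    (hJ : ∀ l ∈ J, ∀ m ∈ J, l ≠ m → E l m = 0) (k : ℝ) (hk0 : 0 ≤ k) (hk : ∀ l ∈ J, |κ l| ≤ k)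
    (x : V) : ∑ l ∈ J, ⟪y l, x⟫_ℝ ^ 2 ≤ (1 + 2 * (J.card : ℝ) * k) * ‖x‖ ^ 2 := by
  have h1 := k6_norm h J hJ k hk0 hk (fun l => ⟪y l, x⟫_ℝ)
  set Q : ℝ := ∑ l ∈ J, ⟪y l, x⟫_ℝ ^ 2 with hQ
  have h2 : Q = ⟪∑ l ∈ J, ⟪y l, x⟫_ℝ • y l, x⟫_ℝ := by
    rw [sum_inner]
    refine Finset.sum_congr rfl fun l _ => ?_
    rw [real_inner_smul_left, sq]
  have h3 : Q ≤ ‖∑ l ∈ J, ⟪y l, x⟫_ℝ • y l‖ * ‖x‖ := by
    rw [h2]
    exact real_inner_le_norm _ _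
  have hQ0 : 0 ≤ Q := Finset.sum_nonneg fun _ _ => sq_nonneg _
  have h4 : Q ^ 2 ≤ (1 + 2 * (J.card : ℝ) * k) * Q * ‖x‖ ^ 2 := by
    calc Q ^ 2 ≤ (‖∑ l ∈ J, ⟪y l, x⟫_ℝ • y l‖ * ‖x‖) ^ 2 := pow_le_pow_left₀ hQ0 h3 2
      _ = ‖∑ l ∈ J, ⟪y l, x⟫_ℝ • y l‖ ^ 2 * ‖x‖ ^ 2 := by ring
      _ ≤ _ := mul_le_mul_of_nonneg_right h1 (sq_nonneg _)
  have hc : 0 ≤ 1 + 2 * (J.card : ℝ) * k := by positivity
  rcases hQ0.lt_or_eq with hpos | h0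
  · have : Q * Q ≤ Q * ((1 + 2 * (J.card : ℝ) * k) * ‖x‖ ^ 2) := by nlinarith
    exact le_of_mul_le_mul_left this hpos
  · rw [← h0]
    positivity

theorem Frame.nbr_uu {ι : Type*} [DecidableEq ι] [Fintype ι] {E : ι → ι → ℝ} {κ : ι → ℝ}
    {y : ι → V} (h : Frame E κ y) (J : Finset ι)
    (hJ : ∀ l ∈ J, ∀ m ∈ J, l ≠ m → E l m = 0) (k : ℝ) (hk0 : 0 ≤ k) (hk : ∀ l ∈ J, |κ l| ≤ k) :
    ∑ l ∈ J, ⟪uu y l, Fop y (uu y l)⟫_ℝ ≤ (1 + 2 * (J.card : ℝ) * k) * U2 y := by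
  have e1 : ∀ l m : ι, ⟪y m, uu y l⟫_ℝ = ⟪y l, uu y m⟫_ℝ := by
    intro l m
    rw [uu, uu, inner_sub_right, inner_sub_right, k6_Fop_inner2, k6_Fop_inner2,
      real_inner_smul_right, real_inner_smul_right, real_inner_comm (y m) (y l)]
    congr 1
    exact Finset.sum_congr rfl fun p _ => mul_comm _ _
  have e2 : ∑ l ∈ J, ⟪uu y l, Fop y (uu y l)⟫_ℝ = ∑ m, ∑ l ∈ J, ⟪y l, uu y m⟫_ℝ ^ 2 := by
    rw [Finset.sum_comm]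
    refine Finset.sum_congr rfl fun l _ => ?_
    rw [Fop_inner]
    refine Finset.sum_congr rfl fun m _ => ?_
    rw [e1]
  rw [e2, U2, Finset.mul_sum]
  exact Finset.sum_le_sum fun m _ => h.nbr_bessel J hJ k hk0 hk (uu y m)

end AEG
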