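import Pool.Agent.AEG.Defs
import Pool.Agent.AEG.Defs2
import Pool.Agent.AEG.G3
import Pool.Agent.AEG.G4

set_option autoImplicit false

/-!
[AEG-K7] the parameters.  `δ = dl`, `e = e1`, `w = ww`, `n = nv ι = ν^4`, `b = stdOrthonormalBasis ℝ V`.
`t ≥ 3/2` (`t^3 = 7/2 δ ≥ 7/2 > 27/8`); `δ = (2/7) t^3 ≤ t^4 ≤ n / 10^32`, so `10 δ ≤ n`, `δ ≤ n`, and `bounds` applies:
`D2 + U2 ≤ (7/2) δ = t^3`; `n‖γ‖^2 ≤ (7/6) δ = t^3/3`; `(e-1)^3 ≤ t^3` so `e ≤ 1 + t ≤ (5/3) t`; `w (e-1) ≤ (2/3) δ = (4/21) t^3`; `n (e-1) ≥ 2w - 2δ ≥ -2δ ≥ -n/100`.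
`x = √(t^3 e)`: `x^2 ≤ (5/3) t^4 ≤ (4/3 t^2)^2`; `x^2 ≥ 0.99 t^3`.
`wx`: if `e ≥ 2`: `w ≤ w (e-1) ≤ t^3`.  If `e < 2`: either `w ≤ 2δ ≤ t^3`, or `n (e-1) ≥ w`, `w^2 ≤ n w (e-1) ≤ (4/21) t^3 ν^4 ≤ x^2 ν^4`, `w ≤ x ν^2`.
`R := ν^2 / √(10^7 (w + ν^2))`, so `R^2 (w + ν^2) = ν^4/10^7`, `10^7 R^2 ≤ ν^2`.  `w + ν^2 ≤ t^3 + (4/3) t^2 ν^2 + ν^2 ≤ 3 t^2 ν^2`, so `R^2 ≥ ν^2/(3·10^7 t^2) ≥ 4`.
`eR`: `e^2 (w + ν^2) ≤ ν^4/10^7`: `e^2 ν^2 ≤ (25/9) t^2 ν^2`, and `e^2 w`: for `e ≥ 2` `e w ≤ 2 (e-1) w ≤ (8/21) t^3`, `e^2 w ≤ t^4`; for `e < 2` `e^2 w ≤ 4 (t^3 + (4/3) t^2 ν^2)`.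
`eRν`: `e ≤ (5/3) t ≤ ν`, `R ≤ ν/1000`.
`ms`: `e ≥ 2`: `(2+e)(w+e^2) ≤ 2 e w + 2 e^3 ≤ t^3 + 10 t^3`; `e < 2`: `≤ 4w + 16 ≤ 4w + 5 t^3` (`16 ≤ 5 · 27/8`).
-/

namespace AEG

open Finset
open scoped InnerProductSpace

variable {V : Type*} [NormedAddCommGroup V] [InnerProductSpace ℝ V]

private theorem k7_real (t ν e w : ℝ) (ht : 3 / 2 ≤ t) (hνt : 10 ^ 8 * t ≤ ν)
    (he : 99 / 100 ≤ e) (het : e ≤ 5 / 3 * t) (hw : 0 ≤ w) (hwe : w * (e - 1) ≤ 4 / 21 * t ^ 3)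
    (hn : 2 * w - 4 / 7 * t ^ 3 ≤ ν ^ 4 * (e - 1)) :
    ∃ x R : ℝ, w ≤ t ^ 3 + x * ν ^ 2 ∧ 0 ≤ x ∧ x ^ 2 = t ^ 3 * e ∧ x ≤ 4 / 3 * t ^ 2 ∧
      t ^ 3 ≤ 102 / 100 * x ^ 2 ∧ 2 ≤ R ∧ e ≤ R ∧ 10 ^ 7 * R ^ 2 ≤ ν ^ 2 ∧
      R ^ 2 * (w + ν ^ 2) = ν ^ 4 / 10 ^ 7 ∧ 4 * (e * R) ≤ ν ^ 2 ∧
      (2 + e) * (w + e ^ 2) ≤ 21 * t ^ 3 + 4 * w := by
  have ht0 : 0 < t := by linarith
  have hν0 : 0 < ν := by linarith
  have hν1 : 1 ≤ ν := by linarith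
  have ht3 : 27 / 8 ≤ t ^ 3 := by
    have h0 := pow_le_pow_left₀ (by norm_num : (0 : ℝ) ≤ 3 / 2) ht 3
    norm_num at h0
    linarith
  have ht2 : 9 / 4 ≤ t ^ 2 := by
    have h0 := pow_le_pow_left₀ (by norm_num : (0 : ℝ) ≤ 3 / 2) ht 2
    norm_num at h0
    linarith
  have ht3' : 0 < t ^ 3 := by positivity
  have he0 : 0 < e := by linarith
  have hx2 : Real.sqrt (t ^ 3 * e) ^ 2 = t ^ 3 * e := Real.sq_sqrt (by positivity)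
  have hx0 : 0 ≤ Real.sqrt (t ^ 3 * e) := Real.sqrt_nonneg _
  set x := Real.sqrt (t ^ 3 * e) with hx
  have hxt : x ≤ 4 / 3 * t ^ 2 := by
    refine abs_le_of_sq_le_sq' ?_ (by positivity) |>.2
    rw [hx2]
    have : t ^ 3 * e ≤ t ^ 3 * (5 / 3 * t) := mul_le_mul_of_nonneg_left het ht3'.le
    have h4 : 0 ≤ t ^ 4 := by positivity
    have h5 : t ^ 3 * (5 / 3 * t) = 5 / 3 * t ^ 4 := by ring
    have h6 : (4 / 3 * t ^ 2) ^ 2 = 16 / 9 * t ^ 4 := by ring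
    rw [h6]
    linarith
  have htx : t ^ 3 ≤ 102 / 100 * x ^ 2 := by
    rw [hx2]
    have h0 : t ^ 3 * (99 / 100) ≤ t ^ 3 * e := mul_le_mul_of_nonneg_left he ht3'.le
    linarith
  have hwx : w ≤ t ^ 3 + x * ν ^ 2 := by
    have hxν : 0 ≤ x * ν ^ 2 := by positivity
    by_cases h1 : w ≤ t ^ 3
    · linarith
    · push Not at h1
      have h2 : w ≤ ν ^ 4 * (e - 1) := by linarith
      have h3 : w ^ 2 ≤ (x * ν ^ 2) ^ 2 := by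
        have h4 : w * w ≤ w * (ν ^ 4 * (e - 1)) := mul_le_mul_of_nonneg_left h2 hw
        have h5 : ν ^ 4 * (w * (e - 1)) ≤ ν ^ 4 * (4 / 21 * t ^ 3) :=
          mul_le_mul_of_nonneg_left hwe (by positivity)
        have h6 : (x * ν ^ 2) ^ 2 = t ^ 3 * e * ν ^ 4 := by rw [mul_pow, hx2]; ring
        rw [h6]
        have h7 : 0 ≤ t ^ 3 * ν ^ 4 * (e - 4 / 21) :=
          mul_nonneg (by positivity) (by linarith)
        calc w ^ 2 = w * w := by ring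
          _ ≤ w * (ν ^ 4 * (e - 1)) := h4
          _ = ν ^ 4 * (w * (e - 1)) := by ring
          _ ≤ ν ^ 4 * (4 / 21 * t ^ 3) := h5
          _ = t ^ 3 * e * ν ^ 4 - t ^ 3 * ν ^ 4 * (e - 4 / 21) := by ring
          _ ≤ t ^ 3 * e * ν ^ 4 := by linarith
      have := abs_le_of_sq_le_sq' h3 hxν |>.2
      linarith
  have hν2 : 0 < ν ^ 2 := by positivity
  have hwν : 0 < w + ν ^ 2 := by positivity
  have hwb : w + ν ^ 2 ≤ 3 * t ^ 2 * ν ^ 2 := by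
    have h1 : x * ν ^ 2 ≤ 4 / 3 * t ^ 2 * ν ^ 2 := mul_le_mul_of_nonneg_right hxt hν2.le
    have h2 : t ≤ ν / 10 ^ 8 := by rw [le_div_iff₀ (by norm_num)]; linarith
    have h3 : t ^ 3 ≤ t ^ 2 * ν ^ 2 / 2 := by
      have h40 : ν ≤ ν ^ 2 := le_self_pow₀ hν1 two_ne_zero
      have h4 : t ≤ ν ^ 2 / 2 := by linarith
      calc t ^ 3 = t ^ 2 * t := by ring
        _ ≤ t ^ 2 * (ν ^ 2 / 2) := mul_le_mul_of_nonneg_left h4 (by positivity)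
        _ = t ^ 2 * ν ^ 2 / 2 := by ring
    have h5 : 9 / 4 * ν ^ 2 ≤ t ^ 2 * ν ^ 2 := mul_le_mul_of_nonneg_right ht2 hν2.le
    have h6 : 4 / 3 * t ^ 2 * ν ^ 2 = 4 / 3 * (t ^ 2 * ν ^ 2) := by ring
    have h7 : 3 * t ^ 2 * ν ^ 2 = 3 * (t ^ 2 * ν ^ 2) := by ring
    have h8 : 0 ≤ t ^ 2 * ν ^ 2 := by positivity
    rw [h7]
    rw [h6] at h1
    linarith
  have hS : 0 < (10 : ℝ) ^ 7 * (w + ν ^ 2) := by positivity
  have hsq := Real.sq_sqrt hS.le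
  have hsp : 0 < Real.sqrt (10 ^ 7 * (w + ν ^ 2)) := Real.sqrt_pos.2 hS
  set S := Real.sqrt (10 ^ 7 * (w + ν ^ 2)) with hSd
  have hR0 : 0 < ν ^ 2 / S := by positivity
  have hRsq : (ν ^ 2 / S) ^ 2 = ν ^ 4 / (10 ^ 7 * (w + ν ^ 2)) := by
    rw [div_pow, hsq]; ring
  set R := ν ^ 2 / S with hR
  have hRw : R ^ 2 * (w + ν ^ 2) = ν ^ 4 / 10 ^ 7 := by
    rw [hRsq]; field_simp
  clear_value R S x
  have hRν : 10 ^ 7 * R ^ 2 ≤ ν ^ 2 := by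
    have h1 : R ^ 2 * ν ^ 2 ≤ ν ^ 4 / 10 ^ 7 := by
      rw [← hRw]
      exact mul_le_mul_of_nonneg_left (by linarith) (by positivity)
    have h2 : 10 ^ 7 * R ^ 2 * ν ^ 2 ≤ ν ^ 2 * ν ^ 2 := by
      calc 10 ^ 7 * R ^ 2 * ν ^ 2 = 10 ^ 7 * (R ^ 2 * ν ^ 2) := by ring
        _ ≤ 10 ^ 7 * (ν ^ 4 / 10 ^ 7) := mul_le_mul_of_nonneg_left h1 (by norm_num)
        _ = ν ^ 2 * ν ^ 2 := by ring
    exact le_of_mul_le_mul_right h2 hν2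
  have ht2ν : 10 ^ 16 * t ^ 2 ≤ ν ^ 2 := by
    calc 10 ^ 16 * t ^ 2 = (10 ^ 8 * t) ^ 2 := by ring
      _ ≤ ν ^ 2 := by gcongr
  have hkey : ∀ z : ℝ, 0 ≤ z → z ^ 2 * (w + ν ^ 2) ≤ ν ^ 4 / 10 ^ 7 → z ≤ R := by
    intro z hz h
    rw [← hRw] at h
    have := le_of_mul_le_mul_right h hwν
    exact abs_le_of_sq_le_sq' this hR0.le |>.2
  have hR2 : 2 ≤ R := by
    refine hkey 2 (by norm_num) ?_
    have h1 : 10 ^ 16 * t ^ 2 * ν ^ 2 ≤ ν ^ 2 * ν ^ 2 := mul_le_mul_of_nonneg_right ht2ν hν2.le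
    have h2 : 0 ≤ t ^ 2 * ν ^ 2 := by positivity
    rw [le_div_iff₀ (by norm_num)]
    have h3 : 10 ^ 16 * t ^ 2 * ν ^ 2 = 10 ^ 16 * (t ^ 2 * ν ^ 2) := by ring
    have h4 : ν ^ 2 * ν ^ 2 = ν ^ 4 := by ring
    have h5 : 3 * t ^ 2 * ν ^ 2 = 3 * (t ^ 2 * ν ^ 2) := by ring
    rw [h3, h4] at h1
    rw [h5] at hwb
    calc (2 : ℝ) ^ 2 * (w + ν ^ 2) * 10 ^ 7 = 4 * 10 ^ 7 * (w + ν ^ 2) := by ring
      _ ≤ 4 * 10 ^ 7 * (3 * (t ^ 2 * ν ^ 2)) := mul_le_mul_of_nonneg_left hwb (by norm_num)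
      _ = 12 * 10 ^ 7 * (t ^ 2 * ν ^ 2) := by ring
      _ ≤ 10 ^ 16 * (t ^ 2 * ν ^ 2) := mul_le_mul_of_nonneg_right (by norm_num) h2
      _ ≤ ν ^ 4 := h1
  have h16 : 10 ^ 16 * (t ^ 2 * ν ^ 2) ≤ ν ^ 4 := by
    calc 10 ^ 16 * (t ^ 2 * ν ^ 2) = 10 ^ 16 * t ^ 2 * ν ^ 2 := by ring
      _ ≤ ν ^ 2 * ν ^ 2 := mul_le_mul_of_nonneg_right ht2ν hν2.le
      _ = ν ^ 4 := by ring
  have ht4 : t ^ 4 ≤ t ^ 2 * ν ^ 2 := by
    have h1 : t ^ 2 ≤ ν ^ 2 := pow_le_pow_left₀ ht0.le (by linarith) 2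
    calc t ^ 4 = t ^ 2 * t ^ 2 := by ring
      _ ≤ t ^ 2 * ν ^ 2 := mul_le_mul_of_nonneg_left h1 (by positivity)
  have ht34 : t ^ 3 ≤ t ^ 4 := by
    calc t ^ 3 = t ^ 3 * 1 := by ring
      _ ≤ t ^ 3 * t := mul_le_mul_of_nonneg_left (by linarith) ht3'.le
      _ = t ^ 4 := by ring
  have hP : 0 ≤ t ^ 2 * ν ^ 2 := by positivity
  have he2 : e ^ 2 ≤ 25 / 9 * t ^ 2 := by
    calc e ^ 2 ≤ (5 / 3 * t) ^ 2 := by gcongr
      _ = 25 / 9 * t ^ 2 := by ring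
  have he2ν : e ^ 2 * ν ^ 2 ≤ 25 / 9 * (t ^ 2 * ν ^ 2) := by
    calc e ^ 2 * ν ^ 2 ≤ 25 / 9 * t ^ 2 * ν ^ 2 := mul_le_mul_of_nonneg_right he2 hν2.le
      _ = _ := by ring
  have he2w : e ^ 2 * w ≤ 10 * (t ^ 2 * ν ^ 2) := by
    by_cases h2 : 2 ≤ e
    · have h3 : e * w ≤ 2 * (w * (e - 1)) := by
        have h30 : 0 ≤ w * (e - 2) := mul_nonneg hw (by linarith)
        have h31 : 2 * (w * (e - 1)) - e * w = w * (e - 2) := by ring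
        linarith
      have h4 : e * w ≤ 8 / 21 * t ^ 3 := by linarith
      have h5 : e * (e * w) ≤ e * (8 / 21 * t ^ 3) := mul_le_mul_of_nonneg_left h4 he0.le
      have h6 : e * (8 / 21 * t ^ 3) ≤ 5 / 3 * t * (8 / 21 * t ^ 3) :=
        mul_le_mul_of_nonneg_right het (by positivity)
      have h7 : 5 / 3 * t * (8 / 21 * t ^ 3) = 40 / 63 * t ^ 4 := by ring
      have h8 : e ^ 2 * w = e * (e * w) := by ring
      rw [h8]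
      rw [h7] at h6
      linarith
    · push Not at h2
      have h3 : e ^ 2 * w ≤ 4 * w := by
        refine mul_le_mul_of_nonneg_right ?_ hw
        have h30 := pow_le_pow_left₀ he0.le h2.le 2
        norm_num at h30
        exact h30
      have h4 : x * ν ^ 2 ≤ 4 / 3 * t ^ 2 * ν ^ 2 := mul_le_mul_of_nonneg_right hxt hν2.le
      have h5 : 4 / 3 * t ^ 2 * ν ^ 2 = 4 / 3 * (t ^ 2 * ν ^ 2) := by ring
      rw [h5] at h4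
      linarith
  have heR : e ≤ R := by
    refine hkey e he0.le ?_
    rw [le_div_iff₀ (by norm_num)]
    calc e ^ 2 * (w + ν ^ 2) * 10 ^ 7 = 10 ^ 7 * (e ^ 2 * w + e ^ 2 * ν ^ 2) := by ring
      _ ≤ 10 ^ 7 * (10 * (t ^ 2 * ν ^ 2) + 25 / 9 * (t ^ 2 * ν ^ 2)) :=
        mul_le_mul_of_nonneg_left (add_le_add he2w he2ν) (by norm_num)
      _ = (10 ^ 7 * (10 + 25 / 9)) * (t ^ 2 * ν ^ 2) := by ring
      _ ≤ 10 ^ 16 * (t ^ 2 * ν ^ 2) := mul_le_mul_of_nonneg_right (by norm_num) hP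
      _ ≤ ν ^ 4 := h16
  have hRle : R ≤ ν / 1000 := by
    refine abs_le_of_sq_le_sq' ?_ (by positivity) |>.2
    have h1 : (ν / 1000) ^ 2 = ν ^ 2 / 1000000 := by ring
    rw [h1, le_div_iff₀ (by norm_num)]
    have h2 := sq_nonneg R
    linarith
  have heν : e ≤ ν := by linarith
  refine ⟨x, R, hwx, hx0, hx2, hxt, htx, hR2, heR, hRν, hRw, ?_, ?_⟩
  · have h1 : e * R ≤ ν * (ν / 1000) := mul_le_mul heν hRle hR0.le hν0.le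
    have h2 : ν * (ν / 1000) = ν ^ 2 / 1000 := by ring
    rw [h2] at h1
    linarith
  · by_cases h2 : 2 ≤ e
    · have h3 : e * w ≤ 2 * (w * (e - 1)) := by
        have h30 : 0 ≤ w * (e - 2) := mul_nonneg hw (by linarith)
        have h31 : 2 * (w * (e - 1)) - e * w = w * (e - 2) := by ring
        linarith
      have h4 : e * w ≤ 8 / 21 * t ^ 3 := by linarith
      have h5 : (2 + e) * (w + e ^ 2) ≤ 2 * e * (w + e ^ 2) :=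
        mul_le_mul_of_nonneg_right (by linarith) (by positivity)
      have h6 : e ^ 3 ≤ (5 / 3 * t) ^ 3 := by gcongr
      have h7 : (5 / 3 * t) ^ 3 = 125 / 27 * t ^ 3 := by ring
      have h8 : 2 * e * (w + e ^ 2) = 2 * (e * w) + 2 * e ^ 3 := by ring
      rw [h7] at h6
      rw [h8] at h5
      linarith
    · push Not at h2
      have h3 : (2 + e) * w ≤ 4 * w := mul_le_mul_of_nonneg_right (by linarith) hw
      have h40 : e ^ 2 ≤ 4 := by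
        have h30 := pow_le_pow_left₀ he0.le h2.le 2
        norm_num at h30
        exact h30
      have h4 : (2 + e) * e ^ 2 ≤ 4 * 4 := mul_le_mul (by linarith) h40
        (by positivity) (by norm_num)
      have h5 : (2 + e) * (w + e ^ 2) = (2 + e) * w + (2 + e) * e ^ 2 := by ring
      rw [h5]
      linarith

theorem exists_facts [FiniteDimensional ℝ V] {ι : Type*} [DecidableEq ι] [Fintype ι]
    {E : ι → ι → ℝ} {κ : ι → ℝ} {y : ι → V} (h : Frame E κ y) (t ν : ℝ) (hδ : 1 ≤ dl ι V)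
    (ht : 0 ≤ t) (ht3 : t ^ 3 = 7 / 2 * dl ι V) (hν : nv ι = ν ^ 4) (hνt : 10 ^ 8 * t ≤ ν) :
    ∃ x R : ℝ, Facts E κ y t ν x R := by
  have ht15 : 3 / 2 ≤ t := by
    by_contra hc
    push Not at hc
    have : t ^ 3 ≤ (3 / 2) ^ 3 := by gcongr
    norm_num at this
    linarith
  have ht0 : 0 < t := by linarith
  have hν0 : 0 < ν := by linarith
  have hn0 : 0 < nv ι := by rw [hν]; positivity
  have h34 : t ^ 3 ≤ t ^ 4 := by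
    calc t ^ 3 = t ^ 3 * 1 := by ring
      _ ≤ t ^ 3 * t := mul_le_mul_of_nonneg_left (by linarith) (by positivity)
      _ = t ^ 4 := by ring
  have h4 : 10 ^ 32 * t ^ 4 ≤ ν ^ 4 := by
    calc 10 ^ 32 * t ^ 4 = (10 ^ 8 * t) ^ 4 := by ring
      _ ≤ ν ^ 4 := by gcongr
  have ht4 : 0 < t ^ 4 := by positivity
  have hdn : 1000 * dl ι V ≤ nv ι := by rw [hν]; linarith
  obtain ⟨b1, b2, b3, b4, b5, b6, b7, -⟩ := h.bounds hn0 (stdOrthonormalBasis ℝ V)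
    (by linarith) (by linarith)
  have hdl : dl ι V = 2 / 7 * t ^ 3 := by linarith
  have he99 : 99 / 100 ≤ e1 E := by
    by_contra hc
    push Not at hc
    have : nv ι * (e1 E - 1) < nv ι * (-1 / 100) := mul_lt_mul_of_pos_left (by linarith) hn0
    linarith
  have het : e1 E ≤ 5 / 3 * t := by
    have h1 : e1 E - 1 ≤ t := by
      by_contra hc
      push Not at hc
      have : t ^ 3 < (e1 E - 1) ^ 3 := by gcongr
      linarith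
    linarith
  obtain ⟨x, R, f1, f2, f3, f4, f5, f6, f7, f8, f9, f10, f11⟩ := k7_real t ν (e1 E) (ww E) ht15 hνt
    he99 het b4 (by rw [hdl] at b5; linarith) (by rw [← hν]; rw [hdl] at b6; linarith)
  exact ⟨x, R, ⟨h, hν, ht15, hνt, he99, het, b4, by rw [hdl] at b5; linarith, f1, f2, f3, f4, f5,
    f6, f7, f8, f9, f10, by linarith, by rw [hdl] at b2; linarith, f11, by linarith⟩⟩

/-- `∑ ‖vv‖² ≤ (4/3) t³` and, with `frame_le`, the two spectral sums. -/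
theorem Facts.sums [FiniteDimensional ℝ V] {ι : Type*} [DecidableEq ι] [Fintype ι]
    {E : ι → ι → ℝ} {κ : ι → ℝ} {y : ι → V} {t ν x R : ℝ} (h : Facts E κ y t ν x R) :
    ∑ l, ‖vv E y l‖ ^ 2 ≤ 4 / 3 * t ^ 3 := by
  rw [h.fr.sum_vv]
  have h1 := h.DU
  have h2 := h.g2
  have h3 : 0 ≤ D2 (stdOrthonormalBasis ℝ V) y := by
    unfold D2
    positivity
  linarith

end AEG
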