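import Pool.Agent.AEG.Defs
import Pool.Agent.AEG.Defs2
import Pool.Agent.AEG.A5
import Pool.Agent.AEG.K3
import Pool.Agent.AEG.K4
import Pool.Agent.AEG.K6
import Pool.Agent.AEG.K7

set_option autoImplicit false

/-!
[AEG-K8] few vertices with a large row sum, and spectral bounds.  Facts `h`; `e = e1`, `w = ww`, `n = nv = ν^4`, `1/R = √(10^7 (w + ν^2))/ν^2 ≤ 3163 √(w+ν^2)/ν^2 ≤ 3163 (√w + ν)/ν^2`.
`e ≥ 2`: Markov `|H| ≤ n e/R ≤ 3163 ν^2 (e √w + e ν)`, and `(e √w)^2 = e · e w ≤ e · 2 (e-1) w ≤ (8/21) e t^3 = (8/21) x^2`, so `e √w ≤ 0.62 x`; `|H| ≤ 2000 x ν^2 + 3200 e ν^3`.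
`e < 2`: for `l ∈ H`: `rr l - 1 ≥ rr l / 2 > R/2` (`R ≥ 2`), so `|H| ≤ (2/R) ∑ (rr - 1)^+`, `∑ (rr-1)^+ = n (e-1) + ∑ (1-rr)^+ ≤ n (e-1) + (4/3) t^3 + 2.01 ≤ n (e-1) + 2 t^3` (`small_row`,
`∑‖vv‖^2 ≤ (4/3) t^3`).  With `e' = max (e-1) 0 ≤ 1`: `√(w+ν^2) e' ≤ √(w e') + ν ≤ √(4/21) t^(3/2) + ν ≤ 0.45 x + ν` (`t^3 ≤ 1.02 x^2`), so `(2/R) n e' ≤ 6326 ν^2 (0.45 x + ν)`, and
`(2/R) 2 t^3 ≤ 12652 t^3 (√w + ν)/ν^2 ≤ t^3` (`w ≤ t^3 + x ν^2`, `x ≤ 4/3 t^2`, `t ≤ ν/10^8`).  Total `≤ 2850 x ν^2 + 6326 ν^3 + t^3 ≤ 3000 x ν^2 + 6500 e ν^3` (`e ≥ 99/100`).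
`gamC`: `frame_le` (`D2 + U2 ≤ t^3`) `⟪γ, Cγ⟫ ≤ (2+t)‖γ‖^2 ≤ (7/3) t (t^3/3)/ν^4`.
`uuC`: `∑ ⟪uu, C uu⟫ ≤ (2+t) U2 ≤ (7/3) t · t^3`.
-/

namespace AEG

open Finset
open scoped InnerProductSpace

variable {V : Type*} [NormedAddCommGroup V] [InnerProductSpace ℝ V]

private theorem k8_a (t ν e w x R H Q : ℝ) (hν0 : 0 < ν) (he0 : 0 < e) (hx0 : 0 ≤ x)
    (hx2 : x ^ 2 = t ^ 3 * e) (hw : 0 ≤ w) (hwe : w * (e - 1) ≤ 4 / 21 * t ^ 3) (h2 : 2 ≤ e)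
    (hQ0 : 0 ≤ Q) (hQ : Q ^ 2 = w + ν ^ 2) (hRQ : ν ^ 2 ≤ 3163 * (R * Q)) (hH0 : 0 ≤ H)
    (hH : H * R ≤ ν ^ 4 * e) : H ≤ 3000 * (x * ν ^ 2) + 6500 * (e * ν ^ 3) := by
  have hν2 : 0 < ν ^ 2 := by positivity
  have h3 : e * w ≤ 8 / 21 * t ^ 3 := by nlinarith
  have h4 : e * Q ≤ 62 / 100 * x + e * ν := by
    refine abs_le_of_sq_le_sq' ?_ (by positivity) |>.2
    have h5 : (e * Q) ^ 2 = e * (e * w) + (e * ν) ^ 2 := by rw [mul_pow, hQ]; ring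
    have h6 : e * (e * w) ≤ e * (8 / 21 * t ^ 3) := mul_le_mul_of_nonneg_left h3 he0.le
    have h7 : e * (8 / 21 * t ^ 3) = 8 / 21 * x ^ 2 := by rw [hx2]; ring
    have h8 : 0 ≤ x * (e * ν) := by positivity
    have h9 : 0 ≤ x ^ 2 := by positivity
    nlinarith
  have h5 : H * ν ^ 2 ≤ 3163 * (ν ^ 4 * (e * Q)) := by
    calc H * ν ^ 2 ≤ H * (3163 * (R * Q)) := mul_le_mul_of_nonneg_left hRQ hH0
      _ = 3163 * (H * R * Q) := by ring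
      _ ≤ 3163 * (ν ^ 4 * e * Q) := by
        refine mul_le_mul_of_nonneg_left ?_ (by norm_num)
        exact mul_le_mul_of_nonneg_right hH hQ0
      _ = _ := by ring
  have h6 : H * ν ^ 2 ≤ (3163 * (ν ^ 2 * (e * Q))) * ν ^ 2 := by
    calc H * ν ^ 2 ≤ _ := h5
      _ = _ := by ring
  have h7 : H ≤ 3163 * (ν ^ 2 * (e * Q)) := le_of_mul_le_mul_right h6 hν2
  have h8 : ν ^ 2 * (e * Q) ≤ ν ^ 2 * (62 / 100 * x + e * ν) :=
    mul_le_mul_of_nonneg_left h4 hν2.le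
  have h9 : 0 ≤ x * ν ^ 2 := by positivity
  have h10 : 0 ≤ e * ν ^ 3 := by positivity
  nlinarith

private theorem k8_b (t ν e w x R H Q : ℝ) (ht : 3 / 2 ≤ t) (hνt : 10 ^ 8 * t ≤ ν)
    (he : 99 / 100 ≤ e) (hx0 : 0 ≤ x)
    (hxt : x ≤ 4 / 3 * t ^ 2) (htx : t ^ 3 ≤ 102 / 100 * x ^ 2) (_hw : 0 ≤ w)
    (hwx : w ≤ t ^ 3 + x * ν ^ 2)
    (hwe : w * (e - 1) ≤ 4 / 21 * t ^ 3) (h2 : e < 2)
    (hQ0 : 0 ≤ Q) (hQ : Q ^ 2 = w + ν ^ 2) (hRQ : ν ^ 2 ≤ 3163 * (R * Q)) (hH0 : 0 ≤ H)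
    (hH : H * R ≤ 2 * (ν ^ 4 * max (e - 1) 0 + 2 * t ^ 3)) :
    H ≤ 3000 * (x * ν ^ 2) + 6500 * (e * ν ^ 3) := by
  have ht0 : 0 < t := by linarith
  have hν0 : 0 < ν := by nlinarith
  have hν2 : 0 < ν ^ 2 := by positivity
  have ht3 : 0 < t ^ 3 := by positivity
  have hm0 : 0 ≤ max (e - 1) 0 := le_max_right _ _
  have hm1 : max (e - 1) 0 ≤ 1 := max_le (by linarith) (by norm_num)
  have hwm : w * max (e - 1) 0 ≤ 4 / 21 * t ^ 3 := by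
    rcases le_total (e - 1) 0 with h | h
    · rw [max_eq_right h, mul_zero]; positivity
    · rw [max_eq_left h]; exact hwe
  set m := max (e - 1) 0
  clear_value m
  have h4 : Q * m ≤ 45 / 100 * x + ν := by
    refine abs_le_of_sq_le_sq' ?_ (by positivity) |>.2
    have h5 : (Q * m) ^ 2 = w * m * m + ν ^ 2 * m ^ 2 := by rw [mul_pow, hQ]; ring
    have h6 : w * m * m ≤ 4 / 21 * t ^ 3 * 1 := mul_le_mul hwm hm1 hm0 (by positivity)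
    have h7 : ν ^ 2 * m ^ 2 ≤ ν ^ 2 * 1 :=
      mul_le_mul_of_nonneg_left (by nlinarith) hν2.le
    have h8 : 0 ≤ x * ν := by positivity
    nlinarith
  have htν : t ^ 3 ≤ ν ^ 3 / 10 ^ 24 := by
    rw [le_div_iff₀ (by norm_num)]
    calc t ^ 3 * 10 ^ 24 = (10 ^ 8 * t) ^ 3 := by ring
      _ ≤ ν ^ 3 := by gcongr
  have hQ2 : Q ≤ 2 * (t * ν) := by
    refine abs_le_of_sq_le_sq' ?_ (by positivity) |>.2
    rw [hQ]
    have h1 : x * ν ^ 2 ≤ 4 / 3 * t ^ 2 * ν ^ 2 := mul_le_mul_of_nonneg_right hxt hν2.le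
    have h3 : t ^ 3 ≤ t ^ 2 * ν ^ 2 / 2 := by
      have h4 : t ≤ ν ^ 2 / 2 := by nlinarith
      nlinarith
    have h5 : 9 / 4 * ν ^ 2 ≤ t ^ 2 * ν ^ 2 := mul_le_mul_of_nonneg_right (by nlinarith) hν2.le
    nlinarith
  have h5 : H * ν ^ 2 ≤ 6326 * ((ν ^ 4 * m + 2 * t ^ 3) * Q) := by
    calc H * ν ^ 2 ≤ H * (3163 * (R * Q)) := mul_le_mul_of_nonneg_left hRQ hH0
      _ = 3163 * (H * R * Q) := by ring
      _ ≤ 3163 * (2 * (ν ^ 4 * m + 2 * t ^ 3) * Q) := by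
        refine mul_le_mul_of_nonneg_left ?_ (by norm_num)
        exact mul_le_mul_of_nonneg_right hH hQ0
      _ = _ := by ring
  have h6 : t ^ 3 * Q ≤ ν ^ 2 * (ν ^ 3 / 10 ^ 6) := by
    have h7 : t ^ 3 * Q ≤ ν ^ 3 / 10 ^ 24 * (2 * (t * ν)) :=
      mul_le_mul htν hQ2 hQ0 (by positivity)
    have h8 : t ≤ ν := by nlinarith
    have h9 : ν ^ 3 / 10 ^ 24 * (2 * (t * ν)) ≤ ν ^ 3 / 10 ^ 24 * (2 * (ν * ν)) := by gcongr
    have h10 : 0 < ν ^ 5 := by positivity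
    nlinarith
  have h7 : H * ν ^ 2 ≤ (6326 * (ν ^ 2 * (45 / 100 * x + ν)) + ν ^ 3 / 10) * ν ^ 2 := by
    have h8 : ν ^ 4 * (Q * m) ≤ ν ^ 4 * (45 / 100 * x + ν) :=
      mul_le_mul_of_nonneg_left h4 (by positivity)
    have h10 : 0 < ν ^ 5 := by positivity
    nlinarith
  have h8 : H ≤ 6326 * (ν ^ 2 * (45 / 100 * x + ν)) + ν ^ 3 / 10 := le_of_mul_le_mul_right h7 hν2
  have h9 : 0 ≤ x * ν ^ 2 := by positivity
  have h10 : 99 / 100 * ν ^ 3 ≤ e * ν ^ 3 := mul_le_mul_of_nonneg_right he (by positivity)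
  nlinarith

theorem Facts.card_Hs [FiniteDimensional ℝ V] {ι : Type*} [DecidableEq ι] [Fintype ι]
    {E : ι → ι → ℝ} {κ : ι → ℝ} {y : ι → V} {t ν x R : ℝ} (h : Facts E κ y t ν x R) :
    ((Hs E R).card : ℝ) ≤ 3000 * (x * ν ^ 2) + 6500 * (e1 E * ν ^ 3) := by
  classical
  have ht0 : 0 < t := by linarith [h.t15]
  have hν0 : 0 < ν := by nlinarith [h.νt]
  have hn0 : 0 < nv ι := by rw [h.n4]; positivity
  have he0 : 0 < e1 E := by linarith [h.e99]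
  have hR2 := h.R2
  have hR0 : 0 < R := by linarith
  have hwν : 0 ≤ ww E + ν ^ 2 := by have := h.w0; positivity
  have hQ := Real.sq_sqrt hwν
  have hQ0 := Real.sqrt_nonneg (ww E + ν ^ 2)
  set Q := Real.sqrt (ww E + ν ^ 2)
  clear_value Q
  have hRQ : ν ^ 2 ≤ 3163 * (R * Q) := by
    refine abs_le_of_sq_le_sq' ?_ (by positivity) |>.2
    have h1 : (3163 * (R * Q)) ^ 2 = 3163 ^ 2 * (R ^ 2 * (ww E + ν ^ 2)) := by rw [← hQ]; ring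
    rw [h1, h.Rw]
    have : 0 ≤ ν ^ 4 := by positivity
    nlinarith
  have hsum := sum_rr E hn0
  have hrr0 : ∀ l, 0 ≤ rr E l := fun l => (h.fr.ek_nonneg l).2
  by_cases h2 : 2 ≤ e1 E
  · refine k8_a t ν (e1 E) (ww E) x R _ Q hν0 he0 h.x0 h.x2 h.w0 h.we h2 hQ0 hQ hRQ
      (Nat.cast_nonneg _) ?_
    calc ((Hs E R).card : ℝ) * R = ∑ l ∈ Hs E R, R := by rw [Finset.sum_const, nsmul_eq_mul]
      _ ≤ ∑ l ∈ Hs E R, rr E l := by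
        refine Finset.sum_le_sum fun l hl => ?_
        simp only [Hs, Finset.mem_filter] at hl
        exact hl.2.le
      _ ≤ ∑ l, rr E l := Finset.sum_le_sum_of_subset_of_nonneg (Finset.subset_univ _)
          fun l _ _ => hrr0 l
      _ = ν ^ 4 * e1 E := by rw [hsum.1, h.n4]
  · push Not at h2
    refine k8_b t ν (e1 E) (ww E) x R _ Q h.t15 h.νt h.e99 h.x0 h.xt h.tx h.w0 h.wx h.we h2 hQ0
      hQ hRQ (Nat.cast_nonneg _) ?_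
    have h3 : ((Hs E R).card : ℝ) * (R / 2) ≤ ∑ l, max (rr E l - 1) 0 := by
      calc ((Hs E R).card : ℝ) * (R / 2) = ∑ l ∈ Hs E R, R / 2 := by
            rw [Finset.sum_const, nsmul_eq_mul]
        _ ≤ ∑ l ∈ Hs E R, max (rr E l - 1) 0 := by
          refine Finset.sum_le_sum fun l hl => ?_
          simp only [Hs, Finset.mem_filter] at hl
          exact le_max_of_le_left (by linarith [hl.2])
        _ ≤ ∑ l, max (rr E l - 1) 0 := Finset.sum_le_sum_of_subset_of_nonneg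
            (Finset.subset_univ _) fun l _ _ => le_max_right _ _
    have h4 : ∑ l, max (rr E l - 1) 0 ≤
        ∑ l, ((rr E l - 1) + (‖vv E y l‖ ^ 2 + 201 / 100 / nv ι)) := by
      refine Finset.sum_le_sum fun l _ => ?_
      rcases lt_or_ge (rr E l) 1 with h5 | h5
      · rw [max_eq_right (by linarith)]
        have := h.fr.small_row hn0 h.e99 l h5
        linarith
      · rw [max_eq_left (by linarith)]
        have : 0 ≤ ‖vv E y l‖ ^ 2 + 201 / 100 / nv ι := by positivity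
        linarith
    have h5 : ∑ l, ((rr E l - 1) + (‖vv E y l‖ ^ 2 + 201 / 100 / nv ι)) =
        nv ι * (e1 E - 1) + ∑ l, ‖vv E y l‖ ^ 2 + 201 / 100 := by
      rw [Finset.sum_add_distrib, Finset.sum_sub_distrib, Finset.sum_add_distrib, hsum.1]
      simp only [Finset.sum_const, Finset.card_univ, nsmul_eq_mul, mul_one]
      change nv ι * e1 E - nv ι + (∑ l, ‖vv E y l‖ ^ 2 + nv ι * (201 / 100 / nv ι)) = _
      field_simp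
      ring
    have h6 := h.sums
    have ht3 : 27 / 8 ≤ t ^ 3 := by
      have := h.t15
      have h7 : (3 / 2 : ℝ) ^ 3 ≤ t ^ 3 := by gcongr
      norm_num at h7 ⊢
      linarith
    have h7 : ν ^ 4 * (e1 E - 1) ≤ ν ^ 4 * max (e1 E - 1) 0 :=
      mul_le_mul_of_nonneg_left (le_max_left _ _) (by positivity)
    have h8 : nv ι * (e1 E - 1) = ν ^ 4 * (e1 E - 1) := by rw [h.n4]
    linarith

theorem Facts.gamC [FiniteDimensional ℝ V] {ι : Type*} [DecidableEq ι] [Fintype ι]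
    {E : ι → ι → ℝ} {κ : ι → ℝ} {y : ι → V} {t ν x R : ℝ} (h : Facts E κ y t ν x R) :
    ⟪gam κ y, Fop y (gam κ y)⟫_ℝ ≤ 7 / 9 * t ^ 4 / ν ^ 4 := by
  have ht15 := h.t15
  have ht0 : 0 < t := by linarith
  have hν0 : 0 < ν := by nlinarith [h.νt]
  have h1 := frame_le (stdOrthonormalBasis ℝ V) y t ht0.le h.DU (gam κ y)
  have h2 := h.g2
  rw [h.n4] at h2
  rw [le_div_iff₀ (by positivity)]
  have h3 : (2 + t) * (ν ^ 4 * ‖gam κ y‖ ^ 2) ≤ (7 / 3 * t) * (t ^ 3 / 3) :=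
    mul_le_mul (by linarith) h2 (by positivity) (by positivity)
  calc ⟪gam κ y, Fop y (gam κ y)⟫_ℝ * ν ^ 4 ≤ (2 + t) * ‖gam κ y‖ ^ 2 * ν ^ 4 :=
        mul_le_mul_of_nonneg_right h1 (by positivity)
    _ = (2 + t) * (ν ^ 4 * ‖gam κ y‖ ^ 2) := by ring
    _ ≤ _ := h3
    _ = 7 / 9 * t ^ 4 := by ring

theorem Facts.uuC [FiniteDimensional ℝ V] {ι : Type*} [DecidableEq ι] [Fintype ι]
    {E : ι → ι → ℝ} {κ : ι → ℝ} {y : ι → V} {t ν x R : ℝ} (h : Facts E κ y t ν x R) :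
    ∑ l, ⟪uu y l, Fop y (uu y l)⟫_ℝ ≤ 7 / 3 * t ^ 4 := by
  have ht15 := h.t15
  have ht0 : 0 < t := by linarith
  have h1 : ∑ l, ⟪uu y l, Fop y (uu y l)⟫_ℝ ≤ ∑ l, (2 + t) * ‖uu y l‖ ^ 2 :=
    Finset.sum_le_sum fun l _ => frame_le (stdOrthonormalBasis ℝ V) y t ht0.le h.DU (uu y l)
  rw [← Finset.mul_sum] at h1
  have h2 := h.DU
  have h3 : 0 ≤ D2 (stdOrthonormalBasis ℝ V) y := by
    unfold D2
    positivity
  have h4 : ∑ l, ‖uu y l‖ ^ 2 = U2 y := rfl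
  have h5 : 0 ≤ U2 y := by rw [← h4]; positivity
  rw [h4] at h1
  have h6 : (2 + t) * U2 y ≤ (7 / 3 * t) * t ^ 3 :=
    mul_le_mul (by linarith) (by linarith) h5 (by positivity)
  calc ∑ l, ⟪uu y l, Fop y (uu y l)⟫_ℝ ≤ (2 + t) * U2 y := h1
    _ ≤ (7 / 3 * t) * t ^ 3 := h6
    _ = 7 / 3 * t ^ 4 := by ring

end AEG
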