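import Pool.Agent.AEG.Defs
import Pool.Agent.AEG.Defs2
import Pool.Agent.AEG.K3
import Pool.Agent.AEG.K4
import Pool.Agent.AEG.K6
import Pool.Agent.AEG.K7
import Pool.Agent.AEG.K8
import Pool.Agent.AEG.G1

set_option autoImplicit false

/-!
[AEG-K9] the regular vertices.  `n = ν^4`, `γ = gam κ y`, `θ p = ek E κ p - κ p`.
(theta_bd) for `rr p ≤ R`: by `theta`, `|n θ - n ⟪γ, y p⟫| ≤ w + e + |e-1|/2 + |e-3|/2 · R ≤ w + 4 e R ≤ w + ν^2` (`e ≥ 99/100`: `|e-1| ≤ e`, `|e-3| ≤ 4.1 e`, `1 ≤ R`; `0 ≤ rr p`), and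
`(w + ν^2)/ν^4 = 1/(10^7 R^2)` (`Rw`).  So `|θ p| ≤ |⟪γ, y p⟫| + 1/(10^7 R^2)`.
(s2_Gp) `one_sub`: `|s2 p - 1| ≤ 1/100 + 2 R (1/(250 R) + 1/(10^7 R^2)) ≤ 2/100` (`|rr p - 1| ≤ R`).
(kap) `rr m ≤ R`: `n |κ m| = |rr m + (1-e)/2| ≤ R + e/2 ≤ (3/2) R` (kappa, `eR`).
(entry_bd) for `l` with `rr l ≤ R`, `|⟪γ, y l⟫| ≤ 1/(10^7 R^2)`, `rr m ≤ R`, `m ≠ l`: `entry`: `|sq2 l m - ⟪vv l, y m⟫| ≤ |θ l| + R |κ m| ≤ 2/(10^7 R^2) + (3/2) R^2/ν^4 ≤ 21/(10^8 R^2)`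
(`R^4 ≤ ν^4/10^14`).
(q_bd) `⟪uu l, C uu l⟫ ≤ 1/250` implies `⟪vv l, C (vv l)⟫ ≤ 2 ⟪uu, C uu⟫ + 2 ⟪γ, C γ⟫ ≤ 1/100` (`vv = uu + γ`, `C ≥ 0` i.e. `Fop_inner`; `gamC`).
-/

namespace AEG

open Finset
open scoped InnerProductSpace

variable {V : Type*} [NormedAddCommGroup V] [InnerProductSpace ℝ V]

private theorem k9_pos [FiniteDimensional ℝ V] {ι : Type*} [DecidableEq ι] [Fintype ι]
    {E : ι → ι → ℝ} {κ : ι → ℝ} {y : ι → V} {t ν x R : ℝ} (h : Facts E κ y t ν x R) :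
    0 < t ∧ 0 < ν ∧ 0 < nv ι ∧ 0 < R ∧ 0 < e1 E := by
  have ht0 : 0 < t := by linarith [h.t15]
  have hν0 : 0 < ν := by nlinarith [h.νt]
  exact ⟨ht0, hν0, by rw [h.n4]; positivity, by linarith [h.R2], by linarith [h.e99]⟩

theorem Facts.theta_bd [FiniteDimensional ℝ V] {ι : Type*} [DecidableEq ι] [Fintype ι]
    {E : ι → ι → ℝ} {κ : ι → ℝ} {y : ι → V} {t ν x R : ℝ} (h : Facts E κ y t ν x R) {p : ι}
    (hp : rr E p ≤ R) :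
    |ek E κ p - κ p| ≤ |⟪gam κ y, y p⟫_ℝ| + 1 / (10 ^ 7 * R ^ 2) := by
  obtain ⟨ht0, hν0, hn0, hR0, he0⟩ := k9_pos h
  have h1 := h.fr.theta hn0 p
  have hr0 := (h.fr.ek_nonneg p).2
  have he := h.e99
  have heR := h.eRν
  have hR2 := h.R2
  have hw := h.w0
  have hRw := h.Rw
  have hν4 : 0 < ν ^ 4 := by positivity
  rw [h.n4] at h1
  have h2 : |ν ^ 4 * (ek E κ p - κ p - ⟪gam κ y, y p⟫_ℝ)| ≤ ww E + ν ^ 2 := by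
    have h3 : ν ^ 4 * (ek E κ p - κ p - ⟪gam κ y, y p⟫_ℝ) =
        ww E + e1 E + (e1 E - 1) / 2 + (e1 E - 3) / 2 * rr E p := by linarith
    rw [h3]
    have h4 : e1 E * rr E p ≤ e1 E * R := mul_le_mul_of_nonneg_left hp he0.le
    have h5 : e1 E * 2 ≤ e1 E * R := mul_le_mul_of_nonneg_left hR2 he0.le
    have h6 : 0 ≤ e1 E * rr E p := by positivity
    have h7 : 99 / 100 * rr E p ≤ e1 E * rr E p := mul_le_mul_of_nonneg_right he hr0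
    rw [abs_le]
    constructor <;> nlinarith
  have h3 : |ek E κ p - κ p - ⟪gam κ y, y p⟫_ℝ| ≤ 1 / (10 ^ 7 * R ^ 2) := by
    rw [abs_mul, abs_of_pos hν4] at h2
    have h4 : ν ^ 4 * |ek E κ p - κ p - ⟪gam κ y, y p⟫_ℝ| * (10 ^ 7 * R ^ 2) ≤
        (ww E + ν ^ 2) * (10 ^ 7 * R ^ 2) := mul_le_mul_of_nonneg_right h2 (by positivity)
    have h5 : (ww E + ν ^ 2) * (10 ^ 7 * R ^ 2) = ν ^ 4 := by
      calc (ww E + ν ^ 2) * (10 ^ 7 * R ^ 2) = 10 ^ 7 * (R ^ 2 * (ww E + ν ^ 2)) := by ring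
        _ = ν ^ 4 := by rw [hRw]; ring
    rw [h5] at h4
    rw [le_div_iff₀ (by positivity)]
    have h6 : ν ^ 4 * (|ek E κ p - κ p - ⟪gam κ y, y p⟫_ℝ| * (10 ^ 7 * R ^ 2)) ≤ ν ^ 4 * 1 := by
      linarith
    exact le_of_mul_le_mul_left h6 hν4
  have h4 : ek E κ p - κ p = ⟪gam κ y, y p⟫_ℝ + (ek E κ p - κ p - ⟪gam κ y, y p⟫_ℝ) := by ring
  calc |ek E κ p - κ p| = |⟪gam κ y, y p⟫_ℝ + (ek E κ p - κ p - ⟪gam κ y, y p⟫_ℝ)| := by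
        rw [← h4]
    _ ≤ |⟪gam κ y, y p⟫_ℝ| + |ek E κ p - κ p - ⟪gam κ y, y p⟫_ℝ| := abs_add_le _ _
    _ ≤ _ := by linarith

private theorem k9_rr {r R : ℝ} (h0 : 0 ≤ r) (h1 : r ≤ R) (h2 : 2 ≤ R) : |r - 1| ≤ R := by
  rw [abs_le]; constructor <;> linarith

theorem Facts.s2_Gp [FiniteDimensional ℝ V] {ι : Type*} [DecidableEq ι] [Fintype ι]
    {E : ι → ι → ℝ} {κ : ι → ℝ} {y : ι → V} {t ν x R : ℝ} (h : Facts E κ y t ν x R) {p : ι}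
    (hp : p ∈ Gp E κ y R) : |s2 E p - 1| ≤ 2 / 100 := by
  obtain ⟨ht0, hν0, hn0, hR0, he0⟩ := k9_pos h
  simp only [Gp, Finset.mem_filter, Finset.mem_univ, true_and] at hp
  obtain ⟨hp1, hp2, hp3⟩ := hp
  have hR2 := h.R2
  have h1 := h.fr.one_sub p
  have h2 := h.theta_bd hp1
  have h3 := k9_rr (h.fr.ek_nonneg p).2 hp1 hR2
  have h4 : |(rr E p - 1) * (ek E κ p - κ p)| ≤ R * (1 / (250 * R) + 1 / (10 ^ 7 * R ^ 2)) := by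
    rw [abs_mul]
    exact mul_le_mul h3 (by linarith) (abs_nonneg _) hR0.le
  have h5 : R * (1 / (250 * R) + 1 / (10 ^ 7 * R ^ 2)) = 1 / 250 + 1 / (10 ^ 7 * R) := by
    field_simp
  have h6 : 1 / (10 ^ 7 * R) ≤ 1 / 10 ^ 7 := by
    refine one_div_le_one_div_of_le (by norm_num) ?_
    nlinarith
  rw [h5] at h4
  have h7 : 0 ≤ ‖vv E y p‖ ^ 2 := by positivity
  have h8 := abs_le.1 h4
  rw [abs_le]
  constructor <;> nlinarith [h8.1, h8.2]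

theorem Facts.kap [FiniteDimensional ℝ V] {ι : Type*} [DecidableEq ι] [Fintype ι]
    {E : ι → ι → ℝ} {κ : ι → ℝ} {y : ι → V} {t ν x R : ℝ} (h : Facts E κ y t ν x R) {p : ι}
    (hp : rr E p ≤ R) : |κ p| ≤ 3 / 2 * R / ν ^ 4 := by
  obtain ⟨ht0, hν0, hn0, hR0, he0⟩ := k9_pos h
  have hν4 : 0 < ν ^ 4 := by positivity
  have h1 := h.fr.kappa hn0 p
  have hr0 := (h.fr.ek_nonneg p).2
  have he := h.e99
  have heR := h.eR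
  rw [h.n4] at h1
  rw [le_div_iff₀ hν4]
  calc |κ p| * ν ^ 4 = |ν ^ 4 * κ p| := by rw [abs_mul, abs_of_pos hν4, mul_comm]
    _ ≤ 3 / 2 * R := by
      rw [h1, abs_le]
      constructor <;> linarith

theorem Facts.entry_bd [FiniteDimensional ℝ V] {ι : Type*} [DecidableEq ι] [Fintype ι]
    {E : ι → ι → ℝ} {κ : ι → ℝ} {y : ι → V} {t ν x R : ℝ} (h : Facts E κ y t ν x R) {l m : ι}
    (hl : rr E l ≤ R) (hl2 : |⟪gam κ y, y l⟫_ℝ| ≤ 1 / (10 ^ 7 * R ^ 2)) (hm : rr E m ≤ R)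
    (hlm : m ≠ l) : |sq2 E l m - ⟪vv E y l, y m⟫_ℝ| ≤ 21 / (10 ^ 8 * R ^ 2) := by
  obtain ⟨ht0, hν0, hn0, hR0, he0⟩ := k9_pos h
  have hR2 := h.R2
  have hν4 : 0 < ν ^ 4 := by positivity
  have h1 := h.fr.entry l m
  have h2 := h.theta_bd hl
  have h3 := k9_rr (h.fr.ek_nonneg l).2 hl hR2
  have h4 := h.kap hm
  have hkd : kd l m = 0 := by
    unfold kd
    rw [if_neg (fun e => hlm e.symm)]
  rw [hkd, sub_zero] at h1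
  have h5 : sq2 E l m - ⟪vv E y l, y m⟫_ℝ = (ek E κ l - κ l) + (rr E l - 1) * κ m := by
    rw [h1]; ring
  have h6 : |(rr E l - 1) * κ m| ≤ R * (3 / 2 * R / ν ^ 4) := by
    rw [abs_mul]
    exact mul_le_mul h3 h4 (abs_nonneg _) hR0.le
  have h7 : R * (3 / 2 * R / ν ^ 4) ≤ 1 / (10 ^ 8 * R ^ 2) := by
    have h8 : 10 ^ 14 * R ^ 4 ≤ ν ^ 4 := by
      calc 10 ^ 14 * R ^ 4 = (10 ^ 7 * R ^ 2) ^ 2 := by ring
        _ ≤ (ν ^ 2) ^ 2 := by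
          have := h.Rν
          gcongr
        _ = ν ^ 4 := by ring
    rw [mul_div_assoc', div_le_div_iff₀ hν4 (by positivity)]
    have : 0 < R ^ 4 := by positivity
    nlinarith
  rw [h5]
  have h8 : 21 / (10 ^ 8 * R ^ 2) =
      1 / (10 ^ 7 * R ^ 2) + 1 / (10 ^ 7 * R ^ 2) + 1 / (10 ^ 8 * R ^ 2) := by
    field_simp
    norm_num
  rw [h8]
  refine (abs_add_le _ _).trans ?_
  linarith

theorem Facts.q_bd [FiniteDimensional ℝ V] {ι : Type*} [DecidableEq ι] [Fintype ι]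
    {E : ι → ι → ℝ} {κ : ι → ℝ} {y : ι → V} {t ν x R : ℝ} (h : Facts E κ y t ν x R) {l : ι}
    (hl : ⟪uu y l, Fop y (uu y l)⟫_ℝ ≤ 1 / 250) :
    ⟪vv E y l, Fop y (vv E y l)⟫_ℝ ≤ 1 / 100 := by
  obtain ⟨ht0, hν0, hn0, hR0, he0⟩ := k9_pos h
  have h1 := h.gamC
  rw [Fop_inner] at hl h1 ⊢
  rw [h.fr.vv_eq l]
  have h2 : ∑ m, ⟪y m, uu y l + gam κ y⟫_ℝ ^ 2 ≤
      ∑ m, (2 * ⟪y m, uu y l⟫_ℝ ^ 2 + 2 * ⟪y m, gam κ y⟫_ℝ ^ 2) := by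
    refine Finset.sum_le_sum fun m _ => ?_
    rw [inner_add_right]
    nlinarith [sq_nonneg (⟪y m, uu y l⟫_ℝ - ⟪y m, gam κ y⟫_ℝ)]
  rw [Finset.sum_add_distrib, ← Finset.mul_sum, ← Finset.mul_sum] at h2
  have h3 : 7 / 9 * t ^ 4 / ν ^ 4 ≤ 1 / 1000 := by
    rw [div_le_iff₀ (by positivity)]
    have h4 : 10 ^ 32 * t ^ 4 ≤ ν ^ 4 := by
      calc 10 ^ 32 * t ^ 4 = (10 ^ 8 * t) ^ 4 := by ring
        _ ≤ ν ^ 4 := by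
          have := h.νt
          gcongr
    have : 0 < t ^ 4 := by positivity
    nlinarith
  linarith

end AEG
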