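import Pool.Agent.AEG.Defs
import Pool.Agent.AEG.Defs2
import Pool.Agent.AEG.K4
import Pool.Agent.AEG.K6
import Pool.Agent.AEG.K7
import Pool.Agent.AEG.K8
import Pool.Agent.AEG.K9

set_option autoImplicit false

/-!
[AEG-K10] sizes of the exceptional sets.
(Gp) complement of `Gp` ⊆ `Hs ∪ {‖vv‖^2 > 1/100} ∪ {|⟪γ,y⟫| > 1/(250R)}`; Markov: `100 · (4/3) t^3` and `(250R)^2 ∑ ⟪γ,y l⟫^2 = 62500 R^2 ⟪γ, Cγ⟫ ≤ 62500 (ν^2/10^7)(7/9) t^4/ν^4 ≤ t^3`
(`Fop_inner`, `gamC`, `t ≤ ν/10^8`).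
(UL) `{|⟪γ,y⟫| > 1/(10^7R^2)}`: `≤ 10^14 R^4 ⟪γ,Cγ⟫ ≤ ν^4 (7/9) t^4/ν^4 ≤ t^4`; `{⟪uu,C uu⟫ > 1/250}`: `≤ 250 (7/3) t^4 ≤ 583.4 t^4`; together `≤ 585 t^4`.
(ULN) fix `i`; a set `J ⊆ {l ∈ ULs | 0 < E i l}` is independent (`tf i l m`), `|κ| ≤ k = (3/2) R/ν^4` on it.  First kind (`|⟪γ,y⟫| > 1/(10^7R^2)`): if `|J| ≤ ν^4/(3R)` then `2|J|k ≤ 1` and
`nbr_bessel` with `x = γ`: `|J|/(10^14R^4) ≤ 2 ‖γ‖^2`, `|J| ≤ 2·10^14 R^4 (t^3/3)/ν^4 ≤ (2/3) t^3`; if the set had more than `t^3` elements take a subset with exactly `⌈t^3⌉ ≤ t^3 + 1 ≤ ν^4/(3R)` elements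
(`R ≤ ν/3000`), contradiction.  So the first kind has `≤ t^3` elements.  Second kind: `nbr_uu`: `|J|/250 ≤ 2 U2 ≤ 2 t^3`, `|J| ≤ 500 t^3` by the same subset argument (subset with
`⌊500 t^3⌋ + 1` elements).  Total `≤ 501 t^3`.
-/

namespace AEG

open Finset
open scoped InnerProductSpace

variable {V : Type*} [NormedAddCommGroup V] [InnerProductSpace ℝ V]

private theorem k10_markov {ι : Type*} [Fintype ι] (f : ι → ℝ) (hf : ∀ l, 0 ≤ f l) (c : ℝ)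
    (S : Finset ι) (hS : ∀ l ∈ S, c ≤ f l) : (S.card : ℝ) * c ≤ ∑ l, f l := by
  classical
  calc (S.card : ℝ) * c = ∑ l ∈ S, c := by rw [Finset.sum_const, nsmul_eq_mul]
    _ ≤ ∑ l ∈ S, f l := Finset.sum_le_sum hS
    _ ≤ ∑ l, f l := Finset.sum_le_univ_sum_of_nonneg hf

private theorem k10_sub {ι : Type*} (J : Finset ι) (a : ℝ) (ha : 0 ≤ a)
    (h : ∀ J' ⊆ J, (J'.card : ℝ) ≤ a + 1 → (J'.card : ℝ) ≤ a) : (J.card : ℝ) ≤ a := by
  by_contra hc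
  push Not at hc
  have h1 : ⌊a⌋₊ < J.card := (Nat.floor_lt ha).2 hc
  obtain ⟨J', hJ', hcard⟩ := Finset.exists_subset_card_eq (show ⌊a⌋₊ + 1 ≤ J.card from h1)
  have h2 : (J'.card : ℝ) = (⌊a⌋₊ : ℝ) + 1 := by rw [hcard]; push_cast; ring
  have h3 := Nat.floor_le ha
  have h4 := Nat.lt_floor_add_one a
  have h5 := h J' hJ' (by linarith)
  linarith

private theorem k10_gam [FiniteDimensional ℝ V] {ι : Type*} [DecidableEq ι] [Fintype ι]
    {E : ι → ι → ℝ} {κ : ι → ℝ} {y : ι → V} {t ν x R : ℝ} (h : Facts E κ y t ν x R) :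
    ∑ l, ⟪gam κ y, y l⟫_ℝ ^ 2 ≤ 7 / 9 * t ^ 4 / ν ^ 4 := by
  have h1 := h.gamC
  rw [Fop_inner] at h1
  have h2 : ∑ l, ⟪gam κ y, y l⟫_ℝ ^ 2 = ∑ l, ⟪y l, gam κ y⟫_ℝ ^ 2 := by
    apply Finset.sum_congr rfl
    intro l _
    rw [real_inner_comm]
  rw [h2]
  exact h1

theorem Facts.card_Gp [FiniteDimensional ℝ V] {ι : Type*} [DecidableEq ι] [Fintype ι]
    {E : ι → ι → ℝ} {κ : ι → ℝ} {y : ι → V} {t ν x R : ℝ} (h : Facts E κ y t ν x R) :
    ((univ \ Gp E κ y R).card : ℝ) ≤ ((Hs E R).card : ℝ) + 135 * t ^ 3 := by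
  classical
  have ht := h.t15
  have hνt := h.νt
  have hν : 1 ≤ ν := by linarith
  have hν0 : 0 < ν := by linarith
  have ht0 : 0 < t := by linarith
  have hR0 : 0 < R := by linarith [h.R2]
  have hRν := h.Rν
  set A : Finset ι := univ.filter (fun l => 1 / 100 < ‖vv E y l‖ ^ 2) with hA
  set B : Finset ι := univ.filter (fun l => 1 / (250 * R) < |⟪gam κ y, y l⟫_ℝ|) with hB
  have hsub : univ \ Gp E κ y R ⊆ Hs E R ∪ A ∪ B := by
    intro l hl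
    rw [mem_sdiff] at hl
    have h2 := hl.2
    unfold Gp at h2
    rw [mem_filter] at h2
    by_cases c1 : rr E l ≤ R
    · by_cases c2 : ‖vv E y l‖ ^ 2 ≤ 1 / 100
      · have c3 : ¬ |⟪gam κ y, y l⟫_ℝ| ≤ 1 / (250 * R) := fun c3 => h2 ⟨mem_univ _, c1, c2, c3⟩
        apply mem_union_right
        rw [hB, mem_filter]
        exact ⟨mem_univ _, not_le.1 c3⟩
      · apply mem_union_left
        apply mem_union_right
        rw [hA, mem_filter]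
        exact ⟨mem_univ _, not_le.1 c2⟩
    · apply mem_union_left
      apply mem_union_left
      unfold Hs
      rw [mem_filter]
      exact ⟨mem_univ _, not_le.1 c1⟩
  have hcard : ((univ \ Gp E κ y R).card : ℝ) ≤ ((Hs E R).card : ℝ) + A.card + B.card := by
    have e1 := card_le_card hsub
    have e2 := card_union_le (Hs E R ∪ A) B
    have e3 := card_union_le (Hs E R) A
    have e4 : (univ \ Gp E κ y R).card ≤ (Hs E R).card + A.card + B.card := by omega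
    exact_mod_cast e4
  have hAc : (A.card : ℝ) * (1 / 100) ≤ 4 / 3 * t ^ 3 := by
    refine le_trans (k10_markov (fun l => ‖vv E y l‖ ^ 2) (fun l => sq_nonneg _) (1 / 100) A ?_)
      h.sums
    intro l hl
    rw [hA, mem_filter] at hl
    exact hl.2.le
  have hBc : (B.card : ℝ) * (1 / (250 * R)) ^ 2 ≤ 7 / 9 * t ^ 4 / ν ^ 4 := by
    refine le_trans (k10_markov (fun l => ⟪gam κ y, y l⟫_ℝ ^ 2) (fun l => sq_nonneg _)
      ((1 / (250 * R)) ^ 2) B ?_) (k10_gam h)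
    intro l hl
    rw [hB, mem_filter] at hl
    rw [← sq_abs ⟪gam κ y, y l⟫_ℝ]
    exact pow_le_pow_left₀ (by positivity) hl.2.le 2
  have hB3 : (B.card : ℝ) ≤ t ^ 3 := by
    have e1 : (B.card : ℝ) * (1 / (250 * R)) ^ 2 = (B.card : ℝ) / (62500 * R ^ 2) := by
      field_simp
      ring
    rw [e1, div_le_div_iff₀ (by positivity) (by positivity)] at hBc
    have e2 : 7 / 9 * t ^ 4 * (62500 * R ^ 2) ≤ t ^ 3 * ν ^ 4 := by
      have e3 : 62500 * R ^ 2 ≤ ν ^ 2 := by nlinarith [sq_nonneg R]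
      have e4 : 7 / 9 * t ^ 4 * (62500 * R ^ 2) ≤ 7 / 9 * t ^ 4 * ν ^ 2 :=
        mul_le_mul_of_nonneg_left e3 (by positivity)
      have e5 : 7 / 9 * t ≤ ν ^ 2 := by nlinarith
      calc 7 / 9 * t ^ 4 * (62500 * R ^ 2) ≤ 7 / 9 * t ^ 4 * ν ^ 2 := e4
        _ = (7 / 9 * t) * (t ^ 3 * ν ^ 2) := by ring
        _ ≤ ν ^ 2 * (t ^ 3 * ν ^ 2) := mul_le_mul_of_nonneg_right e5 (by positivity)
        _ = t ^ 3 * ν ^ 4 := by ring
    have e6 : (B.card : ℝ) * ν ^ 4 ≤ t ^ 3 * ν ^ 4 := le_trans hBc e2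
    exact le_of_mul_le_mul_right e6 (by positivity)
  have ht3 : 0 < t ^ 3 := by positivity
  linarith

theorem Facts.card_UL [FiniteDimensional ℝ V] {ι : Type*} [DecidableEq ι] [Fintype ι]
    {E : ι → ι → ℝ} {κ : ι → ℝ} {y : ι → V} {t ν x R : ℝ} (h : Facts E κ y t ν x R) :
    ((ULs E κ y R).card : ℝ) ≤ 585 * t ^ 4 := by
  classical
  have ht := h.t15
  have hνt := h.νt
  have hν0 : 0 < ν := by linarith
  have ht0 : 0 < t := by linarith
  have hR0 : 0 < R := by linarith [h.R2]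
  have hRν := h.Rν
  have hR4 : 10 ^ 14 * R ^ 4 ≤ ν ^ 4 := by
    have := pow_le_pow_left₀ (by positivity) hRν 2
    calc 10 ^ 14 * R ^ 4 = (10 ^ 7 * R ^ 2) ^ 2 := by ring
      _ ≤ (ν ^ 2) ^ 2 := this
      _ = ν ^ 4 := by ring
  set A : Finset ι := univ.filter (fun l => 1 / (10 ^ 7 * R ^ 2) < |⟪gam κ y, y l⟫_ℝ|) with hA
  set B : Finset ι := univ.filter (fun l => 1 / 250 < ⟪uu y l, Fop y (uu y l)⟫_ℝ) with hB
  have hsub : ULs E κ y R ⊆ A ∪ B := by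
    intro l hl
    unfold ULs at hl
    rw [mem_filter] at hl
    rcases hl.2.2 with h1 | h1
    · apply mem_union_left
      rw [hA, mem_filter]; exact ⟨mem_univ _, h1⟩
    · apply mem_union_right
      rw [hB, mem_filter]; exact ⟨mem_univ _, h1⟩
  have hcard : ((ULs E κ y R).card : ℝ) ≤ A.card + B.card := by
    have e1 := card_le_card hsub
    have e2 := card_union_le A B
    exact_mod_cast le_trans e1 e2
  have hAc : (A.card : ℝ) * (1 / (10 ^ 7 * R ^ 2)) ^ 2 ≤ 7 / 9 * t ^ 4 / ν ^ 4 := by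
    refine le_trans (k10_markov (fun l => ⟪gam κ y, y l⟫_ℝ ^ 2) (fun l => sq_nonneg _)
      ((1 / (10 ^ 7 * R ^ 2)) ^ 2) A ?_) (k10_gam h)
    intro l hl
    rw [hA, mem_filter] at hl
    rw [← sq_abs ⟪gam κ y, y l⟫_ℝ]
    exact pow_le_pow_left₀ (by positivity) hl.2.le 2
  have hA3 : (A.card : ℝ) ≤ 7 / 9 * t ^ 4 := by
    have e1 : (A.card : ℝ) * (1 / (10 ^ 7 * R ^ 2)) ^ 2 = (A.card : ℝ) / (10 ^ 14 * R ^ 4) := by
      field_simp
    rw [e1, div_le_div_iff₀ (by positivity) (by positivity)] at hAc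
    have e2 : 7 / 9 * t ^ 4 * (10 ^ 14 * R ^ 4) ≤ 7 / 9 * t ^ 4 * ν ^ 4 :=
      mul_le_mul_of_nonneg_left hR4 (by positivity)
    exact le_of_mul_le_mul_right (le_trans hAc e2) (by positivity)
  have hBc : (B.card : ℝ) * (1 / 250) ≤ 7 / 3 * t ^ 4 := by
    refine le_trans (k10_markov (fun l => ⟪uu y l, Fop y (uu y l)⟫_ℝ) (fun l => ?_)
      (1 / 250) B ?_) h.uuC
    · rw [Fop_inner]
      exact Finset.sum_nonneg (fun _ _ => sq_nonneg _)
    · intro l hl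
      rw [hB, mem_filter] at hl
      exact hl.2.le
  have ht4 : 0 < t ^ 4 := by positivity
  linarith

theorem Facts.ULN [FiniteDimensional ℝ V] {ι : Type*} [DecidableEq ι] [Fintype ι]
    {E : ι → ι → ℝ} {κ : ι → ℝ} {y : ι → V} {t ν x R : ℝ} (h : Facts E κ y t ν x R) (i : ι) :
    (((ULs E κ y R).filter (fun l => 0 < E i l)).card : ℝ) ≤ 501 * t ^ 3 := by
  classical
  have ht := h.t15
  have hνt := h.νt
  have hν1 : 1 ≤ ν := by linarith
  have hν0 : 0 < ν := by linarith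
  have ht0 : 0 < t := by linarith
  have hR0 : 0 < R := by linarith [h.R2]
  have hRν := h.Rν
  have hR4 : 10 ^ 14 * R ^ 4 ≤ ν ^ 4 := by
    have := pow_le_pow_left₀ (by positivity) hRν 2
    calc 10 ^ 14 * R ^ 4 = (10 ^ 7 * R ^ 2) ^ 2 := by ring
      _ ≤ (ν ^ 2) ^ 2 := this
      _ = ν ^ 4 := by ring
  have hRl : 3000 * R ≤ ν := by
    have h1 : (3000 * R) ^ 2 ≤ ν ^ 2 := by nlinarith [sq_nonneg R]
    exact le_of_sq_le_sq h1 hν0.le
  have ht3 : 0 < t ^ 3 := by positivity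
  have htν3 : t ^ 3 ≤ ν ^ 3 / 10 ^ 24 := by
    have h1 := pow_le_pow_left₀ (by positivity) hνt 3
    have h2 : (10 ^ 8 * t) ^ 3 = 10 ^ 24 * t ^ 3 := by ring
    rw [h2] at h1
    linarith
  have hν3 : 2 ≤ ν ^ 3 := by
    have h1 : (2 : ℝ) ^ 3 ≤ ν ^ 3 := pow_le_pow_left₀ (by norm_num) (by linarith) 3
    linarith
  set k : ℝ := 3 / 2 * R / ν ^ 4 with hk
  have hk0 : 0 ≤ k := by positivity
  have hsmall : ∀ a : ℝ, 0 ≤ a → a ≤ 500 * t ^ 3 + 1 → 2 * a * k ≤ 1 := by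
    intro a ha0 ha
    rw [hk]
    have e1 : 2 * a * (3 / 2 * R / ν ^ 4) = (3 * a * R) / ν ^ 4 := by ring
    rw [e1, div_le_one (by positivity)]
    have e2 : a ≤ ν ^ 3 := by linarith
    have e3 : 3 * R ≤ ν := by linarith
    calc 3 * a * R = a * (3 * R) := by ring
      _ ≤ ν ^ 3 * ν := mul_le_mul e2 e3 (by positivity) (by positivity)
      _ = ν ^ 4 := by ring
  set N : Finset ι := (ULs E κ y R).filter (fun l => 0 < E i l) with hN
  set A : Finset ι := N.filter (fun l => 1 / (10 ^ 7 * R ^ 2) < |⟪gam κ y, y l⟫_ℝ|) with hA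
  set B : Finset ι := N.filter (fun l => 1 / 250 < ⟪uu y l, Fop y (uu y l)⟫_ℝ) with hB
  have hNm : ∀ l ∈ N, 0 < E i l ∧ rr E l ≤ R ∧ (1 / (10 ^ 7 * R ^ 2) < |⟪gam κ y, y l⟫_ℝ| ∨
      1 / 250 < ⟪uu y l, Fop y (uu y l)⟫_ℝ) := by
    intro l hl
    rw [hN, mem_filter] at hl
    have h1 := hl.1
    unfold ULs at h1
    rw [mem_filter] at h1
    exact ⟨hl.2, h1.2.1, h1.2.2⟩
  have hsub : N ⊆ A ∪ B := by
    intro l hl
    rcases (hNm l hl).2.2 with h1 | h1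
    · apply mem_union_left
      rw [hA, mem_filter]; exact ⟨hl, h1⟩
    · apply mem_union_right
      rw [hB, mem_filter]; exact ⟨hl, h1⟩
  have hcard : (N.card : ℝ) ≤ A.card + B.card := by
    have e1 := card_le_card hsub
    have e2 := card_union_le A B
    exact_mod_cast le_trans e1 e2
  have hind : ∀ J ⊆ N, ∀ l ∈ J, ∀ m ∈ J, l ≠ m → E l m = 0 := by
    intro J hJ l hl m hm _
    have h1 := (hNm l (hJ hl)).1
    have h2 := (hNm m (hJ hm)).1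
    rcases h.fr.wt.tf i l m with h3 | h3 | h3
    · linarith
    · exact h3
    · linarith
  have hkap : ∀ J ⊆ N, ∀ l ∈ J, |κ l| ≤ k := by
    intro J hJ l hl
    exact h.kap (hNm l (hJ hl)).2.1
  have hA1 : (A.card : ℝ) ≤ t ^ 3 := by
    apply k10_sub A (t ^ 3) ht3.le
    intro J hJ hJc
    have hJN : J ⊆ N := fun l hl => (mem_filter.1 (hJ hl)).1
    have h1 := h.fr.nbr_bessel J (hind J hJN) k hk0 (hkap J hJN) (gam κ y)
    have h2 : 2 * (J.card : ℝ) * k ≤ 1 := hsmall _ (Nat.cast_nonneg _) (by linarith)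
    have h3 : (1 + 2 * (J.card : ℝ) * k) * ‖gam κ y‖ ^ 2 ≤ 2 * ‖gam κ y‖ ^ 2 :=
      mul_le_mul_of_nonneg_right (by linarith) (sq_nonneg _)
    have h4 : ‖gam κ y‖ ^ 2 ≤ t ^ 3 / 3 / ν ^ 4 := by
      rw [le_div_iff₀ (by positivity)]
      have := h.g2
      rw [h.n4] at this
      linarith
    have h5 : (J.card : ℝ) * (1 / (10 ^ 7 * R ^ 2)) ^ 2 ≤ ∑ l ∈ J, ⟪y l, gam κ y⟫_ℝ ^ 2 := by
      calc (J.card : ℝ) * (1 / (10 ^ 7 * R ^ 2)) ^ 2 = ∑ l ∈ J, (1 / (10 ^ 7 * R ^ 2)) ^ 2 := by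
            rw [Finset.sum_const, nsmul_eq_mul]
        _ ≤ _ := by
            apply Finset.sum_le_sum
            intro l hl
            have h6 := (mem_filter.1 (hJ hl)).2
            rw [real_inner_comm, ← sq_abs ⟪gam κ y, y l⟫_ℝ]
            exact pow_le_pow_left₀ (by positivity) h6.le 2
    have h7 : (J.card : ℝ) * (1 / (10 ^ 7 * R ^ 2)) ^ 2 ≤ 2 / 3 * t ^ 3 / ν ^ 4 := by
      have e : 2 / 3 * t ^ 3 / ν ^ 4 = 2 * (t ^ 3 / 3 / ν ^ 4) := by ring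
      rw [e]
      linarith
    have e1 : (J.card : ℝ) * (1 / (10 ^ 7 * R ^ 2)) ^ 2 = (J.card : ℝ) / (10 ^ 14 * R ^ 4) := by
      field_simp
    rw [e1, div_le_div_iff₀ (by positivity) (by positivity)] at h7
    have e2 : 2 / 3 * t ^ 3 * (10 ^ 14 * R ^ 4) ≤ 2 / 3 * t ^ 3 * ν ^ 4 :=
      mul_le_mul_of_nonneg_left hR4 (by positivity)
    have e3 : (J.card : ℝ) ≤ 2 / 3 * t ^ 3 :=
      le_of_mul_le_mul_right (le_trans h7 e2) (by positivity)
    linarith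
  have hB1 : (B.card : ℝ) ≤ 500 * t ^ 3 := by
    apply k10_sub B (500 * t ^ 3) (by positivity)
    intro J hJ hJc
    have hJN : J ⊆ N := fun l hl => (mem_filter.1 (hJ hl)).1
    have h1 := h.fr.nbr_uu J (hind J hJN) k hk0 (hkap J hJN)
    have h2 : 2 * (J.card : ℝ) * k ≤ 1 := hsmall _ (Nat.cast_nonneg _) hJc
    have hD : 0 ≤ D2 (stdOrthonormalBasis ℝ V) y := by
      unfold D2
      exact Finset.sum_nonneg (fun _ _ => sq_nonneg _)
    have hU0 : 0 ≤ U2 y := by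
      unfold U2
      exact Finset.sum_nonneg (fun _ _ => sq_nonneg _)
    have hU : U2 y ≤ t ^ 3 := by linarith [h.DU]
    have h3 : (1 + 2 * (J.card : ℝ) * k) * U2 y ≤ 2 * U2 y :=
      mul_le_mul_of_nonneg_right (by linarith) hU0
    have h5 : (J.card : ℝ) * (1 / 250) ≤ ∑ l ∈ J, ⟪uu y l, Fop y (uu y l)⟫_ℝ := by
      calc (J.card : ℝ) * (1 / 250) = ∑ l ∈ J, (1 / 250 : ℝ) := by
            rw [Finset.sum_const, nsmul_eq_mul]
        _ ≤ _ := by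
            apply Finset.sum_le_sum
            intro l hl
            exact (mem_filter.1 (hJ hl)).2.le
    linarith
  linarith

end AEG
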