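import Pool.Agent.AEG.Defs

set_option autoImplicit false

/-!
[AEG-K5] local classification, second form (pure combinatorics).  Let `T = 1/(100 R)`, so `θ ≤ T^2/200` and `T · rr ≤ 1/100` where `rr ≤ R`.
Suppose `E l p^2 ≤ 9/10` for all `p ∈ G2`.
`S1 = {p ∈ G2 | T ≤ E l p}`: `∑_{S1} E l p^2 ≥ s2 l - ∑_{p ∉ G2} E l p^2 - T rr l ≥ 0.98 - 0.05 - 0.01 = 0.92`.
For `p ∈ S1`, `S2 p = {m ∈ M | m ≠ l, T ≤ E p m}`: `∑_{S2 p} E p m^2 ≥ s2 p - ∑_{m ∉ M} E p m^2 - T rr p - E p l^2 ≥ 0.98 - 0.05 - 0.01 - 0.9 = 0.02`.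
For `m ∈ M`, `m ≠ l` with some `p ∈ S1`, `T ≤ E p m`: `sq2 l m ≥ E l p E p m ≥ T^2 ≥ 200 θ`, so `|Q m| ≥ (199/200) sq2 l m`,
`Q m^2 ≥ 0.99 (sq2 l m)^2 ≥ 0.99 ∑_{p ∈ S1, T ≤ E p m} E l p^2 E p m^2`.  Summing: `1/100 ≥ ∑_{m∈M} Q m^2 ≥ 0.99 · 0.92 · 0.02 > 0.018`, contradiction.
-/

namespace AEG

open Finset
open scoped InnerProductSpace

variable {V : Type*} [NormedAddCommGroup V] [InnerProductSpace ℝ V]

private theorem k5_sq_sum {ι : Type*} (s : Finset ι) (f : ι → ℝ) (hf : ∀ i, 0 ≤ f i) :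
    ∑ p ∈ s, f p ^ 2 ≤ (∑ p ∈ s, f p) ^ 2 := by
  rw [sq (∑ p ∈ s, f p), sum_mul]
  refine sum_le_sum fun i hi => ?_
  rw [sq]
  exact mul_le_mul_of_nonneg_left (single_le_sum (fun j _ => hf j) hi) (hf i)

theorem local_class2 {ι : Type*} [DecidableEq ι] [Fintype ι] {E : ι → ι → ℝ} (hE : Wt E)
    (M G2 : Finset ι) (Q : ι → ℝ) (R θ : ℝ) (hR : 1 ≤ R) (hθ0 : 0 ≤ θ) (l : ι)
    (hrl : rr E l ≤ R) (hsl : 98 / 100 ≤ s2 E l) (hr : ∀ p ∈ G2, rr E p ≤ R)
    (hs : ∀ p ∈ G2, 98 / 100 ≤ s2 E p)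
    (hm : ∀ p ∈ G2, ∑ m ∈ univ \ M, E p m ^ 2 ≤ 1 / 20)
    (hl2 : ∑ p ∈ univ \ G2, E l p ^ 2 ≤ 1 / 20)
    (hQ : ∑ m ∈ M, Q m ^ 2 ≤ 1 / 100)
    (hEQ : ∀ m ∈ M, m ≠ l → |sq2 E l m - Q m| ≤ θ)
    (hθ : 200 * θ * (100 * R) ^ 2 ≤ 1) : ∃ p ∈ G2, 9 / 10 < E l p ^ 2 := by
  classical
  by_contra hcon
  push Not at hcon
  obtain ⟨T, hT0, hTR, hTθ⟩ : ∃ T : ℝ, 0 < T ∧ T * R = 1 / 100 ∧ 200 * θ ≤ T ^ 2 := by
    refine ⟨1 / (100 * R), by positivity, by field_simp, ?_⟩
    rw [div_pow, one_pow, le_div_iff₀ (by positivity)]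
    exact hθ
  have hTr : ∀ p ∈ G2, T * rr E p ≤ 1 / 100 := by
    intro p hp
    rw [← hTR]
    exact mul_le_mul_of_nonneg_left (hr p hp) hT0.le
  have hTl : T * rr E l ≤ 1 / 100 := by
    rw [← hTR]
    exact mul_le_mul_of_nonneg_left hrl hT0.le
  set S1 : Finset ι := G2.filter fun p => T ≤ E l p with hS1
  have hfilt : ∀ (A : Finset ι) (f : ι → ℝ), ∑ p ∈ A, f p = ∑ p, if p ∈ A then f p else 0 := by
    intro A f
    rw [sum_ite_mem, univ_inter]
  -- first layer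
  have hL1 : 92 / 100 ≤ ∑ p ∈ S1, E l p ^ 2 := by
    have h1 : s2 E l ≤ ∑ p ∈ S1, E l p ^ 2 + ∑ p ∈ univ \ G2, E l p ^ 2 + T * rr E l := by
      unfold s2 rr
      rw [hfilt S1, hfilt (univ \ G2), mul_sum, ← sum_add_distrib, ← sum_add_distrib]
      refine sum_le_sum fun p _ => ?_
      have hnn := hE.nn l p
      by_cases hp : p ∈ G2
      · by_cases hp' : T ≤ E l p
        · rw [if_pos (by rw [hS1, mem_filter]; exact ⟨hp, hp'⟩), if_neg (by simp [hp])]
          nlinarith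
        · rw [if_neg (by rw [hS1, mem_filter]; exact fun h => hp' h.2), if_neg (by simp [hp])]
          push Not at hp'
          nlinarith
      · rw [if_neg (by rw [hS1, mem_filter]; exact fun h => hp h.1), if_pos (by simp [hp])]
        nlinarith
    linarith
  -- second layer
  have hL2 : ∀ p ∈ S1, 2 / 100 ≤
      ∑ m ∈ M.erase l, if T ≤ E p m then E p m ^ 2 else 0 := by
    intro p hp
    rw [hS1, mem_filter] at hp
    have h1 : s2 E p ≤ (∑ m ∈ M.erase l, if T ≤ E p m then E p m ^ 2 else 0) +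
        ∑ m ∈ univ \ M, E p m ^ 2 + T * rr E p + ∑ m ∈ {l}, E p m ^ 2 := by
      unfold s2 rr
      rw [hfilt (M.erase l), hfilt (univ \ M), hfilt {l}, mul_sum, ← sum_add_distrib,
        ← sum_add_distrib, ← sum_add_distrib]
      refine sum_le_sum fun m _ => ?_
      have hnn := hE.nn p m
      have hTnn : 0 ≤ T * E p m := mul_nonneg hT0.le hnn
      by_cases hml : m = l
      · rw [if_neg (by simp [hml]), if_pos (c := m ∈ ({l} : Finset ι)) (by simp [hml])]
        have : 0 ≤ (if m ∈ univ \ M then E p m ^ 2 else 0) := by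
          split_ifs
          · positivity
          · exact le_refl _
        linarith
      · rw [if_neg (c := m ∈ ({l} : Finset ι)) (by simp [hml])]
        by_cases hm : m ∈ M
        · rw [if_pos (c := m ∈ M.erase l) (by simp [hm, hml]),
            if_neg (c := m ∈ univ \ M) (by simp [hm])]
          split_ifs with hc
          · nlinarith
          · push Not at hc
            nlinarith
        · rw [if_neg (c := m ∈ M.erase l) (by simp [hm]),
            if_pos (c := m ∈ univ \ M) (by simp [hm])]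
          nlinarith
    rw [sum_singleton] at h1
    have h3 := hs p hp.1
    have h4 := hTr p hp.1
    have h5 := hm p hp.1
    have h6 := hcon p hp.1
    rw [hE.symm l p] at h6
    linarith
  -- comparison with Q
  have hcmp : ∀ m ∈ M.erase l,
      99 / 100 * ∑ p ∈ S1, (if T ≤ E p m then E l p ^ 2 * E p m ^ 2 else 0) ≤ Q m ^ 2 := by
    intro m hm
    rw [mem_erase] at hm
    rw [← sum_filter]
    set A : Finset ι := S1.filter fun p => T ≤ E p m with hA
    rcases A.eq_empty_or_nonempty with hA0 | ⟨p, hp⟩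
    · rw [hA0, sum_empty, mul_zero]
      positivity
    · have hsq : ∑ q ∈ A, E l q * E q m ≤ sq2 E l m :=
        sum_le_univ_sum_of_nonneg fun q => mul_nonneg (hE.nn l q) (hE.nn q m)
      have hp1 : T ≤ E l p ∧ T ≤ E p m := by
        rw [hA, mem_filter, hS1, mem_filter] at hp
        exact ⟨hp.1.2, hp.2⟩
      have hbig : T ^ 2 ≤ sq2 E l m := by
        refine le_trans ?_ hsq
        refine le_trans ?_ (single_le_sum
          (fun q _ => mul_nonneg (hE.nn l q) (hE.nn q m)) hp)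
        rw [sq]
        exact mul_le_mul hp1.1 hp1.2 hT0.le (hE.nn l p)
      have h5 : ∑ q ∈ A, E l q ^ 2 * E q m ^ 2 ≤ sq2 E l m ^ 2 := by
        have h6 := k5_sq_sum A (fun q => E l q * E q m)
          (fun q => mul_nonneg (hE.nn l q) (hE.nn q m))
        have h7 : (∑ q ∈ A, E l q * E q m) ^ 2 ≤ sq2 E l m ^ 2 :=
          pow_le_pow_left₀ (sum_nonneg fun q _ => mul_nonneg (hE.nn l q) (hE.nn q m)) hsq 2
        refine le_trans (le_of_eq ?_) (h6.trans h7)
        exact sum_congr rfl fun q _ => by ring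
      have h6 := (abs_le.mp (hEQ m hm.2 hm.1)).2
      have h7 : 199 / 200 * sq2 E l m ≤ Q m := by linarith
      have h8 : 0 ≤ sq2 E l m := le_trans (by positivity) hbig
      have h9 : (199 / 200 * sq2 E l m) ^ 2 ≤ Q m ^ 2 :=
        pow_le_pow_left₀ (by positivity) h7 2
      nlinarith
  have hfin : 99 / 100 * (92 / 100 * (2 / 100)) ≤ (1 : ℝ) / 100 := by
    calc 99 / 100 * (92 / 100 * (2 / 100))
        ≤ 99 / 100 * ((∑ p ∈ S1, E l p ^ 2) * (2 / 100)) := by
          have := mul_le_mul_of_nonneg_right hL1 (show (0 : ℝ) ≤ 2 / 100 by norm_num)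
          linarith
      _ ≤ 99 / 100 * ∑ p ∈ S1, ∑ m ∈ M.erase l,
            (if T ≤ E p m then E l p ^ 2 * E p m ^ 2 else 0) := by
          refine mul_le_mul_of_nonneg_left ?_ (by norm_num)
          rw [sum_mul]
          refine sum_le_sum fun p hp => ?_
          have h1 : ∑ m ∈ M.erase l, (if T ≤ E p m then E l p ^ 2 * E p m ^ 2 else 0) =
              E l p ^ 2 * ∑ m ∈ M.erase l, (if T ≤ E p m then E p m ^ 2 else 0) := by
            rw [mul_sum]
            exact sum_congr rfl fun m _ => by split_ifs <;> simp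
          rw [h1]
          exact mul_le_mul_of_nonneg_left (hL2 p hp) (by positivity)
      _ = ∑ m ∈ M.erase l, 99 / 100 * ∑ p ∈ S1,
            (if T ≤ E p m then E l p ^ 2 * E p m ^ 2 else 0) := by
          rw [sum_comm, mul_sum]
      _ ≤ ∑ m ∈ M.erase l, Q m ^ 2 := sum_le_sum hcmp
      _ ≤ ∑ m ∈ M, Q m ^ 2 :=
          sum_le_sum_of_subset_of_nonneg (erase_subset _ _) fun _ _ _ => by positivity
      _ ≤ 1 / 100 := hQ
  norm_num at hfin

end AEG
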