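import Pool.Agent.AEG.Defs
import Pool.Agent.AEG.Defs2
import Pool.Agent.AEG.C4
import Pool.Agent.AEG.K4
import Pool.Agent.AEG.K5
import Pool.Agent.AEG.K6
import Pool.Agent.AEG.K7
import Pool.Agent.AEG.K8
import Pool.Agent.AEG.K9
import Pool.Agent.AEG.K10

set_option autoImplicit false

/-!
[AEG-K11] the classification.  `n = ν^4`, `H = Hs E R`, `G' = Gp`, `G'' = Gpp`, `UL = ULs`.
`Um = {l | 1/20 < ∑_{p ∈ univ \ G''} E l p^2}`, `Us = (univ \ G') ∪ Um`, `P = G'.filter (∃ p ∈ G', 17/18 ≤ E l p)`, `σ` from `exists_invol` (`s2 ≤ 1.02 < 2 (17/18)^2` on `G'`, `s2_Gp`).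
(cover) let `l ∉ Us`, `l ∉ UL`.  Then `l ∈ G'`, `rr l ≤ R`, `|⟪γ,y l⟫| ≤ 1/(10^7R^2)`, `⟪uu l, C uu l⟫ ≤ 1/250`, `∑_{p∉G''} E l p^2 ≤ 1/20`.  `local_class2` with `M = univ \ H` (`rr m ≤ R`), `G2 = G''`
(`rr ≤ R`, `s2 ≥ 98/100` on `G' ⊇ G''`; mass on `univ \ M = H` is `≤ 1/20`), `Q m = ⟪vv l, y m⟫` (`∑_m Q^2 = ⟪vv l, C vv l⟫ ≤ 1/100`, `q_bd`, `Fop_inner`), `θ = 21/(10^8 R^2)` (`entry_bd`;
`200 θ (100R)^2 = 0.42`): some `p ∈ G'' ⊆ G'` has `E l p^2 > 9/10 > (17/18)^2`, so `l ∈ P`.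
(us) `|univ \ G'| ≤ |H| + 135 t^3`; `|G' \ G''| ≤ 20 ∑_{p∈G'} ∑_{m∈H} E p m^2 ≤ 20 ∑_{m∈H} s2 m ≤ 20 (|H| + 21 t^3 + 4w)` (`mass_sum`, `ms`); so `|univ \ G''| ≤ 21|H| + 555 t^3 + 80 w`;
`|Um| ≤ 20 ∑_{p∉G''} s2 p ≤ 20 (|univ \ G''| + 21 t^3 + 4 w) ≤ 420 |H| + 11520 t^3 + 1680 w`; `|Us| ≤ 421 |H| + 11655 t^3 + 1680 w`; with `card_Hs`, `w ≤ t^3 + xν^2` and
`t^3 ≤ x ν^2 / 100` (`t^3 ≤ 1.02 x^2`, `x ≤ (4/3) t^2`, `t ≤ ν/10^8`): `≤ 3·10^6 (xν^2 + e ν^3)`.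
(ul), (ulN): K10.
-/

namespace AEG

open Finset
open scoped InnerProductSpace

variable {V : Type*} [NormedAddCommGroup V] [InnerProductSpace ℝ V]

theorem k11_markov {ι : Type*} [Fintype ι] (A : Finset ι) (f : ι → ℝ)
    (hf : ∀ l, 0 ≤ f l) : ((A.filter (fun l => 1 / 20 < f l)).card : ℝ) ≤ 20 * ∑ l, f l := by
  have h1 : ((A.filter (fun l => 1 / 20 < f l)).card : ℝ) * (1 / 20) ≤
      ∑ l ∈ A.filter (fun l => 1 / 20 < f l), f l := by
    rw [← nsmul_eq_mul, ← sum_const]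
    exact sum_le_sum fun l hl => (mem_filter.1 hl).2.le
  have h2 : ∑ l ∈ A.filter (fun l => 1 / 20 < f l), f l ≤ ∑ l, f l :=
    sum_le_sum_of_subset_of_nonneg (subset_univ _) (fun l _ _ => hf l)
  linarith

theorem k11_swap {ι : Type*} [Fintype ι] {E : ι → ι → ℝ} (hE : Wt E)
    (X : Finset ι) : ∑ l, ∑ m ∈ X, E l m ^ 2 = ∑ m ∈ X, s2 E m := by
  rw [sum_comm]
  refine sum_congr rfl fun m _ => ?_
  unfold s2
  exact sum_congr rfl fun l _ => by rw [hE.symm l m]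

theorem k11_num {t ν x e w H : ℝ} (ht : 3 / 2 ≤ t) (hν : 10 ^ 8 * t ≤ ν) (hx0 : 0 ≤ x)
    (hxt : x ≤ 4 / 3 * t ^ 2) (htx : t ^ 3 ≤ 102 / 100 * x ^ 2) (he : 0 ≤ e)
    (hw : w ≤ t ^ 3 + x * ν ^ 2) (hH : H ≤ 3000 * (x * ν ^ 2) + 6500 * (e * ν ^ 3)) :
    421 * H + 11655 * t ^ 3 + 1680 * w ≤ 3 * 10 ^ 6 * (x * ν ^ 2 + e * ν ^ 3) := by
  have hν0 : 0 < ν := by nlinarith
  have h1 : t ^ 2 ≤ ν ^ 2 / 10 ^ 16 := by
    have h2 : (10 ^ 8 * t) ^ 2 ≤ ν ^ 2 := by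
      apply pow_le_pow_left₀ (by positivity) hν
    nlinarith
  have h3 : x * x ≤ x * (4 / 3 * t ^ 2) := mul_le_mul_of_nonneg_left hxt hx0
  have h4 : x * t ^ 2 ≤ x * (ν ^ 2 / 10 ^ 16) := mul_le_mul_of_nonneg_left h1 hx0
  have h5 : t ^ 3 ≤ x * ν ^ 2 / 100 := by
    have : 0 ≤ x * ν ^ 2 := by positivity
    nlinarith
  have h6 : 0 ≤ x * ν ^ 2 := by positivity
  have h7 : 0 ≤ e * ν ^ 3 := by positivity
  nlinarith

theorem Facts.exists_cls [FiniteDimensional ℝ V] {ι : Type*} [DecidableEq ι] [Fintype ι]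
    {E : ι → ι → ℝ} {κ : ι → ℝ} {y : ι → V} {t ν x R : ℝ} (h : Facts E κ y t ν x R) :
    ∃ (P Us UL : Finset ι) (σ : ι → ι), Cls E P Us UL σ t ν x := by
  have hE := h.fr.wt
  have hν : 0 < ν := by
    have h1 := h.t15
    have h2 := h.νt
    nlinarith
  have hn : 0 < nv ι := by
    rw [h.n4]
    positivity
  have he : 0 ≤ e1 E := by linarith [h.e99]
  have hR1 : 1 ≤ R := by linarith [h.R2]
  have hR0 : 0 < R := by linarith
  have hs : ∀ l ∈ Gp E κ y R, s2 E l < 2 * (17 / 18) ^ 2 := by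
    intro l hl
    have h1 := (abs_le.1 (h.s2_Gp hl)).2
    norm_num
    linarith
  obtain ⟨σ, hσ⟩ := exists_invol hE (Gp E κ y R) (17 / 18) (by norm_num) hs
  have hsub : Gpp E κ y R ⊆ Gp E κ y R := filter_subset _ _
  have hGpr : ∀ l ∈ Gp E κ y R, rr E l ≤ R := fun l hl => (mem_filter.1 hl).2.1
  refine ⟨(Gp E κ y R).filter (fun l => ∃ p ∈ Gp E κ y R, 17 / 18 ≤ E l p),
    (univ \ Gp E κ y R) ∪ univ.filter (fun l => 1 / 20 < ∑ p ∈ univ \ Gpp E κ y R, E l p ^ 2),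
    ULs E κ y R, σ, hσ, ?_, ?_, h.card_UL, h.ULN⟩
  · intro l
    by_cases hUs : l ∈ (univ \ Gp E κ y R) ∪
        univ.filter (fun l => 1 / 20 < ∑ p ∈ univ \ Gpp E κ y R, E l p ^ 2)
    · exact Or.inr (Or.inl hUs)
    by_cases hUL : l ∈ ULs E κ y R
    · exact Or.inr (Or.inr hUL)
    left
    rw [mem_union, not_or, mem_sdiff, mem_filter] at hUs
    have hl1 : l ∈ Gp E κ y R := by
      by_contra hcon
      exact hUs.1 ⟨mem_univ _, hcon⟩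
    have hl2 : ∑ p ∈ univ \ Gpp E κ y R, E l p ^ 2 ≤ 1 / 20 := by
      by_contra hcon
      exact hUs.2 ⟨mem_univ _, not_le.1 hcon⟩
    have hlr := hGpr l hl1
    have hA : |⟪gam κ y, y l⟫_ℝ| ≤ 1 / (10 ^ 7 * R ^ 2) := by
      by_contra hcon
      exact hUL (mem_filter.2 ⟨mem_univ _, hlr, Or.inl (not_le.1 hcon)⟩)
    have hB : ⟪uu y l, Fop y (uu y l)⟫_ℝ ≤ 1 / 250 := by
      by_contra hcon
      exact hUL (mem_filter.2 ⟨mem_univ _, hlr, Or.inr (not_le.1 hcon)⟩)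
    have hMr : ∀ m ∈ univ \ Hs E R, rr E m ≤ R := by
      intro m hm
      rw [mem_sdiff] at hm
      by_contra hcon
      exact hm.2 (mem_filter.2 ⟨mem_univ _, not_le.1 hcon⟩)
    have hQ : ∑ m ∈ univ \ Hs E R, ⟪vv E y l, y m⟫_ℝ ^ 2 ≤ 1 / 100 := by
      have h1 := h.q_bd hB
      rw [Fop_inner] at h1
      refine le_trans ?_ h1
      have h2 : ∑ m ∈ univ \ Hs E R, ⟪vv E y l, y m⟫_ℝ ^ 2 ≤ ∑ m, ⟪vv E y l, y m⟫_ℝ ^ 2 :=
        sum_le_sum_of_subset_of_nonneg (subset_univ _) (fun m _ _ => sq_nonneg _)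
      refine h2.trans (le_of_eq ?_)
      exact sum_congr rfl fun m _ => by rw [real_inner_comm]
    have hθ : 200 * (21 / (10 ^ 8 * R ^ 2)) * (100 * R) ^ 2 ≤ 1 := by
      have h1 : 200 * (21 / (10 ^ 8 * R ^ 2)) * (100 * R) ^ 2 = 42 / 100 := by
        field_simp
        norm_num
      rw [h1]
      norm_num
    obtain ⟨p, hp, hp9⟩ := local_class2 hE (univ \ Hs E R) (Gpp E κ y R)
      (fun m => ⟪vv E y l, y m⟫_ℝ) R (21 / (10 ^ 8 * R ^ 2)) hR1 (by positivity) l hlr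
      (by have h1 := (abs_le.1 (h.s2_Gp hl1)).1; linarith)
      (fun p hp => hGpr p (hsub hp))
      (fun p hp => by have h1 := (abs_le.1 (h.s2_Gp (hsub hp))).1; linarith)
      (fun p hp => by
        rw [Finset.sdiff_sdiff_eq_self (subset_univ _)]
        exact (mem_filter.1 hp).2)
      hl2 hQ
      (fun m hm hml => h.entry_bd hlr hA (hMr m hm) hml) hθ
    refine mem_filter.2 ⟨hl1, p, hsub hp, ?_⟩
    by_contra hcon
    have h1 := not_le.1 hcon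
    have h0 := hE.nn l p
    nlinarith
  · have c1 := h.card_Gp
    have c2 : ((Gp E κ y R \ Gpp E κ y R).card : ℝ) ≤
        20 * (((Hs E R).card : ℝ) + (21 * t ^ 3 + 4 * ww E)) := by
      have h1 : Gp E κ y R \ Gpp E κ y R ⊆
          (Gp E κ y R).filter (fun l => 1 / 20 < ∑ m ∈ Hs E R, E l m ^ 2) := by
        intro l hl
        rw [mem_sdiff] at hl
        refine mem_filter.2 ⟨hl.1, ?_⟩
        by_contra hcon
        exact hl.2 (mem_filter.2 ⟨hl.1, not_lt.1 hcon⟩)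
      have h2 : ((Gp E κ y R \ Gpp E κ y R).card : ℝ) ≤
          (((Gp E κ y R).filter (fun l => 1 / 20 < ∑ m ∈ Hs E R, E l m ^ 2)).card : ℝ) := by
        exact_mod_cast card_le_card h1
      have h3 := k11_markov (Gp E κ y R) (fun l => ∑ m ∈ Hs E R, E l m ^ 2)
        (fun l => sum_nonneg fun m _ => sq_nonneg _)
      rw [k11_swap hE] at h3
      have h4 := h.fr.mass_sum hn he (Hs E R)
      have h5 := h.ms
      linarith
    have c3 : ((univ \ Gpp E κ y R).card : ℝ) ≤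
        ((univ \ Gp E κ y R).card : ℝ) + ((Gp E κ y R \ Gpp E κ y R).card : ℝ) := by
      have h1 : univ \ Gpp E κ y R ⊆ (univ \ Gp E κ y R) ∪ (Gp E κ y R \ Gpp E κ y R) := by
        intro l hl
        rw [mem_sdiff] at hl
        rw [mem_union, mem_sdiff, mem_sdiff]
        by_cases hl1 : l ∈ Gp E κ y R
        · exact Or.inr ⟨hl1, hl.2⟩
        · exact Or.inl ⟨mem_univ _, hl1⟩
      have h2 := (card_le_card h1).trans (card_union_le _ _)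
      exact_mod_cast h2
    have c4 : ((univ.filter (fun l => 1 / 20 < ∑ p ∈ univ \ Gpp E κ y R, E l p ^ 2)).card : ℝ) ≤
        20 * (((univ \ Gpp E κ y R).card : ℝ) + (21 * t ^ 3 + 4 * ww E)) := by
      have h3 := k11_markov univ (fun l => ∑ p ∈ univ \ Gpp E κ y R, E l p ^ 2)
        (fun l => sum_nonneg fun m _ => sq_nonneg _)
      rw [k11_swap hE] at h3
      have h4 := h.fr.mass_sum hn he (univ \ Gpp E κ y R)
      have h5 := h.ms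
      linarith
    have c5 : ((((univ \ Gp E κ y R) ∪
        univ.filter (fun l => 1 / 20 < ∑ p ∈ univ \ Gpp E κ y R, E l p ^ 2))).card : ℝ) ≤
        ((univ \ Gp E κ y R).card : ℝ) +
        ((univ.filter (fun l => 1 / 20 < ∑ p ∈ univ \ Gpp E κ y R, E l p ^ 2)).card : ℝ) := by
      exact_mod_cast card_union_le _ _
    have c6 := k11_num h.t15 h.νt h.x0 h.xt h.tx he h.wx h.card_Hs
    linarith

end AEG
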