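import Pool.Agent.AEG.Defs

set_option autoImplicit false

/-!
[AEG-T1] the neighbourhood systems are triangle-free.
Let `u, v, t ∈ Lset i` be distinct.  `0 < E i u, E i v` and `tf i u v` (`E i u = 0 ∨ E u v = 0 ∨ E i v = 0`) give `E u v = 0`; similarly
`E v t = 0`, `E u t = 0`.  `u ≠ σ v`: otherwise `E v u = E v (σ v) > 0` but `E v u = E u v = 0`.  If `0 < ⟪w u, w v⟫` then by `ip`
`0 < 0 - E u (σ v) - E (σ u) v + E (σ u) (σ v)`, so `0 < E (σ u) (σ v)`.  If all three inner products were positive then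
`E (σ u) (σ v), E (σ v) (σ t), E (σ u) (σ t) > 0`, contradicting `tf (σ u) (σ v) (σ t)`.
Second statement: `0 < ⟪w u, w v⟫` gives `0 < E u v - .. + E (σ u) (σ v)`, so one of `E u v`, `E (σ u) (σ v)` is positive.
-/

namespace AEG

open Finset
open scoped InnerProductSpace

variable {V : Type*} [NormedAddCommGroup V] [InnerProductSpace ℝ V]

private theorem t1_ip_pos {ι : Type*} {E : ι → ι → ℝ} {P : Finset ι} {σ : ι → ι}
    {w : ι → V} (h : PairSys E P σ w) {u v : ι} (hu : u ∈ P) (hv : v ∈ P) (huv : u ≠ v)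
    (huv' : u ≠ σ v) (hpos : 0 < ⟪w u, w v⟫_ℝ) : 0 < E u v + E (σ u) (σ v) := by
  obtain ⟨c, hc, he⟩ := h.ip u hu v hv huv huv'
  have h1 : 0 < c * ⟪w u, w v⟫_ℝ := mul_pos hc hpos
  have h2 := h.wt.nn u (σ v)
  have h3 := h.wt.nn (σ u) v
  linarith

theorem pos_ip {ι : Type*} {E : ι → ι → ℝ} {P : Finset ι} {σ : ι → ι}
    {w : ι → V} (h : PairSys E P σ w) {u v : ι} (hu : u ∈ P) (hv : v ∈ P) (huv : u ≠ v)
    (huv' : u ≠ σ v) (hpos : 0 < ⟪w u, w v⟫_ℝ) : 0 < E u v ∨ 0 < E (σ u) (σ v) := by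
  have h1 := t1_ip_pos h hu hv huv huv' hpos
  by_contra hcon
  push Not at hcon
  linarith [hcon.1, hcon.2]

private theorem t1_pair {ι : Type*} [DecidableEq ι] {E : ι → ι → ℝ} {P : Finset ι} {σ : ι → ι}
    {w : ι → V} (h : PairSys E P σ w) (i : ι) {u v : ι} (hu : u ∈ Lset E P σ i)
    (hv : v ∈ Lset E P σ i) (huv : u ≠ v) (hpos : 0 < ⟪w u, w v⟫_ℝ) :
    0 < E (σ u) (σ v) := by
  unfold Lset at hu hv
  rw [Finset.mem_filter] at hu hv
  have h0 : E u v = 0 := by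
    rcases h.wt.tf i u v with h1 | h1 | h1
    · exact absurd h1 hu.2.1.ne'
    · exact h1
    · exact absurd h1 hv.2.1.ne'
  have hne : u ≠ σ v := by
    intro he
    have h1 := h.pos v hv.1
    rw [← he, h.wt.symm v u, h0] at h1
    exact lt_irrefl _ h1
  have h1 := t1_ip_pos h hu.1 hv.1 huv hne hpos
  rwa [h0, zero_add] at h1

theorem tf_Lset {ι : Type*} [DecidableEq ι] {E : ι → ι → ℝ} {P : Finset ι} {σ : ι → ι}
    {w : ι → V} (h : PairSys E P σ w) (i : ι) : TF (Lset E P σ i) w := by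
  intro u hu v hv t ht huv hvt hut
  by_contra hcon
  push Not at hcon
  obtain ⟨h1, h2, h3⟩ := hcon
  have e1 := t1_pair h i hu hv huv h1
  have e2 := t1_pair h i hv ht hvt h2
  have e3 := t1_pair h i hu ht hut h3
  rcases h.wt.tf (σ u) (σ v) (σ t) with h4 | h4 | h4
  · exact absurd h4 e1.ne'
  · exact absurd h4 e2.ne'
  · exact absurd h4 e3.ne'

end AEG
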