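import Pool.Agent.AEG.Defs
import Pool.Agent.AEG.K1
import Pool.Agent.AEG.T1

set_option autoImplicit false

/-!
[AEG-K2] double counting over a set `S` of vertices.
`TF_nb`: for fixed `l` the set `B_l = {u ∈ B | 0 < E (σ u) l ∧ l ≠ u}` is `TF` for `w`: `σ u ∈ Lset l` (`σ u ∈ P`, `0 < E l (σ u)`, `σ (σ u) = u ≠ l`), `σ` is
injective on `P`, `⟪w u, w v⟫ = ⟪w (σ u), w (σ v)⟫`, `tf_Lset`.
`count_part`: `c0 |B| ≤ ∑_{u∈B} ∑_{l ∈ S, 0 < E (σ u) l, l ≠ u} ⟪γ, w u⟫^2 = ∑_{l∈S} ∑_{u∈B_l} ⟪γ, w u⟫^2 ≤ |S| ‖γ‖^2 F` by `kk2`.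
-/

namespace AEG

open Finset
open scoped InnerProductSpace

variable {V : Type*} [NormedAddCommGroup V] [InnerProductSpace ℝ V]

theorem TF_nb {ι : Type*} [DecidableEq ι] {E : ι → ι → ℝ} {P : Finset ι}
    {σ : ι → ι} {w : ι → V} (h : PairSys E P σ w) (B : Finset ι) (hB : B ⊆ P) (l : ι) :
    TF (B.filter (fun u => 0 < E (σ u) l ∧ l ≠ u)) w := by
  have hL : ∀ u ∈ B.filter (fun u => 0 < E (σ u) l ∧ l ≠ u), u ∈ P ∧ σ u ∈ Lset E P σ l := by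
    intro u hu
    rw [Finset.mem_filter] at hu
    have huP := hB hu.1
    refine ⟨huP, ?_⟩
    unfold Lset
    rw [Finset.mem_filter]
    refine ⟨h.mem u huP, ?_, ?_⟩
    · rw [h.wt.symm]
      exact hu.2.1
    · rw [h.inv u huP]
      exact Ne.symm hu.2.2
  have hinj : ∀ u v, u ∈ P → v ∈ P → u ≠ v → σ u ≠ σ v := by
    intro u v hu hv huv he
    apply huv
    rw [← h.inv u hu, ← h.inv v hv, he]
  have hip : ∀ u v, u ∈ P → v ∈ P → ⟪w (σ u), w (σ v)⟫_ℝ = ⟪w u, w v⟫_ℝ := by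
    intro u v hu hv
    rw [h.neg u hu, h.neg v hv, inner_neg_neg]
  intro i hi j hj k hk hij hjk hik
  obtain ⟨hi1, hi2⟩ := hL i hi
  obtain ⟨hj1, hj2⟩ := hL j hj
  obtain ⟨hk1, hk2⟩ := hL k hk
  have := tf_Lset h l (σ i) hi2 (σ j) hj2 (σ k) hk2 (hinj _ _ hi1 hj1 hij) (hinj _ _ hj1 hk1 hjk)
    (hinj _ _ hi1 hk1 hik)
  rw [hip i j hi1 hj1, hip j k hj1 hk1, hip i k hi1 hk1] at this
  exact this

theorem count_part {ι : Type*} [DecidableEq ι] {E : ι → ι → ℝ} {P : Finset ι}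
    {σ : ι → ι} {w : ι → V} (h : PairSys E P σ w) (γ : V) (B S : Finset ι) (hB : B ⊆ P)
    (hpos : ∀ u ∈ B, 0 ≤ ⟪γ, w u⟫_ℝ) (c0 N β0 F : ℝ)
    (hc : ∀ u ∈ B, c0 ≤
      ((S.filter (fun l => 0 < E (σ u) l ∧ l ≠ u)).card : ℝ) * ⟪γ, w u⟫_ℝ ^ 2)
    (hN : 0 < N) (hβ0 : 0 < β0) (hβ : ∀ u ∈ B, β0 ≤ N * ⟪γ, w u⟫_ℝ ^ 2) (hF0 : 0 ≤ F)
    (hF : 8 * (N * ‖γ‖ ^ 2) ≤ F ^ 2 * β0) :
    c0 * (B.card : ℝ) ≤ (S.card : ℝ) * (‖γ‖ ^ 2 * F) := by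
  have h1 : c0 * (B.card : ℝ) ≤ ∑ u ∈ B,
      ((S.filter (fun l => 0 < E (σ u) l ∧ l ≠ u)).card : ℝ) * ⟪γ, w u⟫_ℝ ^ 2 := by
    calc c0 * (B.card : ℝ) = ∑ _u ∈ B, c0 := by
          rw [Finset.sum_const, nsmul_eq_mul, mul_comm]
      _ ≤ _ := Finset.sum_le_sum hc
  have h2 : ∑ u ∈ B, ((S.filter (fun l => 0 < E (σ u) l ∧ l ≠ u)).card : ℝ) * ⟪γ, w u⟫_ℝ ^ 2 =
      ∑ l ∈ S, ∑ u ∈ B.filter (fun u => 0 < E (σ u) l ∧ l ≠ u), ⟪γ, w u⟫_ℝ ^ 2 := by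
    have h3 : ∀ u ∈ B, ((S.filter (fun l => 0 < E (σ u) l ∧ l ≠ u)).card : ℝ) * ⟪γ, w u⟫_ℝ ^ 2 =
        ∑ l ∈ S, (if 0 < E (σ u) l ∧ l ≠ u then ⟪γ, w u⟫_ℝ ^ 2 else 0) := by
      intro u _
      rw [← Finset.sum_filter, Finset.sum_const, nsmul_eq_mul]
    rw [Finset.sum_congr rfl h3, Finset.sum_comm]
    refine Finset.sum_congr rfl fun l _ => ?_
    rw [Finset.sum_filter]
  have h4 : ∑ l ∈ S, ∑ u ∈ B.filter (fun u => 0 < E (σ u) l ∧ l ≠ u), ⟪γ, w u⟫_ℝ ^ 2 ≤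
      ∑ _l ∈ S, ‖γ‖ ^ 2 * F := by
    refine Finset.sum_le_sum fun l _ => ?_
    refine (kk2 (B.filter (fun u => 0 < E (σ u) l ∧ l ≠ u)) w ?_ (TF_nb h B hB l) γ ?_ N β0 F hN hβ0
      ?_ hF0 hF).1
    · intro u hu
      exact h.norm u (hB (Finset.mem_filter.1 hu).1)
    · intro u hu
      exact hpos u (Finset.mem_filter.1 hu).1
    · intro u hu
      exact hβ u (Finset.mem_filter.1 hu).1
  rw [Finset.sum_const, nsmul_eq_mul] at h4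
  rw [h2] at h1
  exact h1.trans h4

end AEG
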