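import Pool.Agent.AEG.Defs

set_option autoImplicit false

/-!
[AEG-N1] the pair system of a frame.  `h u = y u - y (σ u)`, `w u = ‖h u‖⁻¹ • h u`.
`u ≠ σ u` because `E u u = 0 < E u (σ u)`.  By `hG` with `(a,b,c,d) = (u, σ u, u, σ u)`: `‖h u‖^2 = 2 - 2 E u (σ u) > 0` (`Wt.lt`), so
`‖w u‖ = 1`.  `h (σ u) = y (σ u) - y u = - h u`, hence `w (σ u) = - w u`.  For `u ≠ v`, `u ≠ σ v` (so also `σ u ≠ v`, `σ u ≠ σ v`) all four
`kd` terms vanish in `hG u (σ u) v (σ v)`: `⟪h u, h v⟫ = E u v - E u (σ v) - E (σ u) v + E (σ u) (σ v)`, take `c = ‖h u‖ ‖h v‖`.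
The two last statements: `hG` holds for both kinds of frames by bilinearity (the `κ` terms cancel).
-/

namespace AEG

open Finset
open scoped InnerProductSpace

variable {V : Type*} [NormedAddCommGroup V] [InnerProductSpace ℝ V]

theorem n1_norm {ι : Type*} [DecidableEq ι] [Fintype ι] {E : ι → ι → ℝ} (hE : Wt E)
    {y : ι → V}
    (hG : ∀ a b c d, ⟪y a - y b, y c - y d⟫_ℝ =
      (kd a c + E a c) - (kd a d + E a d) - (kd b c + E b c) + (kd b d + E b d))
    {u v : ι} (huv : u ≠ v) : ‖y u - y v‖ ^ 2 = 2 * (1 - E u v) := by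
  rw [← real_inner_self_eq_norm_sq, hG]
  simp only [kd, if_true, if_neg huv, if_neg huv.symm, hE.diag, hE.symm v u]
  ring

theorem pairSys_of {ι : Type*} [DecidableEq ι] [Fintype ι] {E : ι → ι → ℝ} (hE : Wt E)
    {y : ι → V}
    (hG : ∀ a b c d, ⟪y a - y b, y c - y d⟫_ℝ =
      (kd a c + E a c) - (kd a d + E a d) - (kd b c + E b c) + (kd b d + E b d))
    (P : Finset ι) (σ : ι → ι)
    (hP : ∀ u ∈ P, σ u ∈ P ∧ σ (σ u) = u ∧ 0 < E u (σ u)) : PairSys E P σ (wv y σ) := by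
  have hne : ∀ u ∈ P, u ≠ σ u := by
    intro u hu h
    have h1 := (hP u hu).2.2
    rw [← h, hE.diag] at h1
    exact lt_irrefl _ h1
  have hn : ∀ u ∈ P, 0 < ‖y u - y (σ u)‖ := by
    intro u hu
    have h1 := n1_norm hE hG (hne u hu)
    have h2 := hE.lt u (σ u)
    by_contra hcon
    have h3 : ‖y u - y (σ u)‖ = 0 := le_antisymm (not_lt.mp hcon) (norm_nonneg _)
    rw [h3] at h1
    nlinarith
  refine ⟨hE, fun u hu => (hP u hu).1, fun u hu => (hP u hu).2.1, fun u hu => (hP u hu).2.2,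
    ?_, ?_, ?_⟩
  · intro u hu
    rw [wv, norm_smul, norm_inv, norm_norm, inv_mul_cancel₀ (hn u hu).ne']
  · intro u hu
    rw [wv, wv, (hP u hu).2.1, ← neg_sub (y u) (y (σ u)), norm_neg, smul_neg]
  · intro u hu v hv huv huv'
    have h1 : σ u ≠ v := by
      intro h
      apply huv'
      rw [← h, (hP u hu).2.1]
    have h2 : σ u ≠ σ v := by
      intro h
      apply huv
      rw [← (hP u hu).2.1, h, (hP v hv).2.1]
    refine ⟨‖y u - y (σ u)‖ * ‖y v - y (σ v)‖, mul_pos (hn u hu) (hn v hv), ?_⟩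
    have h3 := hG u (σ u) v (σ v)
    simp only [kd, if_neg huv, if_neg huv', if_neg h1, if_neg h2, zero_add] at h3
    rw [← h3, wv, wv, inner_smul_left, inner_smul_right]
    have h4 := (hn u hu).ne'
    have h5 := (hn v hv).ne'
    simp only [conj_trivial]
    field_simp

theorem Frame.ip4 {ι : Type*} [DecidableEq ι] [Fintype ι] {E : ι → ι → ℝ} {κ : ι → ℝ}
    {y : ι → V} (h : Frame E κ y) (a b c d : ι) : ⟪y a - y b, y c - y d⟫_ℝ =
      (kd a c + E a c) - (kd a d + E a d) - (kd b c + E b c) + (kd b d + E b d) := by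
  rw [inner_sub_left, inner_sub_right, inner_sub_right, h.gram, h.gram, h.gram, h.gram]
  ring

theorem SFrame.ip4 {ι : Type*} [DecidableEq ι] [Fintype ι] {E : ι → ι → ℝ}
    {z : ι → V} (h : SFrame E z) (a b c d : ι) : ⟪z a - z b, z c - z d⟫_ℝ =
      (kd a c + E a c) - (kd a d + E a d) - (kd b c + E b c) + (kd b d + E b d) := by
  rw [inner_sub_left, inner_sub_right, inner_sub_right, h.gram, h.gram, h.gram, h.gram]
  ring

/-- `‖y u - y (σ u)‖² = 2 (1 - E u (σ u))` -/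
theorem norm_pair {ι : Type*} [DecidableEq ι] [Fintype ι] {E : ι → ι → ℝ} (hE : Wt E)
    {y : ι → V}
    (hG : ∀ a b c d, ⟪y a - y b, y c - y d⟫_ℝ =
      (kd a c + E a c) - (kd a d + E a d) - (kd b c + E b c) + (kd b d + E b d))
    {u v : ι} (huv : u ≠ v) : ‖y u - y v‖ ^ 2 = 2 * (1 - E u v) :=
  n1_norm hE hG huv

end AEG
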