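import Pool.Agent.AEG.Defs
import Pool.Agent.AEG.G1
import Pool.Agent.AEG.G2
import Pool.Agent.AEG.N1

set_option autoImplicit false

/-!
[AEG-P1] pair identities in a frame.  `h = y j - y j'`, `ε = 1 - E j j'`, `S = rr j - rr j'`, `n = nv ι`, `c = (1-e1)/2`,
`Y l = kd l j + E l j - kd l j' - E l j'` (`j ≠ j'`), so `Y j = ε`, `Y j' = -ε`, `∑ Y = S` and `⟪y l, h⟫ = Y l - (κ j - κ j') = Y l - S/n` (kappa).
`∑_l ⟪y l, h⟫ = 0`.  `⟪h, C h⟫ = ∑ ⟪y l, h⟫^2 = ∑ Y^2 - S^2/n = T + 2 ε^2 - S^2/n`.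
`C h = ∑ (Y l - S/n) • y l = ∑ Y l • y l`, so `‖C h‖^2 = ∑ Y l Y m (kd + E l m - κ l - κ m) = ∑ Y^2 + YᵀEY - 2 S ∑ κ l Y l`.
`YᵀEY ≤ 2 ε T`: for `l, m ∉ {j,j'}` `Y l Y m E l m ≤ 0` (`E l m > 0`, `Y l Y m > 0` would give a triangle with `j` or `j'`), for `l = j` (or `m = j`) the terms are
`ε E j m Y m = ε E j m^2` (`E j m > 0` forces `E j' m = 0`), for `j'`: `ε E j' m^2`, and the pair `(j,j')` contributes `-2 ε^2 E j j' ≤ 0`.
`∑ κ Y = (1/n)(∑ r l Y l + c S)` and `⟪γ, h⟫ = (1/n) ∑ r l ⟪y l, h⟫ = (1/n)(∑ r l Y l - S e1)` (`n γ = ∑ r l • y l`), so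
`∑ κ Y = ⟪γ, h⟫ + (S/n)(1+e1)/2` and `‖C h‖^2 = (∑ Y^2 - S^2/n) + YᵀEY - e1 S^2/n - 2 S ⟪γ, h⟫ ≤ ⟪h, C h⟫ + 2εT - 2 S ⟪γ, h⟫`.
-/

namespace AEG

open Finset
open scoped InnerProductSpace

variable {V : Type*} [NormedAddCommGroup V] [InnerProductSpace ℝ V]

theorem p1_split {ι : Type*} [DecidableEq ι] [Fintype ι] (F : ι → ℝ) {j j' : ι} (hj : j ≠ j') :
    ∑ l, F l = F j + F j' + ∑ l ∈ univ.filter (fun l => l ≠ j ∧ l ≠ j'), F l := by
  rw [← sum_filter_add_sum_filter_not univ (fun l => l ≠ j ∧ l ≠ j'), add_comm]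
  congr 1
  have : (univ.filter fun l => ¬ (l ≠ j ∧ l ≠ j')) = ({j, j'} : Finset ι) := by
    ext l
    simp only [mem_filter, mem_univ, true_and, mem_insert, mem_singleton]
    tauto
  rw [this, sum_pair hj]

/-- the form `Yᵀ E Y` -/
theorem p1_form {ι : Type*} [DecidableEq ι] [Fintype ι] {E : ι → ι → ℝ} (hE : Wt E)
    {j j' : ι} (hjj : 0 < E j j') :
    ∑ l, ∑ m, (kd l j + E l j - kd l j' - E l j') * E l m * (kd m j + E m j - kd m j' - E m j') ≤
      2 * (1 - E j j') *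
        (∑ l ∈ univ.filter (fun l => l ≠ j ∧ l ≠ j'), (E j l - E j' l) ^ 2) := by
  have hj : j ≠ j' := by
    rintro rfl
    rw [hE.diag] at hjj
    exact lt_irrefl _ hjj
  set Y : ι → ℝ := fun l => kd l j + E l j - kd l j' - E l j' with hY
  have hYj : Y j = 1 - E j j' := by
    simp only [hY, kd, if_neg hj, hE.diag, if_pos]
    ring
  have hYj' : Y j' = -(1 - E j j') := by
    simp only [hY, kd, if_neg (Ne.symm hj), hE.diag, if_pos, hE.symm j' j]
    ring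
  have hYl : ∀ l, l ≠ j → l ≠ j' → Y l = E j l - E j' l := by
    intro l h1 h2
    simp only [hY, kd, if_neg h1, if_neg h2, hE.symm l j, hE.symm l j']
    ring
  have hzero : ∀ l, E j l = 0 ∨ E j' l = 0 := by
    intro l
    rcases hE.tf j j' l with h | h | h
    · exact absurd h hjj.ne'
    · exact Or.inr h
    · exact Or.inl h
  have hε : 0 < 1 - E j j' := by linarith [hE.lt j j']
  change ∑ l, ∑ m, Y l * E l m * Y m ≤ _
  set N : Finset ι := univ.filter (fun l => l ≠ j ∧ l ≠ j') with hN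
  have hmem : ∀ l ∈ N, l ≠ j ∧ l ≠ j' := fun l hl => by
    rw [hN, mem_filter] at hl
    exact hl.2
  have e1 : ∑ l, ∑ m, Y l * E l m * Y m =
      (Y j * E j j * Y j + Y j * E j j' * Y j' + ∑ m ∈ N, Y j * E j m * Y m) +
      (Y j' * E j' j * Y j + Y j' * E j' j' * Y j' + ∑ m ∈ N, Y j' * E j' m * Y m) +
      ∑ l ∈ N, (Y l * E l j * Y j + Y l * E l j' * Y j' + ∑ m ∈ N, Y l * E l m * Y m) := by
    rw [p1_split (fun l => ∑ m, Y l * E l m * Y m) hj]
    rw [p1_split (fun m => Y j * E j m * Y m) hj, p1_split (fun m => Y j' * E j' m * Y m) hj]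
    congr 1
    refine sum_congr rfl fun l _ => ?_
    rw [p1_split (fun m => Y l * E l m * Y m) hj]
  have e2 : ∑ m ∈ N, Y j * E j m * Y m + ∑ m ∈ N, Y j' * E j' m * Y m =
      (1 - E j j') * ∑ l ∈ N, (E j l - E j' l) ^ 2 := by
    rw [← sum_add_distrib, mul_sum]
    refine sum_congr rfl fun m hm => ?_
    rw [hYj, hYj', hYl m (hmem m hm).1 (hmem m hm).2]
    rcases hzero m with h | h <;> rw [h] <;> ring
  have e3 : ∑ l ∈ N, (Y l * E l j * Y j + Y l * E l j' * Y j' + ∑ m ∈ N, Y l * E l m * Y m) ≤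
      (1 - E j j') * ∑ l ∈ N, (E j l - E j' l) ^ 2 := by
    rw [mul_sum]
    refine sum_le_sum fun l hl => ?_
    have hl' := hmem l hl
    have h5 : ∑ m ∈ N, Y l * E l m * Y m ≤ 0 := by
      refine sum_nonpos fun m hm => ?_
      have hm' := hmem m hm
      rw [hYl l hl'.1 hl'.2, hYl m hm'.1 hm'.2]
      rcases hE.tf l m j with h | h | h
      · rw [h]; simp
      · rcases hE.tf l m j' with h' | h' | h'
        · rw [h']; simp
        · rw [hE.symm j m, hE.symm j' m, h, h']; simp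
        · rw [hE.symm j m, hE.symm j' l, h, h']
          have := mul_nonneg (mul_nonneg (hE.nn j l) (hE.nn l m)) (hE.nn j' m)
          nlinarith
      · rcases hE.tf l m j' with h' | h' | h'
        · rw [h']; simp
        · rw [hE.symm j l, hE.symm j' m, h, h']
          have := mul_nonneg (mul_nonneg (hE.nn j' l) (hE.nn l m)) (hE.nn j m)
          nlinarith
        · rw [hE.symm j l, hE.symm j' l, h, h']; simp
    have h6 : Y l * E l j * Y j + Y l * E l j' * Y j' = (1 - E j j') * (E j l - E j' l) ^ 2 := by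
      rw [hYj, hYj', hYl l hl'.1 hl'.2, hE.symm l j, hE.symm l j']
      rcases hzero l with h | h <;> rw [h] <;> ring
    linarith
  have e4 : Y j * E j j * Y j = 0 := by rw [hE.diag]; ring
  have e5 : Y j' * E j' j' * Y j' = 0 := by rw [hE.diag]; ring
  have e6 : Y j * E j j' * Y j' ≤ 0 := by
    rw [hYj, hYj']
    nlinarith [mul_pos (mul_pos hε hjj) hε]
  have e7 : Y j' * E j' j * Y j ≤ 0 := by
    rw [hYj, hYj', hE.symm j' j]
    nlinarith [mul_pos (mul_pos hε hjj) hε]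
  rw [e1]
  linarith

theorem p1_norm {ι : Type*} [DecidableEq ι] [Fintype ι] {E : ι → ι → ℝ} {κ : ι → ℝ}
    {y : ι → V} (h : Frame E κ y) (Y : ι → ℝ) :
    ‖∑ l, Y l • y l‖ ^ 2 = ∑ l, Y l ^ 2 + ∑ l, ∑ m, Y l * E l m * Y m -
      2 * (∑ l, Y l) * ∑ l, κ l * Y l := by
  rw [← real_inner_self_eq_norm_sq, sum_inner]
  have h1 : ∀ l, ⟪Y l • y l, ∑ m, Y m • y m⟫_ℝ = Y l ^ 2 + ∑ m, Y l * E l m * Y m -
      (κ l * Y l) * (∑ m, Y m) - Y l * ∑ m, κ m * Y m := by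
    intro l
    rw [inner_sum]
    have h2 : ∀ m, ⟪Y l • y l, Y m • y m⟫_ℝ = (if l = m then Y l * Y m else 0) +
        Y l * E l m * Y m - (κ l * Y l) * Y m - Y l * (κ m * Y m) := by
      intro m
      rw [real_inner_smul_left, real_inner_smul_right, h.gram, kd]
      split_ifs <;> ring
    rw [sum_congr rfl fun m _ => h2 m]
    simp only [sum_add_distrib, sum_sub_distrib, ← mul_sum]
    rw [sum_ite_eq, if_pos (mem_univ _)]
    ring
  rw [sum_congr rfl fun l _ => h1 l]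
  simp only [sum_add_distrib, sum_sub_distrib, ← sum_mul]
  ring

theorem p1_all {ι : Type*} [DecidableEq ι] [Fintype ι] {E : ι → ι → ℝ} {κ : ι → ℝ}
    {y : ι → V} (h : Frame E κ y) (hn : 0 < nv ι) {j j' : ι} (hjj : 0 < E j j') :
    ‖y j - y j'‖ ^ 2 = 2 * (1 - E j j') ∧
    ⟪y j - y j', Fop y (y j - y j')⟫_ℝ =
      (∑ l ∈ univ.filter (fun l => l ≠ j ∧ l ≠ j'), (E j l - E j' l) ^ 2) +
        2 * (1 - E j j') ^ 2 - (rr E j - rr E j') ^ 2 / nv ι ∧
    ‖Fop y (y j - y j')‖ ^ 2 ≤ ⟪y j - y j', Fop y (y j - y j')⟫_ℝ +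
      2 * (1 - E j j') * (∑ l ∈ univ.filter (fun l => l ≠ j ∧ l ≠ j'), (E j l - E j' l) ^ 2) -
      e1 E * (rr E j - rr E j') ^ 2 / nv ι -
      2 * (rr E j - rr E j') * ⟪gam κ y, y j - y j'⟫_ℝ := by
  have hE := h.wt
  have hj : j ≠ j' := by
    rintro rfl
    rw [hE.diag] at hjj
    exact lt_irrefl _ hjj
  set Y : ι → ℝ := fun l => kd l j + E l j - kd l j' - E l j' with hY
  have hYj : Y j = 1 - E j j' := by
    simp only [hY, kd, if_neg hj, hE.diag, if_pos]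
    ring
  have hYj' : Y j' = -(1 - E j j') := by
    simp only [hY, kd, if_neg (Ne.symm hj), hE.diag, if_pos, hE.symm j' j]
    ring
  have hYl : ∀ l, l ≠ j → l ≠ j' → Y l = E j l - E j' l := by
    intro l h1 h2
    simp only [hY, kd, if_neg h1, if_neg h2, hE.symm l j, hE.symm l j']
    ring
  have hK : κ j - κ j' = (rr E j - rr E j') / nv ι := by
    have h1 := h.kappa hn j
    have h2 := h.kappa hn j'
    rw [eq_div_iff hn.ne']
    linarith
  have hin : ∀ l, ⟪y l, y j - y j'⟫_ℝ = Y l - (rr E j - rr E j') / nv ι := by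
    intro l
    rw [inner_sub_right, h.gram, h.gram, ← hK]
    simp only [hY]
    ring
  have hSY : ∑ l, Y l = rr E j - rr E j' := by
    simp only [hY, kd]
    rw [sum_sub_distrib, sum_sub_distrib, sum_add_distrib, sum_ite_eq', sum_ite_eq',
      if_pos (mem_univ _), if_pos (mem_univ _)]
    unfold rr
    rw [sum_congr rfl fun l _ => hE.symm l j, sum_congr rfl fun l _ => hE.symm l j']
    ring
  have hYY : ∑ l, Y l ^ 2 =
      (∑ l ∈ univ.filter (fun l => l ≠ j ∧ l ≠ j'), (E j l - E j' l) ^ 2) +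
        2 * (1 - E j j') ^ 2 := by
    rw [p1_split (fun l => Y l ^ 2) hj]
    rw [hYj, hYj']
    have : ∑ l ∈ univ.filter (fun l => l ≠ j ∧ l ≠ j'), Y l ^ 2 =
        ∑ l ∈ univ.filter (fun l => l ≠ j ∧ l ≠ j'), (E j l - E j' l) ^ 2 := by
      refine sum_congr rfl fun l hl => ?_
      rw [mem_filter] at hl
      rw [hYl l hl.2.1 hl.2.2]
    rw [this]
    ring
  have hC : Fop y (y j - y j') = ∑ l, Y l • y l := by
    rw [Fop_apply]
    have h1 : ∀ l, ⟪y l, y j - y j'⟫_ℝ • y l = Y l • y l - ((rr E j - rr E j') / nv ι) • y l := by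
      intro l
      rw [hin, sub_smul]
    rw [sum_congr rfl fun l _ => h1 l, sum_sub_distrib, ← smul_sum, h.sum0, smul_zero, sub_zero]
  have hq : ⟪y j - y j', Fop y (y j - y j')⟫_ℝ = ∑ l, Y l ^ 2 -
      (rr E j - rr E j') ^ 2 / nv ι := by
    rw [hC, inner_sum]
    have h1 : ∀ l, ⟪y j - y j', Y l • y l⟫_ℝ =
        Y l ^ 2 - ((rr E j - rr E j') / nv ι) * Y l := by
      intro l
      rw [real_inner_smul_right, real_inner_comm, hin]
      ring
    rw [sum_congr rfl fun l _ => h1 l, sum_sub_distrib, ← mul_sum, hSY]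
    ring
  have hg : ⟪gam κ y, y j - y j'⟫_ℝ = ∑ l, κ l * Y l -
      (rr E j - rr E j') / nv ι * ((1 + e1 E) / 2) := by
    unfold gam
    rw [sum_inner]
    have h1 : ∀ l, ⟪κ l • y l, y j - y j'⟫_ℝ =
        κ l * Y l - (rr E j - rr E j') / nv ι * κ l := by
      intro l
      rw [real_inner_smul_left, hin]
      ring
    rw [sum_congr rfl fun l _ => h1 l, sum_sub_distrib, ← mul_sum, g2_K h hn]
  refine ⟨?_, ?_, ?_⟩
  · rw [← real_inner_self_eq_norm_sq, inner_sub_left, hin, hin, hYj, hYj']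
    ring
  · rw [hq, hYY]
  · have h5 := p1_norm h Y
    rw [← hC, hSY] at h5
    have h6 := p1_form hE hjj
    change ∑ l, ∑ m, Y l * E l m * Y m ≤ _ at h6
    rw [h5, hq, hg]
    have h9 : (rr E j - rr E j') ^ 2 / nv ι = (rr E j - rr E j') *
        ((rr E j - rr E j') / nv ι) := by ring
    have h10 : e1 E * (rr E j - rr E j') ^ 2 / nv ι = e1 E * ((rr E j - rr E j') *
        ((rr E j - rr E j') / nv ι)) := by ring
    rw [h9, h10]
    nlinarith

/-- the third claim of `pair_ids` keeping the `e1` term -/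
theorem Frame.pair_ids' {ι : Type*} [DecidableEq ι] [Fintype ι] {E : ι → ι → ℝ} {κ : ι → ℝ}
    {y : ι → V} (h : Frame E κ y) (hn : 0 < nv ι) {j j' : ι} (hjj : 0 < E j j') :
    ‖Fop y (y j - y j')‖ ^ 2 ≤ ⟪y j - y j', Fop y (y j - y j')⟫_ℝ +
      2 * (1 - E j j') * (∑ l ∈ univ.filter (fun l => l ≠ j ∧ l ≠ j'), (E j l - E j' l) ^ 2) -
      e1 E * (rr E j - rr E j') ^ 2 / nv ι -
      2 * (rr E j - rr E j') * ⟪gam κ y, y j - y j'⟫_ℝ :=
  (p1_all h hn hjj).2.2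

theorem Frame.pair_ids {ι : Type*} [DecidableEq ι] [Fintype ι] {E : ι → ι → ℝ} {κ : ι → ℝ}
    {y : ι → V} (h : Frame E κ y) (hn : 0 < nv ι) {j j' : ι} (hjj : 0 < E j j') :
    ‖y j - y j'‖ ^ 2 = 2 * (1 - E j j') ∧
    ⟪y j - y j', Fop y (y j - y j')⟫_ℝ =
      (∑ l ∈ univ.filter (fun l => l ≠ j ∧ l ≠ j'), (E j l - E j' l) ^ 2) +
        2 * (1 - E j j') ^ 2 - (rr E j - rr E j') ^ 2 / nv ι ∧
    ‖Fop y (y j - y j')‖ ^ 2 ≤ ⟪y j - y j', Fop y (y j - y j')⟫_ℝ +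
      2 * (1 - E j j') * (∑ l ∈ univ.filter (fun l => l ≠ j ∧ l ≠ j'), (E j l - E j' l) ^ 2) -
      2 * (rr E j - rr E j') * ⟪gam κ y, y j - y j'⟫_ℝ := by
  obtain ⟨h1, h2, h3⟩ := p1_all h hn hjj
  refine ⟨h1, h2, h3.trans ?_⟩
  have h7 : 0 ≤ e1 E := by
    unfold e1
    exact div_nonneg (sum_nonneg fun l _ => sum_nonneg fun m _ => h.wt.nn l m) hn.le
  have h8 : 0 ≤ e1 E * (rr E j - rr E j') ^ 2 / nv ι := by positivity
  linarith

end AEG
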