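import Pool.Agent.AEG.Defs

set_option autoImplicit false

/-!
[AEG-P2] neighbourhoods are unit simplices.  `N = {l | 0 < E j l}`; for `l ≠ m` in `N`: `E l m = 0` (`tf`).  The family `y`, restricted to `N`, is affinely
independent: if `∑_{N} c l = 0` and `∑_N c l • y l = 0` then `0 = ‖∑ c l • y l‖^2 = ∑ c l c m (kd l m + E l m - κ l - κ m) = ∑ c l^2`.
Hence `|N| ≤ finrank + 1` (`AffineIndependent.card_le_finrank_succ`, `vectorSpan` has dimension `≤ finrank`; or directly: the map
`c ↦ (∑ c l, ∑ c l • y l)` from `N → ℝ` to `ℝ × V` is injective).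
-/

namespace AEG

open Finset
open scoped InnerProductSpace

variable {V : Type*} [NormedAddCommGroup V] [InnerProductSpace ℝ V]

theorem Frame.card_nbr [FiniteDimensional ℝ V] {ι : Type*} [DecidableEq ι] [Fintype ι]
    {E : ι → ι → ℝ} {κ : ι → ℝ} {y : ι → V} (h : Frame E κ y) (j : ι) :
    ((univ.filter (fun l => 0 < E j l)).card : ℝ) ≤ (Module.finrank ℝ V : ℝ) + 1 := by
  classical
  set N : Finset ι := univ.filter (fun l => 0 < E j l) with hN
  have hE0 : ∀ l ∈ N, ∀ m ∈ N, E l m = 0 := by
    intro l hl m hm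
    have h1 : 0 < E j l := (mem_filter.1 hl).2
    have h2 : 0 < E j m := (mem_filter.1 hm).2
    rcases h.wt.tf j l m with h3 | h3 | h3
    · linarith
    · exact h3
    · linarith
  let φ : (N → ℝ) →ₗ[ℝ] ℝ × V :=
    { toFun := fun c => (∑ l, c l, ∑ l : N, c l • y l)
      map_add' := by
        intro a b
        simp only [Pi.add_apply, sum_add_distrib, add_smul, Prod.mk_add_mk]
      map_smul' := by
        intro r a
        simp only [Pi.smul_apply, smul_eq_mul, mul_sum, smul_sum, mul_smul, RingHom.id_apply,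
          Prod.smul_mk] }
  have hφ : Function.Injective φ := by
    rw [← LinearMap.ker_eq_bot, LinearMap.ker_eq_bot']
    intro c hc
    have hc1 : ∑ l, c l = 0 := congrArg Prod.fst hc
    have hc2 : ∑ l : N, c l • y l = 0 := congrArg Prod.snd hc
    have hm : ∀ m : N, c m = ∑ l : N, c l * κ l := by
      intro m
      have h1 : ⟪∑ l : N, c l • y l, y m⟫_ℝ = 0 := by rw [hc2, inner_zero_left]
      rw [sum_inner] at h1
      have h2 : ∀ l : N, ⟪c l • y l, y m⟫_ℝ = c l * kd (l : ι) (m : ι) - c l * κ l - κ m * c l := by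
        intro l
        rw [real_inner_smul_left, h.gram, hE0 l l.2 m m.2]
        ring
      rw [sum_congr rfl (fun l _ => h2 l), sum_sub_distrib, sum_sub_distrib, ← mul_sum, hc1,
        mul_zero, sub_zero] at h1
      have h3 : ∑ l : N, c l * kd (l : ι) (m : ι) = c m := by
        rw [sum_eq_single m]
        · simp [kd]
        · intro b _ hb
          have : (b : ι) ≠ (m : ι) := fun h0 => hb (Subtype.ext h0)
          simp [kd, this]
        · intro h0
          exact absurd (mem_univ _) h0
      rw [h3] at h1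
      linarith
    funext m
    have h4 : (N.card : ℝ) * (∑ l : N, c l * κ l) = 0 := by
      have h8 : ∑ l : N, c l = (N.card : ℝ) * (∑ l : N, c l * κ l) := by
        conv_lhs => rw [sum_congr rfl (fun l _ => hm l)]
        rw [sum_const, card_univ, Fintype.card_coe, nsmul_eq_mul]
      rw [← h8, hc1]
    have h5 : (N.card : ℝ) ≠ 0 := Nat.cast_ne_zero.2 (card_pos.2 ⟨(m : ι), m.2⟩).ne'
    rw [hm m]
    exact (mul_eq_zero.1 h4).resolve_left h5
  have h6 := LinearMap.finrank_le_finrank_of_injective hφ
  rw [Module.finrank_prod, Module.finrank_self, Module.finrank_fintype_fun_eq_card,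
    Fintype.card_coe] at h6
  have h7 : (N.card : ℝ) ≤ ((1 + Module.finrank ℝ V : ℕ) : ℝ) := by exact_mod_cast h6
  push_cast at h7
  linarith

end AEG
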