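import Pool.Agent.AEG.Defs
import Pool.Agent.AEG.P1

set_option autoImplicit false

/-!
[AEG-P4] the second part of `pair_ids` with the `e1` term kept (see the comment and the proof of P1: the exact identity is
`‖C h‖^2 = (∑ Y^2 - S^2/n) + YᵀEY - e1 S^2/n - 2 S ⟪γ, h⟫`, `YᵀEY ≤ 2 ε T`, `⟪h, C h⟫ = ∑ Y^2 - S^2/n`).
-/

namespace AEG

open Finset
open scoped InnerProductSpace

variable {V : Type*} [NormedAddCommGroup V] [InnerProductSpace ℝ V]

theorem Frame.pair_ids_e {ι : Type*} [DecidableEq ι] [Fintype ι] {E : ι → ι → ℝ} {κ : ι → ℝ}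
    {y : ι → V} (h : Frame E κ y) (hn : 0 < nv ι) {j j' : ι} (hjj : 0 < E j j') :
    ‖Fop y (y j - y j')‖ ^ 2 ≤ ⟪y j - y j', Fop y (y j - y j')⟫_ℝ +
      2 * (1 - E j j') * (∑ l ∈ univ.filter (fun l => l ≠ j ∧ l ≠ j'), (E j l - E j' l) ^ 2) -
      e1 E * (rr E j - rr E j') ^ 2 / nv ι -
      2 * (rr E j - rr E j') * ⟪gam κ y, y j - y j'⟫_ℝ := by
  exact h.pair_ids' hn hjj

end AEG
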