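import Pool.Agent.AEG.Defs
import Pool.Agent.AEG.P1
import Pool.Agent.AEG.P2
import Pool.Agent.AEG.P4

set_option autoImplicit false

/-!
[AEG-L1] full bad pair inequality.  Notation of P1/P3: `h = y j - y j'`, `ε = 1 - E j j' ≤ 1/18`, `T`, `S = rr j - rr j'`, `n = nv`, `m1 = ⟪h, C h⟫`, `g = ⟪γ, h⟫ ≥ 0`.
As in P3: `T ≤ (20/9) m1` and `2 ε T ≤ m1/4` (copy: `S^2 ≤ d T` from the neighbourhood bound, `d ≤ 0.55 n`, `m1 ≥ T - S^2/n ≥ 0.45 T`).
`m1^2 ≤ ‖h‖^2 ‖C h‖^2 ≤ ‖h‖^2 ((5/4) m1 - e S^2/n - 2 S g)` (P4).  As `m1 > (7/4) ‖h‖^2`: `(7/4) m1 ‖h‖^2 < m1^2`, so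
(★) `(1/2) m1 + e S^2/n ≤ - 2 S g`.  Hence `g > 0`, `S < 0`; put `z = -S > 0`.
(i) `z g ≥ m1/4 ≥ (7/16) ‖h‖^2`.
(ii) `(2 z g)^2 ≥ 4 · (m1/2) · (e z^2/n) ≥ 4 · (7/8)‖h‖^2 · e z^2/n` (AM-GM), so `g^2 ≥ (7/8) e ‖h‖^2/n`.
(iii) `z = rr j' - rr j ≤ ∑_{l : 0 < E j' l, l ≠ j} E j' l` (the terms `l = j, j'` of `∑ (E j' l - E j l)` cancel).
(iv) if `z/5 ≤ ∑_{l∈S0} E j' l`, `S0 ⊆ {0 < E j' l, l ≠ j}` with `D = |S0|`: on `S0` one has `E j l = 0` (triangle `j, j', l`), and `l ≠ j'`, so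
`(z/5)^2 ≤ D T ≤ D (20/9) m1`; with (i) `(m1/4)^2 ≤ z^2 g^2 ≤ 25 D (20/9) m1 g^2`, so `D g^2 ≥ (9/8000) m1 ≥ (63/32000) ‖h‖^2 ≥ (1/600) ‖h‖^2`.
-/

namespace AEG

open Finset
open scoped InnerProductSpace

variable {V : Type*} [NormedAddCommGroup V] [InnerProductSpace ℝ V]

private theorem l1_key {ι : Type*} [DecidableEq ι] [Fintype ι] {E : ι → ι → ℝ} (hW : Wt E)
    {a b : ι} (hab : a ≠ b) (hS : 0 ≤ rr E b - rr E a) :
    (rr E b - rr E a) ^ 2 ≤ ((univ.filter (fun l => 0 < E b l ∧ l ≠ a)).card : ℝ) *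
      ∑ l ∈ univ.filter (fun l => l ≠ a ∧ l ≠ b), (E a l - E b l) ^ 2 := by
  classical
  set W : Finset ι := univ.filter (fun l => l ≠ a ∧ l ≠ b) with hWd
  set M : Finset ι := univ.filter (fun l => 0 < E b l ∧ l ≠ a) with hMd
  have hMW : M ⊆ W := by
    intro l hl
    rw [hMd, mem_filter] at hl
    rw [hWd, mem_filter]
    refine ⟨mem_univ _, hl.2.2, ?_⟩
    rintro rfl
    have := hW.diag l
    linarith [hl.2.1]
  have h1 : rr E b - rr E a = ∑ l ∈ W, (E b l - E a l) := by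
    have e1 : rr E b - rr E a = ∑ l, (E b l - E a l) := by
      unfold rr
      rw [Finset.sum_sub_distrib]
    rw [e1, ← Finset.sum_filter_add_sum_filter_not univ (fun l => l ≠ a ∧ l ≠ b)]
    have e2 : univ.filter (fun l => ¬ (l ≠ a ∧ l ≠ b)) = {a, b} := by
      ext l
      simp only [mem_filter, mem_univ, true_and, mem_insert, mem_singleton]
      tauto
    rw [e2, Finset.sum_pair hab, hW.diag a, hW.diag b, hW.symm b a]
    rw [← hWd]
    ring
  have h2 : ∑ l ∈ W, (E b l - E a l) ≤ ∑ l ∈ M, (E b l - E a l) := by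
    rw [← Finset.sum_sdiff hMW]
    have : ∑ l ∈ W \ M, (E b l - E a l) ≤ 0 := by
      apply Finset.sum_nonpos
      intro l hl
      rw [mem_sdiff] at hl
      have hl1 : l ≠ a := by
        have := hl.1
        rw [hWd, mem_filter] at this
        exact this.2.1
      have hl2 : ¬ (0 < E b l) := by
        intro hc
        apply hl.2
        rw [hMd, mem_filter]
        exact ⟨mem_univ _, hc, hl1⟩
      have := hW.nn a l
      linarith
    linarith
  have h3 : (∑ l ∈ M, (E b l - E a l)) ^ 2 ≤ (M.card : ℝ) * ∑ l ∈ M, (E b l - E a l) ^ 2 := by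
    have := sq_sum_le_card_mul_sum_sq (s := M) (f := fun l => E b l - E a l)
    exact this
  have h4 : ∑ l ∈ M, (E b l - E a l) ^ 2 ≤ ∑ l ∈ W, (E a l - E b l) ^ 2 := by
    have e3 : ∑ l ∈ M, (E b l - E a l) ^ 2 = ∑ l ∈ M, (E a l - E b l) ^ 2 := by
      apply Finset.sum_congr rfl
      intro l _
      ring
    rw [e3]
    exact Finset.sum_le_sum_of_subset_of_nonneg hMW (fun l _ _ => sq_nonneg _)
  have h5 : rr E b - rr E a ≤ ∑ l ∈ M, (E b l - E a l) := by rw [h1]; exact h2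
  calc (rr E b - rr E a) ^ 2 ≤ (∑ l ∈ M, (E b l - E a l)) ^ 2 := pow_le_pow_left₀ hS h5 2
    _ ≤ (M.card : ℝ) * ∑ l ∈ M, (E b l - E a l) ^ 2 := h3
    _ ≤ (M.card : ℝ) * ∑ l ∈ W, (E a l - E b l) ^ 2 :=
        mul_le_mul_of_nonneg_left h4 (Nat.cast_nonneg _)

private theorem l1_card [FiniteDimensional ℝ V] {ι : Type*} [DecidableEq ι] [Fintype ι]
    {E : ι → ι → ℝ} {κ : ι → ℝ} {y : ι → V} (h : Frame E κ y) {a b : ι} (hab : 0 < E b a) :
    ((univ.filter (fun l => 0 < E b l ∧ l ≠ a)).card : ℝ) ≤ (Module.finrank ℝ V : ℝ) := by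
  classical
  have h1 := h.card_nbr b
  have h2 : univ.filter (fun l => 0 < E b l ∧ l ≠ a) =
      (univ.filter (fun l => 0 < E b l)).erase a := by
    ext l
    simp only [mem_filter, mem_univ, true_and, mem_erase]
    tauto
  have hmem : a ∈ univ.filter (fun l => 0 < E b l) := by
    rw [mem_filter]; exact ⟨mem_univ _, hab⟩
  have h3 := Finset.card_erase_add_one hmem
  rw [h2]
  have h4 : (((univ.filter (fun l => 0 < E b l)).erase a).card : ℝ) + 1 =
      ((univ.filter (fun l => 0 < E b l)).card : ℝ) := by exact_mod_cast h3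
  linarith

private theorem l1_sum {ι : Type*} [DecidableEq ι] [Fintype ι] {E : ι → ι → ℝ} (hW : Wt E)
    {a b : ι} (hab : a ≠ b) :
    rr E b - rr E a ≤ ∑ l ∈ univ.filter (fun l => 0 < E b l ∧ l ≠ a), E b l := by
  classical
  set W : Finset ι := univ.filter (fun l => l ≠ a ∧ l ≠ b) with hWd
  set M : Finset ι := univ.filter (fun l => 0 < E b l ∧ l ≠ a) with hMd
  have hMW : M ⊆ W := by
    intro l hl
    rw [hMd, mem_filter] at hl
    rw [hWd, mem_filter]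
    refine ⟨mem_univ _, hl.2.2, ?_⟩
    rintro rfl
    have := hW.diag l
    linarith [hl.2.1]
  have h1 : rr E b - rr E a = ∑ l ∈ W, (E b l - E a l) := by
    have e1 : rr E b - rr E a = ∑ l, (E b l - E a l) := by
      unfold rr
      rw [Finset.sum_sub_distrib]
    rw [e1, ← Finset.sum_filter_add_sum_filter_not univ (fun l => l ≠ a ∧ l ≠ b)]
    have e2 : univ.filter (fun l => ¬ (l ≠ a ∧ l ≠ b)) = {a, b} := by
      ext l
      simp only [mem_filter, mem_univ, true_and, mem_insert, mem_singleton]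
      tauto
    rw [e2, Finset.sum_pair hab, hW.diag a, hW.diag b, hW.symm b a]
    rw [← hWd]
    ring
  have h2 : ∑ l ∈ W, (E b l - E a l) ≤ ∑ l ∈ M, (E b l - E a l) := by
    rw [← Finset.sum_sdiff hMW]
    have : ∑ l ∈ W \ M, (E b l - E a l) ≤ 0 := by
      apply Finset.sum_nonpos
      intro l hl
      rw [mem_sdiff] at hl
      have hl1 : l ≠ a := by
        have := hl.1
        rw [hWd, mem_filter] at this
        exact this.2.1
      have hl2 : ¬ (0 < E b l) := by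
        intro hc
        apply hl.2
        rw [hMd, mem_filter]
        exact ⟨mem_univ _, hc, hl1⟩
      have := hW.nn a l
      linarith
    linarith
  rw [h1]
  refine le_trans h2 (Finset.sum_le_sum (fun l _ => ?_))
  have := hW.nn a l
  linarith

theorem Frame.bad_pair2 [FiniteDimensional ℝ V] {ι : Type*} [DecidableEq ι] [Fintype ι]
    {E : ι → ι → ℝ} {κ : ι → ℝ} {y : ι → V} (h : Frame E κ y) (hn : 0 < nv ι)
    (he : 0 ≤ e1 E) (hδ : 10 * dl ι V ≤ nv ι) {j j' : ι} (hjj : 17 / 18 ≤ E j j')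
    (hbad : 7 / 4 * ‖y j - y j'‖ ^ 2 < ⟪y j - y j', Fop y (y j - y j')⟫_ℝ)
    (hpos : 0 ≤ ⟪gam κ y, y j - y j'⟫_ℝ) :
    7 / 16 * ‖y j - y j'‖ ^ 2 ≤ (rr E j' - rr E j) * ⟪gam κ y, y j - y j'⟫_ℝ ∧
    7 / 8 * e1 E * ‖y j - y j'‖ ^ 2 ≤ nv ι * ⟪gam κ y, y j - y j'⟫_ℝ ^ 2 ∧
    rr E j' - rr E j ≤ ∑ l ∈ univ.filter (fun l => 0 < E j' l ∧ l ≠ j), E j' l ∧
    0 < rr E j' - rr E j ∧
    ∀ S : Finset ι, (rr E j' - rr E j) / 5 ≤ ∑ l ∈ S.filter (fun l => 0 < E j' l ∧ l ≠ j), E j' l →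
      1 / 600 * ‖y j - y j'‖ ^ 2 ≤
        ((S.filter (fun l => 0 < E j' l ∧ l ≠ j)).card : ℝ) *
          ⟪gam κ y, y j - y j'⟫_ℝ ^ 2 := by
  classical
  have hjj0 : 0 < E j j' := by linarith
  have hj'j0 : 0 < E j' j := by rw [h.wt.symm]; exact hjj0
  have hne : j ≠ j' := by
    rintro rfl
    have := h.wt.diag j
    linarith
  obtain ⟨I1, I2, _⟩ := h.pair_ids hn hjj0
  have I3 := h.pair_ids_e hn hjj0
  have hlt := h.wt.lt j j'
  set T : ℝ := ∑ l ∈ univ.filter (fun l => l ≠ j ∧ l ≠ j'), (E j l - E j' l) ^ 2 with hT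
  have hTsymm : ∑ l ∈ univ.filter (fun l => l ≠ j' ∧ l ≠ j), (E j' l - E j l) ^ 2 = T := by
    rw [hT]
    have e : univ.filter (fun l => l ≠ j' ∧ l ≠ j) = univ.filter (fun l => l ≠ j ∧ l ≠ j') := by
      ext l
      simp only [mem_filter, mem_univ, true_and]
      tauto
    rw [e]
    apply Finset.sum_congr rfl
    intro l _
    ring
  have hT0 : 0 ≤ T := Finset.sum_nonneg (fun l _ => sq_nonneg _)
  set S : ℝ := rr E j - rr E j' with hS
  set n : ℝ := nv ι with hnn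
  set d : ℝ := (Module.finrank ℝ V : ℝ) with hd
  have hd0 : 0 ≤ d := Nat.cast_nonneg _
  have hdn : d ≤ 11 / 20 * n := by
    have : dl ι V = 2 * d + 2 - n := rfl
    rw [this] at hδ
    linarith
  have hSd : S ^ 2 ≤ d * T := by
    rcases le_total 0 S with hs | hs
    · have hk := l1_key h.wt (Ne.symm hne) (a := j') (b := j) hs
      rw [hTsymm] at hk
      have hc := l1_card h hjj0
      exact le_trans hk (mul_le_mul_of_nonneg_right hc hT0)
    · have hk := l1_key h.wt hne (a := j) (b := j') (by rw [hS] at hs; linarith)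
      have e : (rr E j' - rr E j) ^ 2 = S ^ 2 := by rw [hS]; ring
      rw [e] at hk
      have hc := l1_card h hj'j0
      exact le_trans hk (mul_le_mul_of_nonneg_right hc hT0)
  have hSn : S ^ 2 / n ≤ 11 / 20 * T := by
    rw [div_le_iff₀ hn]
    have : d * T ≤ 11 / 20 * n * T := mul_le_mul_of_nonneg_right hdn hT0
    linarith
  set m1 : ℝ := ⟪y j - y j', Fop y (y j - y j')⟫_ℝ with hm1
  set g : ℝ := ⟪gam κ y, y j - y j'⟫_ℝ with hg
  set ε : ℝ := 1 - E j j' with hε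
  set e : ℝ := e1 E with hee
  have hε0 : 0 < ε := by rw [hε]; linarith
  have hε1 : ε ≤ 1 / 18 := by rw [hε]; linarith
  have hm1T : 9 / 20 * T ≤ m1 := by
    rw [I2]
    nlinarith [sq_nonneg ε]
  have hN0 : 0 < ‖y j - y j'‖ ^ 2 := by rw [I1]; linarith
  have hm10 : 0 < m1 := by
    have : 0 < 7 / 4 * ‖y j - y j'‖ ^ 2 := by positivity
    linarith
  have hCS : m1 ^ 2 ≤ ‖y j - y j'‖ ^ 2 * ‖Fop y (y j - y j')‖ ^ 2 := by
    have h1 : m1 ≤ ‖y j - y j'‖ * ‖Fop y (y j - y j')‖ := real_inner_le_norm _ _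
    have h2 := pow_le_pow_left₀ hm10.le h1 2
    rw [mul_pow] at h2
    exact h2
  have hεT : 2 * ε * T ≤ m1 / 4 := by
    have : ε * T ≤ 1 / 18 * T := mul_le_mul_of_nonneg_right hε1 hT0
    linarith
  set Q : ℝ := e * S ^ 2 / n with hQ
  have hQ0 : 0 ≤ Q := by positivity
  have h5 : ‖Fop y (y j - y j')‖ ^ 2 ≤ 5 / 4 * m1 - Q - 2 * S * g := by linarith
  have h6 : m1 ^ 2 ≤ ‖y j - y j'‖ ^ 2 * (5 / 4 * m1 - Q - 2 * S * g) :=
    le_trans hCS (mul_le_mul_of_nonneg_left h5 hN0.le)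
  have h7 : 7 / 4 * ‖y j - y j'‖ ^ 2 * m1 < m1 ^ 2 := by
    have := mul_lt_mul_of_pos_right hbad hm10
    calc 7 / 4 * ‖y j - y j'‖ ^ 2 * m1 < m1 * m1 := this
      _ = m1 ^ 2 := by ring
  have h8 : 7 / 4 * m1 < 5 / 4 * m1 - Q - 2 * S * g := by
    have h9 : ‖y j - y j'‖ ^ 2 * (7 / 4 * m1) <
        ‖y j - y j'‖ ^ 2 * (5 / 4 * m1 - Q - 2 * S * g) := by
      calc ‖y j - y j'‖ ^ 2 * (7 / 4 * m1) = 7 / 4 * ‖y j - y j'‖ ^ 2 * m1 := by ring
        _ < m1 ^ 2 := h7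
        _ ≤ _ := h6
    exact lt_of_mul_lt_mul_left h9 hN0.le
  obtain ⟨z, hz⟩ : ∃ z : ℝ, z = rr E j' - rr E j := ⟨_, rfl⟩
  have hzS : z = -S := by rw [hz, hS]; ring
  have hstar : 1 / 2 * m1 + Q < 2 * (z * g) := by rw [hzS]; linarith
  have h10 : m1 / 4 < z * g := by linarith
  have hz0 : 0 < z := by
    by_contra hc
    push Not at hc
    have : z * g ≤ 0 := mul_nonpos_of_nonpos_of_nonneg hc hpos
    linarith
  rw [← hz]
  refine ⟨by linarith, ?_, ?_, hz0, ?_⟩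
  · -- (ii)
    have hQz : Q = e * z ^ 2 / n := by rw [hQ, hzS]; ring
    have h11 : 4 * (1 / 2 * m1 * Q) ≤ (2 * (z * g)) ^ 2 := by
      have h12 : (1 / 2 * m1 + Q) ^ 2 ≤ (2 * (z * g)) ^ 2 :=
        pow_le_pow_left₀ (by positivity) hstar.le 2
      nlinarith [sq_nonneg (1 / 2 * m1 - Q)]
    have h13 : e * m1 / (2 * n) ≤ g ^ 2 := by
      have h14 : z ^ 2 * (e * m1 / (2 * n)) ≤ z ^ 2 * g ^ 2 := by
        have e1 : 4 * (1 / 2 * m1 * Q) = 4 * (z ^ 2 * (e * m1 / (2 * n))) := by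
          rw [hQz]
          field_simp
        have e2 : (2 * (z * g)) ^ 2 = 4 * (z ^ 2 * g ^ 2) := by ring
        rw [e1, e2] at h11
        linarith
      exact le_of_mul_le_mul_left h14 (by positivity)
    rw [div_le_iff₀ (by positivity)] at h13
    have h15 : e * (7 / 4 * ‖y j - y j'‖ ^ 2) ≤ e * m1 := mul_le_mul_of_nonneg_left hbad.le he
    linarith
  · rw [hz]
    exact l1_sum h.wt hne
  · intro S0 hS0
    set M : Finset ι := S0.filter (fun l => 0 < E j' l ∧ l ≠ j) with hM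
    have hD0 : (0 : ℝ) ≤ (M.card : ℝ) := Nat.cast_nonneg _
    have hc1 : (∑ l ∈ M, E j' l) ^ 2 ≤ (M.card : ℝ) * ∑ l ∈ M, E j' l ^ 2 :=
      sq_sum_le_card_mul_sum_sq
    have hc2 : ∑ l ∈ M, E j' l ^ 2 ≤ T := by
      have e1 : ∑ l ∈ M, E j' l ^ 2 = ∑ l ∈ M, (E j l - E j' l) ^ 2 := by
        apply Finset.sum_congr rfl
        intro l hl
        rw [hM, mem_filter] at hl
        have h0 : E j l = 0 := by
          rcases h.wt.tf j j' l with h3 | h3 | h3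
          · linarith
          · linarith [hl.2.1]
          · exact h3
        rw [h0]
        ring
      rw [e1, hT]
      apply Finset.sum_le_sum_of_subset_of_nonneg
      · intro l hl
        rw [hM, mem_filter] at hl
        rw [mem_filter]
        refine ⟨mem_univ _, hl.2.2, ?_⟩
        rintro rfl
        have := h.wt.diag l
        linarith [hl.2.1]
      · intro _ _ _
        exact sq_nonneg _
    have hc3 : (z / 5) ^ 2 ≤ (M.card : ℝ) * (20 / 9 * m1) := by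
      calc (z / 5) ^ 2 ≤ (∑ l ∈ M, E j' l) ^ 2 := pow_le_pow_left₀ (by positivity) hS0 2
        _ ≤ (M.card : ℝ) * ∑ l ∈ M, E j' l ^ 2 := hc1
        _ ≤ (M.card : ℝ) * (20 / 9 * m1) := by
            apply mul_le_mul_of_nonneg_left _ hD0
            linarith
    have hc4 : (m1 / 4) ^ 2 ≤ (z * g) ^ 2 := pow_le_pow_left₀ (by positivity) h10.le 2
    have hc5 : (z * g) ^ 2 ≤ 25 * ((M.card : ℝ) * (20 / 9 * m1)) * g ^ 2 := by
      have e1 : (z * g) ^ 2 = 25 * (z / 5) ^ 2 * g ^ 2 := by ring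
      rw [e1]
      apply mul_le_mul_of_nonneg_right _ (sq_nonneg g)
      linarith
    have hc6 : 9 / 8000 * m1 ≤ (M.card : ℝ) * g ^ 2 := by
      have h15 : m1 * (9 / 8000 * m1) ≤ m1 * ((M.card : ℝ) * g ^ 2) := by nlinarith
      exact le_of_mul_le_mul_left h15 hm10
    linarith

end AEG
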