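import Pool.Agent.AEG.Defs
import Pool.Agent.AEG.Defs2
import Pool.Agent.AEG.N1
import Pool.Agent.AEG.L1

set_option autoImplicit false

/-!
[AEG-L2] translation of `bad_pair2` to unit vectors.  `u ∈ Lt`: `u ∈ P`, `7/4 < ⟪w u, C (w u)⟫`, `0 ≤ ⟪γ, w u⟫`, `w = wv y σ`, `h = y u - y (σ u)`, `‖h‖^2 = 2 (1 - E u (σ u)) > 0`
(`norm_pair`, `u ≠ σ u`), `w u = ‖h‖⁻¹ • h`.  Multiply / divide by `‖h‖`, `‖h‖^2`.  `p u := ‖y u - y (σ u)‖`.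
(pairsys) `pairSys_of` with `Frame.ip4`.
-/

namespace AEG

open Finset
open scoped InnerProductSpace

variable {V : Type*} [NormedAddCommGroup V] [InnerProductSpace ℝ V]

theorem Cls.pairSys [FiniteDimensional ℝ V] {ι : Type*} [DecidableEq ι] [Fintype ι]
    {E : ι → ι → ℝ} {κ : ι → ℝ} {y : ι → V} {t ν x R : ℝ} (h : Facts E κ y t ν x R)
    {P Us UL : Finset ι} {σ : ι → ι} (hC : Cls E P Us UL σ t ν x) :
    PairSys E P σ (wv y σ) := by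
  refine pairSys_of h.fr.wt h.fr.ip4 P σ fun u hu => ?_
  obtain ⟨h1, h2, h3⟩ := hC.inv u hu
  exact ⟨h1, h2, by linarith⟩

theorem Facts.lt_facts [FiniteDimensional ℝ V] {ι : Type*} [DecidableEq ι] [Fintype ι]
    {E : ι → ι → ℝ} {κ : ι → ℝ} {y : ι → V} {t ν x R : ℝ} (h : Facts E κ y t ν x R)
    {P Us UL : Finset ι} {σ : ι → ι} (hC : Cls E P Us UL σ t ν x) {u : ι}
    (hu : u ∈ Lt κ y P σ) :
    0 < ‖y u - y (σ u)‖ ∧ 0 < ⟪gam κ y, wv y σ u⟫_ℝ ∧ 0 < rr E (σ u) - rr E u ∧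
    7 / 16 * ‖y u - y (σ u)‖ ≤ (rr E (σ u) - rr E u) * ⟪gam κ y, wv y σ u⟫_ℝ ∧
    7 / 8 * e1 E ≤ ν ^ 4 * ⟪gam κ y, wv y σ u⟫_ℝ ^ 2 ∧
    rr E (σ u) - rr E u ≤ ∑ l ∈ univ.filter (fun l => 0 < E (σ u) l ∧ l ≠ u), E (σ u) l ∧
    ∀ S : Finset ι, (rr E (σ u) - rr E u) / 5 ≤
        ∑ l ∈ S.filter (fun l => 0 < E (σ u) l ∧ l ≠ u), E (σ u) l →
      1 / 600 ≤ ((S.filter (fun l => 0 < E (σ u) l ∧ l ≠ u)).card : ℝ) *
          ⟪gam κ y, wv y σ u⟫_ℝ ^ 2 := by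
  have hu1 : u ∈ Bad y P σ := (mem_filter.1 hu).1
  have hu2 : 0 ≤ ⟪gam κ y, wv y σ u⟫_ℝ := (mem_filter.1 hu).2
  have hu3 : u ∈ P := (mem_filter.1 hu1).1
  have hu4 : 7 / 4 < ⟪wv y σ u, Fop y (wv y σ u)⟫_ℝ := (mem_filter.1 hu1).2
  obtain ⟨hσ1, hσ2, hσ3⟩ := hC.inv u hu3
  have hne : u ≠ σ u := by
    intro h0
    rw [← h0, h.fr.wt.diag] at hσ3
    norm_num at hσ3
  have hp2 := norm_pair h.fr.wt h.fr.ip4 hne
  have hp2' : 0 < ‖y u - y (σ u)‖ ^ 2 := by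
    rw [hp2]
    have := h.fr.wt.lt u (σ u)
    linarith
  have hp : 0 < ‖y u - y (σ u)‖ := by
    rcases (norm_nonneg (y u - y (σ u))).eq_or_lt with h0 | h0
    · rw [← h0] at hp2'
      norm_num at hp2'
    · exact h0
  have hw : wv y σ u = (‖y u - y (σ u)‖)⁻¹ • (y u - y (σ u)) := rfl
  set p : ℝ := ‖y u - y (σ u)‖ with hpdef
  set w : V := wv y σ u with hwdef
  have hh : y u - y (σ u) = p • w := by
    rw [hw, smul_smul, mul_inv_cancel₀ hp.ne', one_smul]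
  have hCh : ⟪y u - y (σ u), Fop y (y u - y (σ u))⟫_ℝ = p ^ 2 * ⟪w, Fop y w⟫_ℝ := by
    rw [hh, map_smul, real_inner_smul_left, real_inner_smul_right]
    ring
  have hgh : ⟪gam κ y, y u - y (σ u)⟫_ℝ = p * ⟪gam κ y, w⟫_ℝ := by
    rw [hh, real_inner_smul_right]
  have hν : 0 < ν := by
    have h1 := h.t15
    have h2 := h.νt
    nlinarith
  have hn : 0 < nv ι := by
    rw [h.n4]
    positivity
  have hbad : 7 / 4 * ‖y u - y (σ u)‖ ^ 2 < ⟪y u - y (σ u), Fop y (y u - y (σ u))⟫_ℝ := by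
    rw [hCh, ← hpdef]
    nlinarith
  have hpos : 0 ≤ ⟪gam κ y, y u - y (σ u)⟫_ℝ := by
    rw [hgh]
    exact mul_nonneg hp.le hu2
  obtain ⟨b1, b2, b3, b4, b5⟩ := h.fr.bad_pair2 hn (by linarith [h.e99]) h.dn hσ3 hbad hpos
  rw [hgh, ← hpdef] at b1 b2
  have c1 : 7 / 16 * p ≤ (rr E (σ u) - rr E u) * ⟪gam κ y, w⟫_ℝ := by
    have h1 : p * (7 / 16 * p) ≤ p * ((rr E (σ u) - rr E u) * ⟪gam κ y, w⟫_ℝ) := by
      nlinarith
    exact le_of_mul_le_mul_left h1 hp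
  have c0 : 0 < ⟪gam κ y, w⟫_ℝ := by
    have h1 : 0 < (rr E (σ u) - rr E u) * ⟪gam κ y, w⟫_ℝ := by
      have : 0 < 7 / 16 * p := by positivity
      linarith
    exact (mul_pos_iff_of_pos_left b4).1 h1
  refine ⟨hp, c0, b4, c1, ?_, b3, ?_⟩
  · have h1 : p ^ 2 * (7 / 8 * e1 E) ≤ p ^ 2 * (ν ^ 4 * ⟪gam κ y, w⟫_ℝ ^ 2) := by
      rw [h.n4] at b2
      nlinarith
    exact le_of_mul_le_mul_left h1 (by positivity)
  · intro S hS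
    have h2 := b5 S hS
    rw [hgh, ← hpdef] at h2
    have h1 : p ^ 2 * (1 / 600) ≤
        p ^ 2 * (((S.filter (fun l => 0 < E (σ u) l ∧ l ≠ u)).card : ℝ) *
          ⟪gam κ y, w⟫_ℝ ^ 2) := by
      nlinarith
    exact le_of_mul_le_mul_left h1 (by positivity)

end AEG
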