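import Pool.Agent.AEG.Defs
import Pool.Agent.AEG.Defs2
import Pool.Agent.AEG.L2
import Pool.Agent.AEG.K2
import Pool.Agent.AEG.T1

set_option autoImplicit false

/-!
[AEG-L3] counting the parts.  `w = wv y σ`, `γ = gam κ y`, `s^2 = t^3/3`, `s > 0`, `n‖γ‖^2 ≤ s^2` (`g2`), `n = ν^4`.
(A) `Part S`: `c0 = 1/600` (`lt_facts`), `N = ν^4`, `β0 = (7/8) e1`, `F = 303/100 · s/η` where `η > 0`, `η^2 = e1`: `F^2 β0 = (303/100)^2 (7/8) s^2 ≥ 8 s^2`.  `count_part`: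
`|Part S|/600 ≤ |S| ‖γ‖^2 F ≤ |S| (s^2/ν^4)(303/100)(s/η)`, i.e. `|Part S| ≤ 1818 |S| s^3/(η ν^4)`.
(B) if every neighbourhood meets `S` in at most `k` vertices (`k > 0`): for `u ∈ Part S` the set `{l ∈ S | 0 < E (σ u) l ∧ l ≠ u}` has `≤ k` elements, so `1/600 ≤ k ⟪γ, w u⟫^2`; `count_part` with `N = ν^4`,
`β0 = ν^4/(600 k)` and any `F ≥ 0` with `8 s^2 ≤ F^2 ν^4/(600 k)`: `|Part S| ≤ 600 |S| s^2 F/ν^4`.
(C) `Vhi`: light vertices `u ∈ Vhi ∩ Lt` : `1/600 ≤ |{l | 0 < E (σ u) l ∧ l ≠ u}| ⟪γ, w u⟫^2` (apply the last part of `lt_facts` with `S = univ`, using `(rr (σ u) - rr u)/5 ≤ rr (σ u) - rr u ≤ ∑`; `rr(σu)-rr u > 0`),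
`β0 = ν^4 g^2 ≤ ν^4 ⟪γ, w u⟫^2`; with `g = 45 s^2/(ν^4 η)`, `F = ν^2 η/(15 s)`: `F^2 β0 = ν^4 η^2/(225 s^2) · 2025 s^4/(ν^4 η^2) = 9 s^2 ≥ 8 s^2`.  So `|Vhi ∩ Lt| ≤ 600 ν^4 (s^2/ν^4) F = 40 s ν^2 η`, and
`|Vhi| ≤ 2 |Vhi ∩ Lt| ≤ 80 s ν^2 η` (`u ↦ σ u` maps the non-light ones injectively into the light ones: `w (σ u) = - w u`).
-/

namespace AEG

open Finset
open scoped InnerProductSpace

variable {V : Type*} [NormedAddCommGroup V] [InnerProductSpace ℝ V]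

private theorem l3_nu [FiniteDimensional ℝ V] {ι : Type*} [DecidableEq ι] [Fintype ι]
    {E : ι → ι → ℝ} {κ : ι → ℝ} {y : ι → V} {t ν x R : ℝ} (h : Facts E κ y t ν x R) : 0 < ν := by
  have h1 := h.t15
  have h2 := h.νt
  linarith

private theorem l3_gam [FiniteDimensional ℝ V] {ι : Type*} [DecidableEq ι] [Fintype ι]
    {E : ι → ι → ℝ} {κ : ι → ℝ} {y : ι → V} {t ν x R : ℝ} (h : Facts E κ y t ν x R) {s : ℝ}
    (hs2 : s ^ 2 = t ^ 3 / 3) : ν ^ 4 * ‖gam κ y‖ ^ 2 ≤ s ^ 2 := by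
  rw [hs2, ← h.n4]
  exact h.g2

private theorem l3_lt_mem {ι : Type*} [DecidableEq ι] [Fintype ι]
    {κ : ι → ℝ} {y : ι → V} {P : Finset ι} {σ : ι → ι} {u : ι} (hu : u ∈ Lt κ y P σ) :
    u ∈ P ∧ 0 ≤ ⟪gam κ y, wv y σ u⟫_ℝ := by
  unfold Lt Bad at hu
  rw [Finset.mem_filter, Finset.mem_filter] at hu
  exact ⟨hu.1.1, hu.2⟩

private theorem l3_part_mem {ι : Type*} [DecidableEq ι] [Fintype ι] {E : ι → ι → ℝ}
    {κ : ι → ℝ} {y : ι → V} {P : Finset ι} {σ : ι → ι} {S : Finset ι} {u : ι}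
    (hu : u ∈ Part E κ y P σ S) :
    u ∈ Lt κ y P σ ∧ (rr E (σ u) - rr E u) / 5 ≤
      ∑ l ∈ S.filter (fun l => 0 < E (σ u) l ∧ l ≠ u), E (σ u) l := by
  unfold Part at hu
  rw [Finset.mem_filter] at hu
  exact hu

theorem Facts.part_A [FiniteDimensional ℝ V] {ι : Type*} [DecidableEq ι] [Fintype ι]
    {E : ι → ι → ℝ} {κ : ι → ℝ} {y : ι → V} {t ν x R : ℝ} (h : Facts E κ y t ν x R)
    {P Us UL : Finset ι} {σ : ι → ι} (hC : Cls E P Us UL σ t ν x) (s η : ℝ) (hs : 0 < s)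
    (hs2 : s ^ 2 = t ^ 3 / 3) (hη : 0 < η) (hη2 : η ^ 2 = e1 E) (S : Finset ι) :
    ((Part E κ y P σ S).card : ℝ) ≤ 1818 * (S.card : ℝ) * s ^ 3 / (η * ν ^ 4) := by
  have hν := l3_nu h
  have hγ := l3_gam h hs2
  have hν4 : 0 < ν ^ 4 := by positivity
  have he : 0 < e1 E := lt_of_lt_of_le (by norm_num) h.e99
  have hc := count_part (Cls.pairSys h hC) (gam κ y) (Part E κ y P σ S) S
    (fun u hu => (l3_lt_mem (l3_part_mem hu).1).1) (fun u hu => (l3_lt_mem (l3_part_mem hu).1).2)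
    (1 / 600) (ν ^ 4) (7 / 8 * e1 E) (303 / 100 * (s / η))
    (fun u hu => by
      obtain ⟨-, -, -, -, -, -, h7⟩ := Facts.lt_facts h hC (l3_part_mem hu).1
      exact h7 S (l3_part_mem hu).2)
    hν4 (by positivity)
    (fun u hu => by
      obtain ⟨-, -, -, -, h5, -, -⟩ := Facts.lt_facts h hC (l3_part_mem hu).1
      exact h5)
    (by positivity)
    (by
      have e : (303 / 100 * (s / η)) ^ 2 * (7 / 8 * e1 E) = (303 / 100) ^ 2 * (7 / 8) * s ^ 2 := by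
        rw [← hη2]
        field_simp
      rw [e]
      have hs0 : 0 ≤ s ^ 2 := sq_nonneg s
      nlinarith)
  have h1 : ‖gam κ y‖ ^ 2 ≤ s ^ 2 / ν ^ 4 := by
    rw [le_div_iff₀ hν4, mul_comm]
    exact hγ
  have h2 : (S.card : ℝ) * (‖gam κ y‖ ^ 2 * (303 / 100 * (s / η))) ≤
      (S.card : ℝ) * (s ^ 2 / ν ^ 4 * (303 / 100 * (s / η))) := by
    apply mul_le_mul_of_nonneg_left _ (Nat.cast_nonneg _)
    exact mul_le_mul_of_nonneg_right h1 (by positivity)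
  have h3 : 1818 * (S.card : ℝ) * s ^ 3 / (η * ν ^ 4) =
      600 * ((S.card : ℝ) * (s ^ 2 / ν ^ 4 * (303 / 100 * (s / η)))) := by
    field_simp
    ring
  rw [h3]
  linarith

theorem Facts.part_B [FiniteDimensional ℝ V] {ι : Type*} [DecidableEq ι] [Fintype ι]
    {E : ι → ι → ℝ} {κ : ι → ℝ} {y : ι → V} {t ν x R : ℝ} (h : Facts E κ y t ν x R)
    {P Us UL : Finset ι} {σ : ι → ι} (hC : Cls E P Us UL σ t ν x) (s : ℝ) (hs : 0 < s)
    (hs2 : s ^ 2 = t ^ 3 / 3) (S : Finset ι) (k F : ℝ) (hk : 0 < k)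
    (hS : ∀ u ∈ Lt κ y P σ, ((S.filter (fun l => 0 < E (σ u) l ∧ l ≠ u)).card : ℝ) ≤ k)
    (hF0 : 0 ≤ F) (hF : 8 * s ^ 2 ≤ F ^ 2 * (ν ^ 4 / (600 * k))) :
    ((Part E κ y P σ S).card : ℝ) ≤ 600 * (S.card : ℝ) * s ^ 2 * F / ν ^ 4 := by
  have hν := l3_nu h
  have hγ := l3_gam h hs2
  have hν4 : 0 < ν ^ 4 := by positivity
  have hc := count_part (Cls.pairSys h hC) (gam κ y) (Part E κ y P σ S) S
    (fun u hu => (l3_lt_mem (l3_part_mem hu).1).1) (fun u hu => (l3_lt_mem (l3_part_mem hu).1).2)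
    (1 / 600) (ν ^ 4) (ν ^ 4 / (600 * k)) F
    (fun u hu => by
      obtain ⟨-, -, -, -, -, -, h7⟩ := Facts.lt_facts h hC (l3_part_mem hu).1
      exact h7 S (l3_part_mem hu).2)
    hν4 (by positivity)
    (fun u hu => by
      obtain ⟨-, -, -, -, -, -, h7⟩ := Facts.lt_facts h hC (l3_part_mem hu).1
      have h8 := h7 S (l3_part_mem hu).2
      have h9 := hS u (l3_part_mem hu).1
      have h10 : 1 / 600 ≤ k * ⟪gam κ y, wv y σ u⟫_ℝ ^ 2 :=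
        h8.trans (mul_le_mul_of_nonneg_right h9 (sq_nonneg _))
      rw [div_le_iff₀ (by positivity)]
      have h11 : ν ^ 4 * ⟪gam κ y, wv y σ u⟫_ℝ ^ 2 * (600 * k) =
          ν ^ 4 * (600 * (k * ⟪gam κ y, wv y σ u⟫_ℝ ^ 2)) := by ring
      rw [h11]
      calc ν ^ 4 = ν ^ 4 * 1 := (mul_one _).symm
        _ ≤ ν ^ 4 * (600 * (k * ⟪gam κ y, wv y σ u⟫_ℝ ^ 2)) :=
            mul_le_mul_of_nonneg_left (by linarith) hν4.le)
    hF0
    (by linarith)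
  have h1 : ‖gam κ y‖ ^ 2 ≤ s ^ 2 / ν ^ 4 := by
    rw [le_div_iff₀ hν4, mul_comm]
    exact hγ
  have h2 : (S.card : ℝ) * (‖gam κ y‖ ^ 2 * F) ≤ (S.card : ℝ) * (s ^ 2 / ν ^ 4 * F) := by
    apply mul_le_mul_of_nonneg_left _ (Nat.cast_nonneg _)
    exact mul_le_mul_of_nonneg_right h1 hF0
  have h3 : 600 * (S.card : ℝ) * s ^ 2 * F / ν ^ 4 =
      600 * ((S.card : ℝ) * (s ^ 2 / ν ^ 4 * F)) := by
    field_simp
  rw [h3]
  linarith

theorem Facts.card_Vhi [FiniteDimensional ℝ V] {ι : Type*} [DecidableEq ι] [Fintype ι]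
    {E : ι → ι → ℝ} {κ : ι → ℝ} {y : ι → V} {t ν x R : ℝ} (h : Facts E κ y t ν x R)
    {P Us UL : Finset ι} {σ : ι → ι} (hC : Cls E P Us UL σ t ν x) (s η : ℝ) (hs : 0 < s)
    (hs2 : s ^ 2 = t ^ 3 / 3) (hη : 0 < η) (hη2 : η ^ 2 = e1 E) :
    ((Vhi κ y P σ (45 * s ^ 2 / (ν ^ 4 * η))).card : ℝ) ≤ 80 * s * ν ^ 2 * η := by
  have hν := l3_nu h
  have hγ := l3_gam h hs2
  have hν4 : 0 < ν ^ 4 := by positivity
  have hPS := Cls.pairSys h hC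
  set g : ℝ := 45 * s ^ 2 / (ν ^ 4 * η) with hg
  have hg0 : 0 < g := by positivity
  have hmem : ∀ u, u ∈ Vhi κ y P σ g ↔
      (u ∈ P ∧ 7 / 4 < ⟪wv y σ u, Fop y (wv y σ u)⟫_ℝ) ∧ g < |⟪gam κ y, wv y σ u⟫_ℝ| := by
    intro u
    unfold Vhi Bad
    rw [Finset.mem_filter, Finset.mem_filter]
  set B := (Vhi κ y P σ g).filter (fun u => 0 ≤ ⟪gam κ y, wv y σ u⟫_ℝ) with hB
  have hBlt : ∀ u ∈ B, u ∈ Lt κ y P σ := by
    intro u hu
    rw [hB, Finset.mem_filter, hmem] at hu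
    unfold Lt Bad
    rw [Finset.mem_filter, Finset.mem_filter]
    exact ⟨hu.1.1, hu.2⟩
  have hBg : ∀ u ∈ B, g < |⟪gam κ y, wv y σ u⟫_ℝ| := by
    intro u hu
    rw [hB, Finset.mem_filter, hmem] at hu
    exact hu.1.2
  have hc := count_part hPS (gam κ y) B univ
    (fun u hu => (l3_lt_mem (hBlt u hu)).1) (fun u hu => (l3_lt_mem (hBlt u hu)).2)
    (1 / 600) (ν ^ 4) (ν ^ 4 * g ^ 2) (ν ^ 2 * η / (15 * s))
    (fun u hu => by
      obtain ⟨-, -, h3, -, -, h6, h7⟩ := Facts.lt_facts h hC (hBlt u hu)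
      exact h7 univ (by linarith))
    hν4 (by positivity)
    (fun u hu => by
      apply mul_le_mul_of_nonneg_left _ hν4.le
      rw [← sq_abs (⟪gam κ y, wv y σ u⟫_ℝ)]
      exact pow_le_pow_left₀ hg0.le (hBg u hu).le 2)
    (by positivity)
    (by
      have e : (ν ^ 2 * η / (15 * s)) ^ 2 * (ν ^ 4 * g ^ 2) = 9 * s ^ 2 := by
        rw [hg]
        field_simp
        ring
      rw [e]
      have hs0 : 0 ≤ s ^ 2 := sq_nonneg s
      linarith)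
  have hcard : ((univ : Finset ι).card : ℝ) = ν ^ 4 := by
    rw [← h.n4]
    rfl
  rw [hcard] at hc
  have h1 : ν ^ 4 * (‖gam κ y‖ ^ 2 * (ν ^ 2 * η / (15 * s))) ≤
      s ^ 2 * (ν ^ 2 * η / (15 * s)) := by
    rw [← mul_assoc]
    exact mul_le_mul_of_nonneg_right hγ (by positivity)
  have h2 : s ^ 2 * (ν ^ 2 * η / (15 * s)) = s * ν ^ 2 * η / 15 := by
    field_simp
  rw [h2] at h1
  have hBcard : (B.card : ℝ) ≤ 40 * s * ν ^ 2 * η := by linarith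
  -- the other half
  have h3 : ((Vhi κ y P σ g).filter (fun u => ¬ 0 ≤ ⟪gam κ y, wv y σ u⟫_ℝ)).card ≤ B.card := by
    apply Finset.card_le_card_of_injOn σ
    · intro u hu
      rw [Finset.mem_coe, Finset.mem_filter, hmem] at hu
      obtain ⟨⟨⟨huP, hu1⟩, hu2⟩, hu3⟩ := hu
      rw [Finset.mem_coe, hB, Finset.mem_filter, hmem]
      have hn := hPS.neg u huP
      refine ⟨⟨⟨hPS.mem u huP, ?_⟩, ?_⟩, ?_⟩
      · rw [hn, map_neg, inner_neg_neg]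
        exact hu1
      · rw [hn, inner_neg_right, abs_neg]
        exact hu2
      · rw [hn, inner_neg_right]
        linarith
    · intro u hu v hv huv
      rw [Finset.mem_coe, Finset.mem_filter, hmem] at hu hv
      have := congrArg σ huv
      rwa [hPS.inv u hu.1.1.1, hPS.inv v hv.1.1.1] at this
  have h4 := Finset.card_filter_add_card_filter_not (s := Vhi κ y P σ g)
    (fun u => 0 ≤ ⟪gam κ y, wv y σ u⟫_ℝ)
  have h5 : (Vhi κ y P σ g).card ≤ 2 * B.card := by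
    rw [← h4, ← hB]
    omega
  have h6 : ((Vhi κ y P σ g).card : ℝ) ≤ 2 * B.card := by exact_mod_cast h5
  linarith

end AEG
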