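import Pool.Agent.AEG.Defs
import Pool.Agent.AEG.Defs2
import Pool.Agent.AEG.L2
import Pool.Agent.AEG.K1
import Pool.Agent.AEG.K2
import Pool.Agent.AEG.K4
import Pool.Agent.AEG.A2
import Pool.Agent.AEG.T1
import Pool.Agent.AEG.N1

set_option autoImplicit false

/-!
[AEG-L4] the part coming from bad vertices with small `⟪γ, w⟫`.  `w = wv y σ`, `γ = gam κ y`, `g0 = 45 s^2/(ν^4 η)`, `p v = ‖y v - y (σ v)‖`, `B = Part (Vlo g0)`, `n = ν^4`.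
(1) for `u ∈ Lt`, `v ∈ P`, `0 < E (σ u) v`, `v ≠ u`: `E (σ u) v ≤ ⟪y (σ u) - y u, y v - y (σ v)⟫ = p u · p v · ⟪w (σ u), w v⟫` (`Frame.ip4`: all `kd` vanish; `E (σ u) (σ v) = 0` by `tf (σ u) v (σ v)`,
    `E u v = 0` by `tf (σ u) u v`; the remaining term `E u (σ v) ≥ 0`), `⟪w (σ u), w v⟫ = ⟪w u, - w v⟫ > 0`.
(2) `u ∈ B`: `(rr (σ u) - rr u)/5 ≤ ∑_{v ∈ Vlo, ..} E (σ u) v ≤ p u ∑ p v X u v`, `X u v = ⟪w u, - w v⟫`; and `rr (σ u) - rr u ≥ (7/16) p u / g u`, `g u = ⟪γ, w u⟫ > 0`.  So `7/80 ≤ ∑_{v ∈ Vlo, 0 < E (σ u) v, v ≠ u} p v g u X u v`.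
(3) sum over `u ∈ B`, exchange: `(7/80)|B| ≤ ∑_{v∈Vlo} p v ∑_{u ∈ B_v} g u X u v`, `B_v = {u ∈ B | 0 < E (σ u) v ∧ v ≠ u}` (`TF_nb`).  `kk2` (`N = ν^4`, `β0 = (7/8) e1`, `F = (303/100) s/η`, as in L3):
    `∑_{B_v} g u^2 ≤ ‖γ‖^2 F`, `8 |B_v| ≤ F^3`; `kk` for the unit vector `- w v` (`X u v ≥ 0`): `(∑_{B_v} X u v^2)^3 ≤ 8|B_v| ≤ F^3`, so `∑ X^2 ≤ F`.  Cauchy-Schwarz: the inner sum is `≤ ‖γ‖ F`.
(4) `∑_{v∈Vlo} p v ≤ 2 ∑_{v ∈ Vlo ∩ Lt} p v` (`σ` maps the non-light ones to light ones, same `p`), and for `v ∈ Lt`: `p v ≤ (16/7)(rr (σ v) - rr v) g v ≤ (16/7) g0 rr (σ v)`; `∑_{v∈Lt} rr (σ v) ≤ ∑_l rr l = ν^4 e1` (`σ` injective on `P`,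
    `rr ≥ 0`).  So `∑_{Vlo} p v ≤ (32/7) g0 ν^4 e1`.
(5) `|B| ≤ (80/7)(32/7) ‖γ‖ F g0 ν^4 e1 ≤ 52.3 (s/ν^2)(3.03 s/η)(45 s^2/(ν^4η)) ν^4 η^2 ≤ 7200 s^4/ν^2` (`‖γ‖^2 ν^4 ≤ s^2`).
-/

namespace AEG

open Finset
open scoped InnerProductSpace

variable {V : Type*} [NormedAddCommGroup V] [InnerProductSpace ℝ V]

private theorem l4_E17 {ι : Type*} [DecidableEq ι] [Fintype ι]
    {E : ι → ι → ℝ} {t ν x : ℝ} {P Us UL : Finset ι} {σ : ι → ι} (hC : Cls E P Us UL σ t ν x)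
    {v : ι} (hv : v ∈ P) : 0 < E v (σ v) := by
  have := (hC.inv v hv).2.2
  linarith

private theorem l4_ne {ι : Type*} [DecidableEq ι] [Fintype ι]
    {E : ι → ι → ℝ} (hW : Wt E) {t ν x : ℝ} {P Us UL : Finset ι} {σ : ι → ι}
    (hC : Cls E P Us UL σ t ν x) {v : ι} (hv : v ∈ P) : v ≠ σ v := by
  intro h1
  have h2 := l4_E17 hC hv
  rw [← h1, hW.diag] at h2
  exact lt_irrefl _ h2

private theorem l4_pos [FiniteDimensional ℝ V] {ι : Type*} [DecidableEq ι] [Fintype ι]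
    {E : ι → ι → ℝ} {κ : ι → ℝ} {y : ι → V} {t ν x R : ℝ} (h : Facts E κ y t ν x R)
    {P Us UL : Finset ι} {σ : ι → ι} (hC : Cls E P Us UL σ t ν x) {v : ι} (hv : v ∈ P) :
    0 < ‖y v - y (σ v)‖ := by
  have h1 := norm_pair h.fr.wt (y := y) h.fr.ip4 (l4_ne h.fr.wt hC hv)
  have h2 := h.fr.wt.lt v (σ v)
  have h3 : 0 < ‖y v - y (σ v)‖ ^ 2 := by rw [h1]; linarith
  rcases (norm_nonneg (y v - y (σ v))).eq_or_lt with h4 | h4
  · rw [← h4] at h3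
    norm_num at h3
  · exact h4

private theorem l4_diff [FiniteDimensional ℝ V] {ι : Type*} [DecidableEq ι] [Fintype ι]
    {E : ι → ι → ℝ} {κ : ι → ℝ} {y : ι → V} {t ν x R : ℝ} (h : Facts E κ y t ν x R)
    {P Us UL : Finset ι} {σ : ι → ι} (hC : Cls E P Us UL σ t ν x) {v : ι} (hv : v ∈ P) :
    y v - y (σ v) = ‖y v - y (σ v)‖ • wv y σ v := by
  unfold wv
  rw [smul_smul, mul_inv_cancel₀ (l4_pos h hC hv).ne', one_smul]

private theorem l4_E [FiniteDimensional ℝ V] {ι : Type*} [DecidableEq ι] [Fintype ι]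
    {E : ι → ι → ℝ} {κ : ι → ℝ} {y : ι → V} {t ν x R : ℝ} (h : Facts E κ y t ν x R)
    {P Us UL : Finset ι} {σ : ι → ι} (hC : Cls E P Us UL σ t ν x) {u v : ι} (hu : u ∈ P)
    (hv : v ∈ P) (h1 : 0 < E (σ u) v) (h2 : v ≠ u) :
    E (σ u) v ≤ ‖y u - y (σ u)‖ * ‖y v - y (σ v)‖ * ⟪-(wv y σ v), wv y σ u⟫_ℝ := by
  have hW := h.fr.wt
  have e1 : σ u ≠ v := by
    intro hc
    rw [hc, hW.diag] at h1
    exact lt_irrefl _ h1
  have e2 : σ u ≠ σ v := by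
    intro hc
    have := congrArg σ hc
    rw [(hC.inv u hu).2.1, (hC.inv v hv).2.1] at this
    exact h2 this.symm
  have e3 : u ≠ σ v := by
    intro hc
    have := congrArg σ hc
    rw [(hC.inv v hv).2.1] at this
    exact e1 this
  have e4 : E (σ u) (σ v) = 0 := by
    rcases hW.tf (σ u) v (σ v) with h3 | h3 | h3
    · linarith
    · have := l4_E17 hC hv
      linarith
    · exact h3
  have e5 : E u v = 0 := by
    rcases hW.tf (σ u) u v with h3 | h3 | h3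
    · have := l4_E17 hC hu
      rw [hW.symm] at h3
      linarith
    · exact h3
    · linarith
  have h3 := h.fr.ip4 (σ u) u v (σ v)
  have k1 : kd (σ u) v = 0 := by unfold kd; rw [if_neg e1]
  have k2 : kd (σ u) (σ v) = 0 := by unfold kd; rw [if_neg e2]
  have k3 : kd u v = 0 := by unfold kd; rw [if_neg (Ne.symm h2)]
  have k4 : kd u (σ v) = 0 := by unfold kd; rw [if_neg e3]
  rw [k1, k2, k3, k4, e4, e5] at h3
  have h4 : ⟪y (σ u) - y u, y v - y (σ v)⟫_ℝ =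
      ‖y u - y (σ u)‖ * ‖y v - y (σ v)‖ * ⟪-(wv y σ v), wv y σ u⟫_ℝ := by
    have d1 : y (σ u) - y u = -(‖y u - y (σ u)‖ • wv y σ u) := by
      rw [← l4_diff h hC hu]; abel
    have d2 := l4_diff h hC hv
    rw [d1]
    conv_lhs => rw [d2]
    rw [inner_neg_left, real_inner_smul_left, real_inner_smul_right, inner_neg_left,
      real_inner_comm (wv y σ u) (wv y σ v)]
    ring
  rw [h4] at h3
  have := hW.nn u (σ v)
  linarith

private theorem l4_sumP [FiniteDimensional ℝ V] {ι : Type*} [DecidableEq ι] [Fintype ι]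
    {E : ι → ι → ℝ} {κ : ι → ℝ} {y : ι → V} {t ν x R : ℝ} (h : Facts E κ y t ν x R)
    {P Us UL : Finset ι} {σ : ι → ι} (hC : Cls E P Us UL σ t ν x) (g0 : ℝ) (hg0 : 0 ≤ g0) :
    ∑ v ∈ Vlo κ y P σ g0, ‖y v - y (σ v)‖ ≤ 32 / 7 * g0 * (ν ^ 4 * e1 E) := by
  classical
  have hPS := hC.pairSys h
  have hν0 : 0 < ν := by linarith [h.νt, h.t15]
  have hn0 : 0 < nv ι := by rw [h.n4]; positivity
  have hrr0 : ∀ l, 0 ≤ rr E l := fun l => Finset.sum_nonneg (fun m _ => h.fr.wt.nn l m)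
  set A : Finset ι := (Vlo κ y P σ g0).filter (fun v => 0 ≤ ⟪gam κ y, wv y σ v⟫_ℝ) with hA
  set B : Finset ι := (Vlo κ y P σ g0).filter (fun v => ¬ 0 ≤ ⟪gam κ y, wv y σ v⟫_ℝ) with hB
  have hVP : ∀ v ∈ Vlo κ y P σ g0, v ∈ P ∧ 7 / 4 < ⟪wv y σ v, Fop y (wv y σ v)⟫_ℝ ∧
      |⟪gam κ y, wv y σ v⟫_ℝ| ≤ g0 := by
    intro v hv
    unfold Vlo at hv
    rw [mem_filter] at hv
    have h1 := hv.1
    unfold Bad at h1
    rw [mem_filter] at h1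
    exact ⟨h1.1, h1.2, hv.2⟩
  have hAP : ∀ v ∈ A, v ∈ P ∧ v ∈ Lt κ y P σ ∧ ⟪gam κ y, wv y σ v⟫_ℝ ≤ g0 := by
    intro v hv
    rw [hA, mem_filter] at hv
    obtain ⟨h1, h2, h3⟩ := hVP v hv.1
    refine ⟨h1, ?_, le_trans (le_abs_self _) h3⟩
    unfold Lt Bad
    rw [mem_filter, mem_filter]
    exact ⟨⟨h1, h2⟩, hv.2⟩
  have hsplit : ∑ v ∈ Vlo κ y P σ g0, ‖y v - y (σ v)‖ =
      ∑ v ∈ A, ‖y v - y (σ v)‖ + ∑ v ∈ B, ‖y v - y (σ v)‖ := by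
    rw [hA, hB, Finset.sum_filter_add_sum_filter_not]
  have hBA : ∑ v ∈ B, ‖y v - y (σ v)‖ ≤ ∑ v ∈ A, ‖y v - y (σ v)‖ := by
    have hmaps : ∀ v ∈ B, σ v ∈ A := by
      intro v hv
      rw [hB, mem_filter] at hv
      obtain ⟨h1, h2, h3⟩ := hVP v hv.1
      have h4 := hPS.neg v h1
      have h5 := hv.2
      push Not at h5
      rw [hA, mem_filter]
      constructor
      · unfold Vlo Bad
        rw [mem_filter, mem_filter]
        refine ⟨⟨hPS.mem v h1, ?_⟩, ?_⟩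
        · rw [h4, map_neg, inner_neg_neg]; exact h2
        · rw [h4, inner_neg_right, abs_neg]; exact h3
      · rw [h4, inner_neg_right]
        linarith
    have hinj : Set.InjOn σ (B : Set ι) := by
      intro a ha b hb hab
      have ha' := (hVP a (mem_filter.1 ha).1).1
      have hb' := (hVP b (mem_filter.1 hb).1).1
      have := congrArg σ hab
      rwa [(hC.inv a ha').2.1, (hC.inv b hb').2.1] at this
    calc ∑ v ∈ B, ‖y v - y (σ v)‖ = ∑ v ∈ B, ‖y (σ v) - y (σ (σ v))‖ := by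
          apply Finset.sum_congr rfl
          intro v hv
          have h1 := (hVP v (mem_filter.1 hv).1).1
          rw [(hC.inv v h1).2.1, norm_sub_rev]
      _ = ∑ v ∈ B.image σ, ‖y v - y (σ v)‖ := by rw [Finset.sum_image hinj]
      _ ≤ ∑ v ∈ A, ‖y v - y (σ v)‖ := by
          apply Finset.sum_le_sum_of_subset_of_nonneg
          · intro a ha
            obtain ⟨b, hb, rfl⟩ := mem_image.1 ha
            exact hmaps b hb
          · intro _ _ _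
            exact norm_nonneg _
  have hA1 : ∑ v ∈ A, ‖y v - y (σ v)‖ ≤ 16 / 7 * g0 * (ν ^ 4 * e1 E) := by
    have hinj : Set.InjOn σ (A : Set ι) := by
      intro a ha b hb hab
      have ha' := (hAP a ha).1
      have hb' := (hAP b hb).1
      have := congrArg σ hab
      rwa [(hC.inv a ha').2.1, (hC.inv b hb').2.1] at this
    calc ∑ v ∈ A, ‖y v - y (σ v)‖ ≤ ∑ v ∈ A, 16 / 7 * g0 * rr E (σ v) := by
          apply Finset.sum_le_sum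
          intro v hv
          obtain ⟨h1, h2, h3⟩ := hAP v hv
          obtain ⟨_, q2, q3, q4, _⟩ := h.lt_facts hC h2
          have q5 : (rr E (σ v) - rr E v) * ⟪gam κ y, wv y σ v⟫_ℝ ≤ rr E (σ v) * g0 := by
            apply mul_le_mul _ h3 q2.le (hrr0 _)
            linarith [hrr0 v]
          linarith
      _ = 16 / 7 * g0 * ∑ v ∈ A.image σ, rr E v := by
          rw [Finset.sum_image hinj, Finset.mul_sum]
      _ ≤ 16 / 7 * g0 * ∑ v, rr E v := by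
          apply mul_le_mul_of_nonneg_left _ (by positivity)
          exact Finset.sum_le_univ_sum_of_nonneg hrr0
      _ = 16 / 7 * g0 * (ν ^ 4 * e1 E) := by
          rw [(sum_rr E hn0).1, h.n4]
  rw [hsplit]
  linarith

theorem Facts.card_lo [FiniteDimensional ℝ V] {ι : Type*} [DecidableEq ι] [Fintype ι]
    {E : ι → ι → ℝ} {κ : ι → ℝ} {y : ι → V} {t ν x R : ℝ} (h : Facts E κ y t ν x R)
    {P Us UL : Finset ι} {σ : ι → ι} (hC : Cls E P Us UL σ t ν x) (s η : ℝ) (hs : 0 < s)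
    (hs2 : s ^ 2 = t ^ 3 / 3) (hη : 0 < η) (hη2 : η ^ 2 = e1 E) :
    ((Part E κ y P σ (Vlo κ y P σ (45 * s ^ 2 / (ν ^ 4 * η)))).card : ℝ) ≤
      7200 * s ^ 4 / ν ^ 2 := by
  classical
  have hPS := hC.pairSys h
  have hν0 : 0 < ν := by linarith [h.νt, h.t15]
  have hn0 : 0 < nv ι := by rw [h.n4]; positivity
  have he0 : 0 < e1 E := by rw [← hη2]; positivity
  set g0 : ℝ := 45 * s ^ 2 / (ν ^ 4 * η) with hg0
  have hg00 : 0 ≤ g0 := by positivity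
  set S : Finset ι := Vlo κ y P σ g0 with hS
  set B : Finset ι := Part E κ y P σ S with hB
  set F : ℝ := 303 / 100 * s / η with hF
  have hF0 : 0 ≤ F := by positivity
  have hgn : ν ^ 4 * ‖gam κ y‖ ^ 2 ≤ s ^ 2 := by
    have := h.g2
    rw [h.n4] at this
    rw [hs2]; exact this
  have hSP : ∀ v ∈ S, v ∈ P := by
    intro v hv
    rw [hS] at hv
    unfold Vlo Bad at hv
    rw [mem_filter, mem_filter] at hv
    exact hv.1.1
  have hBm : ∀ u ∈ B, u ∈ P ∧ u ∈ Lt κ y P σ ∧ (rr E (σ u) - rr E u) / 5 ≤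
      ∑ l ∈ S.filter (fun l => 0 < E (σ u) l ∧ l ≠ u), E (σ u) l := by
    intro u hu
    rw [hB] at hu
    unfold Part at hu
    rw [mem_filter] at hu
    have h1 := hu.1
    unfold Lt Bad at h1
    rw [mem_filter, mem_filter] at h1
    exact ⟨h1.1.1, hu.1, hu.2⟩
  have hBP : B ⊆ P := fun u hu => (hBm u hu).1
  -- the basic inequality for one vertex
  have hone : ∀ u ∈ B, (7 / 80 : ℝ) ≤ ∑ v ∈ S.filter (fun l => 0 < E (σ u) l ∧ l ≠ u),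
      ‖y v - y (σ v)‖ * (⟪gam κ y, wv y σ u⟫_ℝ * ⟪-(wv y σ v), wv y σ u⟫_ℝ) := by
    intro u hu
    obtain ⟨huP, huL, hu3⟩ := hBm u hu
    obtain ⟨q1, q2, q3, q4, _⟩ := h.lt_facts hC huL
    have e1 : ∑ l ∈ S.filter (fun l => 0 < E (σ u) l ∧ l ≠ u), E (σ u) l ≤
        ‖y u - y (σ u)‖ * ∑ v ∈ S.filter (fun l => 0 < E (σ u) l ∧ l ≠ u),
          ‖y v - y (σ v)‖ * ⟪-(wv y σ v), wv y σ u⟫_ℝ := by
      rw [Finset.mul_sum]
      apply Finset.sum_le_sum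
      intro v hv
      rw [mem_filter] at hv
      have := l4_E h hC huP (hSP v hv.1) hv.2.1 hv.2.2
      linarith
    have e2 : 7 / 80 * ‖y u - y (σ u)‖ ≤ ‖y u - y (σ u)‖ *
        (⟪gam κ y, wv y σ u⟫_ℝ * ∑ v ∈ S.filter (fun l => 0 < E (σ u) l ∧ l ≠ u),
          ‖y v - y (σ v)‖ * ⟪-(wv y σ v), wv y σ u⟫_ℝ) := by
      have e3 : (rr E (σ u) - rr E u) / 5 * ⟪gam κ y, wv y σ u⟫_ℝ ≤
          (‖y u - y (σ u)‖ * ∑ v ∈ S.filter (fun l => 0 < E (σ u) l ∧ l ≠ u),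
          ‖y v - y (σ v)‖ * ⟪-(wv y σ v), wv y σ u⟫_ℝ) * ⟪gam κ y, wv y σ u⟫_ℝ :=
        mul_le_mul_of_nonneg_right (le_trans hu3 e1) q2.le
      linarith
    have e4 : (7 / 80 : ℝ) ≤ ⟪gam κ y, wv y σ u⟫_ℝ *
        ∑ v ∈ S.filter (fun l => 0 < E (σ u) l ∧ l ≠ u),
          ‖y v - y (σ v)‖ * ⟪-(wv y σ v), wv y σ u⟫_ℝ := by
      rw [mul_comm (7 / 80 : ℝ)] at e2
      exact le_of_mul_le_mul_left e2 q1
    refine le_trans e4 (le_of_eq ?_)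
    rw [Finset.mul_sum]
    apply Finset.sum_congr rfl
    intro v _
    ring
  -- the inner sums
  have hin : ∀ v ∈ S, ∑ u ∈ B.filter (fun u => 0 < E (σ u) v ∧ v ≠ u),
      (⟪gam κ y, wv y σ u⟫_ℝ * ⟪-(wv y σ v), wv y σ u⟫_ℝ) ≤ ‖gam κ y‖ * F := by
    intro v hv
    set J : Finset ι := B.filter (fun u => 0 < E (σ u) v ∧ v ≠ u) with hJ
    have hJB : ∀ u ∈ J, u ∈ B := fun u hu => (mem_filter.1 hu).1
    have hJn : ∀ u ∈ J, ‖wv y σ u‖ = 1 := fun u hu => hPS.norm u (hBP (hJB u hu))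
    have hTF : TF J (wv y σ) := TF_nb hPS B hBP v
    have h1 := kk2 J (wv y σ) hJn hTF (gam κ y)
      (fun u hu => (h.lt_facts hC (hBm u (hJB u hu)).2.1).2.1.le) (ν ^ 4) (7 / 8 * e1 E) F
      (by positivity) (by positivity)
      (fun u hu => (h.lt_facts hC (hBm u (hJB u hu)).2.1).2.2.2.2.1) hF0 (by
        have e1 : F ^ 2 * (7 / 8 * e1 E) = (303 / 100) ^ 2 * (7 / 8) * s ^ 2 := by
          rw [hF, ← hη2]
          field_simp
        rw [e1]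
        nlinarith [sq_nonneg s])
    have h2 := kk J (wv y σ) hJn hTF (-(wv y σ v)) (by
        rw [norm_neg, hPS.norm v (hSP v hv)]) (by
        intro u hu
        have hu' := mem_filter.1 hu
        have h3 := l4_E h hC (hBP hu'.1) (hSP v hv) hu'.2.1 hu'.2.2
        have h4 := l4_pos h hC (hBP hu'.1)
        have h5 := l4_pos h hC (hSP v hv)
        by_contra hc
        push Not at hc
        have h6 : ‖y u - y (σ u)‖ * ‖y v - y (σ v)‖ * ⟪-(wv y σ v), wv y σ u⟫_ℝ < 0 :=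
          mul_neg_of_pos_of_neg (mul_pos h4 h5) hc
        linarith [hu'.2.1])
    have h3 : ∑ u ∈ J, ⟪-(wv y σ v), wv y σ u⟫_ℝ ^ 2 ≤ F := by
      have h4 := le_trans h2 h1.2
      exact le_of_pow_le_pow_left₀ (by norm_num) hF0 h4
    have hCS := Finset.sum_mul_sq_le_sq_mul_sq J (fun u => ⟪gam κ y, wv y σ u⟫_ℝ)
      (fun u => ⟪-(wv y σ v), wv y σ u⟫_ℝ)
    have h5 : (∑ u ∈ J, ⟪gam κ y, wv y σ u⟫_ℝ * ⟪-(wv y σ v), wv y σ u⟫_ℝ) ^ 2 ≤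
        (‖gam κ y‖ * F) ^ 2 := by
      calc (∑ u ∈ J, ⟪gam κ y, wv y σ u⟫_ℝ * ⟪-(wv y σ v), wv y σ u⟫_ℝ) ^ 2
          ≤ (∑ u ∈ J, ⟪gam κ y, wv y σ u⟫_ℝ ^ 2) *
            (∑ u ∈ J, ⟪-(wv y σ v), wv y σ u⟫_ℝ ^ 2) := hCS
        _ ≤ (‖gam κ y‖ ^ 2 * F) * F :=
            mul_le_mul h1.1 h3 (Finset.sum_nonneg (fun _ _ => sq_nonneg _)) (by positivity)
        _ = (‖gam κ y‖ * F) ^ 2 := by ring
    exact le_of_sq_le_sq h5 (by positivity)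
  -- double counting
  have hsum : 7 / 80 * (B.card : ℝ) ≤ ∑ v ∈ S, ‖y v - y (σ v)‖ * (‖gam κ y‖ * F) := by
    calc 7 / 80 * (B.card : ℝ) = ∑ u ∈ B, (7 / 80 : ℝ) := by
          rw [Finset.sum_const, nsmul_eq_mul]; ring
      _ ≤ ∑ u ∈ B, ∑ v ∈ S.filter (fun l => 0 < E (σ u) l ∧ l ≠ u),
          ‖y v - y (σ v)‖ * (⟪gam κ y, wv y σ u⟫_ℝ * ⟪-(wv y σ v), wv y σ u⟫_ℝ) :=
          Finset.sum_le_sum hone
      _ = ∑ v ∈ S, ∑ u ∈ B.filter (fun u => 0 < E (σ u) v ∧ v ≠ u),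
          ‖y v - y (σ v)‖ * (⟪gam κ y, wv y σ u⟫_ℝ * ⟪-(wv y σ v), wv y σ u⟫_ℝ) := by
          apply Finset.sum_comm'
          intro a b
          simp only [mem_filter]
          tauto
      _ = ∑ v ∈ S, ‖y v - y (σ v)‖ * ∑ u ∈ B.filter (fun u => 0 < E (σ u) v ∧ v ≠ u),
          (⟪gam κ y, wv y σ u⟫_ℝ * ⟪-(wv y σ v), wv y σ u⟫_ℝ) := by
          apply Finset.sum_congr rfl
          intro v _
          rw [Finset.mul_sum]
      _ ≤ ∑ v ∈ S, ‖y v - y (σ v)‖ * (‖gam κ y‖ * F) := by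
          apply Finset.sum_le_sum
          intro v hv
          exact mul_le_mul_of_nonneg_left (hin v hv) (norm_nonneg _)
  have hsp := l4_sumP h hC g0 hg00
  rw [← Finset.sum_mul] at hsum
  have hgs : ‖gam κ y‖ ≤ s / ν ^ 2 := by
    rw [le_div_iff₀ (by positivity)]
    have h1 : (‖gam κ y‖ * ν ^ 2) ^ 2 ≤ s ^ 2 := by
      calc (‖gam κ y‖ * ν ^ 2) ^ 2 = ν ^ 4 * ‖gam κ y‖ ^ 2 := by ring
        _ ≤ s ^ 2 := hgn
    exact le_of_sq_le_sq h1 hs.le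
  have hfin : 7 / 80 * (B.card : ℝ) ≤
      (32 / 7 * g0 * (ν ^ 4 * e1 E)) * (s / ν ^ 2 * F) := by
    refine le_trans hsum ?_
    apply mul_le_mul hsp _ (by positivity) (by positivity)
    exact mul_le_mul_of_nonneg_right hgs hF0
  have hval : (32 / 7 * g0 * (ν ^ 4 * e1 E)) * (s / ν ^ 2 * F) =
      (32 / 7 * 45 * (303 / 100)) * (s ^ 4 / ν ^ 2) := by
    rw [hg0, hF, ← hη2]
    field_simp
  rw [hval] at hfin
  have hpos : 0 ≤ s ^ 4 / ν ^ 2 := by positivity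
  have e9 : 7200 * s ^ 4 / ν ^ 2 = 7200 * (s ^ 4 / ν ^ 2) := by ring
  rw [e9]
  linarith

end AEG
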