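import Pool.Agent.AEG.Defs
import Pool.Agent.AEG.A2
import Pool.Agent.AEG.A4
import Pool.Agent.AEG.T1

set_option autoImplicit false

/-!
[AEG-T2] row bound.
Fix `v ∈ Q`, `X u = ⟪w v, w u⟫`.  `X v = 1`, `X (σ v) = -1` (`σ v ≠ v` since `E v v = 0 < E v (σ v)`), and for `u ∈ Q`:
`X (σ u) = - X u`.  `σ` is an involution of `Q \ {v, σ v}` exchanging `{X > 0}` and `{X < 0}`, so
`∑_{u∈Q} X u^2 = 2 + 2 ∑_{u ∈ Q⁺} X u^2`, `Q⁺ = {u ∈ Q | u ≠ v, u ≠ σ v, 0 < X u}`.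
By `pos_ip` every `u ∈ Q⁺` has `0 < E u v` (then `u ∈ Lset v ∩ Q`: `0 < E v u`, `σ u ≠ v` as `u ≠ σ v`) or `0 < E (σ u) (σ v)` (then
`σ u ∈ Lset (σ v) ∩ Q`: `σ (σ u) = u ≠ σ v`).  First kind: `kk` for `J = Q⁺ ∩ Lset v` (`TF` by `tf_Lset` and `TF.mono`), unit vector
`w v`: `(∑ X u^2)^3 ≤ 8 |J| ≤ F^3`, so `∑ X u^2 ≤ F`.  Second kind: `X u = ⟪w (σ v), w (σ u)⟫`; `kk` for the image under `σ`, which lies in
`Lset (σ v) ∩ Q`, with `w (σ v)`: again `≤ F`.  Total `≤ 2 + 2 (F + F)`.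
-/

namespace AEG

open Finset
open scoped InnerProductSpace

variable {V : Type*} [NormedAddCommGroup V] [InnerProductSpace ℝ V]

theorem t2_part {ι : Type*} [DecidableEq ι] {E : ι → ι → ℝ} {P : Finset ι} {σ : ι → ι}
    {w : ι → V} (h : PairSys E P σ w) (Q : Finset ι) (hQ : Q ⊆ P)
    (F : ℝ) (hF0 : 0 ≤ F) (hF : ∀ i ∈ Q, 8 * ((Lset E P σ i ∩ Q).card : ℝ) ≤ F ^ 3)
    (i : ι) (hi : i ∈ Q) (A : Finset ι) (τ : ι → ι) (hτ : ∀ u ∈ A, τ u ∈ Lset E P σ i ∩ Q)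
    (hinj : ∀ u ∈ A, ∀ v ∈ A, τ u = τ v → u = v) (x : V) (hx : ‖x‖ ≤ 1)
    (hpos : ∀ u ∈ A, 0 ≤ ⟪x, w (τ u)⟫_ℝ) : ∑ u ∈ A, ⟪x, w (τ u)⟫_ℝ ^ 2 ≤ F := by
  have h1 := kk A (fun u => w (τ u)) (fun u hu => h.norm _ (hQ (Finset.mem_inter.1 (hτ u hu)).2)) ?_
    x hx hpos
  · have h2 : (A.card : ℝ) ≤ ((Lset E P σ i ∩ Q).card : ℝ) := by
      exact_mod_cast Finset.card_le_card_of_injOn τ hτ (fun u hu v hv => hinj u hu v hv)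
    have h3 : (∑ u ∈ A, ⟪x, w (τ u)⟫_ℝ ^ 2) ^ 3 ≤ F ^ 3 := by
      have := hF i hi
      linarith
    exact le_of_pow_le_pow_left₀ (by norm_num) hF0 h3
  · intro a ha b hb c hc hab hbc hac
    exact tf_Lset h i _ (Finset.mem_inter.1 (hτ a ha)).1 _ (Finset.mem_inter.1 (hτ b hb)).1 _
      (Finset.mem_inter.1 (hτ c hc)).1 (fun he => hab (hinj a ha b hb he))
      (fun he => hbc (hinj b hb c hc he)) (fun he => hac (hinj a ha c hc he))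

theorem row_bound {ι : Type*} [DecidableEq ι] {E : ι → ι → ℝ} {P : Finset ι} {σ : ι → ι}
    {w : ι → V} (h : PairSys E P σ w) (Q : Finset ι) (hQ : Q ⊆ P) (hσ : ∀ u ∈ Q, σ u ∈ Q)
    (F : ℝ) (hF0 : 0 ≤ F) (hF : ∀ i ∈ Q, 8 * ((Lset E P σ i ∩ Q).card : ℝ) ≤ F ^ 3) :
    ∀ v ∈ Q, ∑ u ∈ Q, ⟪w v, w u⟫_ℝ ^ 2 ≤ 2 + 4 * F := by
  intro v hv
  have hvP := hQ hv
  have hsv := hσ v hv
  have hinv : ∀ u ∈ Q, σ (σ u) = u := fun u hu => h.inv u (hQ hu)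
  have hsym : ∀ a b, E a b = E b a := h.wt.symm
  have hneg : ∀ u ∈ Q, w (σ u) = - w u := fun u hu => h.neg u (hQ hu)
  have hnorm : ∀ u ∈ Q, ‖w u‖ = 1 := fun u hu => h.norm u (hQ hu)
  -- the four parts
  set A1 := Q.filter (fun u => u ≠ v ∧ u ≠ σ v ∧ 0 < ⟪w v, w u⟫_ℝ ∧ 0 < E u v) with hA1
  set A2 := Q.filter (fun u => u ≠ v ∧ u ≠ σ v ∧ 0 < ⟪w v, w u⟫_ℝ ∧ 0 < E (σ u) (σ v)) with hA2
  set B1 := Q.filter (fun u => u ≠ v ∧ u ≠ σ v ∧ ⟪w v, w u⟫_ℝ < 0 ∧ 0 < E (σ u) v) with hB1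
  set B2 := Q.filter (fun u => u ≠ v ∧ u ≠ σ v ∧ ⟪w v, w u⟫_ℝ < 0 ∧ 0 < E u (σ v)) with hB2
  have sinj : ∀ u ∈ Q, ∀ t ∈ Q, σ u = σ t → u = t := by
    intro u hu t ht he
    rw [← hinv u hu, he, hinv t ht]
  have p1 : ∑ u ∈ A1, ⟪w v, w u⟫_ℝ ^ 2 ≤ F := by
    refine t2_part h Q hQ F hF0 hF v hv A1 (fun u => u) ?_ (fun u _ t _ he => he) (w v)
      (hnorm v hv).le ?_
    · intro u hu
      obtain ⟨hu1, hu2, hu3, hu4, hu5⟩ := Finset.mem_filter.1 hu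
      refine Finset.mem_inter.2 ⟨Finset.mem_filter.2 ⟨hQ hu1, ?_, ?_⟩, hu1⟩
      · rw [hsym]; exact hu5
      · intro he
        apply hu3
        rw [← he, hinv u hu1]
    · intro u hu
      exact (Finset.mem_filter.1 hu).2.2.2.1.le
  have p2 : ∑ u ∈ A2, ⟪w v, w u⟫_ℝ ^ 2 ≤ F := by
    have h1 := t2_part h Q hQ F hF0 hF (σ v) hsv A2 σ ?_
      (fun u hu t ht he => sinj u (Finset.mem_filter.1 hu).1 t (Finset.mem_filter.1 ht).1 he)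
      (w (σ v)) (hnorm _ hsv).le ?_
    · refine le_trans (le_of_eq ?_) h1
      refine Finset.sum_congr rfl fun u hu => ?_
      rw [hneg v hv, hneg u (Finset.mem_filter.1 hu).1, inner_neg_neg]
    · intro u hu
      obtain ⟨hu1, hu2, hu3, hu4, hu5⟩ := Finset.mem_filter.1 hu
      refine Finset.mem_inter.2 ⟨Finset.mem_filter.2 ⟨hQ (hσ u hu1), ?_, ?_⟩, hσ u hu1⟩
      · rw [hsym]; exact hu5
      · rw [hinv u hu1]; exact hu3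
    · intro u hu
      rw [hneg v hv, hneg u (Finset.mem_filter.1 hu).1, inner_neg_neg]
      exact (Finset.mem_filter.1 hu).2.2.2.1.le
  have p3 : ∑ u ∈ B1, ⟪w v, w u⟫_ℝ ^ 2 ≤ F := by
    have h1 := t2_part h Q hQ F hF0 hF v hv B1 σ ?_
      (fun u hu t ht he => sinj u (Finset.mem_filter.1 hu).1 t (Finset.mem_filter.1 ht).1 he)
      (w v) (hnorm _ hv).le ?_
    · refine le_trans (le_of_eq ?_) h1
      refine Finset.sum_congr rfl fun u hu => ?_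
      rw [hneg u (Finset.mem_filter.1 hu).1, inner_neg_right, neg_sq]
    · intro u hu
      obtain ⟨hu1, hu2, hu3, hu4, hu5⟩ := Finset.mem_filter.1 hu
      refine Finset.mem_inter.2 ⟨Finset.mem_filter.2 ⟨hQ (hσ u hu1), ?_, ?_⟩, hσ u hu1⟩
      · rw [hsym]; exact hu5
      · rw [hinv u hu1]; exact hu2
    · intro u hu
      rw [hneg u (Finset.mem_filter.1 hu).1, inner_neg_right]
      linarith [(Finset.mem_filter.1 hu).2.2.2.1]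
  have p4 : ∑ u ∈ B2, ⟪w v, w u⟫_ℝ ^ 2 ≤ F := by
    have h1 := t2_part h Q hQ F hF0 hF (σ v) hsv B2 (fun u => u) ?_ (fun u _ t _ he => he)
      (w (σ v)) (hnorm _ hsv).le ?_
    · refine le_trans (le_of_eq ?_) h1
      refine Finset.sum_congr rfl fun u hu => ?_
      rw [hneg v hv, inner_neg_left, neg_sq]
    · intro u hu
      obtain ⟨hu1, hu2, hu3, hu4, hu5⟩ := Finset.mem_filter.1 hu
      refine Finset.mem_inter.2 ⟨Finset.mem_filter.2 ⟨hQ hu1, ?_, ?_⟩, hu1⟩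
      · rw [hsym]; exact hu5
      · intro he
        exact hu2 (sinj u hu1 v hv he)
    · intro u hu
      rw [hneg v hv, inner_neg_left]
      linarith [(Finset.mem_filter.1 hu).2.2.2.1]
  -- every term is covered
  have hcov : ∀ u ∈ Q, ⟪w v, w u⟫_ℝ ^ 2 ≤ (if u = v then (1 : ℝ) else 0) +
      (if u = σ v then (1 : ℝ) else 0) +
      (if u ≠ v ∧ u ≠ σ v ∧ 0 < ⟪w v, w u⟫_ℝ ∧ 0 < E u v then ⟪w v, w u⟫_ℝ ^ 2 else 0) +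
      (if u ≠ v ∧ u ≠ σ v ∧ 0 < ⟪w v, w u⟫_ℝ ∧ 0 < E (σ u) (σ v) then ⟪w v, w u⟫_ℝ ^ 2 else 0) +
      (if u ≠ v ∧ u ≠ σ v ∧ ⟪w v, w u⟫_ℝ < 0 ∧ 0 < E (σ u) v then ⟪w v, w u⟫_ℝ ^ 2 else 0) +
      (if u ≠ v ∧ u ≠ σ v ∧ ⟪w v, w u⟫_ℝ < 0 ∧ 0 < E u (σ v) then ⟪w v, w u⟫_ℝ ^ 2 else 0) := by
    intro u hu
    have hX : ⟪w v, w u⟫_ℝ ^ 2 ≤ 1 := by
      have h1 := abs_real_inner_le_norm (w v) (w u)
      rw [hnorm v hv, hnorm u hu, mul_one] at h1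
      rw [← sq_abs]
      nlinarith [abs_nonneg ⟪w v, w u⟫_ℝ]
    have hnn := sq_nonneg ⟪w v, w u⟫_ℝ
    have i1 : 0 ≤ (if u = v then (1 : ℝ) else 0) := by split_ifs <;> norm_num
    have i2 : 0 ≤ (if u = σ v then (1 : ℝ) else 0) := by split_ifs <;> norm_num
    have i3 : 0 ≤ (if u ≠ v ∧ u ≠ σ v ∧ 0 < ⟪w v, w u⟫_ℝ ∧ 0 < E u v then ⟪w v, w u⟫_ℝ ^ 2 else 0) := by
      split_ifs <;> positivity
    have i4 : 0 ≤ (if u ≠ v ∧ u ≠ σ v ∧ 0 < ⟪w v, w u⟫_ℝ ∧ 0 < E (σ u) (σ v) then ⟪w v, w u⟫_ℝ ^ 2 else 0) := by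
      split_ifs <;> positivity
    have i5 : 0 ≤ (if u ≠ v ∧ u ≠ σ v ∧ ⟪w v, w u⟫_ℝ < 0 ∧ 0 < E (σ u) v then ⟪w v, w u⟫_ℝ ^ 2 else 0) := by
      split_ifs <;> positivity
    have i6 : 0 ≤ (if u ≠ v ∧ u ≠ σ v ∧ ⟪w v, w u⟫_ℝ < 0 ∧ 0 < E u (σ v) then ⟪w v, w u⟫_ℝ ^ 2 else 0) := by
      split_ifs <;> positivity
    by_cases e1 : u = v
    · rw [if_pos e1] at i1 ⊢
      linarith
    by_cases e2 : u = σ v
    · rw [if_pos e2] at i2 ⊢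
      linarith
    rcases lt_trichotomy 0 ⟪w v, w u⟫_ℝ with h1 | h1 | h1
    · rcases pos_ip h (hQ hu) hvP e1 e2 (by rw [real_inner_comm]; exact h1) with h2 | h2
      · rw [if_pos (⟨e1, e2, h1, h2⟩ : u ≠ v ∧ u ≠ σ v ∧ 0 < ⟪w v, w u⟫_ℝ ∧ 0 < E u v)] at i3 ⊢
        linarith
      · rw [if_pos (⟨e1, e2, h1, h2⟩ : u ≠ v ∧ u ≠ σ v ∧ 0 < ⟪w v, w u⟫_ℝ ∧ 0 < E (σ u) (σ v))] at i4 ⊢
        linarith
    · have h2 : ⟪w v, w u⟫_ℝ ^ 2 = 0 := by rw [← h1]; norm_num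
      linarith
    · have h3 : 0 < ⟪w (σ u), w v⟫_ℝ := by
        rw [hneg u hu, inner_neg_left, real_inner_comm]
        linarith
      have e3 : σ u ≠ v := by
        intro he
        apply e2
        rw [← he, hinv u hu]
      have e4 : σ u ≠ σ v := fun he => e1 (sinj u hu v hv he)
      rcases pos_ip h (hQ (hσ u hu)) hvP e3 e4 h3 with h2 | h2
      · rw [if_pos (⟨e1, e2, h1, h2⟩ : u ≠ v ∧ u ≠ σ v ∧ ⟪w v, w u⟫_ℝ < 0 ∧ 0 < E (σ u) v)] at i5 ⊢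
        linarith
      · rw [hinv u hu] at h2
        rw [if_pos (⟨e1, e2, h1, h2⟩ : u ≠ v ∧ u ≠ σ v ∧ ⟪w v, w u⟫_ℝ < 0 ∧ 0 < E u (σ v))] at i6 ⊢
        linarith
  refine (Finset.sum_le_sum hcov).trans ?_
  simp only [Finset.sum_add_distrib, ← Finset.sum_filter]
  rw [← hA1, ← hA2, ← hB1, ← hB2]
  have q1 : ∑ a ∈ Q.filter (fun a => a = v), (1 : ℝ) ≤ 1 := by
    rw [Finset.filter_eq', if_pos hv, Finset.sum_singleton]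
  have q2 : ∑ a ∈ Q.filter (fun a => a = σ v), (1 : ℝ) ≤ 1 := by
    rw [Finset.filter_eq', if_pos hsv, Finset.sum_singleton]
  linarith

/-- [AEG-T2b] from `trace_cs` (file A4, import it) and `row_bound`:
`η |Q| ≤ ∑_{u∈Q} ⟪w u, G (w u)⟫`, square, `trace_cs`, `∑_{u,v∈Q} ⟪w u, w v⟫^2 ≤ |Q| (2 + 4F)`. -/
theorem pair_count {ι : Type*} [DecidableEq ι] {E : ι → ι → ℝ} {P : Finset ι} {σ : ι → ι}
    {w : ι → V} (h : PairSys E P σ w) (Q : Finset ι) (hQ : Q ⊆ P) (hσ : ∀ u ∈ Q, σ u ∈ Q)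
    (F : ℝ) (hF0 : 0 ≤ F) (hF : ∀ i ∈ Q, 8 * ((Lset E P σ i ∩ Q).card : ℝ) ≤ F ^ 3)
    {κ : Type*} [Fintype κ] (b : OrthonormalBasis κ ℝ V) (G : V →ₗ[ℝ] V) (η : ℝ) (hη : 0 ≤ η)
    (hG : ∀ u ∈ Q, η ≤ ⟪w u, G (w u)⟫_ℝ) :
    (η * (Q.card : ℝ)) ^ 2 ≤ (∑ i, ‖G (b i)‖ ^ 2) * ((Q.card : ℝ) * (2 + 4 * F)) := by
  have h1 : η * (Q.card : ℝ) ≤ ∑ v ∈ Q, ⟪w v, G (w v)⟫_ℝ := by
    have h2 := Finset.card_nsmul_le_sum Q (fun v => ⟪w v, G (w v)⟫_ℝ) η hG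
    rw [nsmul_eq_mul] at h2
    linarith
  have h2 : (η * (Q.card : ℝ)) ^ 2 ≤ (∑ v ∈ Q, ⟪w v, G (w v)⟫_ℝ) ^ 2 := by
    refine pow_le_pow_left₀ (by positivity) h1 2
  refine (h2.trans (trace_cs b G Q w)).trans ?_
  refine mul_le_mul_of_nonneg_left ?_ (Finset.sum_nonneg fun i _ => sq_nonneg _)
  have h3 := Finset.sum_le_card_nsmul Q (fun u => ∑ v ∈ Q, ⟪w u, w v⟫_ℝ ^ 2) (2 + 4 * F)
    (row_bound h Q hQ hσ F hF0 hF)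
  rw [nsmul_eq_mul] at h3
  exact h3

end AEG
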