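import Pool.Agent.AEG.Defs
import Pool.Agent.AEG.Defs2
import Pool.Agent.AEG.L2
import Pool.Agent.AEG.A3
import Pool.Agent.AEG.A4
import Pool.Agent.AEG.T1
import Pool.Agent.AEG.T2

set_option autoImplicit false

/-!
[AEG-L5] good vertices.  `w = wv y σ`, `G := 2 • id - Fop y`, `b = stdOrthonormalBasis`: `∑ ‖G (b i)‖^2 = D2 ≤ t^3` (`DU`, `U2 ≥ 0`), `⟪w u, G (w u)⟫ ≥ 1/4` on `Good`.
(TFgood) `J ⊆ Good` with `TF J w`: `trace_cs`, `q1`: `(|J|/4)^2 ≤ t^3 · 4 |J|`, so `|J| ≤ 64 t^3`.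
(nbGood) for `u ∈ P`: `{l ∈ Good | 0 < E (σ u) l ∧ l ≠ u} ⊆ Lset (σ u)` (`σ l ≠ σ u`), so `≤ 64 t^3` elements (`tf_Lset`, `TF.mono`).
(card) `Good` is `σ`-closed (`w (σ u) = - w u`); `pair_count` with `Q = Good`, `η = 1/4`, `F = 8 t` (`8 |Lset ∩ Good| ≤ 512 t^3 = F^3`): `(|Good|/4)^2 ≤ t^3 |Good| (2 + 32 t)`, `|Good| ≤ 16 t^3 (2 + 32 t) ≤ 534 t^4`
(`2 ≤ (4/3) t`).
-/

namespace AEG

open Finset
open scoped InnerProductSpace

variable {V : Type*} [NormedAddCommGroup V] [InnerProductSpace ℝ V]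

private theorem l5_D2 [FiniteDimensional ℝ V] {ι : Type*} [DecidableEq ι] [Fintype ι]
    {E : ι → ι → ℝ} {κ : ι → ℝ} {y : ι → V} {t ν x R : ℝ} (h : Facts E κ y t ν x R) :
    ∑ i, ‖((2 : ℝ) • (LinearMap.id : V →ₗ[ℝ] V) - Fop y) (stdOrthonormalBasis ℝ V i)‖ ^ 2 ≤
      t ^ 3 := by
  have h1 : ∑ i, ‖((2 : ℝ) • (LinearMap.id : V →ₗ[ℝ] V) - Fop y)
      (stdOrthonormalBasis ℝ V i)‖ ^ 2 = D2 (stdOrthonormalBasis ℝ V) y := by
    unfold D2
    refine sum_congr rfl fun i _ => ?_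
    rw [LinearMap.sub_apply, LinearMap.smul_apply, LinearMap.id_apply, norm_sub_rev]
  have h2 : 0 ≤ U2 y := sum_nonneg fun l _ => by positivity
  have h3 := h.DU
  rw [h1]
  linarith

private theorem l5_G {ι : Type*} [DecidableEq ι] [Fintype ι] {E : ι → ι → ℝ} {y : ι → V}
    {P : Finset ι} {σ : ι → ι} (hP : PairSys E P σ (wv y σ)) {u : ι}
    (hu : u ∈ Good y P σ) :
    1 / 4 ≤ ⟪wv y σ u, ((2 : ℝ) • (LinearMap.id : V →ₗ[ℝ] V) - Fop y) (wv y σ u)⟫_ℝ := by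
  unfold Good at hu
  rw [mem_filter] at hu
  rw [LinearMap.sub_apply, LinearMap.smul_apply, LinearMap.id_apply, inner_sub_right,
    real_inner_smul_right, real_inner_self_eq_norm_sq, hP.norm u hu.1]
  linarith [hu.2]

private theorem l5_t0 [FiniteDimensional ℝ V] {ι : Type*} [DecidableEq ι] [Fintype ι]
    {E : ι → ι → ℝ} {κ : ι → ℝ} {y : ι → V} {t ν x R : ℝ} (h : Facts E κ y t ν x R) :
    0 < t := by
  have := h.t15
  linarith

theorem Facts.TFgood [FiniteDimensional ℝ V] {ι : Type*} [DecidableEq ι] [Fintype ι]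
    {E : ι → ι → ℝ} {κ : ι → ℝ} {y : ι → V} {t ν x R : ℝ} (h : Facts E κ y t ν x R)
    {P Us UL : Finset ι} {σ : ι → ι} (hC : Cls E P Us UL σ t ν x) (J : Finset ι)
    (hJ : J ⊆ Good y P σ) (hT : TF J (wv y σ)) : (J.card : ℝ) ≤ 64 * t ^ 3 := by
  have hP := hC.pairSys h
  have ht0 := l5_t0 h
  rcases J.eq_empty_or_nonempty with hJ0 | hJne
  · rw [hJ0, card_empty]
    push_cast
    positivity
  have hcard : (0 : ℝ) < J.card := by exact_mod_cast hJne.card_pos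
  have h1 := trace_cs (stdOrthonormalBasis ℝ V)
    ((2 : ℝ) • (LinearMap.id : V →ₗ[ℝ] V) - Fop y) J (wv y σ)
  have h2 := q1 J (wv y σ)
    (fun i hi => hP.norm i (mem_filter.mp (hJ hi)).1) hT
  have h3 := l5_D2 h
  have h4 : (J.card : ℝ) * (1 / 4) ≤
      ∑ v ∈ J, ⟪wv y σ v, ((2 : ℝ) • (LinearMap.id : V →ₗ[ℝ] V) - Fop y) (wv y σ v)⟫_ℝ := by
    rw [← nsmul_eq_mul]
    exact card_nsmul_le_sum J _ _ fun v hv => l5_G hP (hJ hv)
  have h5 : ((J.card : ℝ) * (1 / 4)) ^ 2 ≤ t ^ 3 * (4 * (J.card : ℝ)) := by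
    calc ((J.card : ℝ) * (1 / 4)) ^ 2 ≤ (∑ v ∈ J,
          ⟪wv y σ v, ((2 : ℝ) • (LinearMap.id : V →ₗ[ℝ] V) - Fop y) (wv y σ v)⟫_ℝ) ^ 2 :=
          pow_le_pow_left₀ (by positivity) h4 2
      _ ≤ _ := h1
      _ ≤ t ^ 3 * (4 * (J.card : ℝ)) :=
          mul_le_mul h3 h2 (sum_nonneg fun _ _ => sum_nonneg fun _ _ => by positivity)
            (by positivity)
  have h6 : (J.card : ℝ) * (J.card : ℝ) ≤ (J.card : ℝ) * (64 * t ^ 3) := by nlinarith [h5]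
  exact le_of_mul_le_mul_left h6 hcard

theorem Facts.nbGood [FiniteDimensional ℝ V] {ι : Type*} [DecidableEq ι] [Fintype ι]
    {E : ι → ι → ℝ} {κ : ι → ℝ} {y : ι → V} {t ν x R : ℝ} (h : Facts E κ y t ν x R)
    {P Us UL : Finset ι} {σ : ι → ι} (hC : Cls E P Us UL σ t ν x) {u : ι} (hu : u ∈ P) :
    (((Good y P σ).filter (fun l => 0 < E (σ u) l ∧ l ≠ u)).card : ℝ) ≤ 64 * t ^ 3 := by
  have hP := hC.pairSys h
  refine h.TFgood hC _ (filter_subset _ _) ?_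
  refine (tf_Lset hP (σ u)).mono ?_
  intro l hl
  rw [mem_filter] at hl
  have hlP : l ∈ P := (mem_filter.mp hl.1).1
  unfold Lset
  rw [mem_filter]
  refine ⟨hlP, hl.2.1, fun hc => hl.2.2 ?_⟩
  rw [← hP.inv l hlP, hc, hP.inv u hu]

theorem Facts.card_Good [FiniteDimensional ℝ V] {ι : Type*} [DecidableEq ι] [Fintype ι]
    {E : ι → ι → ℝ} {κ : ι → ℝ} {y : ι → V} {t ν x R : ℝ} (h : Facts E κ y t ν x R)
    {P Us UL : Finset ι} {σ : ι → ι} (hC : Cls E P Us UL σ t ν x) :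
    ((Good y P σ).card : ℝ) ≤ 534 * t ^ 4 := by
  have hP := hC.pairSys h
  have ht0 := l5_t0 h
  have ht := h.t15
  set Q := Good y P σ with hQdef
  have hQP : Q ⊆ P := filter_subset _ _
  have hQσ : ∀ u ∈ Q, σ u ∈ Q := by
    intro u hu
    have hu' := mem_filter.mp hu
    rw [hQdef]
    unfold Good
    rw [mem_filter, hP.neg u hu'.1]
    refine ⟨hP.mem u hu'.1, ?_⟩
    rw [map_neg, inner_neg_neg]
    exact hu'.2
  have h1 := pair_count hP Q hQP hQσ (8 * t) (by positivity) (fun i _ => by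
    have h2 : ((Lset E P σ i ∩ Q).card : ℝ) ≤ 64 * t ^ 3 :=
      h.TFgood hC _ inter_subset_right ((tf_Lset hP i).mono inter_subset_left)
    calc 8 * ((Lset E P σ i ∩ Q).card : ℝ) ≤ 8 * (64 * t ^ 3) := by linarith
      _ = (8 * t) ^ 3 := by ring) (stdOrthonormalBasis ℝ V)
    ((2 : ℝ) • (LinearMap.id : V →ₗ[ℝ] V) - Fop y) (1 / 4) (by norm_num)
    (fun u hu => l5_G hP hu)
  have h3 := l5_D2 h
  rcases Q.eq_empty_or_nonempty with hQ0 | hQne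
  · rw [hQ0, card_empty]
    push_cast
    positivity
  have hcard : (0 : ℝ) < Q.card := by exact_mod_cast hQne.card_pos
  have h4 : (1 / 4 * (Q.card : ℝ)) ^ 2 ≤ t ^ 3 * ((Q.card : ℝ) * (2 + 4 * (8 * t))) :=
    h1.trans (mul_le_mul_of_nonneg_right h3 (by positivity))
  have h5 : (Q.card : ℝ) * (Q.card : ℝ) ≤ (Q.card : ℝ) * (16 * t ^ 3 * (2 + 32 * t)) := by
    nlinarith [h4]
  have h6 : (Q.card : ℝ) ≤ 16 * t ^ 3 * (2 + 32 * t) := le_of_mul_le_mul_left h5 hcard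
  have h7 : 16 * t ^ 3 * (2 + 32 * t) ≤ 534 * t ^ 4 := by
    have : 0 ≤ t ^ 3 * (t - 3 / 2) := mul_nonneg (by positivity) (by linarith)
    nlinarith [this, pow_pos ht0 3]
  exact h6.trans h7

end AEG
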