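import Pool.Agent.AEG.Defs
import Pool.Agent.AEG.Defs2
import Pool.Agent.AEG.L2
import Pool.Agent.AEG.L3
import Pool.Agent.AEG.L4
import Pool.Agent.AEG.L5

set_option autoImplicit false

/-!
[AEG-L6] total count of light bad vertices.  `s > 0`, `s^2 = t^3/3`, `η > 0`, `η^2 = e1`, `ρ = t/ν ≤ 10^(-8)`.
(cover) every `u ∈ Lt` lies in `Part S` for one of the five sets `S = Vlo g0, Vhi g0, Good, Us, UL` (`g0 = 45 s^2/(ν^4η)`): the five sets cover all vertices (`Cls.cover`, `P = Bad ∪ Good`, `Bad = Vlo ∪ Vhi`), so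
`rr (σ u) - rr u ≤ ∑_{0 < E (σ u) l, l ≠ u} E (σ u) l ≤` the sum of the five partial sums (`lt_facts`).
`|Part Vlo| ≤ 7200 s^4/ν^2` (L4).  `|Part Vhi| ≤ 1818 · 80 s ν^2 η · s^3/(ην^4) = 145440 s^4/ν^2` (part_A).
`|Part Good|`: part_B with `k = 64 t^3`, `F = 960 s^2/ν^2` (`8 s^2 ≤ F^2 ν^4/(38400 t^3)`, `t^3 = 3 s^2`: equality): `≤ 600 · 534 t^4 · s^2 · 960 s^2/ν^6`.
`|Part UL|`: part_B with `k = 501 t^3`, `F = 2700 s^2/ν^2` (`2700^2 ≥ 8·600·501·3`): `≤ 600 · 585 t^4 · 2700 s^4/ν^6`  (`{l ∈ UL | 0 < E (σ u) l ∧ l ≠ u} ⊆ {l ∈ UL | 0 < E (σ u) l}`).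
`|Part Us| ≤ 1818 · 3·10^6 (x ν^2 + e ν^3) s^3/(η ν^4)` (part_A), where `x^2 = t^3 e = 3 s^2 η^2`, so `x ≤ 1.74 s η`: `≤ 5.46·10^9 (1.74 s^4/ν^2 + η s^3/ν)`, and `η s^3 ≤ t^5` (`η^2 ≤ (5/3) t`, `s^6 = t^9/27`).
All of these are at most `ν^4/100`: `s^4/ν^2 = t^6/(9ν^2) ≤ 10^(-48) ν^4`, `t^4 s^4/ν^6 ≤ 10^(-80) ν^4`, `t^5/ν ≤ 10^(-40) ν^4`.
-/

namespace AEG

open Finset
open scoped InnerProductSpace

variable {V : Type*} [NormedAddCommGroup V] [InnerProductSpace ℝ V]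

private theorem l6_union {ι : Type*} [DecidableEq ι] (A B : Finset ι) (f : ι → ℝ)
    (hf : ∀ i, 0 ≤ f i) : ∑ l ∈ A ∪ B, f l ≤ ∑ l ∈ A, f l + ∑ l ∈ B, f l := by
  rw [← sum_union_inter]
  have := sum_nonneg (s := A ∩ B) (f := f) (fun i _ => hf i)
  linarith

private theorem l6_cover [FiniteDimensional ℝ V] {ι : Type*} [DecidableEq ι] [Fintype ι]
    {E : ι → ι → ℝ} {κ : ι → ℝ} {y : ι → V} {t ν x R : ℝ} (h : Facts E κ y t ν x R)
    {P Us UL : Finset ι} {σ : ι → ι} (hC : Cls E P Us UL σ t ν x) (g : ℝ) :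
    Lt κ y P σ ⊆ Part E κ y P σ (Vlo κ y P σ g) ∪ (Part E κ y P σ (Vhi κ y P σ g) ∪
      (Part E κ y P σ (Good y P σ) ∪ (Part E κ y P σ Us ∪ Part E κ y P σ UL))) := by
  intro u hu
  by_contra hcon
  simp only [mem_union, not_or, Part, mem_filter, hu, true_and, not_le] at hcon
  obtain ⟨h1, h2, h3, h4, h5⟩ := hcon
  have h6 := (h.lt_facts hC hu).2.2.2.2.2.1
  have hnn : ∀ l, 0 ≤ E (σ u) l := h.fr.wt.nn (σ u)
  have h7 : ∑ l ∈ univ.filter (fun l => 0 < E (σ u) l ∧ l ≠ u), E (σ u) l ≤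
      ∑ l ∈ (Vlo κ y P σ g).filter (fun l => 0 < E (σ u) l ∧ l ≠ u) ∪
        ((Vhi κ y P σ g).filter (fun l => 0 < E (σ u) l ∧ l ≠ u) ∪
          ((Good y P σ).filter (fun l => 0 < E (σ u) l ∧ l ≠ u) ∪
            (Us.filter (fun l => 0 < E (σ u) l ∧ l ≠ u) ∪
              UL.filter (fun l => 0 < E (σ u) l ∧ l ≠ u)))), E (σ u) l := by
    refine sum_le_sum_of_subset_of_nonneg ?_ (fun l _ _ => hnn l)
    intro l hl
    rw [mem_filter] at hl
    simp only [mem_union, mem_filter, hl.2.1, hl.2.2, ne_eq, not_false_eq_true, and_self, and_true]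
    rcases hC.cover l with hlP | hlU | hlL
    · rcases le_or_gt (⟪wv y σ l, Fop y (wv y σ l)⟫_ℝ) (7 / 4) with hb | hb
      · right; right; left
        exact mem_filter.mpr ⟨hlP, hb⟩
      · have hB : l ∈ Bad y P σ := mem_filter.mpr ⟨hlP, hb⟩
        rcases le_or_gt (|⟪gam κ y, wv y σ l⟫_ℝ|) g with hg | hg
        · left
          exact mem_filter.mpr ⟨hB, hg⟩
        · right; left
          exact mem_filter.mpr ⟨hB, hg⟩
    · right; right; right; left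
      exact hlU
    · right; right; right; right
      exact hlL
  have h8 := l6_union ((Vlo κ y P σ g).filter (fun l => 0 < E (σ u) l ∧ l ≠ u))
    ((Vhi κ y P σ g).filter (fun l => 0 < E (σ u) l ∧ l ≠ u) ∪
          ((Good y P σ).filter (fun l => 0 < E (σ u) l ∧ l ≠ u) ∪
            (Us.filter (fun l => 0 < E (σ u) l ∧ l ≠ u) ∪
              UL.filter (fun l => 0 < E (σ u) l ∧ l ≠ u)))) (E (σ u)) hnn
  have h9 := l6_union ((Vhi κ y P σ g).filter (fun l => 0 < E (σ u) l ∧ l ≠ u))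
          ((Good y P σ).filter (fun l => 0 < E (σ u) l ∧ l ≠ u) ∪
            (Us.filter (fun l => 0 < E (σ u) l ∧ l ≠ u) ∪
              UL.filter (fun l => 0 < E (σ u) l ∧ l ≠ u))) (E (σ u)) hnn
  have h10 := l6_union ((Good y P σ).filter (fun l => 0 < E (σ u) l ∧ l ≠ u))
            (Us.filter (fun l => 0 < E (σ u) l ∧ l ≠ u) ∪
              UL.filter (fun l => 0 < E (σ u) l ∧ l ≠ u)) (E (σ u)) hnn
  have h11 := l6_union (Us.filter (fun l => 0 < E (σ u) l ∧ l ≠ u))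
              (UL.filter (fun l => 0 < E (σ u) l ∧ l ≠ u)) (E (σ u)) hnn
  linarith

private theorem l6_card {ι : Type*} [DecidableEq ι] {L A B C D G : Finset ι}
    (h : L ⊆ A ∪ (B ∪ (C ∪ (D ∪ G)))) :
    (L.card : ℝ) ≤ A.card + B.card + C.card + D.card + G.card := by
  have h0 := card_le_card h
  have h1 := card_union_le A (B ∪ (C ∪ (D ∪ G)))
  have h2 := card_union_le B (C ∪ (D ∪ G))
  have h3 := card_union_le C (D ∪ G)
  have h4 := card_union_le D G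
  have h5 : L.card ≤ A.card + B.card + C.card + D.card + G.card := by omega
  exact_mod_cast h5

theorem Facts.card_Lt [FiniteDimensional ℝ V] {ι : Type*} [DecidableEq ι] [Fintype ι]
    {E : ι → ι → ℝ} {κ : ι → ℝ} {y : ι → V} {t ν x R : ℝ} (h : Facts E κ y t ν x R)
    {P Us UL : Finset ι} {σ : ι → ι} (hC : Cls E P Us UL σ t ν x) :
    ((Lt κ y P σ).card : ℝ) ≤ ν ^ 4 / 20 := by
  have ht := h.t15
  have ht0 : 0 < t := by linarith
  have hνt := h.νt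
  have hν0 : 0 < ν := lt_of_lt_of_le (by positivity) hνt
  have he99 := h.e99
  have he0 : 0 < e1 E := by linarith
  obtain ⟨s, hs, hs2⟩ : ∃ s : ℝ, 0 < s ∧ s ^ 2 = t ^ 3 / 3 :=
    ⟨Real.sqrt (t ^ 3 / 3), Real.sqrt_pos.mpr (by positivity), Real.sq_sqrt (by positivity)⟩
  obtain ⟨η, hη, hη2⟩ : ∃ η : ℝ, 0 < η ∧ η ^ 2 = e1 E :=
    ⟨Real.sqrt (e1 E), Real.sqrt_pos.mpr he0, Real.sq_sqrt he0.le⟩
  -- powers
  have htν : t ≤ ν / 10 ^ 8 := by
    rw [le_div_iff₀ (by norm_num)]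
    linarith
  have hs4 : s ^ 4 = t ^ 6 / 9 := by
    calc s ^ 4 = (s ^ 2) ^ 2 := by ring
      _ = t ^ 6 / 9 := by rw [hs2]; ring
  have A1 : s ^ 4 / ν ^ 2 ≤ ν ^ 4 / 10 ^ 40 := by
    rw [div_le_iff₀ (by positivity), hs4]
    have h1 : t ^ 6 ≤ (ν / 10 ^ 8) ^ 6 := pow_le_pow_left₀ ht0.le htν 6
    have h2 : (ν / 10 ^ 8) ^ 6 = ν ^ 6 / 10 ^ 48 := by ring
    have h3 : ν ^ 4 / 10 ^ 40 * ν ^ 2 = ν ^ 6 / 10 ^ 40 := by ring
    have h4 : ν ^ 6 / 10 ^ 48 ≤ ν ^ 6 / 10 ^ 40 :=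
      div_le_div_of_nonneg_left (by positivity) (by positivity) (by norm_num)
    have h5 : t ^ 6 / 9 ≤ t ^ 6 := by
      have : 0 < t ^ 6 := by positivity
      linarith
    rw [h3]
    linarith
  have A2 : t ^ 4 * s ^ 4 / ν ^ 6 ≤ ν ^ 4 / 10 ^ 40 := by
    rw [div_le_iff₀ (by positivity), hs4]
    have h1 : t ^ 10 ≤ (ν / 10 ^ 8) ^ 10 := pow_le_pow_left₀ ht0.le htν 10
    have h2 : (ν / 10 ^ 8) ^ 10 = ν ^ 10 / 10 ^ 80 := by ring
    have h3 : ν ^ 4 / 10 ^ 40 * ν ^ 6 = ν ^ 10 / 10 ^ 40 := by ring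
    have h4 : ν ^ 10 / 10 ^ 80 ≤ ν ^ 10 / 10 ^ 40 :=
      div_le_div_of_nonneg_left (by positivity) (by positivity) (by norm_num)
    have h5 : t ^ 4 * (t ^ 6 / 9) ≤ t ^ 10 := by
      have h6 : t ^ 4 * (t ^ 6 / 9) = t ^ 10 / 9 := by ring
      have : 0 < t ^ 10 := by positivity
      rw [h6]
      linarith
    rw [h3]
    linarith
  have A3 : t ^ 5 / ν ≤ ν ^ 4 / 10 ^ 40 := by
    rw [div_le_iff₀ hν0]
    have h1 : t ^ 5 ≤ (ν / 10 ^ 8) ^ 5 := pow_le_pow_left₀ ht0.le htν 5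
    have h2 : (ν / 10 ^ 8) ^ 5 = ν ^ 4 / 10 ^ 40 * ν := by ring
    linarith
  have hx : x ≤ 174 / 100 * s * η := by
    apply le_of_sq_le_sq _ (by positivity)
    have h1 : x ^ 2 = 3 * s ^ 2 * η ^ 2 := by rw [h.x2, hs2, hη2]; ring
    have h2 : (174 / 100 * s * η) ^ 2 = (174 / 100) ^ 2 * (s ^ 2 * η ^ 2) := by ring
    rw [h1, h2]
    have h3 : 0 < s ^ 2 * η ^ 2 := by positivity
    nlinarith
  have hηs : η * s ^ 3 ≤ t ^ 5 := by
    apply le_of_sq_le_sq _ (by positivity)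
    have h1 : (η * s ^ 3) ^ 2 = η ^ 2 * (s ^ 2) ^ 3 := by ring
    rw [h1, hη2, hs2]
    have h2 : e1 E * (t ^ 3 / 3) ^ 3 ≤ 5 / 3 * t * (t ^ 3 / 3) ^ 3 :=
      mul_le_mul_of_nonneg_right h.et (by positivity)
    have h3 : 5 / 3 * t * (t ^ 3 / 3) ^ 3 = 5 / 81 * t ^ 10 := by ring
    have h4 : (t ^ 5) ^ 2 = t ^ 10 := by ring
    have h5 : 0 < t ^ 10 := by positivity
    rw [h4]
    linarith
  -- the five parts
  set g0 := 45 * s ^ 2 / (ν ^ 4 * η) with hg0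
  have hPlo := h.card_lo hC s η hs hs2 hη hη2
  rw [← hg0] at hPlo
  have hVhi := h.card_Vhi hC s η hs hs2 hη hη2
  rw [← hg0] at hVhi
  have hPhi : ((Part E κ y P σ (Vhi κ y P σ g0)).card : ℝ) ≤ 145440 * (s ^ 4 / ν ^ 2) := by
    refine (h.part_A hC s η hs hs2 hη hη2 _).trans ?_
    rw [div_le_iff₀ (by positivity)]
    calc 1818 * ((Vhi κ y P σ g0).card : ℝ) * s ^ 3 ≤ 1818 * (80 * s * ν ^ 2 * η) * s ^ 3 :=
          mul_le_mul_of_nonneg_right (mul_le_mul_of_nonneg_left hVhi (by norm_num))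
            (by positivity)
      _ = 145440 * (s ^ 4 / ν ^ 2) * (η * ν ^ 4) := by
          field_simp
          ring
  have hLP : ∀ u ∈ Lt κ y P σ, u ∈ P := by
    intro u hu
    exact (mem_filter.mp (mem_filter.mp hu).1).1
  have hPG : ((Part E κ y P σ (Good y P σ)).card : ℝ) ≤ 307584000 * (t ^ 4 * s ^ 4 / ν ^ 6) := by
    have h1 := h.part_B hC s hs hs2 (Good y P σ) (64 * t ^ 3) (960 * s ^ 2 / ν ^ 2)
      (by positivity) (fun u hu => h.nbGood hC (hLP u hu)) (by positivity) (by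
        have h2 : (960 * s ^ 2 / ν ^ 2) ^ 2 * (ν ^ 4 / (600 * (64 * t ^ 3))) =
            24 * s ^ 4 / t ^ 3 := by
          field_simp
          ring
        rw [h2, le_div_iff₀ (by positivity)]
        have h3 : s ^ 4 = s ^ 2 * (t ^ 3 / 3) := by rw [← hs2]; ring
        rw [h3]
        nlinarith)
    refine h1.trans ?_
    have h2 := h.card_Good hC
    rw [div_le_iff₀ (by positivity)]
    calc 600 * ((Good y P σ).card : ℝ) * s ^ 2 * (960 * s ^ 2 / ν ^ 2) ≤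
          600 * (534 * t ^ 4) * s ^ 2 * (960 * s ^ 2 / ν ^ 2) :=
          mul_le_mul_of_nonneg_right (mul_le_mul_of_nonneg_right
            (mul_le_mul_of_nonneg_left h2 (by norm_num)) (by positivity)) (by positivity)
      _ = 307584000 * (t ^ 4 * s ^ 4 / ν ^ 6) * ν ^ 4 := by
          field_simp
          ring
  have hPL : ((Part E κ y P σ UL).card : ℝ) ≤ 947700000 * (t ^ 4 * s ^ 4 / ν ^ 6) := by
    have h1 := h.part_B hC s hs hs2 UL (501 * t ^ 3) (2700 * s ^ 2 / ν ^ 2)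
      (by positivity) (fun u _ => by
        refine le_trans ?_ (hC.ulN (σ u))
        have : (UL.filter (fun l => 0 < E (σ u) l ∧ l ≠ u)).card ≤
            (UL.filter (fun l => 0 < E (σ u) l)).card := by
          apply card_le_card
          intro l hl
          rw [mem_filter] at hl ⊢
          exact ⟨hl.1, hl.2.1⟩
        exact_mod_cast this) (by positivity) (by
        have h2 : (2700 * s ^ 2 / ν ^ 2) ^ 2 * (ν ^ 4 / (600 * (501 * t ^ 3))) =
            (7290000 / 300600) * s ^ 4 / t ^ 3 := by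
          field_simp
          ring
        rw [h2, le_div_iff₀ (by positivity)]
        have h3 : s ^ 4 = s ^ 2 * (t ^ 3 / 3) := by rw [← hs2]; ring
        rw [h3]
        have h4 : 0 < s ^ 2 * t ^ 3 := by positivity
        nlinarith)
    refine h1.trans ?_
    have h2 := hC.ul
    rw [div_le_iff₀ (by positivity)]
    calc 600 * (UL.card : ℝ) * s ^ 2 * (2700 * s ^ 2 / ν ^ 2) ≤
          600 * (585 * t ^ 4) * s ^ 2 * (2700 * s ^ 2 / ν ^ 2) :=
          mul_le_mul_of_nonneg_right (mul_le_mul_of_nonneg_right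
            (mul_le_mul_of_nonneg_left h2 (by norm_num)) (by positivity)) (by positivity)
      _ = 947700000 * (t ^ 4 * s ^ 4 / ν ^ 6) * ν ^ 4 := by
          field_simp
          ring
  have hPU : ((Part E κ y P σ Us).card : ℝ) ≤
      1818 * (3 * 10 ^ 6) * (174 / 100 * (s ^ 4 / ν ^ 2) + t ^ 5 / ν) := by
    refine (h.part_A hC s η hs hs2 hη hη2 _).trans ?_
    rw [div_le_iff₀ (by positivity)]
    have h1 : x * ν ^ 2 + e1 E * ν ^ 3 ≤ η * (174 / 100 * s * ν ^ 2 + η * ν ^ 3) := by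
      have h2 : x * ν ^ 2 ≤ 174 / 100 * s * η * ν ^ 2 :=
        mul_le_mul_of_nonneg_right hx (by positivity)
      rw [← hη2]
      nlinarith
    have h3 : (Us.card : ℝ) ≤ 3 * 10 ^ 6 * (η * (174 / 100 * s * ν ^ 2 + η * ν ^ 3)) :=
      hC.us.trans (mul_le_mul_of_nonneg_left h1 (by positivity))
    calc 1818 * (Us.card : ℝ) * s ^ 3 ≤
          1818 * (3 * 10 ^ 6 * (η * (174 / 100 * s * ν ^ 2 + η * ν ^ 3))) * s ^ 3 :=
          mul_le_mul_of_nonneg_right (mul_le_mul_of_nonneg_left h3 (by norm_num))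
            (by positivity)
      _ = 1818 * (3 * 10 ^ 6) * (174 / 100 * (s ^ 4 / ν ^ 2) + (η * s ^ 3) / ν) *
            (η * ν ^ 4) := by
          field_simp
      _ ≤ 1818 * (3 * 10 ^ 6) * (174 / 100 * (s ^ 4 / ν ^ 2) + t ^ 5 / ν) * (η * ν ^ 4) := by
          refine mul_le_mul_of_nonneg_right (mul_le_mul_of_nonneg_left ?_ (by norm_num))
            (by positivity)
          have := div_le_div_of_nonneg_right hηs hν0.le
          linarith
  have hsum := l6_card (l6_cover h hC g0)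
  have hlo' : 7200 * s ^ 4 / ν ^ 2 = 7200 * (s ^ 4 / ν ^ 2) := by ring
  rw [hlo'] at hPlo
  have hν4 : 0 < ν ^ 4 := by positivity
  set a := s ^ 4 / ν ^ 2
  set b := t ^ 4 * s ^ 4 / ν ^ 6
  set c := t ^ 5 / ν
  set z := ν ^ 4
  have A1' : a ≤ 1 / 10 ^ 40 * z := by linarith
  have A2' : b ≤ 1 / 10 ^ 40 * z := by linarith
  have A3' : c ≤ 1 / 10 ^ 40 * z := by linarith
  norm_num at A1' A2' A3' hPU ⊢
  linarith

end AEG
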