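import Pool.Agent.AEG.Defs
import Pool.Agent.AEG.Defs2
import Pool.Agent.AEG.L5
import Pool.Agent.AEG.L6
import Pool.Agent.AEG.K7
import Pool.Agent.AEG.K11

set_option autoImplicit false

/-!
[AEG-L7] the sharp general bound.  Suppose `10^32 t^4 < n`.  Put `ν = n^(1/4)` (`Real.sqrt (Real.sqrt n)`), so `ν^4 = n` and `10^8 t ≤ ν`.  `exists_facts`, `exists_cls`.
`univ = P ∪ Us ∪ UL`, `P = Good ∪ Bad`, `|Bad| ≤ 2 |Lt|` (`σ` maps non-light bad vertices injectively into `Lt`: `wv y σ (σ u) = - wv y σ u` for `u ∈ P`).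
`ν^4 = n ≤ |Good| + 2|Lt| + |Us| + |UL| ≤ 534 t^4 + ν^4/10 + 3·10^6 (xν^2 + e ν^3) + 585 t^4 < ν^4`
(`x ≤ (4/3) t^2`, `e ≤ (5/3) t`, `t ≤ ν/10^8`: the third term is `≤ 3·10^6 (2·10^(-16) + 2·10^(-8)) ν^4 ≤ ν^4/10`; `ν > 0`), contradiction.
-/

namespace AEG

open Finset
open scoped InnerProductSpace

variable {V : Type*} [NormedAddCommGroup V] [InnerProductSpace ℝ V]

theorem sharp_bound [FiniteDimensional ℝ V] {ι : Type*} [DecidableEq ι] [Fintype ι]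
    {E : ι → ι → ℝ} {κ : ι → ℝ} {y : ι → V} (h : Frame E κ y) (t : ℝ) (hδ : 1 ≤ dl ι V)
    (ht : 0 ≤ t) (ht3 : t ^ 3 = 7 / 2 * dl ι V) : nv ι ≤ 10 ^ 32 * t ^ 4 := by
  classical
  by_contra hcon
  push Not at hcon
  have hn0 : 0 ≤ nv ι := Nat.cast_nonneg _
  obtain ⟨ν, hν0, hν⟩ : ∃ ν : ℝ, 0 ≤ ν ∧ nv ι = ν ^ 4 := by
    refine ⟨Real.sqrt (Real.sqrt (nv ι)), Real.sqrt_nonneg _, ?_⟩
    have e : Real.sqrt (Real.sqrt (nv ι)) ^ 4 = (Real.sqrt (Real.sqrt (nv ι)) ^ 2) ^ 2 := by ring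
    rw [e, Real.sq_sqrt (Real.sqrt_nonneg _), Real.sq_sqrt hn0]
  have hνt : 10 ^ 8 * t ≤ ν := by
    refine le_of_pow_le_pow_left₀ (n := 4) (by norm_num) hν0 ?_
    have e : (10 ^ 8 * t) ^ 4 = 10 ^ 32 * t ^ 4 := by ring
    rw [e, ← hν]
    exact hcon.le
  obtain ⟨x, R, hF⟩ := exists_facts h t ν hδ ht ht3 hν hνt
  obtain ⟨P, Us, UL, σ, hC⟩ := hF.exists_cls
  have hPS := Cls.pairSys hF hC
  have ht15 := hF.t15
  have hνp : 0 < ν := by linarith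
  -- the bad vertices
  have hbad : ∀ u, u ∈ Bad y P σ ↔ u ∈ P ∧ 7 / 4 < ⟪wv y σ u, Fop y (wv y σ u)⟫_ℝ := by
    intro u
    unfold Bad
    rw [Finset.mem_filter]
  have hLt : ∀ u, u ∈ Lt κ y P σ ↔ u ∈ Bad y P σ ∧ 0 ≤ ⟪gam κ y, wv y σ u⟫_ℝ := by
    intro u
    unfold Lt
    rw [Finset.mem_filter]
  have hB2 : (Bad y P σ).card ≤ 2 * (Lt κ y P σ).card := by
    have h1 : (Bad y P σ \ Lt κ y P σ).card ≤ (Lt κ y P σ).card := by
      apply Finset.card_le_card_of_injOn σ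
      · intro u hu
        rw [Finset.mem_coe, Finset.mem_sdiff, hLt, not_and, not_le] at hu
        obtain ⟨hu1, hu2⟩ := hu
        have hu3 := hu2 hu1
        rw [hbad] at hu1
        rw [Finset.mem_coe, hLt, hbad]
        have hn := hPS.neg u hu1.1
        refine ⟨⟨hPS.mem u hu1.1, ?_⟩, ?_⟩
        · rw [hn, map_neg, inner_neg_neg]
          exact hu1.2
        · rw [hn, inner_neg_right]
          linarith
      · intro u hu v hv huv
        rw [Finset.mem_coe, Finset.mem_sdiff, hbad] at hu hv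
        have := congrArg σ huv
        rwa [hPS.inv u hu.1.1, hPS.inv v hv.1.1] at this
    have h2 : Bad y P σ ⊆ (Bad y P σ \ Lt κ y P σ) ∪ Lt κ y P σ := by
      intro u hu
      rw [Finset.mem_union, Finset.mem_sdiff]
      by_cases hl : u ∈ Lt κ y P σ
      · exact Or.inr hl
      · exact Or.inl ⟨hu, hl⟩
    have h3 := (Finset.card_le_card h2).trans (Finset.card_union_le _ _)
    omega
  have hcov : (univ : Finset ι) ⊆ ((Good y P σ ∪ Bad y P σ) ∪ Us) ∪ UL := by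
    intro l _
    rw [Finset.mem_union, Finset.mem_union, Finset.mem_union]
    rcases hC.cover l with hl | hl | hl
    · left
      left
      rcases le_or_gt (⟪wv y σ l, Fop y (wv y σ l)⟫_ℝ) (7 / 4) with h1 | h1
      · left
        unfold Good
        rw [Finset.mem_filter]
        exact ⟨hl, h1⟩
      · right
        rw [hbad]
        exact ⟨hl, h1⟩
    · left
      right
      exact hl
    · right
      exact hl
  have hcard : Fintype.card ι ≤ (Good y P σ).card + 2 * (Lt κ y P σ).card + Us.card + UL.card := by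
    have h1 := Finset.card_le_card hcov
    have h2 := Finset.card_union_le ((Good y P σ ∪ Bad y P σ) ∪ Us) UL
    have h3 := Finset.card_union_le (Good y P σ ∪ Bad y P σ) Us
    have h4 := Finset.card_union_le (Good y P σ) (Bad y P σ)
    rw [Finset.card_univ] at h1
    omega
  have hcardR : nv ι ≤ ((Good y P σ).card : ℝ) + 2 * ((Lt κ y P σ).card : ℝ) + (Us.card : ℝ) +
      (UL.card : ℝ) := by
    unfold nv
    exact_mod_cast hcard
  have hG := Facts.card_Good hF hC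
  have hL := Facts.card_Lt hF hC
  have hU := hC.us
  have hUL := hC.ul
  -- numerics
  have htν : t ≤ ν / 10 ^ 8 := by
    rw [le_div_iff₀ (by positivity)]
    linarith
  have hν3 : 0 ≤ ν ^ 3 := by positivity
  have hν2 : 0 ≤ ν ^ 2 := by positivity
  have hν4 : 0 < ν ^ 4 := by positivity
  have ht2 : t ^ 2 ≤ ν ^ 2 / 10 ^ 16 := by
    have := pow_le_pow_left₀ ht htν 2
    rw [div_pow] at this
    calc t ^ 2 ≤ _ := this
      _ = _ := by ring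
  have ht4 : t ^ 4 ≤ ν ^ 4 / 10 ^ 32 := by
    have := pow_le_pow_left₀ ht htν 4
    rw [div_pow] at this
    calc t ^ 4 ≤ _ := this
      _ = _ := by ring
  have hx1 : x * ν ^ 2 ≤ 4 / 3 * (ν ^ 2 / 10 ^ 16) * ν ^ 2 :=
    mul_le_mul_of_nonneg_right (by linarith [hF.xt]) hν2
  have he1 : e1 E * ν ^ 3 ≤ 5 / 3 * (ν / 10 ^ 8) * ν ^ 3 :=
    mul_le_mul_of_nonneg_right (by linarith [hF.et]) hν3
  have e2 : 4 / 3 * (ν ^ 2 / 10 ^ 16) * ν ^ 2 = 4 / 3 / 10 ^ 16 * ν ^ 4 := by ring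
  have e3 : 5 / 3 * (ν / 10 ^ 8) * ν ^ 3 = 5 / 3 / 10 ^ 8 * ν ^ 4 := by ring
  rw [e2] at hx1
  rw [e3] at he1
  rw [hν] at hcardR
  have h5 : 3 * 10 ^ 6 * (x * ν ^ 2 + e1 E * ν ^ 3) ≤
      3 * 10 ^ 6 * (4 / 3 / 10 ^ 16 * ν ^ 4 + 5 / 3 / 10 ^ 8 * ν ^ 4) :=
    mul_le_mul_of_nonneg_left (by linarith) (by norm_num)
  have h6 : 3 * 10 ^ 6 * (4 / 3 / 10 ^ 16 * ν ^ 4 + 5 / 3 / 10 ^ 8 * ν ^ 4) ≤ 6 / 100 * ν ^ 4 := by
    have e4 : 3 * 10 ^ 6 * (4 / 3 / 10 ^ 16 * ν ^ 4 + 5 / 3 / 10 ^ 8 * ν ^ 4) =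
        (3 * 10 ^ 6 * (4 / 3 / 10 ^ 16 + 5 / 3 / 10 ^ 8)) * ν ^ 4 := by ring
    rw [e4]
    exact mul_le_mul_of_nonneg_right (by norm_num) hν4.le
  have h7 : 534 * t ^ 4 + 585 * t ^ 4 ≤ 1 / 100 * ν ^ 4 := by
    have h8 : 1119 * t ^ 4 ≤ 1119 * (ν ^ 4 / 10 ^ 32) := mul_le_mul_of_nonneg_left ht4 (by norm_num)
    have h9 : 1119 * (ν ^ 4 / 10 ^ 32) ≤ 1 / 100 * ν ^ 4 := by
      have e5 : 1119 * (ν ^ 4 / 10 ^ 32) = 1119 / 10 ^ 32 * ν ^ 4 := by ring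
      rw [e5]
      exact mul_le_mul_of_nonneg_right (by norm_num) hν4.le
    linarith
  linarith

end AEG
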