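import Pool.Agent.AEG.Defs

set_option autoImplicit false

/-!
[AEG-M1] an almost-equidistant diameter set gives a frame.
`f : Fin V.card ≃ V` (`V.equivFin.symm`), `v i = f i` (injective), `E i j = if i = j then 0 else 1 - ‖v i - v j‖^2`; `Wt E`: distances are `≤ diam = 1`
(`Metric.dist_le_diam_of_mem`, finite sets are bounded), positive for `i ≠ j`; `tf`: if two of `i, j, k` are equal the corresponding entry is `0`
(diagonal), otherwise almost-equidistance.  `p = (1/n) • ∑ v`, `y i = √2 • (v i - p)`, `κ i = (1 - ‖y i‖^2)/2`; `∑ y = 0`;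
`⟪y i, y j⟫ = (‖y i‖^2 + ‖y j‖^2 - ‖y i - y j‖^2)/2` and `‖y i - y j‖^2 = 2 ‖v i - v j‖^2 = 2 - 2 kd i j - 2 E i j`.
(For `V = ∅` everything is trivial.)
-/

namespace AEG

open Finset
open scoped InnerProductSpace

/-- the weights of an almost-equidistant diameter set -/
private theorem m1_wt {d : ℕ} (V : Finset (EuclideanSpace ℝ (Fin d)))
    (hae : ∀ x ∈ V, ∀ y ∈ V, ∀ z ∈ V, x ≠ y → x ≠ z → y ≠ z →
      dist x y = 1 ∨ dist x z = 1 ∨ dist y z = 1)
    (hdiam : Metric.diam (V : Set (EuclideanSpace ℝ (Fin d))) = 1)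
    {n : ℕ} (v : Fin n → EuclideanSpace ℝ (Fin d)) (hv : ∀ i, v i ∈ V)
    (hinj : Function.Injective v) :
    Wt (fun i j => if i = j then (0 : ℝ) else 1 - ‖v i - v j‖ ^ 2) := by
  have hle : ∀ i j, ‖v i - v j‖ ≤ 1 := by
    intro i j
    rw [← dist_eq_norm, ← hdiam]
    exact Metric.dist_le_diam_of_mem (Finset.finite_toSet V).isBounded
      (Finset.mem_coe.2 (hv i)) (Finset.mem_coe.2 (hv j))
  have hpos : ∀ i j, i ≠ j → 0 < ‖v i - v j‖ := by
    intro i j hij
    rw [norm_pos_iff, sub_ne_zero]
    exact fun h => hij (hinj h)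
  refine ⟨?_, ?_, ?_, ?_, ?_⟩
  · intro i j
    by_cases h : i = j
    · subst h; rfl
    · simp only [if_neg h, if_neg (Ne.symm h)]
      rw [norm_sub_rev]
  · intro i
    simp
  · intro i j
    split_ifs with h
    · exact le_refl _
    · have := hle i j
      nlinarith [norm_nonneg (v i - v j)]
  · intro i j
    split_ifs with h
    · exact zero_lt_one
    · have := hpos i j h
      nlinarith
  · intro i j k
    by_cases hij : i = j
    · left; simp [hij]
    by_cases hjk : j = k
    · right; left; simp [hjk]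
    by_cases hik : i = k
    · right; right; simp [hik]
    rw [if_neg hij, if_neg hjk, if_neg hik]
    have h := hae (v i) (hv i) (v j) (hv j) (v k) (hv k) (fun h => hij (hinj h))
      (fun h => hik (hinj h)) (fun h => hjk (hinj h))
    rw [dist_eq_norm, dist_eq_norm, dist_eq_norm] at h
    rcases h with h | h | h
    · left; rw [h]; norm_num
    · right; right; rw [h]; norm_num
    · right; left; rw [h]; norm_num

theorem frame_of_set {d : ℕ} (V : Finset (EuclideanSpace ℝ (Fin d)))
    (hae : ∀ x ∈ V, ∀ y ∈ V, ∀ z ∈ V, x ≠ y → x ≠ z → y ≠ z →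
      dist x y = 1 ∨ dist x z = 1 ∨ dist y z = 1)
    (hdiam : Metric.diam (V : Set (EuclideanSpace ℝ (Fin d))) = 1) :
    ∃ (E : Fin V.card → Fin V.card → ℝ) (κ : Fin V.card → ℝ)
      (y : Fin V.card → EuclideanSpace ℝ (Fin d)), Frame E κ y := by
  classical
  set v : Fin V.card → EuclideanSpace ℝ (Fin d) := fun i => (V.equivFin.symm i : EuclideanSpace ℝ (Fin d))
    with hv
  have hmem : ∀ i, v i ∈ V := fun i => (V.equivFin.symm i).2
  have hinj : Function.Injective v := fun i j h =>
    V.equivFin.symm.injective (Subtype.ext h)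
  set E : Fin V.card → Fin V.card → ℝ := fun i j => if i = j then (0 : ℝ) else 1 - ‖v i - v j‖ ^ 2
    with hE
  set q : EuclideanSpace ℝ (Fin d) := ((V.card : ℝ))⁻¹ • ∑ i, v i with hq
  set y : Fin V.card → EuclideanSpace ℝ (Fin d) := fun i => √2 • (v i - q) with hy
  refine ⟨E, fun i => (1 - ‖y i‖ ^ 2) / 2, y, m1_wt V hae hdiam v hmem hinj, ?_, ?_⟩
  · simp only [hy]
    rw [← Finset.smul_sum, Finset.sum_sub_distrib, Finset.sum_const, Finset.card_univ, Fintype.card_fin,
      hq]
    by_cases h0 : V.card = 0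
    · have : ∀ i : Fin V.card, False := fun i => by
        have := i.2
        omega
      have h1 : ∑ i, v i = 0 := Finset.sum_eq_zero fun i _ => (this i).elim
      rw [h1]
      simp
    · have h1 : (V.card : ℝ) ≠ 0 := by exact_mod_cast h0
      rw [← Nat.cast_smul_eq_nsmul ℝ, smul_smul, mul_inv_cancel₀ h1, one_smul, sub_self, smul_zero]
  · intro l m
    have h1 : ‖y l - y m‖ ^ 2 = 2 * ‖v l - v m‖ ^ 2 := by
      simp only [hy]
      rw [← smul_sub, sub_sub_sub_cancel_right, norm_smul, mul_pow, Real.norm_eq_abs, sq_abs,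
        Real.sq_sqrt (by norm_num)]
    have h2 : ‖v l - v m‖ ^ 2 = 1 - kd l m - E l m := by
      unfold kd
      simp only [hE]
      by_cases h : l = m
      · subst h
        simp
      · rw [if_neg h, if_neg h]
        ring
    have h3 := norm_sub_sq_real (y l) (y m)
    linarith

end AEG
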