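import Mathlib

set_option autoImplicit false

/-!
[AEG-R2] final arithmetic for the sharp bound.  `δ = 2d+2-n ≥ 1`.  If `n ≤ d + 1` the claim holds for every `c ≤ 1`.  Otherwise `t := (7/2 δ)^(1/3)`:
`n ≤ 10^32 (7/2 δ)^(4/3)`, so `δ ≥ (2/7) (n/10^32)^(3/4) = (2/7) 10^(-24) n^(3/4) ≥ 10^(-25) d^(3/4)`.
-/

namespace AEG

theorem arith_sharp : ∃ c : ℝ, 0 < c ∧ c ≤ 1 ∧ ∀ d n : ℕ, 1 ≤ d → n ≤ 2 * d + 1 →
    (∀ t : ℝ, 0 ≤ t → t ^ 3 = 7 / 2 * (2 * (d : ℝ) + 2 - n) → (n : ℝ) ≤ 10 ^ 32 * t ^ 4) →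
    (n : ℝ) ≤ 2 * d + 2 - c * (d : ℝ) ^ (3 / 4 : ℝ) := by
  refine ⟨1 / 10 ^ 25, by positivity, by norm_num, ?_⟩
  intro d n hd hn h
  have hd1 : (1 : ℝ) ≤ d := by exact_mod_cast hd
  have hn1 : (n : ℝ) ≤ 2 * d + 1 := by exact_mod_cast hn
  have hp : (0 : ℝ) ≤ (d : ℝ) ^ (3 / 4 : ℝ) := by positivity
  by_cases hc : (n : ℝ) ≤ d + 1
  · have h1 : (d : ℝ) ^ (3 / 4 : ℝ) ≤ d := by
      have := Real.rpow_le_rpow_of_exponent_le hd1 (by norm_num : (3 / 4 : ℝ) ≤ 1)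
      rwa [Real.rpow_one] at this
    have h2 : 1 / 10 ^ 25 * (d : ℝ) ^ (3 / 4 : ℝ) ≤ (d : ℝ) ^ (3 / 4 : ℝ) := by
      apply mul_le_of_le_one_left hp
      norm_num
    linarith
  · push Not at hc
    set x : ℝ := 7 / 2 * (2 * (d : ℝ) + 2 - n) with hx
    have hx0 : 0 ≤ x := by
      have : (1 : ℝ) ≤ 2 * (d : ℝ) + 2 - n := by linarith
      positivity
    set t : ℝ := x ^ (1 / 3 : ℝ) with ht
    have ht0 : 0 ≤ t := Real.rpow_nonneg hx0 _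
    have ht3 : t ^ 3 = x := by
      rw [ht, ← Real.rpow_natCast, ← Real.rpow_mul hx0]
      norm_num
    have h1 := h t ht0 ht3
    have h2 : (d : ℝ) ≤ 10 ^ 32 * t ^ 4 := by linarith
    have h3 : (d : ℝ) ^ (3 / 4 : ℝ) ≤ (10 ^ 32 * t ^ 4) ^ (3 / 4 : ℝ) :=
      Real.rpow_le_rpow (by linarith) h2 (by norm_num)
    have h4 : (10 ^ 32 * t ^ 4 : ℝ) ^ (3 / 4 : ℝ) = 10 ^ 24 * t ^ 3 := by
      have e : (10 ^ 32 * t ^ 4 : ℝ) = (10 ^ 8 * t) ^ (4 : ℝ) := by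
        rw [show (4 : ℝ) = ((4 : ℕ) : ℝ) by norm_num, Real.rpow_natCast]
        ring
      rw [e, ← Real.rpow_mul (by positivity)]
      rw [show (4 * (3 / 4) : ℝ) = ((3 : ℕ) : ℝ) by norm_num, Real.rpow_natCast]
      ring
    rw [h4, ht3, hx] at h3
    have h5 : (0 : ℝ) ≤ 2 * (d : ℝ) + 2 - n := by linarith
    have h6 : 1 / 10 ^ 25 * (d : ℝ) ^ (3 / 4 : ℝ) ≤
        1 / 10 ^ 25 * (10 ^ 24 * (7 / 2 * (2 * (d : ℝ) + 2 - n))) :=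
      mul_le_mul_of_nonneg_left h3 (by positivity)
    have h7 : 1 / 10 ^ 25 * (10 ^ 24 * (7 / 2 * (2 * (d : ℝ) + 2 - n))) =
        7 / 20 * (2 * (d : ℝ) + 2 - n) := by ring
    rw [h7] at h6
    linarith

end AEG
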